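import Mathlib
import Pool.Agent.Work.MP_637dc3_nt.Lam

/-!
# Sp/LamCrit (S-M): criteria for the exponent `λ_n`

(1) For every `N` a solution with `x ≥ N`: infinitely many `(x, y)` in `solutions n ξ t` (`0 < max` because `x ξ` is irrational), so `t ≤ lam n ξ` (`le_sSup`). (2) If `lam n ξ > w` there is `t > w` with `solutions n ξ t` infinite
(`lt_sSup_iff`); for each `x` there are only finitely many `y` (`Lam.finite_fibre`), so `x` is unbounded in `solutions n ξ t`: contradiction with the hypothesis.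
-/

set_option autoImplicit false

open Matrix Polynomial MeasureTheory
open Pool.Agent.Work.MP_637dc3_nt.Lam (lam solutions)

namespace Sp637

theorem le_lam_of (n : ℕ) (hn : 1 ≤ n) (ξ : ℝ) (hξ : Irrational ξ) (t : ℝ)
    (h : ∀ N : ℕ, ∃ x : ℕ, N ≤ x ∧ 1 ≤ x ∧ ∀ j : Fin n, ∃ y : ℤ,
      |(x : ℝ) * ξ ^ ((j : ℕ) + 1) - (y : ℝ)| ≤ (x : ℝ) ^ (-t)) : (t : EReal) ≤ lam n ξ := by
  refine Pool.Agent.Work.MP_637dc3_nt.Lam.le_lam n hn ξ t hξ ?_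
  apply Set.infinite_of_forall_exists_gt
  intro N
  obtain ⟨x, hx1, hx2, hx3⟩ := h (N + 1)
  refine ⟨x, ⟨hx2, fun j hj => ?_⟩, by omega⟩
  rw [Finset.mem_Icc] at hj
  obtain ⟨y, hy⟩ := hx3 ⟨j - 1, by omega⟩
  have h2 : (j - 1) + 1 = j := by omega
  simp only [h2] at hy
  exact (round_le _ _).trans hy

theorem lam_le_of (n : ℕ) (ξ w : ℝ)
    (h : ∀ t : ℝ, w < t → ∃ N : ℕ, ∀ x : ℕ, N ≤ x → ¬ ∀ j : Fin n, ∃ y : ℤ,
      |(x : ℝ) * ξ ^ ((j : ℕ) + 1) - (y : ℝ)| ≤ (x : ℝ) ^ (-t)) : lam n ξ ≤ (w : EReal) := by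
  by_contra hcon
  push Not at hcon
  obtain ⟨_, ⟨t, rfl, ht⟩, hwt⟩ := lt_sSup_iff.1 hcon
  rw [EReal.coe_lt_coe_iff] at hwt
  obtain ⟨N, hN⟩ := h t hwt
  apply ht
  have hsub : solutions n ξ t ⊆ ⋃ x ∈ Set.Iio N, (fun y => (x, y)) ''
      {y : Fin n → ℤ | ∀ j : Fin n,
        |(x : ℝ) * ξ ^ ((j : ℕ) + 1) - (y j : ℝ)| ≤ (x : ℝ) ^ (-t)} := by
    rintro ⟨x, y⟩ ⟨-, -, hy⟩
    simp only [Set.mem_iUnion]
    refine ⟨x, ?_, y, hy, rfl⟩
    rw [Set.mem_Iio]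
    by_contra hx
    push Not at hx
    exact hN x hx fun j => ⟨y j, hy j⟩
  exact ((Set.finite_Iio N).biUnion
    (fun x _ => (Pool.Agent.Work.MP_637dc3_nt.Lam.finite_fibre n ξ t x).image _)).subset hsub

end Sp637
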