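import Mathlib
import Pool.Agent.Work.MP_637dc3_nt.Lam
import Pool.Agent.Work.MP_637dc3_nt.Sp.LamCrit

/-!
# Sp/DirLam (M): Dirichlet's theorem `λ_m ≥ 1/m`

Pigeonhole: for `B ≥ 1` the `B^m + 1` points `({x ξ}, ..., {x ξ^m})`, `0 ≤ x ≤ B^m`, two in the same box of side `1/B`: `x ∈ [1, B^m]` with `|x ξ^j - y_j| < 1/B ≤ x^(-1/m)`. `x → ∞` as `B → ∞`: for `x ≤ N` the distance of `x ξ` to the integers
is bounded below by a positive number (irrational), so for `B` large `x > N`. `le_lam_of` with `t = 1/m`. (The second theorem: `lam ≥ 1/m` for the Liouville case is not needed.)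
-/

set_option autoImplicit false

open Matrix Polynomial MeasureTheory
open Pool.Agent.Work.MP_637dc3_nt.Lam (lam solutions)

namespace Sp637

private theorem dl_dir (m : ℕ) (α : Fin m → ℝ) (B : ℕ) (hB : 1 ≤ B) :
    ∃ x : ℕ, 1 ≤ x ∧ x ≤ B ^ m ∧ ∀ j, ∃ y : ℤ, |(x : ℝ) * α j - (y : ℝ)| < 1 / (B : ℝ) := by
  have hB0 : (0 : ℝ) < B := by exact_mod_cast hB
  have hfl : ∀ (x : ℕ) (j : Fin m), ⌊(B : ℝ) * Int.fract ((x : ℝ) * α j)⌋₊ < B := by
    intro x j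
    rw [Nat.floor_lt (mul_nonneg hB0.le (Int.fract_nonneg _))]
    have h1 := Int.fract_lt_one ((x : ℝ) * α j)
    nlinarith
  have hcard : (Finset.univ : Finset (Fin m → Fin B)).card < (Finset.range (B ^ m + 1)).card := by
    rw [Finset.card_univ, Finset.card_range, Fintype.card_fun, Fintype.card_fin, Fintype.card_fin]
    exact Nat.lt_succ_self _
  obtain ⟨a, ha, b, hb, hab, hf⟩ := Finset.exists_ne_map_eq_of_card_lt_of_maps_to hcard
    (f := fun x : ℕ => fun j : Fin m => (⟨_, hfl x j⟩ : Fin B)) (fun x _ => Finset.mem_univ _)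
  rw [Finset.mem_range] at ha hb
  have key : ∀ a b : ℕ, a < b → b < B ^ m + 1 →
      (∀ j, ⌊(B : ℝ) * Int.fract ((a : ℝ) * α j)⌋₊ = ⌊(B : ℝ) * Int.fract ((b : ℝ) * α j)⌋₊) →
      ∃ x : ℕ, 1 ≤ x ∧ x ≤ B ^ m ∧ ∀ j, ∃ y : ℤ, |(x : ℝ) * α j - (y : ℝ)| < 1 / (B : ℝ) := by
    intro a b hab hb h
    refine ⟨b - a, by omega, by omega, fun j => ⟨⌊(b : ℝ) * α j⌋ - ⌊(a : ℝ) * α j⌋, ?_⟩⟩
    rw [Nat.cast_sub hab.le]
    push_cast
    have e : ((b : ℝ) - a) * α j - ((⌊(b : ℝ) * α j⌋ : ℝ) - (⌊(a : ℝ) * α j⌋ : ℝ)) =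
        Int.fract ((b : ℝ) * α j) - Int.fract ((a : ℝ) * α j) := by
      rw [Int.fract, Int.fract]
      ring
    rw [e, lt_div_iff₀ hB0]
    have h1 := Nat.floor_le (mul_nonneg hB0.le (Int.fract_nonneg ((a : ℝ) * α j)))
    have h2 := Nat.floor_le (mul_nonneg hB0.le (Int.fract_nonneg ((b : ℝ) * α j)))
    have h3 := Nat.lt_floor_add_one ((B : ℝ) * Int.fract ((a : ℝ) * α j))
    have h4 := Nat.lt_floor_add_one ((B : ℝ) * Int.fract ((b : ℝ) * α j))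
    rw [h j] at h1 h3
    have e2 : |Int.fract ((b : ℝ) * α j) - Int.fract ((a : ℝ) * α j)| * (B : ℝ) =
        |(Int.fract ((b : ℝ) * α j) - Int.fract ((a : ℝ) * α j)) * (B : ℝ)| := by
      rw [abs_mul, abs_of_pos hB0]
    rw [e2, abs_lt]
    constructor <;> linarith
  have hf' : ∀ j, ⌊(B : ℝ) * Int.fract ((a : ℝ) * α j)⌋₊ =
      ⌊(B : ℝ) * Int.fract ((b : ℝ) * α j)⌋₊ := fun j => congrArg Fin.val (congrFun hf j)
  rcases lt_or_gt_of_ne hab with h | h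
  · exact key a b h hb hf'
  · exact key b a h ha (fun j => (hf' j).symm)

theorem dir_lam (m : ℕ) (hm : 1 ≤ m) (ξ : ℝ) (hξ : Irrational ξ) :
    (((1 : ℝ) / m : ℝ) : EReal) ≤ lam m ξ := by
  have hmr : (0 : ℝ) < m := by exact_mod_cast hm
  refine le_lam_of m hm ξ hξ (1 / m) fun N => ?_
  -- the distances of `x ξ` to the integers, `1 ≤ x ≤ N`, are bounded below
  have hδ : ∃ δ : ℝ, 0 < δ ∧ ∀ x ∈ Finset.Icc 1 N, ∀ y : ℤ, δ ≤ |(x : ℝ) * ξ - (y : ℝ)| := by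
    induction N with
    | zero => exact ⟨1, one_pos, fun x hx => by simp at hx⟩
    | succ N ih =>
      obtain ⟨δ, h1, h2⟩ := ih
      have h3 : Irrational (((N + 1 : ℕ) : ℝ) * ξ) := hξ.natCast_mul (by omega)
      have h4 : 0 < |((N + 1 : ℕ) : ℝ) * ξ - (round (((N + 1 : ℕ) : ℝ) * ξ) : ℝ)| :=
        abs_pos.2 (sub_ne_zero.2 (h3.ne_int _))
      refine ⟨min δ |((N + 1 : ℕ) : ℝ) * ξ - (round (((N + 1 : ℕ) : ℝ) * ξ) : ℝ)|,
        lt_min h1 h4, fun x hx y => ?_⟩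
      rw [Finset.mem_Icc] at hx
      rcases Nat.lt_or_ge x (N + 1) with h5 | h5
      · exact (min_le_left _ _).trans (h2 x (Finset.mem_Icc.2 ⟨hx.1, by omega⟩) y)
      · have h6 : x = N + 1 := by omega
        subst h6
        exact (min_le_right _ _).trans (round_le _ _)
  obtain ⟨δ, hδ0, hδ1⟩ := hδ
  obtain ⟨B, hB⟩ := exists_nat_gt (1 / δ)
  have hBp : (0 : ℝ) < B := lt_trans (by positivity) hB
  have hB1 : 1 ≤ B := by exact_mod_cast hBp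
  obtain ⟨x, hx1, hx2, hx3⟩ := dl_dir m (fun j => ξ ^ ((j : ℕ) + 1)) B hB1
  refine ⟨x, ?_, hx1, fun j => ?_⟩
  · by_contra hlt
    push Not at hlt
    obtain ⟨y, hy⟩ := hx3 ⟨0, hm⟩
    have h1 := hδ1 x (Finset.mem_Icc.2 ⟨hx1, hlt.le⟩) y
    simp only [zero_add, pow_one] at hy
    have h2 : 1 / (B : ℝ) < δ := by
      rw [div_lt_iff₀ hBp]
      rw [div_lt_iff₀ hδ0] at hB
      linarith
    linarith
  · obtain ⟨y, hy⟩ := hx3 j
    refine ⟨y, hy.le.trans ?_⟩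
    have hx0 : (0 : ℝ) < x := by exact_mod_cast hx1
    have h3 : (x : ℝ) ≤ (B : ℝ) ^ (m : ℝ) := by
      rw [Real.rpow_natCast]
      exact_mod_cast hx2
    have h4 : (x : ℝ) ^ ((1 : ℝ) / m) ≤ B := by
      calc (x : ℝ) ^ ((1 : ℝ) / m) ≤ ((B : ℝ) ^ (m : ℝ)) ^ ((1 : ℝ) / m) :=
            Real.rpow_le_rpow hx0.le h3 (by positivity)
        _ = B := by rw [← Real.rpow_mul hBp.le, mul_one_div_cancel hmr.ne', Real.rpow_one]
    rw [Real.rpow_neg hx0.le, ← one_div]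
    exact one_div_le_one_div_of_le (Real.rpow_pos_of_pos hx0 _) h4

end Sp637
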