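import Mathlib
import Pool.Agent.Work.MP_637dc3_nt.Lam
import Pool.Agent.Work.MP_637dc3_nt.Sp.LamCrit

/-!
# Sp/LiouLam (M): Liouville numbers

`ξ = liouvilleNumber 2` (or any Liouville number; `Liouville.transcendental`, `transcendental_liouvilleNumber`). `lam m ξ = ⊤`: for every real `t`, `t ≤ lam m ξ` by `le_lam_of`: given `N`, choose `n` large and `a, b` with `1 < b`, `ξ ≠ a/b`,
`|ξ - a/b| < 1/b^n`; `b → ∞` as `n → ∞` (for bounded `b` the distances `|ξ - a/b|` are bounded below, `ξ` irrational; or use the explicit partial sums with `b = 2^(n!)`). `x = b^m`, `y_j = a^j b^(m-j)`, `|x ξ^j - y_j| ≤ b^m j (|ξ|+1)^(j-1) b^(-n) ≤ (b^m)^(-t)`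
for `n ≥ m + m t + ...`.
-/

set_option autoImplicit false

open Matrix Polynomial MeasureTheory
open Pool.Agent.Work.MP_637dc3_nt.Lam (lam solutions)

namespace Sp637

theorem liou_lam : ∃ ξ : ℝ, Transcendental ℚ ξ ∧ ∀ m : ℕ, 1 ≤ m → lam m ξ = ⊤ := by
  obtain ⟨ξ, hξd⟩ : ∃ ξ : ℝ, ξ = liouvilleNumber ((2 : ℕ) : ℝ) := ⟨_, rfl⟩
  have hL : Liouville ξ := by
    rw [hξd]
    exact liouville_liouvilleNumber le_rfl
  have htr : Transcendental ℤ ξ := hL.transcendental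
  refine ⟨ξ, ?_, ?_⟩
  · intro hal
    exact htr ((IsFractionRing.isAlgebraic_iff ℤ ℚ ℝ).2 hal)
  · intro m hm
    have hmR : (1 : ℝ) ≤ m := by exact_mod_cast hm
    by_contra hcon
    have hlt : lam m ξ < ⊤ := lt_top_iff_ne_top.2 hcon
    obtain ⟨t, ht1, -⟩ := EReal.lt_iff_exists_real_btwn.1 hlt
    refine absurd ht1 (not_lt.2 (le_lam_of m hm ξ hL.irrational t ?_))
    intro N
    obtain ⟨C, hC⟩ : ∃ C : ℝ, C = m * (|ξ| + 1) ^ m := ⟨_, rfl⟩
    obtain ⟨n, hn⟩ : ∃ n : ℕ, n = m + 1 + ⌈(m : ℝ) * t⌉₊ := ⟨_, rfl⟩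
    have hfr := hL.frequently_exists_num n
    have hev : ∀ᶠ b : ℕ in Filter.atTop, C ≤ (b : ℝ) :=
      tendsto_natCast_atTop_atTop.eventually_ge_atTop C
    obtain ⟨b, ⟨a, -, hab⟩, hbC, hbN⟩ :=
      (hfr.and_eventually (hev.and (Filter.eventually_ge_atTop (N + 1)))).exists
    have hb1 : 1 ≤ b := by omega
    have hbR : (1 : ℝ) ≤ b := by exact_mod_cast hb1
    have hb0 : (0 : ℝ) < b := by linarith
    refine ⟨b ^ m, ?_, Nat.one_le_pow _ _ hb1, ?_⟩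
    · have h2 : b ^ 1 ≤ b ^ m := Nat.pow_le_pow_right hb1 hm
      rw [pow_one] at h2
      omega
    · intro j
      have hj : (j : ℕ) + 1 ≤ m := j.2
      refine ⟨a ^ ((j : ℕ) + 1) * (b : ℤ) ^ (m - ((j : ℕ) + 1)), ?_⟩
      have hy : ((a ^ ((j : ℕ) + 1) * (b : ℤ) ^ (m - ((j : ℕ) + 1)) : ℤ) : ℝ) =
          (b : ℝ) ^ m * ((a : ℝ) / b) ^ ((j : ℕ) + 1) := by
        have h2 : (b : ℝ) ^ m = (b : ℝ) ^ (m - ((j : ℕ) + 1)) * (b : ℝ) ^ ((j : ℕ) + 1) := by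
          rw [← pow_add]
          congr 1
          omega
        rw [h2, div_pow]
        push_cast
        field_simp
      rw [hy]
      push_cast
      rw [← mul_sub, abs_mul, abs_of_pos (pow_pos hb0 m)]
      have hab1 : |ξ - (a : ℝ) / b| < 1 := by
        refine hab.trans_le ?_
        rw [div_le_one (pow_pos hb0 n)]
        exact one_le_pow₀ hbR
      have hab2 : |(a : ℝ) / b| ≤ |ξ| + 1 := by
        have h3 : |(a : ℝ) / b| ≤ |ξ| + |ξ - (a : ℝ) / b| := by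
          have h4 : (a : ℝ) / b = ξ - (ξ - (a : ℝ) / b) := by ring
          calc |(a : ℝ) / b| = |ξ - (ξ - (a : ℝ) / b)| := by rw [← h4]
            _ ≤ |ξ| + |ξ - (a : ℝ) / b| := abs_sub _ _
        linarith
      have h3 : |ξ ^ ((j : ℕ) + 1) - ((a : ℝ) / b) ^ ((j : ℕ) + 1)| ≤ C * (1 / (b : ℝ) ^ n) := by
        refine (abs_pow_sub_pow_le ξ ((a : ℝ) / b) ((j : ℕ) + 1)).trans ?_
        have h5 : (((j : ℕ) + 1 : ℕ) : ℝ) ≤ m := by exact_mod_cast hj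
        have h6 : 1 ≤ |ξ| + 1 := by linarith [abs_nonneg ξ]
        have h7 : max |ξ| |(a : ℝ) / b| ^ ((j : ℕ) + 1 - 1) ≤ (|ξ| + 1) ^ m := by
          calc max |ξ| |(a : ℝ) / b| ^ ((j : ℕ) + 1 - 1) ≤ (|ξ| + 1) ^ ((j : ℕ) + 1 - 1) := by
                apply pow_le_pow_left₀
                · exact le_max_of_le_left (abs_nonneg _)
                · exact max_le (by linarith) hab2
            _ ≤ (|ξ| + 1) ^ m := pow_le_pow_right₀ h6 (by omega)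
        have h8 : 0 ≤ max |ξ| |(a : ℝ) / b| ^ ((j : ℕ) + 1 - 1) :=
          pow_nonneg (le_max_of_le_left (abs_nonneg _)) _
        calc |ξ - (a : ℝ) / b| * (((j : ℕ) + 1 : ℕ) : ℝ) * max |ξ| |(a : ℝ) / b| ^ ((j : ℕ) + 1 - 1)
            ≤ (1 / (b : ℝ) ^ n) * m * (|ξ| + 1) ^ m := by
              gcongr
          _ = C * (1 / (b : ℝ) ^ n) := by rw [hC]; ring
      have hceil : (m : ℝ) * t ≤ (⌈(m : ℝ) * t⌉₊ : ℝ) := Nat.le_ceil _
      calc (b : ℝ) ^ m * |ξ ^ ((j : ℕ) + 1) - ((a : ℝ) / b) ^ ((j : ℕ) + 1)|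
          ≤ (b : ℝ) ^ m * (C * (1 / (b : ℝ) ^ n)) := by gcongr
        _ ≤ (b : ℝ) ^ m * ((b : ℝ) * (1 / (b : ℝ) ^ n)) := by gcongr
        _ = (b : ℝ) ^ (-(⌈(m : ℝ) * t⌉₊ : ℝ)) := by
          rw [hn, Real.rpow_neg hb0.le, Real.rpow_natCast, pow_add, pow_add, pow_one]
          field_simp
        _ ≤ (b : ℝ) ^ (-((m : ℝ) * t)) :=
          Real.rpow_le_rpow_of_exponent_le hbR (by linarith)
        _ = ((b : ℝ) ^ m) ^ (-t) := by
          rw [← Real.rpow_natCast (b : ℝ) m, ← Real.rpow_mul hb0.le]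
          congr 1
          ring

end Sp637
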