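import Mathlib
import Pool.Agent.Work.MP_637dc3_nt.Lam
import Pool.Agent.Work.MP_637dc3_nt.Sp.LamCrit

/-!
# Sp/LowerLam (M): lower bound for `λ_m` from rational approximations

Let `t < (τ - m + 1)/m`; `le_lam_of` and `le_of_forall_lt`. `r = a/q` with `q = r.den` large, `x = q^m`, `y_j = a^j q^(m-j)`: `|x ξ^j - y_j| = q^m |ξ^j - r^j| ≤ q^m j |ξ - r| ≤ m q^(m-1-τ) ≤ q^(-m t) = x^(-t)`
(`0 ≤ ξ, r ≤ 1`), for `q` large, because `m - 1 - τ < -m t`. `q ≥ N`, so `x ≥ N`.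
-/

set_option autoImplicit false

open Matrix Polynomial MeasureTheory
open Pool.Agent.Work.MP_637dc3_nt.Lam (lam solutions)

namespace Sp637

theorem lower_lam (m : ℕ) (hm : 1 ≤ m) (τ : ℝ) (hτ : 1 ≤ τ) (ξ : ℝ) (hξ : Irrational ξ) (h0 : 0 ≤ ξ)
    (h1 : ξ ≤ 1)
    (h : ∀ N : ℕ, ∃ r : ℚ, N ≤ r.den ∧ 0 ≤ r ∧ r < 1 ∧ |ξ - (r : ℝ)| ≤ (r.den : ℝ) ^ (-(1 + τ))) :
    (((τ - m + 1) / m : ℝ) : EReal) ≤ lam m ξ := by
  have hmR : (1 : ℝ) ≤ m := by exact_mod_cast hm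
  have hm0 : (0 : ℝ) < m := by linarith
  by_contra hcon
  rw [not_le] at hcon
  obtain ⟨t, ht1, ht2⟩ := EReal.lt_iff_exists_real_btwn.1 hcon
  refine absurd ht1 (not_lt.2 (le_lam_of m hm ξ hξ t ?_))
  have ht3 : t < (τ - m + 1) / m := by exact_mod_cast ht2
  have ht4 : t * m < τ - m + 1 := by rwa [lt_div_iff₀ hm0] at ht3
  obtain ⟨δ, hδ⟩ : ∃ δ : ℝ, δ = τ - m + 1 - m * t := ⟨_, rfl⟩
  have hδ0 : 0 < δ := by
    rw [hδ]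
    linarith
  have ev1 : ∀ᶠ x : ℕ in Filter.atTop, (m : ℝ) ≤ (x : ℝ) ^ δ :=
    ((tendsto_rpow_atTop hδ0).comp tendsto_natCast_atTop_atTop).eventually_ge_atTop _
  obtain ⟨N₁, hN₁⟩ := Filter.eventually_atTop.1 ev1
  intro N
  obtain ⟨r, hr1, hr2, hr3, hr4⟩ := h (N + N₁)
  have hq1 : 1 ≤ r.den := r.pos
  have hqR : (1 : ℝ) ≤ r.den := by exact_mod_cast hq1
  have hq0 : (0 : ℝ) < r.den := by linarith
  have hqd := hN₁ r.den (by omega)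
  refine ⟨r.den ^ m, ?_, Nat.one_le_pow _ _ hq1, ?_⟩
  · have h2 : r.den ^ 1 ≤ r.den ^ m := Nat.pow_le_pow_right hq1 hm
    rw [pow_one] at h2
    omega
  · intro j
    refine ⟨r.num ^ ((j : ℕ) + 1) * (r.den : ℤ) ^ (m - ((j : ℕ) + 1)), ?_⟩
    have hj : (j : ℕ) + 1 ≤ m := j.2
    have hrr : (r : ℝ) = (r.num : ℝ) / (r.den : ℝ) := Rat.cast_def r
    have hy : ((r.num ^ ((j : ℕ) + 1) * (r.den : ℤ) ^ (m - ((j : ℕ) + 1)) : ℤ) : ℝ) =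
        (r.den : ℝ) ^ m * (r : ℝ) ^ ((j : ℕ) + 1) := by
      have h2 : (r.den : ℝ) ^ m = (r.den : ℝ) ^ (m - ((j : ℕ) + 1)) * (r.den : ℝ) ^ ((j : ℕ) + 1) := by
        rw [← pow_add]
        congr 1
        omega
      rw [h2, hrr, div_pow]
      push_cast
      field_simp
    have hr0 : (0 : ℝ) ≤ (r : ℝ) := by exact_mod_cast hr2
    have hr5 : (r : ℝ) ≤ 1 := by exact_mod_cast hr3.le
    rw [hy]
    push_cast
    rw [← mul_sub, abs_mul, abs_of_pos (pow_pos hq0 m)]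
    have h3 : |ξ ^ ((j : ℕ) + 1) - (r : ℝ) ^ ((j : ℕ) + 1)| ≤ m * (r.den : ℝ) ^ (-(1 + τ)) := by
      refine (abs_pow_sub_pow_le ξ (r : ℝ) ((j : ℕ) + 1)).trans ?_
      have h4 : max |ξ| |(r : ℝ)| ^ ((j : ℕ) + 1 - 1) ≤ 1 := by
        apply pow_le_one₀
        · exact le_max_of_le_left (abs_nonneg _)
        · rw [abs_of_nonneg h0, abs_of_nonneg hr0]
          exact max_le h1 hr5
      have h5 : (((j : ℕ) + 1 : ℕ) : ℝ) ≤ m := by exact_mod_cast hj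
      have h6 : 0 ≤ |ξ - (r : ℝ)| := abs_nonneg _
      have h7 : 0 ≤ max |ξ| |(r : ℝ)| ^ ((j : ℕ) + 1 - 1) :=
        pow_nonneg (le_max_of_le_left (abs_nonneg _)) _
      calc |ξ - (r : ℝ)| * (((j : ℕ) + 1 : ℕ) : ℝ) * max |ξ| |(r : ℝ)| ^ ((j : ℕ) + 1 - 1)
          ≤ |ξ - (r : ℝ)| * m * 1 := by gcongr
        _ = m * |ξ - (r : ℝ)| := by ring
        _ ≤ m * (r.den : ℝ) ^ (-(1 + τ)) := by gcongr
    calc (r.den : ℝ) ^ m * |ξ ^ ((j : ℕ) + 1) - (r : ℝ) ^ ((j : ℕ) + 1)|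
        ≤ (r.den : ℝ) ^ m * (m * (r.den : ℝ) ^ (-(1 + τ))) := by gcongr
      _ ≤ (r.den : ℝ) ^ m * ((r.den : ℝ) ^ δ * (r.den : ℝ) ^ (-(1 + τ))) := by gcongr
      _ = ((r.den : ℝ) ^ m) ^ (-t) := by
        rw [← Real.rpow_add hq0, ← Real.rpow_natCast (r.den : ℝ) m, ← Real.rpow_add hq0,
          ← Real.rpow_mul hq0.le]
        congr 1
        rw [hδ]
        ring

end Sp637
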