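import Pool.Agent.Work.MP_637dc3_nt.Sp.Defs

/-!
# Sp/Defs3 (FIXED): bad points near a rational
-/

set_option autoImplicit false

open Matrix Polynomial

namespace Sp637

/-- points `x` near `r` at which some polynomial of degree `≤ κ`, `1 ≤ κ ≤ k`, is too small on some scale `X ≥ r.den ^ δ` -/
def BadPt (k : ℕ) (τ ε δ : ℝ) (r : ℚ) : Set ℝ :=
  {x | x ∈ Set.Ico (r : ℝ) ((r : ℝ) + (r.den : ℝ) ^ (-(1 + τ))) ∧ ∃ κ : ℕ, 1 ≤ κ ∧ κ ≤ k ∧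
    ∃ X : ℝ, (r.den : ℝ) ^ δ ≤ X ∧ ∃ P : Fin (κ + 1) → ℤ, P ≠ 0 ∧
      (∀ i, |(P i : ℝ)| ≤ X) ∧ |ev P x| < X ^ (-(max (κ : ℝ) τ) - ε)}

end Sp637
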