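import Pool.Agent.Work.MP_637dc3_nt.Sp.Defs

/-!
# Sp/Defs2 (FIXED): definitions for the dual side and the real side
-/

set_option autoImplicit false

open Matrix Polynomial

namespace Sp637

/-- the inverse of the numerator of `r` modulo the denominator, in `[0, r.den)` -/
def thq (r : ℚ) : ℤ := Int.gcdA r.num r.den % r.den

/-- the dual point of `r`: `θ = q' / q` with `p q' ≡ 1 (mod q)`, in `[0, 1)` -/
noncomputable def theta (r : ℚ) : ℝ := (thq r : ℝ) / (r.den : ℝ)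

/-- weights on the dual side -/
noncomputable def wt (k : ℕ) (Z Q : ℝ) (l : Fin (k + 1)) : ℝ :=
  if (l : ℕ) = k then Q ^ k / Z ^ k else Z * Q ^ (2 * (l : ℕ)) / Q ^ k

/-- points where the dual lattice has a short vector -/
def DualBad (k : ℕ) (Z Q ε : ℝ) : Set ℝ :=
  {x | x ∈ Set.Ico (-2 : ℝ) (((k : ℝ) + 1) * k + 2) ∧
    ∃ f : Fin (k + 1) → ℤ, f ≠ 0 ∧ ∀ l, |(U k x *ᵥ cR f) l| < ε * wt k Z Q l}

/-- the rational `r` is too close to a zero of a polynomial on some dyadic scale `2 ^ n`, `Q ^ δ ≤ 2 ^ n`, `(2 ^ n) ^ (1 + η) ≤ Q` -/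
def BadAt (k : ℕ) (δ η Q : ℝ) (r : ℚ) : Prop :=
  ∃ n : ℕ, Q ^ δ ≤ (2 : ℝ) ^ n ∧ ((2 : ℝ) ^ n) ^ (1 + η) ≤ Q ∧
    ∃ P : Fin (k + 1) → ℤ, ev P (r : ℝ) ≠ 0 ∧ (∀ i, |(P i : ℝ)| ≤ (2 : ℝ) ^ n) ∧
      |ev P (r : ℝ)| < ((2 : ℝ) ^ n) ^ (-(k : ℝ) - ((k : ℝ) + 1) * η)

/-- weights on the real side: `Y ^ κ` for the value, `1 / Y` for the derivatives -/
noncomputable def wy (κ : ℕ) (Y : ℝ) : Fin (κ + 1) → ℝ := fun i => if i = 0 then Y ^ κ else Y⁻¹

/-- the polynomial matrix of the real side near `r`: row `0` is `Y ^ w` times the value at `x`, row `i ≥ 1` is `1 / Y` times the divided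
derivative of order `i` at `r` -/
noncomputable def hR (k : ℕ) (w Y r : ℝ) : Matrix (Fin (k + 1)) (Fin (k + 1)) ℝ[X] :=
  Matrix.of fun i m => if i = 0 then C (Y ^ w) * (Polynomial.X : ℝ[X]) ^ (m : ℕ)
    else C (Y⁻¹ * U k r i m)

end Sp637
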