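import Mathlib

/-!
# Sp/Defs (FIXED): definitions for the spectrum block of MP_637dc3_nt

Integer polynomials of degree `≤ k` are coefficient vectors `c : Fin (k + 1) → ℤ`.
-/

set_option autoImplicit false

open Matrix Polynomial

namespace Sp637

/-- the value at `x` of the polynomial `∑ c_i x ^ i` -/
noncomputable def ev {k : ℕ} (c : Fin (k + 1) → ℤ) (x : ℝ) : ℝ :=
  ∑ i : Fin (k + 1), (c i : ℝ) * x ^ (i : ℕ)

/-- Taylor matrix: `(U k x *ᵥ c) l` is the divided derivative of order `l` at `x` of `∑ c_i X ^ i` -/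
noncomputable def U (k : ℕ) (x : ℝ) : Matrix (Fin (k + 1)) (Fin (k + 1)) ℝ :=
  Matrix.of fun l i => (((i : ℕ).choose (l : ℕ) : ℕ) : ℝ) * x ^ ((i : ℕ) - (l : ℕ))

/-- real version of an integer matrix -/
def toR {d j : ℕ} (M : Matrix (Fin d) (Fin j) ℤ) : Matrix (Fin d) (Fin j) ℝ :=
  M.map (fun z : ℤ => (z : ℝ))

/-- real version of an integer vector -/
def cR {d : ℕ} (v : Fin d → ℤ) : Fin d → ℝ := fun i => (v i : ℝ)

/-- the columns of the integer matrix `M` are linearly independent over `ℝ` -/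
def Indep {d j : ℕ} (M : Matrix (Fin d) (Fin j) ℤ) : Prop :=
  LinearIndependent ℝ (fun (a : Fin j) (i : Fin d) => (M i a : ℝ))

/-- the real span of the columns of `M` -/
def cspan {d j : ℕ} (M : Matrix (Fin d) (Fin j) ℤ) : Submodule ℝ (Fin d → ℝ) :=
  Submodule.span ℝ (Set.range (fun (a : Fin j) (i : Fin d) => (M i a : ℝ)))

/-- the minor of `N` with rows `σ` (all columns) -/
noncomputable def mnr {d j : ℕ} (N : Matrix (Fin d) (Fin j) ℝ) (σ : Fin j → Fin d) : ℝ :=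
  (N.submatrix σ id).det

/-- evaluation of a matrix of polynomials -/
noncomputable def hx {d : ℕ} (h : Matrix (Fin d) (Fin d) ℝ[X]) (x : ℝ) :
    Matrix (Fin d) (Fin d) ℝ :=
  h.map (fun p => p.eval x)

/-- `W` is spanned by integer vectors -/
def RatS {d : ℕ} (W : Submodule ℝ (Fin d → ℝ)) : Prop :=
  ∃ (j : ℕ) (M : Matrix (Fin d) (Fin j) ℤ), Indep M ∧ cspan M = W

/-- some integer basis of `W` has all minors (after `G`) smaller than `μ` in absolute value -/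
def Small {d : ℕ} (W : Submodule ℝ (Fin d → ℝ)) (G : Matrix (Fin d) (Fin d) ℝ) (μ : ℝ) : Prop :=
  ∃ (j : ℕ) (M : Matrix (Fin d) (Fin j) ℤ), Indep M ∧ cspan M = W ∧
    ∀ σ : Fin j → Fin d, |mnr (G * toR M) σ| < μ

/-- doubling constant for polynomials of degree `≤ D` -/
noncomputable def KD (D : ℕ) : ℝ := 2 * ((D : ℝ) + 1) * (2 * (D : ℝ) + 2) ^ D

/-- dyadic subintervals of `[a, a + L)` -/
def dy (a L : ℝ) (n m : ℕ) : Set ℝ :=
  Set.Ico (a + m * (L / 2 ^ n)) (a + (m + 1) * (L / 2 ^ n))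

/-- finite chains of nonzero rational subspaces -/
def Adm {d : ℕ} (F : Finset (Submodule ℝ (Fin d → ℝ))) : Prop :=
  (∀ W ∈ F, RatS W ∧ W ≠ ⊥) ∧ ∀ W ∈ F, ∀ W' ∈ F, W ≤ W' ∨ W' ≤ W

/-- the rational subspaces which can be added to the chain `F` -/
def Ext {d : ℕ} (F : Finset (Submodule ℝ (Fin d → ℝ))) : Set (Submodule ℝ (Fin d → ℝ)) :=
  {W | RatS W ∧ W ≠ ⊥ ∧ W ∉ F ∧ ∀ W' ∈ F, W ≤ W' ∨ W' ≤ W}

/-- the rational number `r` is generic for polynomials of degree `≤ κ` on all scales `X ≥ r.den ^ δ` -/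
def Good (κ : ℕ) (δ ε : ℝ) (r : ℚ) : Prop :=
  ∀ X : ℝ, (r.den : ℝ) ^ δ ≤ X → ∀ P : Fin (κ + 1) → ℤ, ev P (r : ℝ) ≠ 0 →
    (∀ i, |(P i : ℝ)| ≤ X) → X ^ (-(κ : ℝ) - ε) ≤ |ev P (r : ℝ)|

end Sp637
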