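import Mathlib
import Pool.Agent.Work.MP_637dc3_nt.Sp.Defs

/-!
# Sp/IndepCard (S): at most `d` independent columns; number of elements of a chain

(1) `LinearIndependent.fintype_card_le_finrank`. (2) `finrank` is strictly monotone on the chain `F` (`Submodule.finrank_lt_finrank_of_lt`), all values
are in `{1, ..., d}`, so `F.card ≤ d` (`Finset.card_le_card_of_injOn` into `Finset.Icc 1 d`).
-/

set_option autoImplicit false

open Matrix Polynomial MeasureTheory

namespace Sp637

theorem indep_card {d j : ℕ} (M : Matrix (Fin d) (Fin j) ℤ) (hM : Indep M) : j ≤ d := by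
  have h := LinearIndependent.fintype_card_le_finrank hM
  simpa using h

theorem adm_card {d : ℕ} (F : Finset (Submodule ℝ (Fin d → ℝ))) (hF : Adm F) : F.card ≤ d := by
  have h1 : F.card ≤ (Finset.Icc 1 d).card := by
    refine Finset.card_le_card_of_injOn (fun W => Module.finrank ℝ W) ?_ ?_
    · intro W hW
      have hW' := hF.1 W (Finset.mem_coe.1 hW)
      rw [Finset.coe_Icc, Set.mem_Icc]
      constructor
      · exact Submodule.one_le_finrank_iff.2 hW'.2
      · have := Submodule.finrank_le W
        simpa using this
    · intro W hW W' hW' h
      simp only at h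
      rcases hF.2 W (Finset.mem_coe.1 hW) W' (Finset.mem_coe.1 hW') with hle | hle
      · exact Submodule.eq_of_le_of_finrank_eq hle h
      · exact (Submodule.eq_of_le_of_finrank_eq hle h.symm).symm
  simpa using h1

end Sp637
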