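import Mathlib
import Pool.Agent.Work.MP_637dc3_nt.Sp.Defs

/-!
# Sp/Dyadic (M-L): stopping time decomposition

Let `T` be the set of pairs `(n, m)`, `m < 2 ^ n`, with `Pr n m` and `¬ Pr n' (m / 2 ^ (n - n'))` for all `n' < n` (the first time on the branch).
`(0,0) ∉ T`. (1) Every `x ∈ E` is in `dy a L n m` for some `(n, m) ∈ T`: the dyadic intervals of level `n` partition `[a, a + L)`
(`x ∈ dy a L n m` iff `m = ⌊(x - a) 2 ^ n / L⌋`), the ancestor of `(n, m)` at level `n'` is `(n', m / 2 ^ (n - n'))`, and it contains `x`;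
take the smallest `n` with `Pr n m` for the interval of level `n` containing `x`. (2) The intervals of `T` are pairwise disjoint: if `x` is in
both, the index `n` is the first time for the branch of `x` in both cases, so they agree. They are contained in `[a, a + L)`, so
`∑_{(n,m) ∈ T} L / 2 ^ n ≤ L` (`measure_iUnion`, `T` is countable). (3) For `(n + 1, m) ∈ T`: `Pr (n+1) m`, `¬ Pr n (m / 2)`, so
`volume (E ∩ dy) ≤ C L / 2 ^ (n+1)`; sum over `T` (`measure_iUnion_le`, `measure_biUnion_le`). `E` need not be measurable.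
-/

set_option autoImplicit false

open Matrix Polynomial MeasureTheory

namespace Sp637

private lemma mem_dy_iff (a L x : ℝ) (hL : 0 < L) (hx : a ≤ x) (n m : ℕ) :
    x ∈ dy a L n m ↔ ⌊(x - a) / L * 2 ^ n⌋₊ = m := by
  have h2 : (0 : ℝ) < 2 ^ n := by positivity
  have hy : 0 ≤ (x - a) / L * 2 ^ n := by
    have : 0 ≤ x - a := by linarith
    positivity
  rw [Nat.floor_eq_iff hy]
  unfold dy
  rw [Set.mem_Ico]
  have hq : 0 < L / 2 ^ n := by positivity
  have key : (x - a) / L * 2 ^ n = (x - a) / (L / 2 ^ n) := by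
    field_simp
  rw [key, le_div_iff₀ hq, div_lt_iff₀ hq]
  constructor
  · rintro ⟨h1, h3⟩
    constructor <;> linarith
  · rintro ⟨h1, h3⟩
    constructor <;> linarith

private lemma le_of_mem_dy {a L x : ℝ} (hL : 0 < L) {n m : ℕ} (h : x ∈ dy a L n m) : a ≤ x := by
  have h1 : a + m * (L / 2 ^ n) ≤ x := h.1
  have h2 : 0 ≤ (m : ℝ) * (L / 2 ^ n) := by positivity
  linarith

private lemma floor_anc (y : ℝ) {n k : ℕ} (h : k ≤ n) :
    ⌊y * 2 ^ n⌋₊ / 2 ^ (n - k) = ⌊y * 2 ^ k⌋₊ := by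
  have h1 : y * 2 ^ k = (y * 2 ^ n) / ((2 ^ (n - k) : ℕ) : ℝ) := by
    have h3 : (2 : ℝ) ^ n = 2 ^ k * 2 ^ (n - k) := by
      rw [← pow_add]; congr 1; omega
    have h4 : (2 : ℝ) ^ (n - k) ≠ 0 := by positivity
    push_cast
    rw [h3, eq_div_iff h4]
    ring
  rw [h1, Nat.floor_div_natCast]

private lemma measurable_dy (a L : ℝ) (n m : ℕ) : MeasurableSet (dy a L n m) := measurableSet_Ico

private lemma volume_dy (a L : ℝ) (n m : ℕ) : volume (dy a L n m) = ENNReal.ofReal (L / 2 ^ n) := by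
  unfold dy
  rw [Real.volume_Ico]
  congr 1
  ring

theorem dyadic (a L C : ℝ) (hL : 0 < L) (hC : 0 ≤ C) (E : Set ℝ) (hE : E ⊆ Set.Ico a (a + L))
    (Pr : ℕ → ℕ → Prop) (h0 : ¬ Pr 0 0)
    (hcov : ∀ x ∈ E, ∃ n m : ℕ, m < 2 ^ n ∧ x ∈ dy a L n m ∧ Pr n m)
    (hm : ∀ n m : ℕ, m < 2 ^ (n + 1) → Pr (n + 1) m → ¬ Pr n (m / 2) →
      volume (E ∩ dy a L (n + 1) m) ≤ ENNReal.ofReal (C * (L / 2 ^ (n + 1)))) :
    volume E ≤ ENNReal.ofReal (C * L) := by
  classical
  set T : Set (ℕ × ℕ) := {p | p.2 < 2 ^ p.1 ∧ Pr p.1 p.2 ∧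
    ∀ k < p.1, ¬ Pr k (p.2 / 2 ^ (p.1 - k))} with hT
  have hTc : T.Countable := Set.to_countable T
  have hdisj : T.PairwiseDisjoint (fun p : ℕ × ℕ => dy a L p.1 p.2) := by
    have key : ∀ p ∈ T, ∀ p' ∈ T, ∀ x, x ∈ dy a L p.1 p.2 → x ∈ dy a L p'.1 p'.2 → p.1 ≤ p'.1 →
        p = p' := by
      intro p hp p' hp' x hx hx' hle
      have hax := le_of_mem_dy hL hx
      have e1 := (mem_dy_iff a L x hL hax p.1 p.2).1 hx
      have e2 := (mem_dy_iff a L x hL hax p'.1 p'.2).1 hx'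
      rcases hle.lt_or_eq with hlt | heq
      · exfalso
        have h3 := hp'.2.2 p.1 hlt
        rw [← e2, floor_anc _ hle, e1] at h3
        exact h3 hp.2.1
      · apply Prod.ext heq
        rw [← e1, ← e2, heq]
    intro p hp p' hp' hne
    rw [Function.onFun, Set.disjoint_left]
    intro x hx hx'
    rcases le_total p.1 p'.1 with h | h
    · exact hne (key p hp p' hp' x hx hx' h)
    · exact hne (key p' hp' p hp x hx' hx h).symm
  have hcovT : E ⊆ ⋃ p ∈ T, (E ∩ dy a L p.1 p.2) := by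
    intro x hx
    have hax : a ≤ x := (hE hx).1
    have hex : ∃ n, Pr n ⌊(x - a) / L * 2 ^ n⌋₊ := by
      obtain ⟨n, m, -, h2, h3⟩ := hcov x hx
      have e := (mem_dy_iff a L x hL hax n m).1 h2
      exact ⟨n, by rw [e]; exact h3⟩
    set n := Nat.find hex with hn
    have hPn := Nat.find_spec hex
    have hmin : ∀ k < n, ¬ Pr k ⌊(x - a) / L * 2 ^ k⌋₊ := fun k hk => Nat.find_min hex hk
    have hxL : (x - a) / L < 1 := by
      rw [div_lt_one hL]
      have := (hE hx).2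
      linarith
    rw [Set.mem_iUnion₂]
    refine ⟨(n, ⌊(x - a) / L * 2 ^ n⌋₊), ⟨?_, hPn, ?_⟩, hx, ?_⟩
    · have hy : 0 ≤ (x - a) / L * 2 ^ n := by
        have : 0 ≤ x - a := by linarith
        positivity
      rw [Nat.floor_lt hy]
      have h2 : (0 : ℝ) < 2 ^ n := by positivity
      push_cast
      nlinarith
    · intro k hk
      have h3 := hmin k hk
      rw [← floor_anc _ hk.le] at h3
      exact h3
    · exact (mem_dy_iff a L x hL hax n _).2 rfl
  have hTm : ∀ p ∈ T, volume (E ∩ dy a L p.1 p.2) ≤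
      ENNReal.ofReal C * volume (dy a L p.1 p.2) := by
    rintro ⟨n, m⟩ ⟨h1, h2, h3⟩
    rw [volume_dy, ← ENNReal.ofReal_mul hC]
    cases n with
    | zero =>
      exfalso
      have hm0 : m = 0 := by simpa using h1
      rw [hm0] at h2
      exact h0 h2
    | succ n =>
      apply hm n m h1 h2
      have h4 := h3 n (Nat.lt_succ_self n)
      simpa using h4
  calc volume E ≤ volume (⋃ p ∈ T, (E ∩ dy a L p.1 p.2)) := measure_mono hcovT
    _ ≤ ∑' p : T, volume (E ∩ dy a L (p : ℕ × ℕ).1 (p : ℕ × ℕ).2) := measure_biUnion_le _ hTc _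
    _ ≤ ∑' p : T, ENNReal.ofReal C * volume (dy a L (p : ℕ × ℕ).1 (p : ℕ × ℕ).2) :=
        ENNReal.tsum_le_tsum fun p => hTm p p.2
    _ = ENNReal.ofReal C * ∑' p : T, volume (dy a L (p : ℕ × ℕ).1 (p : ℕ × ℕ).2) :=
        ENNReal.tsum_mul_left
    _ = ENNReal.ofReal C * volume (⋃ p ∈ T, dy a L p.1 p.2) := by
        rw [measure_biUnion hTc hdisj (fun p _ => measurable_dy a L p.1 p.2)]
    _ ≤ ENNReal.ofReal C * volume (Set.Ico a (a + L)) := by
        gcongr
        intro x hx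
        rw [Set.mem_iUnion₂] at hx
        obtain ⟨p, hp, hxp⟩ := hx
        refine ⟨le_of_mem_dy hL hxp, ?_⟩
        have h1 : x < a + ((p.2 : ℝ) + 1) * (L / 2 ^ p.1) := hxp.2
        have h2 : ((p.2 : ℝ) + 1) ≤ 2 ^ p.1 := by
          have := hp.1
          exact_mod_cast this
        have h3 : (0 : ℝ) < L / 2 ^ p.1 := by positivity
        have h4 : ((p.2 : ℝ) + 1) * (L / 2 ^ p.1) ≤ 2 ^ p.1 * (L / 2 ^ p.1) := by gcongr
        have h5 : (2 : ℝ) ^ p.1 * (L / 2 ^ p.1) = L := by field_simp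
        linarith
    _ = ENNReal.ofReal (C * L) := by
        rw [Real.volume_Ico, ← ENNReal.ofReal_mul hC]
        congr 1
        ring

end Sp637
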