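import Mathlib
import Pool.Agent.Work.MP_637dc3_nt.Sp.Defs

/-!
# Sp/AddVec (M): adding an integer vector to an integer basis

`M'` is `M` with the additional last column `v` (e.g. `Matrix.of fun i a => Fin.snoc (M i) (v i) a`, or `Fin.cons` and the first column).
Independence: `v ∉ span` (`LinearIndependent` `Fin.snoc` / `Fin.cons` lemmas). The span is `cspan M ⊔ ℝ v`.
Minors: expand `det ((G * toR M').submatrix σ id)` along the new column (`det_succ_column` / `det_succ_column_zero`): it is
`∑_{i : Fin (j+1)} ± (G *ᵥ v) (σ i) * mnr (G * toR M) (σ ∘ i.succAbove)`, each summand is `< ε` in absolute value (if `|mnr| ≤ 1`), so the sum is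
`< (j + 1) ε`.
-/

set_option autoImplicit false

open Matrix Polynomial MeasureTheory

namespace Sp637

theorem add_vec {d j : ℕ} (M : Matrix (Fin d) (Fin j) ℤ) (hM : Indep M) (v : Fin d → ℤ)
    (hv : cR v ∉ cspan M) :
    ∃ M' : Matrix (Fin d) (Fin (j + 1)) ℤ, Indep M' ∧ cspan M' = cspan M ⊔ Submodule.span ℝ {cR v} ∧
      ∀ (G : Matrix (Fin d) (Fin d) ℝ) (ε : ℝ), (∀ σ, |mnr (G * toR M) σ| ≤ 1) →
        (∀ i, |(G *ᵥ cR v) i| < ε) → ∀ σ, |mnr (G * toR M') σ| < ((j : ℝ) + 1) * ε := by
  set M' : Matrix (Fin d) (Fin (j + 1)) ℤ :=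
    Matrix.of fun i a => (Fin.cons (v i) (M i) : Fin (j + 1) → ℤ) a with hM'
  have hfun : (fun (a : Fin (j + 1)) (i : Fin d) => (M' i a : ℝ)) =
      (Fin.cons (cR v) (fun (a : Fin j) (i : Fin d) => (M i a : ℝ)) : Fin (j + 1) → Fin d → ℝ) := by
    funext a
    refine Fin.cases ?_ (fun b => ?_) a
    · funext i
      simp [hM', cR]
    · funext i
      simp [hM']
  refine ⟨M', ?_, ?_, ?_⟩
  · unfold Indep
    rw [hfun, linearIndependent_finCons]
    exact ⟨hM, hv⟩
  · unfold cspan
    rw [hfun, Fin.range_cons, Submodule.span_insert, sup_comm]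
  · intro G ε h1 h2 σ
    unfold mnr
    rw [Matrix.det_succ_column_zero]
    have hsum : ∑ _i : Fin (j + 1), ε = ((j : ℝ) + 1) * ε := by
      rw [Finset.sum_const, Finset.card_univ, Fintype.card_fin, nsmul_eq_mul]
      push_cast
      ring
    rw [← hsum]
    refine lt_of_le_of_lt (Finset.abs_sum_le_sum_abs _ _) ?_
    refine Finset.sum_lt_sum_of_nonempty Finset.univ_nonempty fun i _ => ?_
    have e1 : ((G * toR M').submatrix σ id) i 0 = (G *ᵥ cR v) (σ i) := by
      simp only [Matrix.submatrix_apply, id_eq, Matrix.mul_apply, Matrix.mulVec, dotProduct, toR,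
        Matrix.map_apply, hM', Matrix.of_apply, Fin.cons_zero, cR]
    have e2 : ((G * toR M').submatrix σ id).submatrix i.succAbove Fin.succ =
        (G * toR M).submatrix (fun b => σ (i.succAbove b)) id := by
      ext b a
      simp only [Matrix.submatrix_apply, id_eq, Matrix.mul_apply, toR,
        Matrix.map_apply, hM', Matrix.of_apply, Fin.cons_succ]
    rw [e1, e2, abs_mul, abs_mul, abs_pow, abs_neg, abs_one, one_pow, one_mul]
    have h3 := h1 (fun b => σ (i.succAbove b))
    unfold mnr at h3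
    calc |(G *ᵥ cR v) (σ i)| * |((G * toR M).submatrix (fun b => σ (i.succAbove b)) id).det|
        ≤ |(G *ᵥ cR v) (σ i)| * 1 := mul_le_mul_of_nonneg_left h3 (abs_nonneg _)
      _ = |(G *ᵥ cR v) (σ i)| := mul_one _
      _ < ε := h2 _

end Sp637
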