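import Mathlib
import Pool.Agent.Work.MP_637dc3_nt.Sp.AddVec
import Pool.Agent.Work.MP_637dc3_nt.Sp.IndepCard

/-!
# Sp/FlagStep (M): a short vector gives a small subspace compatible with the flag

Let `Δ` be the largest element of `F ∪ {⊥}` not containing `v` (`F` is a chain; `⊥` does not contain `v ≠ 0`). `Small Δ G 1` gives an integer basis
`M` of `Δ` with all minors `< 1` (for `Δ = ⊥` the empty matrix, all minors are `1`). Let `W = Δ ⊔ ℝ v` with the basis `M'` of `add_vec`: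
all minors are `< (j + 1) (ε / d) ≤ ε` (`j + 1 ≤ d` by `indep_card`). So `Small W G ε`. `W` is rational and `≠ ⊥`; `W ∉ F` since the elements of
`F` are not `Small _ G ε`. `W` is comparable with `G' ∈ F`: if `v ∉ G'` then `G' ≤ Δ ≤ W`; if `v ∈ G'` then `Δ ≤ G'` (the chain; otherwise `G' ≤ Δ`
and `v ∈ Δ`), so `W ≤ G'`. Hence `W ∈ Ext F`.
-/

set_option autoImplicit false

open Matrix Polynomial MeasureTheory

namespace Sp637

theorem flag_step {d : ℕ} (F : Finset (Submodule ℝ (Fin d → ℝ))) (hF : Adm F)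
    (G : Matrix (Fin d) (Fin d) ℝ) (ε : ℝ) (hε : 0 < ε)
    (h1 : ∀ W ∈ F, Small W G 1) (h2 : ∀ W ∈ F, ¬ Small W G ε)
    (v : Fin d → ℤ) (hv : v ≠ 0) (hGv : ∀ i, |(G *ᵥ cR v) i| < ε / d) :
    ∃ W ∈ Ext F, Small W G ε := by
  classical
  have hcv : cR v ≠ 0 := by
    intro h0
    apply hv
    funext i
    have := congrFun h0 i
    simpa [cR] using this
  -- the largest subspace of the flag which does not contain `v`
  obtain ⟨Δ, hΔ⟩ := Finset.exists_maximal
    (s := insert (⊥ : Submodule ℝ (Fin d → ℝ)) (F.filter (fun W => cR v ∉ W)))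
    (Finset.insert_nonempty _ _)
  have hmem : ∀ W ∈ F, cR v ∉ W → W ∈ insert (⊥ : Submodule ℝ (Fin d → ℝ))
      (F.filter (fun W => cR v ∉ W)) := fun W hW hvW =>
    Finset.mem_insert_of_mem (Finset.mem_filter.2 ⟨hW, hvW⟩)
  have hΔc : Δ = ⊥ ∨ (Δ ∈ F ∧ cR v ∉ Δ) := by
    rcases Finset.mem_insert.1 hΔ.prop with h | h
    · exact Or.inl h
    · exact Or.inr (Finset.mem_filter.1 h)
  have hvΔ : cR v ∉ Δ := by
    rcases hΔc with h | h
    · rw [h, Submodule.mem_bot]
      exact hcv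
    · exact h.2
  have hle : ∀ W ∈ F, cR v ∉ W → W ≤ Δ := by
    intro W hW hvW
    rcases hΔc with h | h
    · exact hΔ.le_of_ge (hmem W hW hvW) (by rw [h]; exact bot_le)
    · rcases hF.2 W hW Δ h.1 with h3 | h3
      · exact h3
      · exact hΔ.le_of_ge (hmem W hW hvW) h3
  have hge : ∀ W ∈ F, cR v ∈ W → Δ ≤ W := by
    intro W hW hvW
    rcases hΔc with h | h
    · rw [h]
      exact bot_le
    · rcases hF.2 W hW Δ h.1 with h3 | h3
      · exact absurd (h3 hvW) hvΔ
      · exact h3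
  -- an integer basis of `Δ` with small minors
  obtain ⟨j, M, hM1, hM2, hM3⟩ : ∃ (j : ℕ) (M : Matrix (Fin d) (Fin j) ℤ), Indep M ∧
      cspan M = Δ ∧ ∀ σ : Fin j → Fin d, |mnr (G * toR M) σ| ≤ 1 := by
    rcases hΔc with h | h
    · refine ⟨0, 0, ?_, ?_, ?_⟩
      · unfold Indep
        exact linearIndependent_empty_type
      · unfold cspan
        rw [Set.range_eq_empty, Submodule.span_empty, h]
      · intro σ
        unfold mnr
        rw [Matrix.det_isEmpty, abs_one]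
    · obtain ⟨j, M, g1, g2, g3⟩ := h1 Δ h.1
      exact ⟨j, M, g1, g2, fun σ => (g3 σ).le⟩
  obtain ⟨M', g1, g2, g3⟩ := add_vec M hM1 v (by rw [hM2]; exact hvΔ)
  have hj : j + 1 ≤ d := indep_card M' g1
  have hd : (0 : ℝ) < d := by
    have : 0 < d := by omega
    exact_mod_cast this
  have hjd : ((j : ℝ) + 1) * (ε / d) ≤ ε := by
    have h5 : ((j : ℝ) + 1) ≤ d := by exact_mod_cast hj
    rw [← mul_div_assoc, div_le_iff₀ hd, mul_comm ε]
    exact mul_le_mul_of_nonneg_right h5 hε.le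
  have hsm : Small (Δ ⊔ Submodule.span ℝ {cR v}) G ε :=
    ⟨j + 1, M', g1, by rw [g2, hM2], fun σ => (g3 G (ε / d) hM3 hGv σ).trans_le hjd⟩
  refine ⟨Δ ⊔ Submodule.span ℝ {cR v}, ⟨⟨j + 1, M', g1, by rw [g2, hM2]⟩, ?_, ?_, ?_⟩, hsm⟩
  · intro h0
    apply hcv
    rw [← Submodule.mem_bot ℝ, ← h0]
    exact Submodule.mem_sup_right (Submodule.mem_span_singleton_self _)
  · intro hW
    exact h2 _ hW hsm
  · intro W hW
    by_cases hvW : cR v ∈ W
    · left
      exact sup_le (hge W hW hvW) ((Submodule.span_singleton_le_iff_mem _ _).2 hvW)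
    · right
      exact (hle W hW hvW).trans le_sup_left

end Sp637
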