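import Mathlib
import Pool.Agent.Work.MP_637dc3_nt.Sp.Defs

/-!
# Sp/Lag (S-M): Lagrange bound

`x_0, ..., x_D ∈ [a, a + L]` pairwise at distance `≥ g`, `|f (x_i)| ≤ δ`, `deg f ≤ D`. Lagrange interpolation
`f (y) = ∑_i f (x_i) ∏_{j ≠ i} (y - x_j) / (x_i - x_j)` (`Lagrange.eq_interpolate...`, `Lagrange.basis`), each factor is `≤ L / g`
in absolute value, so `|f y| ≤ (D + 1) δ (L / g) ^ D`.
-/

set_option autoImplicit false

open Matrix Polynomial MeasureTheory

namespace Sp637

theorem lag (D : ℕ) (f : ℝ[X]) (hf : f.natDegree ≤ D) (a L g δ : ℝ) (hg : 0 < g)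
    (x : Fin (D + 1) → ℝ) (hx : ∀ i, x i ∈ Set.Icc a (a + L))
    (hsep : ∀ i j, i ≠ j → g ≤ |x i - x j|) (hδ : ∀ i, |f.eval (x i)| ≤ δ)
    (y : ℝ) (hy : y ∈ Set.Icc a (a + L)) :
    |f.eval y| ≤ ((D : ℝ) + 1) * δ * (L / g) ^ D := by
  classical
  have hinj : Function.Injective x := by
    intro i j hij
    by_contra hne
    have h := hsep i j hne
    rw [hij, sub_self, abs_zero] at h
    linarith
  have hδ0 : 0 ≤ δ := le_trans (abs_nonneg _) (hδ 0)
  have hdeg : f.degree < ((Finset.univ : Finset (Fin (D + 1))).card : WithBot ℕ) := by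
    rw [Finset.card_univ, Fintype.card_fin]
    refine lt_of_le_of_lt Polynomial.degree_le_natDegree ?_
    exact_mod_cast Nat.lt_succ_of_le hf
  have hf1 : f = Lagrange.interpolate Finset.univ x (fun i => f.eval (x i)) :=
    Lagrange.eq_interpolate (hinj.injOn) hdeg
  have hf2 : f.eval y = ∑ i : Fin (D + 1), f.eval (x i) *
      ∏ j ∈ Finset.univ.erase i, ((x i - x j)⁻¹ * (y - x j)) := by
    conv_lhs => rw [hf1]
    rw [Lagrange.interpolate_apply, Polynomial.eval_finset_sum]
    refine Finset.sum_congr rfl fun i _ => ?_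
    rw [Polynomial.eval_mul, Polynomial.eval_C, Lagrange.basis, Polynomial.eval_prod]
    congr 1
    refine Finset.prod_congr rfl fun j _ => ?_
    simp [Lagrange.basisDivisor]
  have hL : 0 ≤ L := by
    have := (hy.1.trans hy.2)
    linarith
  have hterm : ∀ i : Fin (D + 1), |f.eval (x i) *
      ∏ j ∈ Finset.univ.erase i, ((x i - x j)⁻¹ * (y - x j))| ≤ δ * (L / g) ^ D := by
    intro i
    rw [abs_mul]
    refine mul_le_mul (hδ i) ?_ (abs_nonneg _) hδ0
    rw [Finset.abs_prod]
    have hcard : (Finset.univ.erase i).card = D := by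
      rw [Finset.card_erase_of_mem (Finset.mem_univ _), Finset.card_univ, Fintype.card_fin]
      omega
    calc ∏ j ∈ Finset.univ.erase i, |(x i - x j)⁻¹ * (y - x j)|
        ≤ ∏ j ∈ Finset.univ.erase i, (L / g) := by
          refine Finset.prod_le_prod (fun j _ => abs_nonneg _) fun j hj => ?_
          have hij : i ≠ j := (Finset.ne_of_mem_erase hj).symm
          have h1 := hsep i j hij
          rw [abs_mul, abs_inv, div_eq_mul_inv, mul_comm L]
          refine mul_le_mul ?_ ?_ (abs_nonneg _) (by positivity)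
          · exact inv_anti₀ hg h1
          · rw [abs_le]
            have h2 := hx j
            constructor
            · have := hy.1
              have := h2.2
              linarith
            · have := hy.2
              have := h2.1
              linarith
      _ = (L / g) ^ D := by rw [Finset.prod_const, hcard]
  rw [hf2]
  refine (Finset.abs_sum_le_sum_abs _ _).trans ?_
  refine (Finset.sum_le_sum fun i _ => hterm i).trans (le_of_eq ?_)
  rw [Finset.sum_const, Finset.card_univ, Fintype.card_fin, nsmul_eq_mul]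
  push_cast
  ring

end Sp637
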