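import Mathlib
import Pool.Agent.Work.MP_637dc3_nt.Sp.Lag

/-!
# Sp/Dbl (S): doubling

If `|f| < η / KD D` on `[b, b + L/2)`, take the `D + 1` points `b + i L / (2 (D + 1))`, `i = 0..D`, gap `g = L / (2 (D + 1))`, in `lag`:
`|f y| ≤ (D + 1) (η / KD D) (2 (D + 1)) ^ D = η / 2 < η`, a contradiction.
-/

set_option autoImplicit false

open Matrix Polynomial MeasureTheory

namespace Sp637

theorem dbl (D : ℕ) (f : ℝ[X]) (hf : f.natDegree ≤ D) (a L b η : ℝ) (hL : 0 < L) (hη : 0 < η)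
    (hb : a ≤ b) (hb2 : b + L / 2 ≤ a + L) (y : ℝ) (hy : y ∈ Set.Ico a (a + L))
    (hfy : η ≤ |f.eval y|) : ∃ y' ∈ Set.Ico b (b + L / 2), η / KD D ≤ |f.eval y'| := by
  by_contra hcon
  push Not at hcon
  have hD1 : (0 : ℝ) < (D : ℝ) + 1 := by positivity
  have hg : 0 < L / (2 * ((D : ℝ) + 1)) := by positivity
  have hmem : ∀ i : Fin (D + 1), b + (i : ℕ) * (L / (2 * ((D : ℝ) + 1))) ∈ Set.Ico b (b + L / 2) := by
    intro i
    have hi : ((i : ℕ) : ℝ) ≤ (D : ℝ) := by exact_mod_cast Nat.lt_succ_iff.1 i.2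
    constructor
    · have : 0 ≤ ((i : ℕ) : ℝ) * (L / (2 * ((D : ℝ) + 1))) := by positivity
      linarith
    · have h1 : ((i : ℕ) : ℝ) * (L / (2 * ((D : ℝ) + 1))) < ((D : ℝ) + 1) * (L / (2 * ((D : ℝ) + 1))) := by
        apply mul_lt_mul_of_pos_right _ hg
        linarith
      have h2 : ((D : ℝ) + 1) * (L / (2 * ((D : ℝ) + 1))) = L / 2 := by
        field_simp
      linarith
  have h := lag D f hf a L (L / (2 * ((D : ℝ) + 1))) (η / KD D) hg
    (fun i => b + (i : ℕ) * (L / (2 * ((D : ℝ) + 1)))) ?_ ?_ ?_ y ⟨hy.1, hy.2.le⟩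
  · have h3 : L / (L / (2 * ((D : ℝ) + 1))) = 2 * (D : ℝ) + 2 := by
      field_simp
    rw [h3] at h
    have h4 : ((D : ℝ) + 1) * (η / KD D) * (2 * (D : ℝ) + 2) ^ D = η / 2 := by
      unfold KD
      have h5 : (2 * (D : ℝ) + 2) ^ D ≠ 0 := by positivity
      field_simp
    rw [h4] at h
    linarith
  · intro i
    have := hmem i
    exact ⟨hb.trans this.1, this.2.le.trans hb2⟩
  · intro i j hij
    have h6 : (b + (i : ℕ) * (L / (2 * ((D : ℝ) + 1)))) - (b + (j : ℕ) * (L / (2 * ((D : ℝ) + 1)))) =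
        (((i : ℕ) : ℝ) - ((j : ℕ) : ℝ)) * (L / (2 * ((D : ℝ) + 1))) := by ring
    rw [h6, abs_mul, abs_of_pos hg]
    have h7 : (1 : ℝ) ≤ |((i : ℕ) : ℝ) - ((j : ℕ) : ℝ)| := by
      have hne : ((i : ℕ) : ℤ) - ((j : ℕ) : ℤ) ≠ 0 := by
        intro h0
        apply hij
        apply Fin.ext
        omega
      have h8 := Int.one_le_abs hne
      exact_mod_cast h8
    nlinarith
  · intro i
    exact (hcon _ (hmem i)).le

end Sp637
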