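import Mathlib
import Pool.Agent.Work.MP_637dc3_nt.Sp.Defs

/-!
# Sp/MinorNZ (S-M): linearly independent columns have a nonzero minor

The rank of `N` is `j`, the row space has dimension `j`, so `j` of the rows are linearly independent (choose a basis among the rows,
e.g. `exists_linearIndependent` / `Basis` from a spanning family, or `Matrix.rank_transpose` and
`exists_fun_fin_finrank_span_eq`); the square submatrix with these rows is invertible.
-/

set_option autoImplicit false

open Matrix Polynomial MeasureTheory

namespace Sp637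

theorem minor_ne_zero {d j : ℕ} (N : Matrix (Fin d) (Fin j) ℝ)
    (hN : LinearIndependent ℝ (fun (a : Fin j) (i : Fin d) => N i a)) :
    ∃ σ : Fin j → Fin d, Function.Injective σ ∧ mnr N σ ≠ 0 := by
  have h1 : Nᵀ.rank = j := by
    have h := LinearIndependent.rank_matrix (M := Nᵀ) hN
    simpa using h
  have h2 : Module.finrank ℝ (Submodule.span ℝ (Set.range N.row)) = j := by
    rw [← Matrix.rank_eq_finrank_span_row, ← Matrix.rank_transpose, h1]
  obtain ⟨f, hf1, -, hf3⟩ := Submodule.exists_fun_fin_finrank_span_eq ℝ (Set.range N.row)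
  have h4 : ∃ f : Fin j → (Fin j → ℝ), (∀ i, f i ∈ Set.range N.row) ∧ LinearIndependent ℝ f := by
    refine ⟨fun i => f (Fin.cast h2.symm i), fun i => hf1 _, ?_⟩
    exact hf3.comp _ (Fin.cast_injective h2.symm)
  obtain ⟨g, hg1, hg2⟩ := h4
  choose σ hσ using hg1
  refine ⟨σ, ?_, ?_⟩
  · intro a b hab
    apply hg2.injective
    rw [← hσ a, ← hσ b, hab]
  · have h5 : LinearIndependent ℝ (N.submatrix σ id).row := by
      have : (N.submatrix σ id).row = g := by
        funext a
        rw [← hσ a]
        rfl
      rw [this]
      exact hg2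
    have h6 := Matrix.linearIndependent_rows_iff_isUnit.1 h5
    exact ((Matrix.isUnit_iff_isUnit_det _).1 h6).ne_zero

end Sp637
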