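import Mathlib
import Pool.Agent.Work.MP_637dc3_nt.Sp.MinorNZ

/-!
# Sp/MinBasis (M): minimal integer bases

Let `W` be rational with an integer basis of size `j` (`j = finrank W`). For an integer basis `M` put `ν M = ∑_σ |det (M_σ)|` (a natural
number: `Int.natAbs` of the integer minors); `ν M > 0` by `minor_ne_zero`. If `M, M'` are integer bases of `W` then both have `j` columns and
`toR M' = toR M * A` for a real `j × j` matrix `A`, so `mnr (G * toR M') σ = mnr (G * toR M) σ * det A` for every `G` and `σ`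
(`submatrix_mul`, `det_mul`), in particular `ν M' = |det A| ν M`. Choose `M` with minimal `ν M` (`Nat.find` / well-foundedness). Then
`|det A| ≥ 1` for every other integer basis `M'`, so `|mnr (G * toR M) σ| ≤ |mnr (G * toR M') σ|`. This gives both directions of the
equivalence.
-/

set_option autoImplicit false

open Matrix Polynomial MeasureTheory

namespace Sp637

private theorem mb_mnr_mul {d j : ℕ} (N : Matrix (Fin d) (Fin j) ℝ) (A : Matrix (Fin j) (Fin j) ℝ)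
    (σ : Fin j → Fin d) : mnr (N * A) σ = mnr N σ * A.det := by
  unfold mnr
  rw [← Matrix.det_mul]
  congr 1

private theorem mb_int {d j : ℕ} (M : Matrix (Fin d) (Fin j) ℤ) (σ : Fin j → Fin d) :
    mnr (toR M) σ = (((M.submatrix σ id).det : ℤ) : ℝ) := by
  unfold mnr toR
  have h := RingHom.map_det (Int.castRingHom ℝ) (M.submatrix σ id)
  exact h.symm

private def mb_nu {d j : ℕ} (M : Matrix (Fin d) (Fin j) ℤ) : ℕ :=
  ∑ σ : Fin j → Fin d, (M.submatrix σ id).det.natAbs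

private theorem mb_nu_cast {d j : ℕ} (M : Matrix (Fin d) (Fin j) ℤ) :
    ((mb_nu M : ℕ) : ℝ) = ∑ σ : Fin j → Fin d, |mnr (toR M) σ| := by
  unfold mb_nu
  rw [Nat.cast_sum]
  refine Finset.sum_congr rfl fun σ _ => ?_
  rw [mb_int, Nat.cast_natAbs, Int.cast_abs]

private theorem mb_nu_pos {d j : ℕ} (M : Matrix (Fin d) (Fin j) ℤ) (hM : Indep M) :
    0 < ((mb_nu M : ℕ) : ℝ) := by
  obtain ⟨σ, -, hσ⟩ := minor_ne_zero (toR M) hM
  rw [mb_nu_cast]
  exact lt_of_lt_of_le (abs_pos.2 hσ)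
    (Finset.single_le_sum (f := fun σ => |mnr (toR M) σ|) (fun _ _ => abs_nonneg _)
      (Finset.mem_univ σ))

private theorem mb_rel {d j : ℕ} (M M' : Matrix (Fin d) (Fin j) ℤ) (h : cspan M' ≤ cspan M) :
    ∃ A : Matrix (Fin j) (Fin j) ℝ, toR M' = toR M * A := by
  have h1 : ∀ b : Fin j, ∃ c : Fin j → ℝ,
      ∑ a, c a • (fun i : Fin d => (M i a : ℝ)) = fun i : Fin d => (M' i b : ℝ) := by
    intro b
    have h2 : (fun i : Fin d => (M' i b : ℝ)) ∈ cspan M :=
      h (Submodule.subset_span ⟨b, rfl⟩)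
    unfold cspan at h2
    exact (Submodule.mem_span_range_iff_exists_fun ℝ).1 h2
  choose c hc using h1
  refine ⟨Matrix.of fun a b => c b a, ?_⟩
  ext i b
  have h3 := congrFun (hc b) i
  rw [Matrix.mul_apply]
  show (M' i b : ℝ) = ∑ a, (M i a : ℝ) * c b a
  rw [← h3, Finset.sum_apply]
  refine Finset.sum_congr rfl fun a _ => ?_
  rw [Pi.smul_apply, smul_eq_mul, mul_comm]

private theorem mb_card {d j j' : ℕ} (M : Matrix (Fin d) (Fin j) ℤ)
    (M' : Matrix (Fin d) (Fin j') ℤ) (hM : Indep M) (hM' : Indep M') (h : cspan M' = cspan M) :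
    j' = j := by
  have h1 := finrank_span_eq_card hM
  have h2 := finrank_span_eq_card hM'
  rw [Fintype.card_fin] at h1 h2
  unfold cspan at h
  rw [← h1, ← h2, h]

theorem min_basis {d : ℕ} (W : Submodule ℝ (Fin d → ℝ)) (hW : RatS W) :
    ∃ (j : ℕ) (M : Matrix (Fin d) (Fin j) ℤ), Indep M ∧ cspan M = W ∧
      ∀ (G : Matrix (Fin d) (Fin d) ℝ) (μ : ℝ),
        Small W G μ ↔ ∀ σ : Fin j → Fin d, |mnr (G * toR M) σ| < μ := by
  classical
  obtain ⟨j, M0, h0, h0'⟩ := hW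
  have hex : ∃ n : ℕ, ∃ M : Matrix (Fin d) (Fin j) ℤ, Indep M ∧ cspan M = W ∧ mb_nu M = n :=
    ⟨_, M0, h0, h0', rfl⟩
  obtain ⟨M, hI, hs, hn⟩ := Nat.find_spec hex
  refine ⟨j, M, hI, hs, fun G μ => ⟨?_, fun h => ⟨j, M, hI, hs, h⟩⟩⟩
  rintro ⟨j', M', hI', hs', h'⟩ σ
  obtain rfl : j' = j := mb_card M M' hI hI' (hs'.trans hs.symm)
  obtain ⟨A, hA⟩ := mb_rel M M' (hs'.trans hs.symm).le
  have hmin : mb_nu M ≤ mb_nu M' := by
    rw [hn]
    exact Nat.find_min' hex ⟨M', hI', hs', rfl⟩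
  have hpos := mb_nu_pos M hI
  have hdet : (1 : ℝ) ≤ |A.det| := by
    have h1 : ((mb_nu M' : ℕ) : ℝ) = ((mb_nu M : ℕ) : ℝ) * |A.det| := by
      rw [mb_nu_cast, mb_nu_cast, Finset.sum_mul]
      refine Finset.sum_congr rfl fun τ _ => ?_
      rw [hA, mb_mnr_mul, abs_mul]
    have h2 : ((mb_nu M : ℕ) : ℝ) ≤ ((mb_nu M' : ℕ) : ℝ) := by exact_mod_cast hmin
    rw [h1] at h2
    exact (le_mul_iff_one_le_right hpos).1 h2
  have h3 := h' σ
  rw [hA, ← Matrix.mul_assoc, mb_mnr_mul, abs_mul] at h3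
  exact lt_of_le_of_lt (le_mul_of_one_le_right (abs_nonneg _) hdet) h3

end Sp637
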