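import Mathlib
import Pool.Agent.Work.MP_637dc3_nt.Sp.Defs

/-!
# Sp/MinorPoly (S-M): minors are polynomials in `x`

Take the polynomial matrix `(h * (M.map (fun z => C (z : ℝ)))).submatrix σ id` and its determinant `p`; evaluation is a ring homomorphism
(`RingHom.map_det`, `Polynomial.eval` / `Polynomial.evalRingHom x`), so `p.eval x = mnr (hx h x * toR M) σ`.
The entries have degree `≤ e`, the determinant is a sum of products of `j` entries: degree `≤ j e ≤ d e`
(`Polynomial.natDegree_sum_le_of_forall_le`, `natDegree_prod_le`, `det_apply`).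
-/

set_option autoImplicit false

open Matrix Polynomial MeasureTheory

namespace Sp637

theorem minor_poly {d j e : ℕ} (hj : j ≤ d) (h : Matrix (Fin d) (Fin d) ℝ[X])
    (he : ∀ i m, (h i m).natDegree ≤ e) (M : Matrix (Fin d) (Fin j) ℤ) (σ : Fin j → Fin d) :
    ∃ p : ℝ[X], p.natDegree ≤ d * e ∧ ∀ x : ℝ, p.eval x = mnr (hx h x * toR M) σ := by
  refine ⟨((h * (M.map (fun z : ℤ => (C (z : ℝ) : ℝ[X])))).submatrix σ id).det, ?_, ?_⟩
  · have hent : ∀ i a, ((h * (M.map (fun z : ℤ => (C (z : ℝ) : ℝ[X])))) i a).natDegree ≤ e := by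
      intro i a
      rw [Matrix.mul_apply]
      refine Polynomial.natDegree_sum_le_of_forall_le _ _ fun m _ => ?_
      rw [Matrix.map_apply]
      exact (Polynomial.natDegree_mul_C_le _ _).trans (he i m)
    rw [Matrix.det_apply]
    refine Polynomial.natDegree_sum_le_of_forall_le _ _ fun τ _ => ?_
    refine (Polynomial.natDegree_smul_le _ _).trans ?_
    refine (Polynomial.natDegree_prod_le _ _).trans ?_
    refine (Finset.sum_le_card_nsmul _ _ e fun a _ => ?_).trans ?_
    · rw [Matrix.submatrix_apply]
      exact hent _ _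
    · rw [Finset.card_univ, Fintype.card_fin, smul_eq_mul]
      exact Nat.mul_le_mul_right e hj
  · intro x
    rw [← Polynomial.coe_evalRingHom, RingHom.map_det]
    unfold mnr
    congr 1
    ext a b
    simp [Matrix.mul_apply, hx, toR, Polynomial.eval_finset_sum]

end Sp637
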