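import Mathlib
import Pool.Agent.Work.MP_637dc3_nt.Sp.Lag

/-!
# Sp/Remez (M): measure of the set where a polynomial is small

Let `E = {x ∈ [a, a + L) : |f x| < δ}`. (1) If `volume E > 2 D g`, `g > 0`, then there are `D + 1` points of `E` with pairwise distances
`≥ g`: choose them one after the other; the points at distance `< g` from `i ≤ D` chosen points form a set of measure
`≤ 2 D g < volume E`. (2) Then `lag` gives `η ≤ |f y| ≤ (D + 1) δ (L / g) ^ D`. So if `g > L ((D + 1) δ / η) ^ (1 / D)` then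
`volume E ≤ 2 D g`; let `g` tend to `L ((D + 1) δ / η) ^ (1 / D)`.
-/

set_option autoImplicit false

open Matrix Polynomial MeasureTheory

namespace Sp637

private theorem pick (E : Set ℝ) (g : ℝ) (hg : 0 < g) (D : ℕ)
    (hE : ENNReal.ofReal (2 * D * g) < volume E) (k : ℕ) (hk : k ≤ D + 1) :
    ∃ s : Finset ℝ, s.card = k ∧ (∀ u ∈ s, u ∈ E) ∧ ∀ u ∈ s, ∀ v ∈ s, u ≠ v → g ≤ |u - v| := by
  induction k with
  | zero => exact ⟨∅, by simp⟩
  | succ k ih =>
    obtain ⟨s, hs, hsE, hsep⟩ := ih (by omega)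
    have hex : ∃ x ∈ E, ∀ u ∈ s, g ≤ |x - u| := by
      by_contra hcon
      push Not at hcon
      have hsub : E ⊆ ⋃ u ∈ s, Metric.ball u g := by
        intro x hx
        obtain ⟨u, hu, hxu⟩ := hcon x hx
        simp only [Set.mem_iUnion]
        exact ⟨u, hu, by rw [Metric.mem_ball, Real.dist_eq]; exact hxu⟩
      have h1 : volume E ≤ ENNReal.ofReal (2 * D * g) := by
        calc volume E ≤ volume (⋃ u ∈ s, Metric.ball u g) := measure_mono hsub
          _ ≤ ∑ u ∈ s, volume (Metric.ball u g) := measure_biUnion_finset_le _ _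
          _ = ∑ u ∈ s, ENNReal.ofReal (2 * g) := by simp only [Real.volume_ball]
          _ = ENNReal.ofReal (k * (2 * g)) := by
              rw [Finset.sum_const, hs, nsmul_eq_mul, ENNReal.ofReal_mul (p := (k : ℝ)) (Nat.cast_nonneg k),
                ENNReal.ofReal_natCast]
          _ ≤ ENNReal.ofReal (2 * D * g) := by
              apply ENNReal.ofReal_le_ofReal
              have h2 : (k : ℝ) ≤ D := by exact_mod_cast (by omega : k ≤ D)
              nlinarith
      exact absurd hE (not_lt.2 h1)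
    obtain ⟨x, hxE, hx⟩ := hex
    have hxs : x ∉ s := by
      intro h
      have := hx x h
      rw [sub_self, abs_zero] at this
      linarith
    refine ⟨insert x s, by rw [Finset.card_insert_of_notMem hxs, hs], ?_, ?_⟩
    · intro u hu
      rcases Finset.mem_insert.1 hu with rfl | hu
      · exact hxE
      · exact hsE u hu
    · intro u hu v hv huv
      rcases Finset.mem_insert.1 hu with hu1 | hu1 <;> rcases Finset.mem_insert.1 hv with hv1 | hv1
      · exact absurd (hu1.trans hv1.symm) huv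
      · rw [hu1]
        exact hx v hv1
      · rw [abs_sub_comm, hv1]
        exact hx u hu1
      · exact hsep u hu1 v hv1 huv

theorem remez (D : ℕ) (hD : 1 ≤ D) (f : ℝ[X]) (hf : f.natDegree ≤ D) (a L δ η : ℝ) (hL : 0 < L)
    (hδ : 0 < δ) (hη : 0 < η) (y : ℝ) (hy : y ∈ Set.Ico a (a + L)) (hfy : η ≤ |f.eval y|) :
    volume {x : ℝ | x ∈ Set.Ico a (a + L) ∧ |f.eval x| < δ} ≤
      ENNReal.ofReal (2 * D * (((D : ℝ) + 1) * δ / η) ^ ((1 : ℝ) / D) * L) := by
  have hD0 : (0 : ℝ) < D := by exact_mod_cast hD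
  set E : Set ℝ := {x : ℝ | x ∈ Set.Ico a (a + L) ∧ |f.eval x| < δ} with hEdef
  set q : ℝ := ((D : ℝ) + 1) * δ / η with hq
  have hq0 : 0 < q := by positivity
  set r : ℝ := q ^ ((1 : ℝ) / D) with hr
  have hr0 : 0 < r := Real.rpow_pos_of_pos hq0 _
  have hrD : r ^ D = q := by
    rw [hr, ← Real.rpow_natCast, ← Real.rpow_mul hq0.le, one_div, inv_mul_cancel₀ hD0.ne', Real.rpow_one]
  by_contra hcon
  rw [not_le] at hcon
  -- choose a slightly larger distance
  have hfin : volume E ≠ ⊤ := by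
    have h1 : volume E ≤ volume (Set.Ico a (a + L)) := measure_mono (fun x hx => hx.1)
    rw [Real.volume_Ico] at h1
    exact ne_top_of_le_ne_top ENNReal.ofReal_ne_top h1
  obtain ⟨w, hw⟩ : ∃ w : ℝ, w = (volume E).toReal := ⟨_, rfl⟩
  have hw' : volume E = ENNReal.ofReal w := by
    rw [hw, ENNReal.ofReal_toReal hfin]
  rw [hw'] at hcon
  have hlt : 2 * D * r * L < w := by
    rw [ENNReal.ofReal_lt_ofReal_iff_of_nonneg (by positivity)] at hcon
    exact hcon
  obtain ⟨w', h1, h2⟩ := exists_between hlt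
  set g : ℝ := w' / (2 * D) with hg
  have hgw : 2 * D * g = w' := by
    rw [hg]
    field_simp
  have hgL : r * L < g := by
    rw [hg, lt_div_iff₀ (by positivity)]
    linarith
  have hg0 : 0 < g := lt_trans (by positivity) hgL
  have hE : ENNReal.ofReal (2 * D * g) < volume E := by
    rw [hw', hgw]
    exact (ENNReal.ofReal_lt_ofReal_iff (lt_trans (by positivity) hlt)).2 h2
  obtain ⟨s, hs, hsE, hsep⟩ := pick E g hg0 D hE (D + 1) le_rfl
  let e := s.equivFinOfCardEq hs
  have h3 := lag D f hf a L g δ hg0 (fun i => (e.symm i : ℝ))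
    (fun i => ⟨(hsE _ (e.symm i).2).1.1, (hsE _ (e.symm i).2).1.2.le⟩)
    (fun i j hij => hsep _ (e.symm i).2 _ (e.symm j).2 (fun h => hij (e.symm.injective (Subtype.ext h))))
    (fun i => (hsE _ (e.symm i).2).2.le) y ⟨hy.1, hy.2.le⟩
  have h4 : (L / g) ^ D < 1 / q := by
    have h5 : L / g < 1 / r := by
      rw [div_lt_div_iff₀ hg0 hr0]
      linarith
    have h6 : (L / g) ^ D < (1 / r) ^ D := pow_lt_pow_left₀ h5 (by positivity) (by omega)
    rw [one_div, inv_pow, hrD, ← one_div] at h6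
    exact h6
  have h5 : ((D : ℝ) + 1) * δ * (L / g) ^ D < η := by
    have h6 : ((D : ℝ) + 1) * δ * (L / g) ^ D < ((D : ℝ) + 1) * δ * (1 / q) :=
      mul_lt_mul_of_pos_left h4 (by positivity)
    have h7 : ((D : ℝ) + 1) * δ * (1 / q) = η := by
      rw [hq]
      field_simp
    rw [h7] at h6
    exact h6
  linarith

end Sp637
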