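import Mathlib
import Pool.Agent.Work.MP_637dc3_nt.Sp.Remez
import Pool.Agent.Work.MP_637dc3_nt.Sp.Dbl
import Pool.Agent.Work.MP_637dc3_nt.Sp.MinBasis
import Pool.Agent.Work.MP_637dc3_nt.Sp.MinorPoly
import Pool.Agent.Work.MP_637dc3_nt.Sp.IndepCard

/-!
# Sp/SmallLem (M): the functions measuring the size of `W` at `x` behave like polynomials

Let `W` be rational, `M` the minimal integer basis of `min_basis`: `Small W (hx h x) μ ↔ ∀ σ, |p_σ (x)| < μ`, where `p_σ` is the polynomial of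
`minor_poly`, degree `≤ d e =: D`. (1) `¬ Small W (hx h y) η` gives `σ` with `η ≤ |p_σ y|`; `{Small ... ε} ⊆ {|p_σ| < ε}`; apply `remez`.
(2) the same with `dbl`. (3) continuity of the finitely many `p_σ` at `x`: there is a neighbourhood of `x` where all `|p_σ| < μ`; for `n` large the
dyadic interval of level `n` containing `x` (with `m = ⌊(x - a) 2 ^ n / L⌋`) is inside it. (4) `Small` is monotone in `μ`.
-/

set_option autoImplicit false

open Matrix Polynomial MeasureTheory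

namespace Sp637

theorem small_mono {d : ℕ} {W : Submodule ℝ (Fin d → ℝ)} {G : Matrix (Fin d) (Fin d) ℝ} {μ μ' : ℝ}
    (h : Small W G μ) (hμ : μ ≤ μ') : Small W G μ' := by
  obtain ⟨j, M, hI, hc, hσ⟩ := h
  exact ⟨j, M, hI, hc, fun σ => lt_of_lt_of_le (hσ σ) hμ⟩

private theorem polys {d e : ℕ} (h : Matrix (Fin d) (Fin d) ℝ[X])
    (he : ∀ i m, (h i m).natDegree ≤ e) (W : Submodule ℝ (Fin d → ℝ)) (hW : RatS W) :
    ∃ (j : ℕ) (p : (Fin j → Fin d) → ℝ[X]), (∀ σ, (p σ).natDegree ≤ d * e) ∧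
      ∀ (x μ : ℝ), Small W (hx h x) μ ↔ ∀ σ, |(p σ).eval x| < μ := by
  obtain ⟨j, M, hI, -, hM⟩ := min_basis W hW
  have hj : j ≤ d := indep_card M hI
  choose p hp1 hp2 using fun σ => minor_poly hj h he M σ
  refine ⟨j, p, hp1, fun x μ => ?_⟩
  rw [hM]
  constructor
  · intro H σ
    rw [hp2]
    exact H σ
  · intro H σ
    rw [← hp2]
    exact H σ

theorem small_measure {d e : ℕ} (hD : 1 ≤ d * e) (h : Matrix (Fin d) (Fin d) ℝ[X])
    (he : ∀ i m, (h i m).natDegree ≤ e) (W : Submodule ℝ (Fin d → ℝ)) (hW : RatS W)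
    (a L ε η : ℝ) (hL : 0 < L) (hε : 0 < ε) (hη : 0 < η) (y : ℝ) (hy : y ∈ Set.Ico a (a + L))
    (hyW : ¬ Small W (hx h y) η) :
    volume {x : ℝ | x ∈ Set.Ico a (a + L) ∧ Small W (hx h x) ε} ≤
      ENNReal.ofReal (2 * (d * e : ℕ) * ((((d * e : ℕ) : ℝ) + 1) * ε / η) ^ ((1 : ℝ) / (d * e : ℕ)) * L) := by
  obtain ⟨j, p, hp, hS⟩ := polys h he W hW
  rw [hS] at hyW
  push Not at hyW
  obtain ⟨σ, hσ⟩ := hyW
  refine le_trans (measure_mono ?_) (remez (d * e) hD (p σ) (hp σ) a L ε η hL hε hη y hy hσ)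
  rintro x ⟨h1, h2⟩
  rw [hS] at h2
  exact ⟨h1, h2 σ⟩

theorem small_dbl {d e : ℕ} (h : Matrix (Fin d) (Fin d) ℝ[X])
    (he : ∀ i m, (h i m).natDegree ≤ e) (W : Submodule ℝ (Fin d → ℝ)) (hW : RatS W)
    (a L b η : ℝ) (hL : 0 < L) (hη : 0 < η) (hb : a ≤ b) (hb2 : b + L / 2 ≤ a + L)
    (y : ℝ) (hy : y ∈ Set.Ico a (a + L)) (hyW : ¬ Small W (hx h y) η) :
    ∃ y' ∈ Set.Ico b (b + L / 2), ¬ Small W (hx h y') (η / KD (d * e)) := by
  obtain ⟨j, p, hp, hS⟩ := polys h he W hW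
  rw [hS] at hyW
  push Not at hyW
  obtain ⟨σ, hσ⟩ := hyW
  obtain ⟨y', hy', h1⟩ := dbl (d * e) (p σ) (hp σ) a L b η hL hη hb hb2 y hy hσ
  refine ⟨y', hy', fun H => ?_⟩
  rw [hS] at H
  exact absurd (H σ) (not_lt.2 h1)

theorem small_open {d e : ℕ} (h : Matrix (Fin d) (Fin d) ℝ[X])
    (he : ∀ i m, (h i m).natDegree ≤ e) (W : Submodule ℝ (Fin d → ℝ)) (hW : RatS W)
    (a L μ : ℝ) (hL : 0 < L) (x : ℝ) (hx' : x ∈ Set.Ico a (a + L)) (hxW : Small W (hx h x) μ) :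
    ∃ n m : ℕ, m < 2 ^ n ∧ x ∈ dy a L n m ∧ ∀ y ∈ dy a L n m, Small W (hx h y) μ := by
  obtain ⟨j, p, -, hS⟩ := polys h he W hW
  have hopen : IsOpen {y : ℝ | ∀ σ, |(p σ).eval y| < μ} := by
    rw [Set.ofPred_forall]
    exact isOpen_iInter_of_finite fun σ => isOpen_lt ((p σ).continuous.abs) continuous_const
  obtain ⟨δ, hδ, hball⟩ := Metric.isOpen_iff.1 hopen x ((hS x μ).1 hxW)
  obtain ⟨n, hn⟩ := exists_pow_lt_of_lt_one (div_pos hδ hL) (by norm_num : (1 / 2 : ℝ) < 1)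
  have h2 : (0 : ℝ) < 2 ^ n := by positivity
  have hLn : L / 2 ^ n < δ := by
    rw [one_div, inv_pow] at hn
    have h3 : L * (2 ^ n)⁻¹ < L * (δ / L) := mul_lt_mul_of_pos_left hn hL
    have h4 : L * (δ / L) = δ := by field_simp
    rw [h4] at h3
    exact h3
  have hy0 : 0 ≤ (x - a) / L * 2 ^ n := by
    have : 0 ≤ x - a := by linarith [hx'.1]
    positivity
  have hq : 0 < L / 2 ^ n := by positivity
  have key : (x - a) / L * 2 ^ n = (x - a) / (L / 2 ^ n) := by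
    field_simp
  have hx1 : (x - a) / L < 1 := by
    rw [div_lt_one hL]
    linarith [hx'.2]
  set m := ⌊(x - a) / L * 2 ^ n⌋₊ with hm
  have hm1 : (m : ℝ) ≤ (x - a) / L * 2 ^ n := Nat.floor_le hy0
  have hm2 : (x - a) / L * 2 ^ n < m + 1 := Nat.lt_floor_add_one _
  rw [key] at hm1 hm2
  rw [le_div_iff₀ hq] at hm1
  rw [div_lt_iff₀ hq] at hm2
  have hmem : x ∈ dy a L n m := ⟨by linarith, by linarith⟩
  refine ⟨n, m, ?_, hmem, fun y hy => ?_⟩
  · rw [hm, Nat.floor_lt hy0]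
    push_cast
    nlinarith
  · rw [hS]
    apply hball
    rw [Metric.mem_ball, Real.dist_eq, abs_lt]
    have h5 : a + (m : ℝ) * (L / 2 ^ n) ≤ y := hy.1
    have h6 : y < a + ((m : ℝ) + 1) * (L / 2 ^ n) := hy.2
    constructor <;> linarith

end Sp637
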