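import Mathlib
import Pool.Agent.Work.MP_637dc3_nt.Sp.Dyadic
import Pool.Agent.Work.MP_637dc3_nt.Sp.SmallLem
import Pool.Agent.Work.MP_637dc3_nt.Sp.FlagStep

/-!
# Sp/QndInd (M-L): the induction of quantitative nondivergence (dyadic form of Kleinbock-Margulis)

Put `D = d e`, `K = KD D ≥ 1`, `c = 2 D ((D + 1) ε K ^ (d + 1) / ρ) ^ (1 / D)`. Induction on `n`.

`n = 0`: `F.card ≥ d`; the set is empty: for a point `x` of it `flag_step` gives `W ∈ Ext F`, `insert W F` is `Adm` with more than `d` elements,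
contradicting `adm_card`.

`n + 1`: apply `dyadic` to the set `E` with `Pr n m := ∃ W ∈ Ext F, ∀ y ∈ dy a L n m, Small W (hx h y) (ρ / K ^ F.card)` and the constant
`(n + 1) c`. `h0` is the hypothesis (`dy a L 0 0 = [a, a + L)`). `hcov`: for `x ∈ E`, `flag_step` gives `W ∈ Ext F` with `Small W (hx h x) ε`,
`ε ≤ ρ / K ^ d ≤ ρ / K ^ F.card` (`F.card ≤ d`), then `small_mono`, `small_open`. `hm`: let `J = dy a L (n'+1) m`, `J' = dy a L n' (m / 2)` its parent (`J` is the
left or the right half of `J'`). `Pr` gives `W₀ ∈ Ext F` with `Small W₀ (hx h y) (ρ / K ^ F.card)` for all `y ∈ J`; `¬ Pr` for the parent: every `W ∈ Ext F`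
has `y ∈ J'` with `¬ Small W (hx h y) (ρ / K ^ F.card)`, so by `small_dbl` there is `y' ∈ J` with `¬ Small W (hx h y') (ρ / K ^ (F.card + 1))` (*).
`F' = insert W₀ F` is `Adm`, `F'.card = F.card + 1`, `Ext F' ⊆ Ext F`, so the induction hypothesis applies to `F'` on `J` (by (*)): measure `≤ n c |J|`.
And `E ∩ J ⊆ {x ∈ J : Small W₀ (hx h x) ε} ∪ E_{F'} (J)` because `ρ / K ^ F.card ≤ 1` (`small_mono`). The first set has measure `≤ c |J|` by
`small_measure` and (*) (with `η = ρ / K ^ (F.card + 1) ≥ ρ / K ^ (d + 1)`; here `F.card + 1 ≤ d` as `F'` is `Adm`). `J` and `J'` have the form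
`[b, b + L')`.
-/

set_option autoImplicit false

open Matrix Polynomial MeasureTheory

namespace Sp637

private theorem adm_insert {d : ℕ} {F : Finset (Submodule ℝ (Fin d → ℝ))} (hF : Adm F)
    {W : Submodule ℝ (Fin d → ℝ)} (hW : W ∈ Ext F) : Adm (insert W F) ∧ (insert W F).card = F.card + 1 := by
  obtain ⟨h1, h2, h3, h4⟩ := hW
  refine ⟨⟨?_, ?_⟩, Finset.card_insert_of_notMem h3⟩
  · intro V hV
    rcases Finset.mem_insert.1 hV with rfl | hV
    · exact ⟨h1, h2⟩
    · exact hF.1 V hV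
  · intro V hV V' hV'
    rcases Finset.mem_insert.1 hV with e1 | k1
    · rcases Finset.mem_insert.1 hV' with e2 | k2
      · exact Or.inl (by rw [e1, e2])
      · rw [e1]
        exact h4 V' k2
    · rcases Finset.mem_insert.1 hV' with e2 | k2
      · rw [e2]
        exact (h4 V k1).symm
      · exact hF.2 V k1 V' k2

private theorem ext_insert {d : ℕ} {F : Finset (Submodule ℝ (Fin d → ℝ))}
    {W V : Submodule ℝ (Fin d → ℝ)} (hV : V ∈ Ext (insert W F)) : V ∈ Ext F := by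
  obtain ⟨h1, h2, h3, h4⟩ := hV
  exact ⟨h1, h2, fun h => h3 (Finset.mem_insert_of_mem h), fun V' hV' => h4 V' (Finset.mem_insert_of_mem hV')⟩

theorem qnd_ind (d e : ℕ) (hD : 1 ≤ d * e) (h : Matrix (Fin d) (Fin d) ℝ[X])
    (he : ∀ i m, (h i m).natDegree ≤ e) (ρ ε : ℝ) (hρ : 0 < ρ) (hρ1 : ρ ≤ 1) (hε : 0 < ε)
    (hερ : ε ≤ ρ / KD (d * e) ^ d) (n : ℕ) :
    ∀ (F : Finset (Submodule ℝ (Fin d → ℝ))), Adm F → d ≤ F.card + n → ∀ (a L : ℝ), 0 < L →
      (∀ W ∈ Ext F, ∃ x ∈ Set.Ico a (a + L), ¬ Small W (hx h x) (ρ / KD (d * e) ^ F.card)) →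
      volume {x : ℝ | x ∈ Set.Ico a (a + L) ∧
          (∀ W ∈ F, Small W (hx h x) 1 ∧ ¬ Small W (hx h x) ε) ∧
          ∃ v : Fin d → ℤ, v ≠ 0 ∧ ∀ i, |(hx h x *ᵥ cR v) i| < ε / d} ≤
        ENNReal.ofReal (n * (2 * (d * e : ℕ) *
          ((((d * e : ℕ) : ℝ) + 1) * (ε * KD (d * e) ^ (d + 1)) / ρ) ^ ((1 : ℝ) / (d * e : ℕ))) * L) := by
  have hK1 : (1 : ℝ) ≤ KD (d * e) := by
    unfold KD
    have h1 : (0 : ℝ) ≤ ((d * e : ℕ) : ℝ) := Nat.cast_nonneg _
    have h2 : (1 : ℝ) ≤ (2 * ((d * e : ℕ) : ℝ) + 2) ^ (d * e) := one_le_pow₀ (by linarith)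
    nlinarith
  have hK0 : (0 : ℝ) < KD (d * e) := by linarith
  induction n with
  | zero =>
    intro F hF hFn a L hL hEx
    have hempty : {x : ℝ | x ∈ Set.Ico a (a + L) ∧
          (∀ W ∈ F, Small W (hx h x) 1 ∧ ¬ Small W (hx h x) ε) ∧
          ∃ v : Fin d → ℤ, v ≠ 0 ∧ ∀ i, |(hx h x *ᵥ cR v) i| < ε / d} = ∅ := by
      rw [Set.eq_empty_iff_forall_notMem]
      rintro x ⟨-, hx2, v, hv, hxv⟩
      obtain ⟨W, hW, -⟩ := flag_step F hF (hx h x) ε hε (fun W hW => (hx2 W hW).1) (fun W hW => (hx2 W hW).2) v hv hxv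
      obtain ⟨h1, h2⟩ := adm_insert hF hW
      have h3 := adm_card _ h1
      omega
    rw [hempty]
    simp
  | succ n ih =>
    intro F hF hFn a L hL hEx
    set K := KD (d * e) with hKdef
    set c : ℝ := (2 * (d * e : ℕ) *
          ((((d * e : ℕ) : ℝ) + 1) * (ε * K ^ (d + 1)) / ρ) ^ ((1 : ℝ) / (d * e : ℕ))) with hc
    have hc0 : 0 ≤ c := by
      rw [hc]
      positivity
    have hFd : F.card ≤ d := adm_card F hF
    have hη0 : 0 < ρ / K ^ F.card := by positivity
    have hη1 : ρ / K ^ F.card ≤ 1 := by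
      rw [div_le_one (by positivity)]
      exact hρ1.trans (one_le_pow₀ hK1)
    have hεη : ε ≤ ρ / K ^ F.card := by
      refine hερ.trans ?_
      exact div_le_div_of_nonneg_left hρ.le (by positivity) (pow_le_pow_right₀ hK1 hFd)
    have key := dyadic a L ((n + 1 : ℕ) * c) hL (by positivity) {x : ℝ | x ∈ Set.Ico a (a + L) ∧
          (∀ W ∈ F, Small W (hx h x) 1 ∧ ¬ Small W (hx h x) ε) ∧
          ∃ v : Fin d → ℤ, v ≠ 0 ∧ ∀ i, |(hx h x *ᵥ cR v) i| < ε / d} (fun x hx' => hx'.1)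
          (fun k m => ∃ W ∈ Ext F, ∀ y ∈ dy a L k m, Small W (hx h y) (ρ / K ^ F.card)) ?_ ?_ ?_
    · exact key
    · rintro ⟨W, hW, hWs⟩
      obtain ⟨x, hx1, hx2⟩ := hEx W hW
      refine hx2 (hWs x ?_)
      simpa [dy] using hx1
    · rintro x ⟨hx1, hx2, v, hv, hxv⟩
      obtain ⟨W, hW, hWs⟩ := flag_step F hF (hx h x) ε hε (fun W hW => (hx2 W hW).1) (fun W hW => (hx2 W hW).2) v hv hxv
      obtain ⟨k, m, h1, h2, h3⟩ := small_open h he W hW.1 a L (ρ / K ^ F.card) hL x hx1 (small_mono hWs hεη)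
      exact ⟨k, m, h1, h2, W, hW, h3⟩
    · rintro k m hm ⟨W₀, hW₀, hW₀s⟩ hnP
      push Not at hnP
      set L' : ℝ := L / 2 ^ (k + 1) with hL'
      have hL'0 : 0 < L' := by positivity
      set b : ℝ := a + m * L' with hb
      have hJ : dy a L (k + 1) m = Set.Ico b (b + L') := by
        unfold dy
        rw [hb]
        congr 1
        ring
      set a' : ℝ := a + ((m / 2 : ℕ) : ℝ) * (2 * L') with ha'
      have h2L : L / 2 ^ k = 2 * L' := by
        rw [hL', pow_succ]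
        field_simp
      have hJ' : dy a L k (m / 2) = Set.Ico a' (a' + 2 * L') := by
        unfold dy
        rw [h2L, ha']
        congr 1
        ring
      have hmod : ((m / 2 : ℕ) : ℝ) * 2 + ((m % 2 : ℕ) : ℝ) = (m : ℝ) := by
        have := Nat.div_add_mod m 2
        have h' : (m / 2) * 2 + m % 2 = m := by omega
        exact_mod_cast h'
      have hmod2 : ((m % 2 : ℕ) : ℝ) ≤ 1 := by
        have : m % 2 ≤ 1 := by omega
        exact_mod_cast this
      have hmod0 : (0 : ℝ) ≤ ((m % 2 : ℕ) : ℝ) := Nat.cast_nonneg _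
      have hab : a' ≤ b := by
        rw [ha', hb]
        nlinarith
      have hab2 : b + 2 * L' / 2 ≤ a' + 2 * L' := by
        rw [ha', hb]
        nlinarith
      have hstar : ∀ W ∈ Ext F, ∃ y ∈ Set.Ico b (b + L'), ¬ Small W (hx h y) (ρ / K ^ (F.card + 1)) := by
        intro W hW
        obtain ⟨y, hy, hyW⟩ := hnP W hW
        rw [hJ'] at hy
        obtain ⟨y', hy', hyW'⟩ := small_dbl h he W hW.1 a' (2 * L') b (ρ / K ^ F.card) (by positivity) hη0 hab hab2 y hy hyW
        refine ⟨y', ?_, ?_⟩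
        · have : b + 2 * L' / 2 = b + L' := by ring
          rwa [this] at hy'
        · have : ρ / K ^ F.card / K = ρ / K ^ (F.card + 1) := by
            rw [pow_succ, div_div]
          rwa [this] at hyW'
      obtain ⟨hF', hF'c⟩ := adm_insert hF hW₀
      have ih' := ih (insert W₀ F) hF' (by omega) b L' hL'0 (by
        intro W hW
        rw [hF'c]
        exact hstar W (ext_insert hW))
      obtain ⟨y, hy, hyW⟩ := hstar W₀ hW₀
      have hη' : 0 < ρ / K ^ (F.card + 1) := by positivity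
      have hme := small_measure hD h he W₀ hW₀.1 b L' ε (ρ / K ^ (F.card + 1)) hL'0 hε hη' y hy hyW
      have hme2 : volume {x : ℝ | x ∈ Set.Ico b (b + L') ∧ Small W₀ (hx h x) ε} ≤ ENNReal.ofReal (c * L') := by
        refine hme.trans (ENNReal.ofReal_le_ofReal ?_)
        refine mul_le_mul_of_nonneg_right ?_ hL'0.le
        rw [hc]
        refine mul_le_mul_of_nonneg_left ?_ (by positivity)
        refine Real.rpow_le_rpow (by positivity) ?_ (by positivity)
        have e1 : (((d * e : ℕ) : ℝ) + 1) * ε / (ρ / K ^ (F.card + 1)) =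
            (((d * e : ℕ) : ℝ) + 1) * (ε * K ^ (F.card + 1)) / ρ := by
          field_simp
        rw [e1]
        refine div_le_div_of_nonneg_right ?_ hρ.le
        refine mul_le_mul_of_nonneg_left ?_ (by positivity)
        refine mul_le_mul_of_nonneg_left ?_ hε.le
        exact pow_le_pow_right₀ hK1 (by omega)
      rw [hJ]
      have hsub : {x : ℝ | x ∈ Set.Ico a (a + L) ∧
          (∀ W ∈ F, Small W (hx h x) 1 ∧ ¬ Small W (hx h x) ε) ∧
          ∃ v : Fin d → ℤ, v ≠ 0 ∧ ∀ i, |(hx h x *ᵥ cR v) i| < ε / d} ∩ Set.Ico b (b + L') ⊆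
          {x : ℝ | x ∈ Set.Ico b (b + L') ∧ Small W₀ (hx h x) ε} ∪
          {x : ℝ | x ∈ Set.Ico b (b + L') ∧
          (∀ W ∈ insert W₀ F, Small W (hx h x) 1 ∧ ¬ Small W (hx h x) ε) ∧
          ∃ v : Fin d → ℤ, v ≠ 0 ∧ ∀ i, |(hx h x *ᵥ cR v) i| < ε / d} := by
        rintro x ⟨⟨-, hx2, hx3⟩, hx4⟩
        by_cases hs : Small W₀ (hx h x) ε
        · exact Or.inl ⟨hx4, hs⟩
        · refine Or.inr ⟨hx4, ?_, hx3⟩
          intro W hW
          rcases Finset.mem_insert.1 hW with rfl | hW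
          · refine ⟨small_mono (hW₀s x ?_) hη1, hs⟩
            rw [hJ]
            exact hx4
          · exact hx2 W hW
      calc _ ≤ _ := measure_mono hsub
        _ ≤ _ := measure_union_le _ _
        _ ≤ ENNReal.ofReal (c * L') + ENNReal.ofReal (n * c * L') := add_le_add hme2 ih'
        _ = ENNReal.ofReal (c * L' + n * c * L') := (ENNReal.ofReal_add (by positivity) (by positivity)).symm
        _ = _ := by
          congr 1
          push_cast
          ring

end Sp637
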