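import Mathlib
import Pool.Agent.Work.MP_637dc3_nt.Sp.QndInd

/-!
# Sp/Qnd (S-M): quantitative nondivergence for polynomial curves of lattices

`qnd_ind` with `F = ∅`, `n = d`, and `ε` replaced by `d ε`. `Ext ∅` consists of the rational `W ≠ ⊥`; if `M` (size `j`, `j > 0`) is any integer basis of `W` then
the hypothesis gives `x, σ` with `ρ ≤ |mnr (hx h x * toR M) σ|`; use the minimal basis of `min_basis` to get `¬ Small W (hx h x) ρ`
(`KD ^ 0 = 1`). If `d ε > ρ / KD (d e) ^ d` the right side is `≥ L` for `C` large enough (`C (ε / ρ) ^ (1/D) ≥ 1`) and the bound is trivial.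
Otherwise the bound is `d · 2 D ((D + 1) d K ^ (d + 1)) ^ (1/D) (ε / ρ) ^ (1/D) L`.
-/

set_option autoImplicit false

open Matrix Polynomial MeasureTheory

namespace Sp637

theorem qnd (d e : ℕ) (hD : 1 ≤ d * e) : ∃ C : ℝ, 0 < C ∧
    ∀ (h : Matrix (Fin d) (Fin d) ℝ[X]), (∀ i m, (h i m).natDegree ≤ e) →
      ∀ (a L ρ : ℝ), 0 < L → 0 < ρ → ρ ≤ 1 →
        (∀ j : ℕ, 0 < j → ∀ M : Matrix (Fin d) (Fin j) ℤ, Indep M →
          ∃ x ∈ Set.Ico a (a + L), ∃ σ : Fin j → Fin d, ρ ≤ |mnr (hx h x * toR M) σ|) →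
        ∀ ε : ℝ, 0 < ε →
          volume {x : ℝ | x ∈ Set.Ico a (a + L) ∧
              ∃ v : Fin d → ℤ, v ≠ 0 ∧ ∀ i, |(hx h x *ᵥ cR v) i| < ε} ≤
            ENNReal.ofReal (C * (ε / ρ) ^ ((1 : ℝ) / (d * e : ℕ)) * L) := by
  have hd : 1 ≤ d := by
    rcases Nat.eq_zero_or_pos d with h0 | h0
    · rw [h0] at hD
      omega
    · exact h0
  have hd0 : (0 : ℝ) < d := by exact_mod_cast hd
  have hK : 1 ≤ KD (d * e) := by
    unfold KD
    have h1 : (0 : ℝ) ≤ ((d * e : ℕ) : ℝ) := Nat.cast_nonneg _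
    have h2 : (1 : ℝ) ≤ (2 * ((d * e : ℕ) : ℝ) + 2) ^ (d * e) := one_le_pow₀ (by linarith)
    nlinarith
  have hK0 : 0 < KD (d * e) := by linarith
  have hc0 : 0 ≤ (1 : ℝ) / (d * e : ℕ) := by positivity
  have hA : 0 < ((d : ℝ) * KD (d * e) ^ d) ^ ((1 : ℝ) / (d * e : ℕ)) :=
    Real.rpow_pos_of_pos (by positivity) _
  refine ⟨max (((d : ℝ) * KD (d * e) ^ d) ^ ((1 : ℝ) / (d * e : ℕ)))
    ((d : ℝ) * (2 * (d * e : ℕ) * ((((d * e : ℕ) : ℝ) + 1) * ((d : ℝ) * KD (d * e) ^ (d + 1))) ^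
      ((1 : ℝ) / (d * e : ℕ)))), lt_of_lt_of_le hA (le_max_left _ _), ?_⟩
  intro h he a L ρ hL hρ hρ1 hM ε hε
  have hr0 : 0 ≤ (ε / ρ) ^ ((1 : ℝ) / (d * e : ℕ)) := Real.rpow_nonneg (by positivity) _
  by_cases hcase : (d : ℝ) * ε ≤ ρ / KD (d * e) ^ d
  · have h1 := qnd_ind d e hD h he ρ ((d : ℝ) * ε) hρ hρ1 (by positivity) hcase d ∅ ⟨by simp, by simp⟩
      (by simp) a L hL ?_
    · have hset : {x : ℝ | x ∈ Set.Ico a (a + L) ∧
              ∃ v : Fin d → ℤ, v ≠ 0 ∧ ∀ i, |(hx h x *ᵥ cR v) i| < ε} =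
          {x : ℝ | x ∈ Set.Ico a (a + L) ∧
          (∀ W ∈ (∅ : Finset (Submodule ℝ (Fin d → ℝ))), Small W (hx h x) 1 ∧ ¬ Small W (hx h x) ((d : ℝ) * ε)) ∧
          ∃ v : Fin d → ℤ, v ≠ 0 ∧ ∀ i, |(hx h x *ᵥ cR v) i| < (d : ℝ) * ε / d} := by
        have h2 : (d : ℝ) * ε / d = ε := by field_simp
        rw [h2]
        ext x
        simp
      rw [hset]
      refine h1.trans (ENNReal.ofReal_le_ofReal ?_)
      apply mul_le_mul_of_nonneg_right _ hL.le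
      have h3 : (((d * e : ℕ) : ℝ) + 1) * ((d : ℝ) * ε * KD (d * e) ^ (d + 1)) / ρ =
          ((((d * e : ℕ) : ℝ) + 1) * ((d : ℝ) * KD (d * e) ^ (d + 1))) * (ε / ρ) := by
        field_simp
      rw [h3, Real.mul_rpow (by positivity) (by positivity)]
      calc (d : ℝ) * (2 * (d * e : ℕ) *
            (((((d * e : ℕ) : ℝ) + 1) * ((d : ℝ) * KD (d * e) ^ (d + 1))) ^ ((1 : ℝ) / (d * e : ℕ)) *
              (ε / ρ) ^ ((1 : ℝ) / (d * e : ℕ)))) =
          ((d : ℝ) * (2 * (d * e : ℕ) * ((((d * e : ℕ) : ℝ) + 1) * ((d : ℝ) * KD (d * e) ^ (d + 1))) ^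
            ((1 : ℝ) / (d * e : ℕ)))) * (ε / ρ) ^ ((1 : ℝ) / (d * e : ℕ)) := by ring
        _ ≤ _ := mul_le_mul_of_nonneg_right (le_max_right _ _) hr0
    · intro W hW
      obtain ⟨hW1, hW2, -, -⟩ := hW
      obtain ⟨j, M, hM1, hM2, hM3⟩ := min_basis W hW1
      have hj : 0 < j := by
        rcases Nat.eq_zero_or_pos j with h0 | h0
        · exfalso
          subst h0
          apply hW2
          rw [← hM2]
          unfold cspan
          rw [Set.range_eq_empty, Submodule.span_empty]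
        · exact h0
      obtain ⟨x, hx1, σ, hσ⟩ := hM j hj M hM1
      refine ⟨x, hx1, fun hS => ?_⟩
      have h4 := (hM3 (hx h x) _).1 hS σ
      rw [Finset.card_empty, pow_zero, div_one] at h4
      linarith
  · push Not at hcase
    have h5 : 1 ≤ ((d : ℝ) * KD (d * e) ^ d) ^ ((1 : ℝ) / (d * e : ℕ)) * (ε / ρ) ^ ((1 : ℝ) / (d * e : ℕ)) := by
      rw [← Real.mul_rpow (by positivity) (by positivity)]
      apply Real.one_le_rpow _ hc0
      have hKd : 0 < KD (d * e) ^ d := by positivity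
      rw [div_lt_iff₀ hKd] at hcase
      have h6 : (d : ℝ) * KD (d * e) ^ d * (ε / ρ) = ((d : ℝ) * ε * KD (d * e) ^ d) / ρ := by
        field_simp
      rw [h6, le_div_iff₀ hρ]
      linarith
    have h7 : volume {x : ℝ | x ∈ Set.Ico a (a + L) ∧
              ∃ v : Fin d → ℤ, v ≠ 0 ∧ ∀ i, |(hx h x *ᵥ cR v) i| < ε} ≤ volume (Set.Ico a (a + L)) :=
      measure_mono fun x hx' => hx'.1
    refine h7.trans ?_
    rw [Real.volume_Ico]
    apply ENNReal.ofReal_le_ofReal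
    have h8 : 1 ≤ max (((d : ℝ) * KD (d * e) ^ d) ^ ((1 : ℝ) / (d * e : ℕ)))
        ((d : ℝ) * (2 * (d * e : ℕ) * ((((d * e : ℕ) : ℝ) + 1) * ((d : ℝ) * KD (d * e) ^ (d + 1))) ^
          ((1 : ℝ) / (d * e : ℕ)))) * (ε / ρ) ^ ((1 : ℝ) / (d * e : ℕ)) :=
      h5.trans (mul_le_mul_of_nonneg_right (le_max_left _ _) hr0)
    nlinarith

end Sp637
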