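import Mathlib
import Pool.Agent.Work.MP_637dc3_nt.Sp.Defs

/-!
# Sp/BinDet (M): the binomial Vandermonde determinant is not zero

`(t.choose i : ℝ) = p_i (t) / i!` with `p_i = descPochhammer ℝ i` (monic of degree `i`; `Nat.descFactorial_eq_factorial_mul_choose`,
`descPochhammer_eval_eq_descFactorial`). So the determinant is `(∏ 1 / i!) * det (p_i (t_a))`, and `det (p_i (t_a)) = det (vandermonde t)` for monic
polynomials `p_i` of degree `i` (`Matrix.det_eval_matrixOfPolynomials_eq_det_vandermonde`), which is not zero for injective `t`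
(`Matrix.det_vandermonde_ne_zero_iff`).
-/

set_option autoImplicit false

open Matrix Polynomial MeasureTheory

namespace Sp637

theorem bin_det (j : ℕ) (t : Fin j → ℕ) (ht : Function.Injective t) :
    (Matrix.of (fun (i a : Fin j) => (((t a).choose (i : ℕ) : ℕ) : ℝ))).det ≠ 0 := by
  intro h0
  have h1 := Matrix.det_eval_matrixOfPolynomials_eq_det_vandermonde (fun a : Fin j => ((t a : ℕ) : ℝ))
    (fun i : Fin j => descPochhammer ℝ (i : ℕ)) (fun i => descPochhammer_natDegree ℝ (i : ℕ))
    (fun i => monic_descPochhammer ℝ (i : ℕ))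
  have h2 : (Matrix.of (fun (a i : Fin j) => (descPochhammer ℝ (i : ℕ)).eval ((t a : ℕ) : ℝ)))ᵀ =
      Matrix.diagonal (fun i : Fin j => (((i : ℕ).factorial : ℕ) : ℝ)) *
        (Matrix.of (fun (i a : Fin j) => (((t a).choose (i : ℕ) : ℕ) : ℝ))) := by
    ext i a
    rw [Matrix.diagonal_mul, Matrix.transpose_apply, Matrix.of_apply, Matrix.of_apply,
      descPochhammer_eval_eq_descFactorial, Nat.descFactorial_eq_factorial_mul_choose]
    push_cast
    ring
  have h3 : (Matrix.of (fun (a i : Fin j) => (descPochhammer ℝ (i : ℕ)).eval ((t a : ℕ) : ℝ))).det = 0 := by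
    rw [← Matrix.det_transpose, h2, Matrix.det_mul, h0, mul_zero]
  have h4 : (Matrix.vandermonde (fun a : Fin j => ((t a : ℕ) : ℝ))).det ≠ 0 := by
    rw [Matrix.det_vandermonde_ne_zero_iff]
    intro a b hab
    have hab' : ((t a : ℕ) : ℝ) = ((t b : ℕ) : ℝ) := hab
    exact ht (by exact_mod_cast hab')
  exact h4 (h1.trans h3)

end Sp637
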