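import Mathlib
import Pool.Agent.Work.MP_637dc3_nt.Sp.MinorNZ

/-!
# Sp/Echelon (M): column echelon form

Choose `σ` with `mnr N σ ≠ 0` (exists by `minor_ne_zero`) and `∑ a, (σ a : ℕ)` maximal; `σ` is injective (two equal rows give `0`). `A = (N.submatrix σ id)⁻¹`, so
`(N * A).submatrix σ id = 1`. Let `i > σ a` with `(N * A) i a ≠ 0`. For `σ' = Function.update σ a i` one has
`mnr (N * A) σ' = (N * A) i a` (the matrix is `1` with row `a` replaced by the row `(N*A) i ·`; `det_updateRow` / Laplace), so
`mnr N σ' = mnr (N * A) σ' / det A ≠ 0` and the sum of `σ'` is larger: contradiction.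
-/

set_option autoImplicit false

open Matrix Polynomial MeasureTheory

namespace Sp637

theorem echelon {d j : ℕ} (N : Matrix (Fin d) (Fin j) ℝ)
    (hN : LinearIndependent ℝ (fun (a : Fin j) (i : Fin d) => N i a)) :
    ∃ (A : Matrix (Fin j) (Fin j) ℝ) (σ : Fin j → Fin d), A.det ≠ 0 ∧ Function.Injective σ ∧
      (∀ a, (N * A) (σ a) a = 1) ∧ ∀ a i, σ a < i → (N * A) i a = 0 := by
  classical
  obtain ⟨σ0, -, h0⟩ := minor_ne_zero N hN
  obtain ⟨σ, hσS, hmax⟩ := (Finset.univ.filter (fun σ : Fin j → Fin d => mnr N σ ≠ 0)).exists_max_image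
    (fun σ => ∑ a, (σ a : ℕ)) ⟨σ0, by simp [h0]⟩
  have hσ : mnr N σ ≠ 0 := (Finset.mem_filter.1 hσS).2
  have hBu : IsUnit (N.submatrix σ id).det := isUnit_iff_ne_zero.2 hσ
  have hmul : (N.submatrix σ id) * (N.submatrix σ id)⁻¹ = 1 := Matrix.mul_nonsing_inv _ hBu
  have hsub : ∀ (τ : Fin j → Fin d) (A : Matrix (Fin j) (Fin j) ℝ),
      (N * A).submatrix τ id = (N.submatrix τ id) * A := by
    intro τ A
    ext a b
    simp [Matrix.mul_apply]
  have hdet : (N.submatrix σ id)⁻¹.det ≠ 0 := by
    have h := congrArg Matrix.det hmul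
    rw [Matrix.det_mul, Matrix.det_one] at h
    exact right_ne_zero_of_mul_eq_one h
  have hone : ∀ a b, (N * (N.submatrix σ id)⁻¹) (σ a) b = (1 : Matrix (Fin j) (Fin j) ℝ) a b := by
    intro a b
    rw [← hmul, ← hsub]
    rfl
  refine ⟨(N.submatrix σ id)⁻¹, σ, hdet, ?_, ?_, ?_⟩
  · intro a b hab
    by_contra hne
    apply hσ
    unfold mnr
    refine Matrix.det_zero_of_row_eq hne ?_
    funext c
    simp [hab]
  · intro a
    rw [hone, Matrix.one_apply_eq]
  · intro a i hai
    by_contra hne
    have h1 : (N * (N.submatrix σ id)⁻¹).submatrix (Function.update σ a i) id =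
        Matrix.updateRow 1 a ((N * (N.submatrix σ id)⁻¹) i) := by
      ext b c
      by_cases hb : b = a
      · subst hb
        simp
      · rw [Matrix.submatrix_apply, Function.update_of_ne hb, Matrix.updateRow_ne hb, id, hone]
    have h2 : ((N * (N.submatrix σ id)⁻¹).submatrix (Function.update σ a i) id).det =
        (N * (N.submatrix σ id)⁻¹) i a := by
      rw [h1]
      have := Matrix.cramer_transpose_apply (1 : Matrix (Fin j) (Fin j) ℝ)
        ((N * (N.submatrix σ id)⁻¹) i) a
      rw [← this, Matrix.transpose_one, Matrix.cramer_one]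
      rfl
    rw [hsub, Matrix.det_mul] at h2
    have h3 : mnr N (Function.update σ a i) ≠ 0 := by
      intro h4
      unfold mnr at h4
      rw [h4, zero_mul] at h2
      exact hne h2.symm
    have h5 := hmax (Function.update σ a i) (by simp [h3])
    have h6 : ∑ b, (σ b : ℕ) < ∑ b, ((Function.update σ a i) b : ℕ) := by
      refine Finset.sum_lt_sum ?_ ⟨a, Finset.mem_univ _, ?_⟩
      · intro b _
        by_cases hb : b = a
        · subst hb
          rw [Function.update_self]
          exact hai.le
        · rw [Function.update_of_ne hb]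
      · rw [Function.update_self]
        exact hai
    omega

end Sp637
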