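import Mathlib
import Pool.Agent.Work.MP_637dc3_nt.Sp.Echelon
import Pool.Agent.Work.MP_637dc3_nt.Sp.BinDet

/-!
# Sp/Wron (M-L): the Wronskian of linearly independent polynomials is not identically zero

Let `A, σ` be as in `echelon`, `t a = (σ a : ℕ)`, `B = N * A`. The entry `(i, a)` (`i < j`) of `U k x * B` is `∑_m C(m,i) x^(m-i) B_{m,a}`, where `B_{m,a} = 0` for
`m > t a` and `B_{t a, a} = 1`. So `x^i x^(-t a)` times the entry tends to `C(t a, i)` as `x → ∞` (each summand with `m < t a` is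
`C(m,i) B x^(m - t a) → 0`; if `t a < i` all summands vanish and `C(t a, i) = 0`). Hence
`det (x^i · entry · x^(-t a)) → det (C(t a, i))_{i,a} ≠ 0` (`bin_det`; `Continuous.matrix_det` or `tendsto` through `Matrix.det_apply`), so for some large `x > 0`
the determinant is not `0`. Now `det ((U k x * N * A)_{rows < j}) = det ((U k x * N)_{rows < j}) * det A` and row and column factors `x^i`, `x^(-t a)` are not `0`
(`Matrix.det_mul_row`, `det_mul_column`).
-/

set_option autoImplicit false

open Matrix Polynomial MeasureTheory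

namespace Sp637

private theorem wron_term (m i s : ℕ) (b : ℝ) (h1 : m = s → b = 1) (h2 : s < m → b = 0) :
    Filter.Tendsto (fun x : ℝ => x ^ i * (((m.choose i : ℕ) : ℝ) * x ^ (m - i) * b) * (x ^ s)⁻¹)
      Filter.atTop (nhds (if m = s then ((s.choose i : ℕ) : ℝ) else 0)) := by
  rcases lt_or_ge m i with hmi | hmi
  · have h0 : m.choose i = 0 := Nat.choose_eq_zero_of_lt hmi
    have h3 : (if m = s then ((s.choose i : ℕ) : ℝ) else 0) = 0 := by
      split_ifs with h
      · rw [← h, h0, Nat.cast_zero]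
      · rfl
    rw [h3, h0]
    simp only [Nat.cast_zero, zero_mul, mul_zero]
    exact tendsto_const_nhds
  · have e1 : ∀ x : ℝ, x ^ i * (((m.choose i : ℕ) : ℝ) * x ^ (m - i) * b) * (x ^ s)⁻¹ =
        ((m.choose i : ℕ) : ℝ) * b * (x ^ m * (x ^ s)⁻¹) := by
      intro x
      have h3 : x ^ m = x ^ i * x ^ (m - i) := by rw [← pow_add, Nat.add_sub_cancel' hmi]
      rw [h3]
      ring
    simp only [e1]
    rcases lt_trichotomy m s with h | h | h
    · rw [if_neg h.ne]
      have h4 : Filter.Tendsto (fun x : ℝ => x ^ m * (x ^ s)⁻¹) Filter.atTop (nhds 0) := by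
        have h5 : Filter.Tendsto (fun x : ℝ => (x ^ (s - m))⁻¹) Filter.atTop (nhds 0) :=
          (Filter.tendsto_pow_atTop (Nat.sub_ne_zero_of_lt h)).inv_tendsto_atTop
        refine h5.congr' ?_
        filter_upwards [Filter.eventually_gt_atTop (0 : ℝ)] with x hx
        have h6 : x ^ s = x ^ m * x ^ (s - m) := by rw [← pow_add, Nat.add_sub_cancel' h.le]
        have hx1 : x ^ m ≠ 0 := pow_ne_zero _ hx.ne'
        rw [h6, mul_inv, mul_inv_cancel_left₀ hx1]
      have h7 := h4.const_mul (((m.choose i : ℕ) : ℝ) * b)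
      rwa [mul_zero] at h7
    · rw [if_pos h, h1 h, ← h]
      refine (tendsto_const_nhds (x := ((m.choose i : ℕ) : ℝ))).congr' ?_
      filter_upwards [Filter.eventually_gt_atTop (0 : ℝ)] with x hx
      rw [mul_inv_cancel₀ (pow_ne_zero _ hx.ne'), mul_one, mul_one]
    · rw [if_neg h.ne', h2 h]
      simp only [mul_zero, zero_mul]
      exact tendsto_const_nhds

theorem wron (k j : ℕ) (hj : j ≤ k + 1) (N : Matrix (Fin (k + 1)) (Fin j) ℝ)
    (hN : LinearIndependent ℝ (fun (a : Fin j) (i : Fin (k + 1)) => N i a)) :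
    ∃ x : ℝ, mnr (U k x * N) (Fin.castLE hj) ≠ 0 := by
  by_contra hcon
  push Not at hcon
  obtain ⟨A, σ, -, hσ, hA1, hA2⟩ := echelon N hN
  set B := N * A with hB
  set P : ℝ → Matrix (Fin j) (Fin j) ℝ := fun x => Matrix.of fun i a =>
    x ^ (i : ℕ) * ((U k x * B) (Fin.castLE hj i) a) * (x ^ (σ a : ℕ))⁻¹ with hP
  have hdet : ∀ x, (P x).det = 0 := by
    intro x
    have e1 : P x = Matrix.of fun i a => (x ^ (σ a : ℕ))⁻¹ * (Matrix.of fun (i a : Fin j) =>
        x ^ (i : ℕ) * ((U k x * B).submatrix (Fin.castLE hj) id i a)) i a := by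
      ext i a
      simp only [hP, Matrix.of_apply, Matrix.submatrix_apply, id_eq]
      ring
    rw [e1, Matrix.det_mul_row, Matrix.det_mul_column]
    have e2 : (U k x * B).submatrix (Fin.castLE hj) id =
        (U k x * N).submatrix (Fin.castLE hj) id * A := by
      rw [hB, ← Matrix.mul_assoc]
      ext i a
      simp only [Matrix.submatrix_apply, Matrix.mul_apply, id_eq]
    have e3 := hcon x
    unfold mnr at e3
    rw [e2, Matrix.det_mul, e3, zero_mul, mul_zero, mul_zero]
  have hlim : Filter.Tendsto P Filter.atTop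
      (nhds (Matrix.of (fun (i a : Fin j) => ((((σ a : ℕ)).choose (i : ℕ) : ℕ) : ℝ)))) := by
    refine tendsto_pi_nhds.2 fun i => tendsto_pi_nhds.2 fun a => ?_
    have e1 : ∀ x, P x i a = ∑ m : Fin (k + 1), x ^ (i : ℕ) *
        ((((m : ℕ).choose (i : ℕ) : ℕ) : ℝ) * x ^ ((m : ℕ) - (i : ℕ)) * B m a) *
          (x ^ (σ a : ℕ))⁻¹ := by
      intro x
      simp only [hP, Matrix.of_apply, Matrix.mul_apply, U, Finset.mul_sum, Finset.sum_mul,
        Fin.val_castLE]
    have e2 : ((((σ a : ℕ)).choose (i : ℕ) : ℕ) : ℝ) = ∑ m : Fin (k + 1),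
        (if (m : ℕ) = (σ a : ℕ) then ((((σ a : ℕ)).choose (i : ℕ) : ℕ) : ℝ) else 0) := by
      rw [Finset.sum_eq_single (σ a)]
      · rw [if_pos rfl]
      · intro m _ hm
        rw [if_neg (fun h => hm (Fin.ext h))]
      · intro h
        exact absurd (Finset.mem_univ _) h
    rw [Matrix.of_apply, e2]
    simp only [e1]
    refine tendsto_finset_sum _ fun m _ => wron_term _ _ _ _ ?_ ?_
    · intro h
      rw [Fin.ext h]
      exact hA1 a
    · intro h
      exact hA2 a m h
  have hc : Continuous (fun M : Matrix (Fin j) (Fin j) ℝ => M.det) :=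
    Continuous.matrix_det continuous_id
  have h1 := (hc.tendsto _).comp hlim
  have h2 : (fun M : Matrix (Fin j) (Fin j) ℝ => M.det) ∘ P = fun _ => 0 := by
    funext x
    exact hdet x
  rw [h2] at h1
  have h3 := tendsto_nhds_unique h1 tendsto_const_nhds
  exact bin_det j (fun a => (σ a : ℕ)) (fun a b h => hσ (Fin.ext h)) h3

end Sp637
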