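import Mathlib
import Pool.Agent.Work.MP_637dc3_nt.Sp.Wron

/-!
# Sp/WronInt (M): integer version

`w (x) = mnr (U k x * toR M) (Fin.castLE hj)` is a polynomial in `x` of degree `≤ j k ≤ (k + 1) k` (entries have degree `≤ k`), not identically `0` by `wron`, so it is not
`0` at one of the `(k+1) k + 1` points `0, 1, ..., (k+1) k` (`Polynomial.card_roots`). For a natural number `n` the matrix `U k n * toR M` has integer entries, so
`w (n)` is an integer (`Int.cast` of an integer determinant, `Matrix.det` and `map`), hence `|w (n)| ≥ 1`.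
-/

set_option autoImplicit false

open Matrix Polynomial MeasureTheory

namespace Sp637

theorem wron_int (k j : ℕ) (hj : j ≤ k + 1) (M : Matrix (Fin (k + 1)) (Fin j) ℤ) (hM : Indep M) :
    ∃ n : ℕ, n ≤ (k + 1) * k ∧ 1 ≤ |mnr (U k (n : ℝ) * toR M) (Fin.castLE hj)| := by
  obtain ⟨x, hx0⟩ := wron k j hj (toR M) hM
  -- the polynomial
  obtain ⟨p, hp1, hp2⟩ : ∃ p : ℝ[X], p.natDegree ≤ (k + 1) * k ∧
      ∀ y : ℝ, p.eval y = mnr (U k y * toR M) (Fin.castLE hj) := by
    refine ⟨(((Matrix.of fun l i : Fin (k + 1) =>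
      (C ((((i : ℕ).choose (l : ℕ) : ℕ) : ℝ)) * X ^ ((i : ℕ) - (l : ℕ)) : ℝ[X])) *
      (M.map (fun z : ℤ => (C (z : ℝ) : ℝ[X])))).submatrix (Fin.castLE hj) id).det, ?_, ?_⟩
    · have hent : ∀ i a, (((Matrix.of fun l i : Fin (k + 1) =>
          (C ((((i : ℕ).choose (l : ℕ) : ℕ) : ℝ)) * X ^ ((i : ℕ) - (l : ℕ)) : ℝ[X])) *
          (M.map (fun z : ℤ => (C (z : ℝ) : ℝ[X])))) i a).natDegree ≤ k := by
        intro i a
        rw [Matrix.mul_apply]
        refine Polynomial.natDegree_sum_le_of_forall_le _ _ fun m _ => ?_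
        rw [Matrix.map_apply, Matrix.of_apply]
        refine (Polynomial.natDegree_mul_C_le _ _).trans ?_
        refine (Polynomial.natDegree_C_mul_X_pow_le _ _).trans ?_
        have := m.2
        omega
      rw [Matrix.det_apply]
      refine Polynomial.natDegree_sum_le_of_forall_le _ _ fun τ _ => ?_
      refine (Polynomial.natDegree_smul_le _ _).trans ?_
      refine (Polynomial.natDegree_prod_le _ _).trans ?_
      refine (Finset.sum_le_card_nsmul _ _ k fun a _ => ?_).trans ?_
      · rw [Matrix.submatrix_apply]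
        exact hent _ _
      · rw [Finset.card_univ, Fintype.card_fin, smul_eq_mul]
        exact Nat.mul_le_mul_right k hj
    · intro y
      rw [← Polynomial.coe_evalRingHom, RingHom.map_det]
      unfold mnr
      congr 1
      ext a b
      simp [Matrix.mul_apply, U, toR, Polynomial.eval_finsetSum]
  have hp0 : p ≠ 0 := by
    intro h
    apply hx0
    rw [← hp2 x, h, Polynomial.eval_zero]
  -- some point of `0, ..., (k+1) k` is not a root
  obtain ⟨n, hn1, hn2⟩ : ∃ n : ℕ, n ≤ (k + 1) * k ∧ p.eval (n : ℝ) ≠ 0 := by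
    by_contra hcon
    push Not at hcon
    have hsub : ((Finset.range ((k + 1) * k + 1)).image (fun n : ℕ => (n : ℝ))) ⊆ p.roots.toFinset := by
      intro y hy
      obtain ⟨n, hn, rfl⟩ := Finset.mem_image.1 hy
      rw [Multiset.mem_toFinset, Polynomial.mem_roots hp0]
      exact hcon n (Nat.lt_succ_iff.1 (Finset.mem_range.1 hn))
    have h1 := Finset.card_le_card hsub
    rw [Finset.card_image_of_injective _ Nat.cast_injective, Finset.card_range] at h1
    have h2 := (Multiset.toFinset_card_le p.roots).trans (Polynomial.card_roots' p)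
    omega
  refine ⟨n, hn1, ?_⟩
  rw [hp2] at hn2
  -- integrality
  obtain ⟨z, hz⟩ : ∃ z : ℤ, mnr (U k (n : ℝ) * toR M) (Fin.castLE hj) = (z : ℝ) := by
    refine ⟨(((Matrix.of fun l i : Fin (k + 1) =>
      ((((i : ℕ).choose (l : ℕ) : ℕ) : ℤ) * (n : ℤ) ^ ((i : ℕ) - (l : ℕ)) : ℤ)) * M).submatrix
        (Fin.castLE hj) id).det, ?_⟩
    rw [Int.cast_det]
    unfold mnr
    congr 1
    ext a b
    simp [Matrix.mul_apply, U, toR]
  rw [hz] at hn2 ⊢
  have h3 : z ≠ 0 := by
    rintro rfl
    exact hn2 (by simp)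
  have h4 := Int.one_le_abs h3
  exact_mod_cast h4

end Sp637
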