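import Mathlib
import Pool.Agent.Work.MP_637dc3_nt.Sp.Defs2
import Pool.Agent.Work.MP_637dc3_nt.Sp.Qnd
import Pool.Agent.Work.MP_637dc3_nt.Sp.WronInt
import Pool.Agent.Work.MP_637dc3_nt.Sp.IndepCard

/-!
# Sp/DualQ (M): measure of the dual bad set

`qnd` with `d = k + 1`, `e = k`, `a = -2`, `L = (k+1) k + 4`, `ρ = 1` and the polynomial matrix `h l m = C ((wt k Z Q l)⁻¹) * (C (choose m l) * X ^ (m - l))`, so
`hx h x = diagonal (wt⁻¹) * U k x` and `DualBad` is exactly the set of `qnd`. Hypothesis: `M` with `j > 0` independent columns, `j ≤ k + 1`; let `n` be as in `wron_int`,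
`x = n ∈ [0, (k+1) k]`, `σ = Fin.castLE`: `|mnr (hx h x * toR M) σ| = ∏_{i<j} (wt i)⁻¹ · |mnr (U k n * toR M) σ| ≥ ∏_{i<j} (wt i)⁻¹` (`det_mul_row` / `det_mul_column`).
For `j ≤ k`: `∏_{i<j} (wt i)⁻¹ = Q^(j k) / (Z^j Q^(j(j-1))) = Q^(j (k-j+1)) / Z^j ≥ (Q / Z)^j ≥ 1`. For `j = k + 1`: the product is
`(Q^(k (k-k+1)) / Z^k) · (Z^k / Q^k) = 1`.
-/

set_option autoImplicit false

open Matrix Polynomial MeasureTheory

namespace Sp637

private noncomputable def dqG (k : ℕ) (Z Q : ℝ) (n : ℕ) : ℝ :=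
  if n = k then Q ^ k / Z ^ k else Z * Q ^ (2 * n) / Q ^ k

private theorem dq_prod (k : ℕ) (Z Q : ℝ) (hQ : 0 < Q) (j : ℕ) (hj : j ≤ k) :
    (∏ i ∈ Finset.range j, dqG k Z Q i) * Q ^ (j * k + j) = Z ^ j * Q ^ (j * j) := by
  induction j with
  | zero => simp
  | succ j ih =>
    have ih' := ih (by omega)
    rw [Finset.prod_range_succ]
    have hg : dqG k Z Q j = Z * Q ^ (2 * j) / Q ^ k := by
      unfold dqG
      rw [if_neg (by omega)]
    have e1 : Q ^ ((j + 1) * k + (j + 1)) = Q ^ (j * k + j) * (Q ^ k * Q) := by ring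
    have e2 : Q ^ ((j + 1) * (j + 1)) = Q ^ (j * j) * (Q ^ (2 * j) * Q) := by ring
    rw [hg, e1, e2]
    calc (∏ i ∈ Finset.range j, dqG k Z Q i) * (Z * Q ^ (2 * j) / Q ^ k) *
          (Q ^ (j * k + j) * (Q ^ k * Q))
        = ((∏ i ∈ Finset.range j, dqG k Z Q i) * Q ^ (j * k + j)) * (Z * (Q ^ (2 * j) * Q)) := by
          field_simp
      _ = Z ^ j * Q ^ (j * j) * (Z * (Q ^ (2 * j) * Q)) := by rw [ih']
      _ = _ := by ring

private theorem dq_le (k : ℕ) (Z Q : ℝ) (hZ : 1 ≤ Z) (hZQ : Z ≤ Q) (j : ℕ) (hj : j ≤ k + 1) :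
    ∏ i ∈ Finset.range j, dqG k Z Q i ≤ 1 := by
  have hQ1 : 1 ≤ Q := hZ.trans hZQ
  have hQ : 0 < Q := by linarith
  have hZ0 : 0 < Z := by linarith
  rcases Nat.lt_or_ge k j with h | h
  · have hjk : j = k + 1 := by omega
    subst hjk
    rw [Finset.prod_range_succ]
    have hg : dqG k Z Q k = Q ^ k / Z ^ k := by
      unfold dqG
      rw [if_pos rfl]
    have h1 := dq_prod k Z Q hQ k le_rfl
    have h2 : (∏ i ∈ Finset.range k, dqG k Z Q i) * Q ^ k = Z ^ k := by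
      have h3 : Q ^ (k * k + k) = Q ^ k * Q ^ (k * k) := by ring
      rw [h3, ← mul_assoc] at h1
      exact mul_right_cancel₀ (by positivity) h1
    rw [hg, ← mul_div_assoc, h2, div_self (by positivity)]
  · have h1 := dq_prod k Z Q hQ j h
    have h2 : Z ^ j * Q ^ (j * j) ≤ 1 * Q ^ (j * k + j) := by
      calc Z ^ j * Q ^ (j * j) ≤ Q ^ j * Q ^ (j * k) := by
            refine mul_le_mul (pow_le_pow_left₀ hZ0.le hZQ j)
              (pow_le_pow_right₀ hQ1 (Nat.mul_le_mul_left j h)) (by positivity) (by positivity)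
        _ = 1 * Q ^ (j * k + j) := by ring
    rw [← h1] at h2
    exact le_of_mul_le_mul_right h2 (by positivity)

private theorem dq_pos (k : ℕ) (Z Q : ℝ) (hZ : 1 ≤ Z) (hZQ : Z ≤ Q) (n : ℕ) : 0 < dqG k Z Q n := by
  have hQ : 0 < Q := by linarith
  have hZ0 : 0 < Z := by linarith
  unfold dqG
  split_ifs <;> positivity

theorem dual_measure (k : ℕ) (hk : 1 ≤ k) : ∃ C : ℝ, 0 < C ∧ ∀ Z Q : ℝ, 1 ≤ Z → Z ≤ Q →
    ∀ ε : ℝ, 0 < ε →
      volume (DualBad k Z Q ε) ≤ ENNReal.ofReal (C * ε ^ ((1 : ℝ) / ((k + 1) * k : ℕ))) := by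
  have hD : 1 ≤ (k + 1) * k := Nat.mul_pos (Nat.succ_pos k) hk
  obtain ⟨C0, hC0, hq⟩ := qnd (k + 1) k hD
  refine ⟨C0 * (((k : ℝ) + 1) * k + 4), by positivity, ?_⟩
  intro Z Q hZ hZQ ε hε
  have hwt : ∀ l : Fin (k + 1), wt k Z Q l = dqG k Z Q (l : ℕ) := fun l => rfl
  have hwt0 : ∀ l : Fin (k + 1), 0 < wt k Z Q l := fun l => dq_pos k Z Q hZ hZQ l
  obtain ⟨h, hh⟩ : ∃ h : Matrix (Fin (k + 1)) (Fin (k + 1)) ℝ[X], ∀ l m, h l m =
      C ((wt k Z Q l)⁻¹) * (C ((((m : ℕ).choose (l : ℕ) : ℕ) : ℝ)) * X ^ ((m : ℕ) - (l : ℕ))) :=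
    ⟨Matrix.of fun l m => C ((wt k Z Q l)⁻¹) *
      (C ((((m : ℕ).choose (l : ℕ) : ℕ) : ℝ)) * X ^ ((m : ℕ) - (l : ℕ))), fun l m => rfl⟩
  have hdeg : ∀ i m, (h i m).natDegree ≤ k := by
    intro i m
    rw [hh]
    refine (Polynomial.natDegree_C_mul_le _ _).trans ?_
    refine (Polynomial.natDegree_C_mul_X_pow_le _ _).trans ?_
    have := m.2
    omega
  have hhx : ∀ x : ℝ, ∀ l m, hx h x l m = (wt k Z Q l)⁻¹ * U k x l m := by
    intro x l m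
    unfold hx U
    rw [Matrix.map_apply, hh, Matrix.of_apply]
    simp
  have hmul : ∀ (x : ℝ) (j : ℕ) (M : Matrix (Fin (k + 1)) (Fin j) ℤ) (l : Fin (k + 1)) (a : Fin j),
      (hx h x * toR M) l a = (wt k Z Q l)⁻¹ * (U k x * toR M) l a := by
    intro x j M l a
    rw [Matrix.mul_apply, Matrix.mul_apply, Finset.mul_sum]
    refine Finset.sum_congr rfl fun m _ => ?_
    rw [hhx, mul_assoc]
  have hvec : ∀ (x : ℝ) (v : Fin (k + 1) → ℤ) (l : Fin (k + 1)),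
      (hx h x *ᵥ cR v) l = (wt k Z Q l)⁻¹ * (U k x *ᵥ cR v) l := by
    intro x v l
    rw [Matrix.mulVec, Matrix.mulVec, dotProduct, dotProduct, Finset.mul_sum]
    refine Finset.sum_congr rfl fun m _ => ?_
    rw [hhx, mul_assoc]
  have hyp : ∀ j : ℕ, 0 < j → ∀ M : Matrix (Fin (k + 1)) (Fin j) ℤ, Indep M →
      ∃ x ∈ Set.Ico (-2 : ℝ) (-2 + (((k : ℝ) + 1) * k + 4)), ∃ σ : Fin j → Fin (k + 1),
        (1 : ℝ) ≤ |mnr (hx h x * toR M) σ| := by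
    intro j hj0 M hM
    have hj : j ≤ k + 1 := indep_card M hM
    obtain ⟨n, hn, hn1⟩ := wron_int k j hj M hM
    have hn' : (n : ℝ) ≤ ((k : ℝ) + 1) * k := by exact_mod_cast hn
    have hn0 : (0 : ℝ) ≤ n := Nat.cast_nonneg n
    refine ⟨(n : ℝ), ⟨by linarith, by linarith⟩, Fin.castLE hj, ?_⟩
    have e1 : mnr (hx h (n : ℝ) * toR M) (Fin.castLE hj) =
        (∏ i : Fin j, (wt k Z Q (Fin.castLE hj i))⁻¹) *
          mnr (U k (n : ℝ) * toR M) (Fin.castLE hj) := by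
      unfold mnr
      rw [← Matrix.det_mul_column]
      congr 1
      ext a b
      rw [Matrix.submatrix_apply, Matrix.of_apply, Matrix.submatrix_apply, hmul]
    have e2 : ∏ i : Fin j, (wt k Z Q (Fin.castLE hj i))⁻¹ =
        (∏ i ∈ Finset.range j, dqG k Z Q i)⁻¹ := by
      rw [Finset.prod_inv_distrib, ← Fin.prod_univ_eq_prod_range]
      rfl
    have hp0 : 0 < ∏ i ∈ Finset.range j, dqG k Z Q i :=
      Finset.prod_pos fun i _ => dq_pos k Z Q hZ hZQ i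
    have hp1 : 1 ≤ (∏ i ∈ Finset.range j, dqG k Z Q i)⁻¹ :=
      (one_le_inv₀ hp0).2 (dq_le k Z Q hZ hZQ j hj)
    rw [e1, e2, abs_mul, abs_of_pos (inv_pos.2 hp0)]
    calc (1 : ℝ) = 1 * 1 := (one_mul 1).symm
      _ ≤ _ := mul_le_mul hp1 hn1 zero_le_one (inv_pos.2 hp0).le
  have hfin := hq h hdeg (-2) (((k : ℝ) + 1) * k + 4) 1 (by positivity) one_pos le_rfl hyp ε hε
  refine (measure_mono ?_).trans (hfin.trans (le_of_eq ?_))
  · rintro x ⟨hx1, f, hf, hfx⟩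
    refine ⟨⟨hx1.1, by linarith [hx1.2]⟩, f, hf, fun l => ?_⟩
    rw [hvec, abs_mul, abs_of_pos (inv_pos.2 (hwt0 l)), inv_mul_eq_div,
      div_lt_iff₀ (hwt0 l)]
    exact hfx l
  · rw [div_one]
    congr 1
    ring

end Sp637
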