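import Mathlib
import Pool.Agent.Work.MP_637dc3_nt.Sp.Defs2

/-!
# Sp/DualPt (M): the dual point

(1) `Int.gcd_eq_gcd_ab`: `1 = num * gcdA + den * gcdB`, so `num * thq ≡ 1 (mod den)`; `Int.emod_nonneg`, `Int.emod_lt_of_pos`.
(2) Let `t = thq r`, `t' = thq s`, `q = r.den`, `q' = s.den`. If `t / q = t' / q'` then `t q' = t' q`, and `gcd (t, q) = 1 = gcd (t', q')` by (1), so
`q = q'`, `t = t'`, `r.num t ≡ 1 ≡ s.num t (mod q)`, so `r.num ≡ s.num (mod q)`, both are in `[0, q)` because `0 ≤ r, s < 1`, so `r = s`. Otherwise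
`|t / q - t' / q'| = |t q' - t' q| / (q q') ≥ 1 / (q q') ≥ 1 / Q ^ 2`.
-/

set_option autoImplicit false

open Matrix Polynomial MeasureTheory

namespace Sp637

theorem thq_spec (r : ℚ) : 0 ≤ thq r ∧ thq r < r.den ∧ ∃ p' : ℤ, r.num * thq r - p' * r.den = 1 := by
  have hq : (0 : ℤ) < (r.den : ℤ) := by exact_mod_cast r.den_pos
  refine ⟨Int.emod_nonneg _ hq.ne', Int.emod_lt_of_pos _ hq, ?_⟩
  have h1 : (Int.gcd r.num (r.den : ℤ) : ℤ) = 1 := by
    have h2 : Int.gcd r.num (r.den : ℤ) = 1 := by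
      have := r.reduced
      simpa [Int.gcd, Nat.Coprime] using this
    rw [h2]
    rfl
  have h3 := Int.gcd_eq_gcd_ab r.num (r.den : ℤ)
  rw [h1] at h3
  refine ⟨-Int.gcdB r.num (r.den : ℤ) - r.num * (Int.gcdA r.num (r.den : ℤ) / (r.den : ℤ)), ?_⟩
  have h4 := Int.emod_add_mul_ediv (Int.gcdA r.num (r.den : ℤ)) (r.den : ℤ)
  have h5 : thq r = Int.gcdA r.num (r.den : ℤ) -
      (r.den : ℤ) * (Int.gcdA r.num (r.den : ℤ) / (r.den : ℤ)) := by
    show Int.gcdA r.num (r.den : ℤ) % (r.den : ℤ) = _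
    linarith
  rw [h5]
  linear_combination -h3

theorem theta_mem (r : ℚ) : 0 ≤ theta r ∧ theta r < 1 := by
  obtain ⟨h0, h1, -⟩ := thq_spec r
  have hq : (0 : ℝ) < (r.den : ℝ) := by exact_mod_cast r.den_pos
  have h0' : (0 : ℝ) ≤ (thq r : ℝ) := by exact_mod_cast h0
  have h1' : (thq r : ℝ) < (r.den : ℝ) := by exact_mod_cast h1
  refine ⟨div_nonneg h0' hq.le, ?_⟩
  rw [theta, div_lt_one hq]
  exact h1'

theorem theta_sep (r s : ℚ) (hr0 : 0 ≤ r) (hr1 : r < 1) (hs0 : 0 ≤ s) (hs1 : s < 1) (hrs : r ≠ s)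
    (Q : ℝ) (hr : (r.den : ℝ) ≤ Q) (hs : (s.den : ℝ) ≤ Q) :
    1 / Q ^ 2 ≤ |theta r - theta s| := by
  obtain ⟨ht0, ht1, p', hp⟩ := thq_spec r
  obtain ⟨hu0, hu1, p'', hp'⟩ := thq_spec s
  have hq : (0 : ℝ) < (r.den : ℝ) := by exact_mod_cast r.den_pos
  have hq' : (0 : ℝ) < (s.den : ℝ) := by exact_mod_cast s.den_pos
  have hqZ : (0 : ℤ) < (r.den : ℤ) := by exact_mod_cast r.den_pos
  have hqZ' : (0 : ℤ) < (s.den : ℤ) := by exact_mod_cast s.den_pos
  have hnum : ∀ x : ℚ, 0 ≤ x → x < 1 → 0 ≤ x.num ∧ x.num < (x.den : ℤ) := by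
    intro x hx0 hx1
    refine ⟨Rat.num_nonneg.2 hx0, ?_⟩
    have h1 : ((x.num : ℚ)) / (x.den : ℚ) < 1 := by rw [Rat.num_div_den]; exact hx1
    rw [div_lt_one (by exact_mod_cast x.den_pos)] at h1
    exact_mod_cast h1
  by_cases hc : thq r * (s.den : ℤ) = thq s * (r.den : ℤ)
  · exfalso
    have c1 : IsCoprime (thq r) (r.den : ℤ) := ⟨r.num, -p', by linarith⟩
    have c2 : IsCoprime (thq s) (s.den : ℤ) := ⟨s.num, -p'', by linarith⟩
    have d1 : (r.den : ℤ) ∣ (s.den : ℤ) := by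
      apply c1.symm.dvd_of_dvd_mul_left
      exact ⟨thq s, by linarith⟩
    have d2 : (s.den : ℤ) ∣ (r.den : ℤ) := by
      apply c2.symm.dvd_of_dvd_mul_left
      exact ⟨thq r, by linarith⟩
    have hden : (r.den : ℤ) = (s.den : ℤ) :=
      Int.dvd_antisymm hqZ.le hqZ'.le d1 d2
    have hth : thq r = thq s := by
      rw [hden] at hc
      exact mul_right_cancel₀ hqZ'.ne' hc
    have d3 : (r.den : ℤ) ∣ (r.num - s.num) := by
      apply c1.symm.dvd_of_dvd_mul_left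
      refine ⟨p' - p'', ?_⟩
      rw [← hth, ← hden] at hp'
      linear_combination hp - hp'
    obtain ⟨a1, a2⟩ := hnum r hr0 hr1
    obtain ⟨b1, b2⟩ := hnum s hs0 hs1
    have hnn : r.num = s.num := by
      have h7 : |r.num - s.num| < (r.den : ℤ) := by
        rw [abs_lt]
        constructor <;> linarith
      have h8 := Int.eq_zero_of_abs_lt_dvd d3 h7
      linarith
    apply hrs
    apply Rat.ext hnn
    exact_mod_cast hden
  · have h1 : (1 : ℤ) ≤ |thq r * (s.den : ℤ) - thq s * (r.den : ℤ)| :=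
      Int.one_le_abs (sub_ne_zero.2 hc)
    have h2 : (1 : ℝ) ≤ |(thq r : ℝ) * (s.den : ℝ) - (thq s : ℝ) * (r.den : ℝ)| := by
      exact_mod_cast h1
    have h3 : theta r - theta s = ((thq r : ℝ) * (s.den : ℝ) - (thq s : ℝ) * (r.den : ℝ)) /
        ((r.den : ℝ) * (s.den : ℝ)) := by
      rw [theta, theta]
      field_simp
    have h5 : (r.den : ℝ) * (s.den : ℝ) ≤ Q ^ 2 := by
      rw [sq]
      exact mul_le_mul hr hs hq'.le (hq.le.trans hr)
    rw [h3, abs_div, abs_of_pos (mul_pos hq hq')]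
    calc 1 / Q ^ 2 ≤ 1 / ((r.den : ℝ) * (s.den : ℝ)) :=
          one_div_le_one_div_of_le (mul_pos hq hq') h5
      _ ≤ _ := by gcongr

end Sp637
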