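import Mathlib
import Pool.Agent.Work.MP_637dc3_nt.Sp.Defs

/-!
# Sp/UAlg (S-M): the Taylor matrix

`(U k x * U k y) l i = ∑_m C(m,l) x^(m-l) C(i,m) y^(i-m) = C(i,l) ∑_m C(i-l, m-l) x^(m-l) y^(i-m) = C(i,l) (x+y)^(i-l)`
(`Nat.choose_mul`, `add_pow`; or compare Taylor expansions). The rest follows: entries are `≤ 2 ^ k` in absolute value if `|x| ≤ 1`
(`Nat.choose_le_two_pow`-type bound, `C(i,l) ≤ 2^i ≤ 2^k`), the inverse of `U k x` is `U k (-x)`.
-/

set_option autoImplicit false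

open Matrix Polynomial MeasureTheory

namespace Sp637


private theorem ualg_term (x y : ℝ) (l i m : ℕ) :
    ((m.choose l : ℕ) : ℝ) * x ^ (m - l) * (((i.choose m : ℕ) : ℝ) * y ^ (i - m)) =
      if l ≤ m ∧ m ≤ i then
        ((i.choose l : ℕ) : ℝ) * (x ^ (m - l) * y ^ (i - m) * (((i - l).choose (m - l) : ℕ) : ℝ))
      else 0 := by
  split_ifs with h
  · have h1 : ((i.choose m : ℕ) : ℝ) * ((m.choose l : ℕ) : ℝ) =
        ((i.choose l : ℕ) : ℝ) * (((i - l).choose (m - l) : ℕ) : ℝ) := by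
      have := Nat.choose_mul (n := i) (k := m) (s := l) h.1
      exact_mod_cast this
    linear_combination (x ^ (m - l) * y ^ (i - m)) * h1
  · rw [not_and_or, not_le, not_le] at h
    rcases h with h | h
    · rw [Nat.choose_eq_zero_of_lt h]; simp
    · rw [Nat.choose_eq_zero_of_lt h]; simp

theorem U_add (k : ℕ) (x y : ℝ) : U k (x + y) = U k x * U k y := by
  ext l i
  rw [Matrix.mul_apply]
  simp only [U, Matrix.of_apply]
  simp_rw [ualg_term]
  rw [Fin.sum_univ_eq_sum_range (fun m => if (l : ℕ) ≤ m ∧ m ≤ (i : ℕ) then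
      (((i : ℕ).choose l : ℕ) : ℝ) * (x ^ (m - (l : ℕ)) * y ^ ((i : ℕ) - m) *
        ((((i : ℕ) - (l : ℕ)).choose (m - (l : ℕ)) : ℕ) : ℝ)) else 0) (k + 1)]
  rw [← Finset.sum_filter]
  rcases lt_or_ge (i : ℕ) (l : ℕ) with hil | hil
  · rw [Nat.choose_eq_zero_of_lt hil]
    simp
  · have hset : (Finset.range (k + 1)).filter (fun m => (l : ℕ) ≤ m ∧ m ≤ (i : ℕ)) =
        (Finset.range ((i : ℕ) - (l : ℕ) + 1)).map (addLeftEmbedding (l : ℕ)) := by
      ext m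
      simp only [Finset.mem_filter, Finset.mem_range, Finset.mem_map, addLeftEmbedding_apply]
      constructor
      · rintro ⟨h1, h2, h3⟩
        exact ⟨m - l, by omega, by omega⟩
      · rintro ⟨a, h1, h2⟩
        have := i.isLt
        omega
    rw [hset, Finset.sum_map, ← Finset.mul_sum, add_pow]
    congr 1
    refine Finset.sum_congr rfl fun m hm => ?_
    rw [addLeftEmbedding_apply, Nat.add_sub_cancel_left,
      show (i : ℕ) - ((l : ℕ) + m) = (i : ℕ) - (l : ℕ) - m by omega]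

theorem U_zero (k : ℕ) : U k 0 = 1 := by
  ext l i
  simp only [U, Matrix.of_apply, Matrix.one_apply]
  split_ifs with h
  · subst h; simp
  · rcases lt_or_ge (i : ℕ) (l : ℕ) with hil | hil
    · rw [Nat.choose_eq_zero_of_lt hil]; simp
    · have : (i : ℕ) - (l : ℕ) ≠ 0 := by
        have : (l : ℕ) ≠ i := fun h' => h (Fin.ext h')
        omega
      rw [zero_pow this, mul_zero]

theorem U_neg_mul (k : ℕ) (x : ℝ) : U k (-x) * U k x = 1 := by
  rw [← U_add, neg_add_cancel, U_zero]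

theorem U_row_zero {k : ℕ} (P : Fin (k + 1) → ℤ) (x : ℝ) : (U k x *ᵥ cR P) 0 = ev P x := by
  simp only [Matrix.mulVec, dotProduct, U, Matrix.of_apply, cR, ev]
  refine Finset.sum_congr rfl fun i _ => ?_
  simp [mul_comm]

theorem U_row_last {k : ℕ} (P : Fin (k + 1) → ℤ) (x : ℝ) :
    (U k x *ᵥ cR P) (Fin.last k) = P (Fin.last k) := by
  simp only [Matrix.mulVec, dotProduct, U, Matrix.of_apply, cR]
  rw [Finset.sum_eq_single (Fin.last k)]
  · simp
  · intro i _ hi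
    have h1 : (i : ℕ) < k := by
      have := i.isLt
      have : (i : ℕ) ≠ k := fun h => hi (Fin.ext (by simpa using h))
      omega
    rw [Fin.val_last, Nat.choose_eq_zero_of_lt h1]
    simp
  · intro h; exact absurd (Finset.mem_univ _) h

theorem U_entry {k : ℕ} {x : ℝ} (hx : |x| ≤ 1) (l i : Fin (k + 1)) : |U k x l i| ≤ 2 ^ k := by
  simp only [U, Matrix.of_apply]
  rw [abs_mul, abs_pow, Nat.abs_cast]
  have h1 : |x| ^ ((i : ℕ) - (l : ℕ)) ≤ 1 := pow_le_one₀ (abs_nonneg _) hx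
  have h2 : (((i : ℕ).choose (l : ℕ) : ℕ) : ℝ) ≤ 2 ^ k := by
    have h3 : (i : ℕ).choose (l : ℕ) ≤ 2 ^ (i : ℕ) := Nat.choose_le_two_pow _ _
    have h4 : 2 ^ (i : ℕ) ≤ 2 ^ k := Nat.pow_le_pow_right (by norm_num) (by have := i.isLt; omega)
    exact_mod_cast h3.trans h4
  calc _ ≤ (2 : ℝ) ^ k * 1 := mul_le_mul h2 h1 (by positivity) (by positivity)
    _ = _ := mul_one _

private theorem ualg_bound {k : ℕ} {x : ℝ} (hx : |x| ≤ 1) (v : Fin (k + 1) → ℝ) (B : ℝ)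
    (h : ∀ i, |v i| ≤ B) (l : Fin (k + 1)) :
    |(U k x *ᵥ v) l| ≤ ((k : ℝ) + 1) * 2 ^ k * B := by
  simp only [Matrix.mulVec, dotProduct]
  refine (Finset.abs_sum_le_sum_abs _ _).trans ?_
  have h1 : ∀ i ∈ (Finset.univ : Finset (Fin (k + 1))), |U k x l i * v i| ≤ 2 ^ k * B := by
    intro i _
    rw [abs_mul]
    exact mul_le_mul (U_entry hx l i) (h i) (abs_nonneg _) (by positivity)
  refine (Finset.sum_le_card_nsmul _ _ _ h1).trans (le_of_eq ?_)
  rw [Finset.card_univ, Fintype.card_fin, nsmul_eq_mul]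
  push_cast
  ring

theorem U_bound {k : ℕ} {x : ℝ} (hx : |x| ≤ 1) (P : Fin (k + 1) → ℤ) (B : ℝ)
    (h : ∀ i, |(P i : ℝ)| ≤ B) (l : Fin (k + 1)) :
    |(U k x *ᵥ cR P) l| ≤ ((k : ℝ) + 1) * 2 ^ k * B :=
  ualg_bound hx (cR P) B h l

private theorem ualg_inv {k : ℕ} (v : Fin (k + 1) → ℝ) (x : ℝ) :
    U k (-x) *ᵥ (U k x *ᵥ v) = v := by
  rw [Matrix.mulVec_mulVec, U_neg_mul, Matrix.one_mulVec]

theorem coef_bound {k : ℕ} {x : ℝ} (hx : |x| ≤ 1) (P : Fin (k + 1) → ℤ) (B : ℝ)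
    (h : ∀ l, |(U k x *ᵥ cR P) l| ≤ B) (i : Fin (k + 1)) :
    |(P i : ℝ)| ≤ ((k : ℝ) + 1) * 2 ^ k * B := by
  have h1 := ualg_bound (x := -x) (by rwa [abs_neg]) (U k x *ᵥ cR P) B h i
  rw [ualg_inv] at h1
  exact h1

theorem taylor_ev {k : ℕ} (P : Fin (k + 1) → ℤ) (x t : ℝ) :
    ev P (x + t) = ∑ l : Fin (k + 1), (U k x *ᵥ cR P) l * t ^ (l : ℕ) := by
  rw [← U_row_zero, add_comm x t, U_add, ← Matrix.mulVec_mulVec]
  conv_lhs => simp only [Matrix.mulVec, dotProduct]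
  refine Finset.sum_congr rfl fun l _ => ?_
  rw [mul_comm]
  congr 1
  simp [U]

theorem U_mulVec_ne {k : ℕ} (P : Fin (k + 1) → ℤ) (hP : P ≠ 0) (x : ℝ) : U k x *ᵥ cR P ≠ 0 := by
  intro h
  apply hP
  have h1 := ualg_inv (cR P) x
  rw [h, Matrix.mulVec_zero] at h1
  funext i
  have h2 := congrFun h1 i
  simp only [cR, Pi.zero_apply] at h2
  exact_mod_cast h2.symm


end Sp637
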