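import Mathlib
import Pool.Agent.Work.MP_637dc3_nt.Sp.UAlg

/-!
# Sp/Gamma (M-L): the unimodular change of variable

Let `f (t) = ∑_m P_m (p t + p')^m (q t + q')^(k-m)`, an integer polynomial of degree `≤ k`. With `t = u - q'/q`: `q t + q' = q u` and
`p t + p' = p u - (p q' - p' q) / q = p u - 1/q`. So `f (u - q'/q) = ∑_m P_m (p u - 1/q)^m (q u)^(k-m)`. The coefficient of `u^(k-i)` is
`∑_m P_m C(m,i) p^(m-i) (-1/q)^i q^(k-m) = (-1)^i q^(k-2i) ∑_m P_m C(m,i) (p/q)^(m-i)`, and it is also the divided derivative of order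
`k - i` of `f` at `-q'/q`. With `l = k - i`: `|(U k (-q'/q) *ᵥ f) l| = q^(2l - k) |(U k (p/q) *ᵥ P) (k - l)|`. If `f = 0` then all `(U k (p/q) *ᵥ P) = 0`, so `P = 0`
(`U_mulVec_ne`). (Suggestion: work with `Polynomial ℤ` for `f`, `Polynomial.taylor` / `coeff` for the expansion, or prove the identity
of real polynomials by `Polynomial.funext` and compare coefficients.)
-/

set_option autoImplicit false

open Matrix Polynomial MeasureTheory

namespace Sp637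

/-- the transformed integer polynomial -/
private noncomputable def gF (k : ℕ) (p q p' q' : ℤ) (P : Fin (k + 1) → ℤ) : ℤ[X] :=
  ∑ m : Fin (k + 1), C (P m) * (C p * X + C p') ^ (m : ℕ) * (C q * X + C q') ^ (k - (m : ℕ))

private theorem gF_deg (k : ℕ) (p q p' q' : ℤ) (P : Fin (k + 1) → ℤ) :
    (gF k p q p' q' P).natDegree < k + 1 := by
  rw [gF, Nat.lt_succ_iff]
  apply natDegree_sum_le_of_forall_le
  intro m _
  have h1 : (C p * X + C p' : ℤ[X]).natDegree ≤ 1 := natDegree_linear_le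
  have h2 : (C q * X + C q' : ℤ[X]).natDegree ≤ 1 := natDegree_linear_le
  have h3 : ((C p * X + C p' : ℤ[X]) ^ (m : ℕ)).natDegree ≤ (m : ℕ) := by
    calc _ ≤ (m : ℕ) * (C p * X + C p' : ℤ[X]).natDegree := natDegree_pow_le
      _ ≤ (m : ℕ) * 1 := Nat.mul_le_mul_left _ h1
      _ = m := mul_one _
  have h4 : ((C q * X + C q' : ℤ[X]) ^ (k - (m : ℕ))).natDegree ≤ k - (m : ℕ) := by
    calc _ ≤ (k - (m : ℕ)) * (C q * X + C q' : ℤ[X]).natDegree := natDegree_pow_le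
      _ ≤ (k - (m : ℕ)) * 1 := Nat.mul_le_mul_left _ h2
      _ = k - (m : ℕ) := mul_one _
  have h5 := natDegree_mul_le (p := C (P m) * (C p * X + C p' : ℤ[X]) ^ (m : ℕ))
    (q := (C q * X + C q' : ℤ[X]) ^ (k - (m : ℕ)))
  have h6 := natDegree_C_mul_le (P m) ((C p * X + C p' : ℤ[X]) ^ (m : ℕ))
  have h7 := m.isLt
  omega

private theorem ev_gF (k : ℕ) (p q p' q' : ℤ) (P : Fin (k + 1) → ℤ) (x : ℝ) :
    ev (fun i : Fin (k + 1) => (gF k p q p' q' P).coeff (i : ℕ)) x =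
      ∑ m : Fin (k + 1), (P m : ℝ) * ((p : ℝ) * x + p') ^ (m : ℕ) *
        ((q : ℝ) * x + q') ^ (k - (m : ℕ)) := by
  have h1 : ((gF k p q p' q' P).map (Int.castRingHom ℝ)).eval x =
      ∑ m : Fin (k + 1), (P m : ℝ) * ((p : ℝ) * x + p') ^ (m : ℕ) *
        ((q : ℝ) * x + q') ^ (k - (m : ℕ)) := by
    rw [gF, Polynomial.map_sum, Polynomial.eval_finsetSum]
    apply Finset.sum_congr rfl
    intro m _
    simp
  rw [← h1, Polynomial.eval_eq_sum_range' (n := k + 1)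
    (lt_of_le_of_lt natDegree_map_le (gF_deg k p q p' q' P)), ev, Finset.sum_range]
  apply Finset.sum_congr rfl
  intro i _
  rw [Polynomial.coeff_map]
  rfl

private theorem coeff_eq {n : ℕ} (A B : Fin n → ℝ)
    (h : ∀ t : ℝ, t ≠ 0 → ∑ l : Fin n, A l * t ^ (l : ℕ) = ∑ l : Fin n, B l * t ^ (l : ℕ)) :
    A = B := by
  have key : (∑ l : Fin n, C (A l) * X ^ (l : ℕ) : ℝ[X]) = ∑ l : Fin n, C (B l) * X ^ (l : ℕ) := by
    apply Polynomial.eq_of_infinite_eval_eq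
    apply Set.Infinite.mono (s := {t : ℝ | t ≠ 0})
    · intro t ht
      show Polynomial.eval t _ = Polynomial.eval t _
      rw [Polynomial.eval_finsetSum, Polynomial.eval_finsetSum]
      simpa using h t ht
    · exact Set.infinite_of_finite_compl (by
        have : {t : ℝ | t ≠ 0}ᶜ = {0} := by
          ext t
          simp
        rw [this]
        exact Set.finite_singleton 0)
  have hc : ∀ (D : Fin n → ℝ) (l : Fin n),
      (∑ l : Fin n, C (D l) * X ^ (l : ℕ) : ℝ[X]).coeff (l : ℕ) = D l := by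
    intro D l
    rw [Polynomial.finsetSum_coeff]
    rw [Finset.sum_eq_single l]
    · simp
    · intro b _ hb
      rw [Polynomial.coeff_C_mul, Polynomial.coeff_X_pow, if_neg, mul_zero]
      intro he
      exact hb (Fin.ext he.symm)
    · intro hl
      exact absurd (Finset.mem_univ l) hl
  funext l
  rw [← hc A l, ← hc B l, key]

theorem gamma (k : ℕ) (p q p' q' : ℤ) (hq : 0 < q) (hdet : p * q' - p' * q = 1)
    (P : Fin (k + 1) → ℤ) :
    ∃ f : Fin (k + 1) → ℤ, (P ≠ 0 → f ≠ 0) ∧ ∀ l : Fin (k + 1),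
      |(U k (-((q' : ℝ) / q)) *ᵥ cR f) l| =
        |(U k ((p : ℝ) / q) *ᵥ cR P) (Fin.rev l)| * (q : ℝ) ^ (2 * (l : ℕ)) / (q : ℝ) ^ k := by
  have hqR : (0 : ℝ) < q := by exact_mod_cast hq
  have hq0 : (q : ℝ) ≠ 0 := hqR.ne'
  have hdR : (p : ℝ) * q' - p' * q = 1 := by exact_mod_cast hdet
  set f : Fin (k + 1) → ℤ := fun i => (gF k p q p' q' P).coeff (i : ℕ) with hf
  set D := U k ((p : ℝ) / q) *ᵥ cR P with hD
  have key : (fun l => (U k (-((q' : ℝ) / q)) *ᵥ cR f) l) =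
      fun l : Fin (k + 1) => (-1) ^ (Fin.rev l : ℕ) * (D (Fin.rev l) * (q : ℝ) ^ (2 * (l : ℕ)) /
        (q : ℝ) ^ k) := by
    apply coeff_eq
    intro t ht
    rw [← taylor_ev f (-((q' : ℝ) / q)) t, hf, ev_gF]
    have hqt : (q : ℝ) * t ≠ 0 := mul_ne_zero hq0 ht
    have e1 : ∀ m : Fin (k + 1), (P m : ℝ) * ((p : ℝ) * (-((q' : ℝ) / q) + t) + p') ^ (m : ℕ) *
        ((q : ℝ) * (-((q' : ℝ) / q) + t) + q') ^ (k - (m : ℕ)) =
        ((q : ℝ) * t) ^ k * ((P m : ℝ) * ((p : ℝ) / q + -(1 / (q ^ 2 * t))) ^ (m : ℕ)) := by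
      intro m
      have a1 : (q : ℝ) * (-((q' : ℝ) / q) + t) + q' = q * t := by
        field_simp
        ring
      have a2 : (p : ℝ) * (-((q' : ℝ) / q) + t) + p' =
          (q * t) * ((p : ℝ) / q + -(1 / (q ^ 2 * t))) := by
        field_simp
        linear_combination (-1 : ℝ) * hdR
      rw [a1, a2, mul_pow]
      have a3 : ((q : ℝ) * t) ^ k = (q * t) ^ (m : ℕ) * (q * t) ^ (k - (m : ℕ)) := by
        rw [← pow_add]
        congr 1
        have := m.isLt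
        omega
      rw [a3]
      ring
    rw [Finset.sum_congr rfl (fun m _ => e1 m), ← Finset.mul_sum]
    have e2 := taylor_ev P ((p : ℝ) / q) (-(1 / (q ^ 2 * t)))
    rw [ev] at e2
    rw [e2, ← hD, Finset.mul_sum, ← Equiv.sum_comp (Fin.revPerm (n := k + 1))]
    apply Finset.sum_congr rfl
    intro l _
    rw [Fin.revPerm_apply]
    have h3 : ((Fin.rev l : Fin (k + 1)) : ℕ) + (l : ℕ) = k := by
      rw [Fin.val_rev]
      have := l.isLt
      omega
    have h4 : (q : ℝ) ^ k = q ^ ((Fin.rev l : Fin (k + 1)) : ℕ) * q ^ (l : ℕ) := by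
      rw [← pow_add, h3]
    have h5 : (t : ℝ) ^ k = t ^ ((Fin.rev l : Fin (k + 1)) : ℕ) * t ^ (l : ℕ) := by
      rw [← pow_add, h3]
    have h6 : (-(1 / ((q : ℝ) ^ 2 * t))) ^ ((Fin.rev l : Fin (k + 1)) : ℕ) =
        (-1) ^ ((Fin.rev l : Fin (k + 1)) : ℕ) /
          ((q ^ ((Fin.rev l : Fin (k + 1)) : ℕ)) ^ 2 * t ^ ((Fin.rev l : Fin (k + 1)) : ℕ)) := by
      rw [neg_eq_neg_one_mul, mul_pow, div_pow, one_pow, mul_pow, ← pow_mul, ← pow_mul,
        mul_comm 2 ((Fin.rev l : Fin (k + 1)) : ℕ)]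
      ring
    rw [mul_pow, h4, h5, h6, mul_comm 2 (l : ℕ), pow_mul]
    have h7 : (q : ℝ) ^ ((Fin.rev l : Fin (k + 1)) : ℕ) ≠ 0 := pow_ne_zero _ hq0
    have h8 : (t : ℝ) ^ ((Fin.rev l : Fin (k + 1)) : ℕ) ≠ 0 := pow_ne_zero _ ht
    have h9 : (q : ℝ) ^ (l : ℕ) ≠ 0 := pow_ne_zero _ hq0
    field_simp
  have habs : ∀ l : Fin (k + 1), |(U k (-((q' : ℝ) / q)) *ᵥ cR f) l| =
      |D (Fin.rev l)| * (q : ℝ) ^ (2 * (l : ℕ)) / (q : ℝ) ^ k := by
    intro l
    rw [congrFun key l, abs_mul, abs_pow, abs_neg, abs_one, one_pow, one_mul, abs_div, abs_mul,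
      abs_of_pos (pow_pos hqR _), abs_of_pos (pow_pos hqR _)]
  refine ⟨f, ?_, habs⟩
  intro hP hf0
  apply U_mulVec_ne P hP ((p : ℝ) / q)
  funext j
  have h1 := habs (Fin.rev j)
  rw [hf0, Fin.rev_rev] at h1
  have h2 : cR (0 : Fin (k + 1) → ℤ) = 0 := by
    funext i
    simp [cR]
  rw [h2, Matrix.mulVec_zero] at h1
  have h3 : |D j| * (q : ℝ) ^ (2 * ((Fin.rev j : Fin (k + 1)) : ℕ)) / (q : ℝ) ^ k = 0 := by
    rw [← h1]
    simp
  have h4 : |D j| = 0 := by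
    rcases div_eq_zero_iff.1 h3 with h | h
    · rcases mul_eq_zero.1 h with h | h
      · exact h
      · exact absurd h (pow_ne_zero _ hq0)
    · exact absurd h (pow_ne_zero _ hq0)
  exact abs_eq_zero.1 h4

end Sp637
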