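import Mathlib
import Pool.Agent.Work.MP_637dc3_nt.Sp.Defs2
import Pool.Agent.Work.MP_637dc3_nt.Sp.Gamma
import Pool.Agent.Work.MP_637dc3_nt.Sp.DualPt
import Pool.Agent.Work.MP_637dc3_nt.Sp.UAlg

/-!
# Sp/Near (M): a bad rational gives an interval in the dual bad set

`p = r.num`, `q = r.den`, `q' = thq r`, `θ = theta r = q'/q`. Let `P` be the polynomial and `f` from `gamma` (`p/q = r`). For `l < k`:
`|(U k (-θ) *ᵥ f) l| ≤ (k+1) 2^k X q^(2l) / q^k` (`U_bound`, `0 ≤ r < 1`), and for `l = k` (`Fin.rev l = 0`): `|f_k| = q^k |ev P r| < q^k X^(-k-(k+1)η)`.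
Let `|x + θ| ≤ 1/(2 Q^2) ≤ 1/q^2`, `s = x + θ`: `U k x = U k (s + (-θ)) = U k s * U k (-θ)`, so `|(U k x *ᵥ f) l| ≤ ∑_{m ≥ l} C(m,l) |s|^(m-l) |(U k (-θ) *ᵥ f) m|`. For `l < k` every summand is
`≤ 2^k q^(-2(m-l)) (k+1) 2^k X q^(2m) / q^k = (k+1) 4^k X q^(2l)/q^k` (for `m = k` use `q^k X^(...) ≤ X q^(2k)/q^k`), so
`|(U k x *ᵥ f) l| ≤ (k+1)^2 4^k X q^(2l) / q^k ≤ (k+1)^2 4^k κ₀^(-k) X Q^(2l)/Q^k` (if `2l ≥ k` then `q^(2l-k) ≤ Q^(2l-k)`; otherwise `q^(2l-k) ≤ (κ₀ Q)^(2l-k) ≤ κ₀^(-k) Q^(2l-k)`)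
`= (k+1)^2 4^k κ₀^(-k) X^(-η) wt_l`, since `wt_l = X^(1+η) Q^(2l)/Q^k`. For `l = k`: `< q^k X^(-k-(k+1)η) ≤ X^(-η) Q^k / (X^(1+η))^k = X^(-η) wt_k`.
So `C = 2 (k+1)^2 4^k κ₀^(-k)` works (strict inequality). `f ≠ 0` as `P ≠ 0` (`ev P r ≠ 0`). Range: `-θ ∈ (-1, 0]`, so `x ∈ [-2, (k+1)k+2)` (`Q ≥ 1`).
-/

set_option autoImplicit false

open Matrix Polynomial MeasureTheory

namespace Sp637

theorem near (k : ℕ) (hk : 1 ≤ k) (κ₀ : ℝ) (hκ : 0 < κ₀) (hκ1 : κ₀ ≤ 1) : ∃ C : ℝ, 1 ≤ C ∧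
    ∀ (Q X η : ℝ) (r : ℚ), 1 ≤ X → 0 < η → 0 ≤ r → r < 1 → κ₀ * Q ≤ r.den → (r.den : ℝ) ≤ Q →
      (∃ P : Fin (k + 1) → ℤ, ev P (r : ℝ) ≠ 0 ∧ (∀ i, |(P i : ℝ)| ≤ X) ∧
        |ev P (r : ℝ)| < X ^ (-(k : ℝ) - ((k : ℝ) + 1) * η)) →
      ∀ x : ℝ, |x + theta r| ≤ 1 / (2 * Q ^ 2) →
        x ∈ DualBad k (X ^ (1 + η)) Q (C * X ^ (-η)) := by
  have hκk : 1 ≤ (κ₀ ^ k)⁻¹ := (one_le_inv₀ (pow_pos hκ k)).2 (pow_le_one₀ hκ.le hκ1)
  have hk1 : (1 : ℝ) ≤ (k : ℝ) + 1 := by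
    have : (0 : ℝ) ≤ k := Nat.cast_nonneg k
    linarith
  have h4k : (1 : ℝ) ≤ 4 ^ k := one_le_pow₀ (by norm_num)
  have hC1 : (1 : ℝ) ≤ ((k : ℝ) + 1) ^ 2 * 4 ^ k * (κ₀ ^ k)⁻¹ := by
    have h1 : (1 : ℝ) ≤ ((k : ℝ) + 1) ^ 2 := one_le_pow₀ hk1
    calc (1 : ℝ) = 1 * 1 * 1 := by norm_num
      _ ≤ ((k : ℝ) + 1) ^ 2 * 4 ^ k * (κ₀ ^ k)⁻¹ := by gcongr
  refine ⟨2 * (((k : ℝ) + 1) ^ 2 * 4 ^ k * (κ₀ ^ k)⁻¹), by linarith, ?_⟩
  rintro Q X η r hX hη hr0 hr1 hrQ hrQ' ⟨P, hP0, hPX, hPr⟩ x hx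
  have hX0 : 0 < X := by linarith
  have hqN : 0 < r.den := r.den_pos
  have hq1 : (1 : ℝ) ≤ (r.den : ℝ) := by exact_mod_cast hqN
  have hq0 : (0 : ℝ) < (r.den : ℝ) := by linarith
  have hQ1 : 1 ≤ Q := hq1.trans hrQ'
  have hQ0 : 0 < Q := by linarith
  obtain ⟨ht0, ht1, p', hp'⟩ := thq_spec r
  obtain ⟨f, hf0, hf⟩ := gamma k r.num r.den p' (thq r) (by exact_mod_cast hqN) hp' P
  have hrR : ((r.num : ℝ) / ((r.den : ℤ) : ℝ)) = (r : ℝ) := by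
    rw [Int.cast_natCast]
    exact_mod_cast Rat.num_div_den r
  have hth : ((thq r : ℝ) / ((r.den : ℤ) : ℝ)) = theta r := by
    rw [Int.cast_natCast]
    rfl
  rw [hrR, hth] at hf
  simp only [Int.cast_natCast] at hf
  have hr0' : (0 : ℝ) ≤ (r : ℝ) := by exact_mod_cast hr0
  have hr1' : (r : ℝ) < 1 := by exact_mod_cast hr1
  have hrabs : |(r : ℝ)| ≤ 1 := by
    rw [abs_of_nonneg hr0']
    exact hr1'.le
  set B := ((k : ℝ) + 1) * 2 ^ k * X with hB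
  have hDB : ∀ j, |(U k (r : ℝ) *ᵥ cR P) j| ≤ B := U_bound hrabs P X hPX
  have hB0 : 0 < B := by positivity
  have hA : ∀ m : Fin (k + 1), |(U k (-theta r) *ᵥ cR f) m| ≤
      B * (r.den : ℝ) ^ (2 * (m : ℕ)) / (r.den : ℝ) ^ k := by
    intro m
    rw [hf m]
    gcongr
    exact hDB _
  have hs : |x + theta r| ≤ 1 / (r.den : ℝ) ^ 2 := by
    refine hx.trans ?_
    apply one_div_le_one_div_of_le (by positivity)
    have h1 : (r.den : ℝ) ^ 2 ≤ Q ^ 2 := by gcongr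
    nlinarith [sq_nonneg Q]
  have hsplit : ∀ l : Fin (k + 1), (U k x *ᵥ cR f) l =
      ∑ m : Fin (k + 1), U k (x + theta r) l m * (U k (-theta r) *ᵥ cR f) m := by
    intro l
    have h1 : x = (x + theta r) + -theta r := by ring
    conv_lhs => rw [h1, U_add, ← Matrix.mulVec_mulVec]
    rfl
  have hθ := theta_mem r
  have hs2 : |x + theta r| ≤ 1 / 2 := by
    refine hx.trans ?_
    apply one_div_le_one_div_of_le (by norm_num)
    have : 1 ≤ Q ^ 2 := one_le_pow₀ hQ1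
    linarith
  have hs3 := abs_le.1 hs2
  refine ⟨⟨by linarith [hs3.1, hθ.2], ?_⟩, f, ?_, ?_⟩
  · have h1 : (0 : ℝ) ≤ ((k : ℝ) + 1) * k := by positivity
    linarith [hs3.2, hθ.1]
  · apply hf0
    rintro rfl
    apply hP0
    simp [ev]
  · intro l
    by_cases hl : (l : ℕ) = k
    · -- the last row
      have hll : l = Fin.last k := Fin.ext hl
      have h1 : (U k x *ᵥ cR f) l = (U k (-theta r) *ᵥ cR f) l := by
        rw [hll, U_row_last, U_row_last]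
      have h2 : |(U k (-theta r) *ᵥ cR f) l| = |ev P (r : ℝ)| * (r.den : ℝ) ^ k := by
        rw [hf l, hll, Fin.rev_last, U_row_zero, Fin.val_last, two_mul, pow_add]
        have : (r.den : ℝ) ^ k ≠ 0 := pow_ne_zero _ hq0.ne'
        field_simp
      rw [h1, h2, wt, if_pos hl]
      have h3 : |ev P (r : ℝ)| * (r.den : ℝ) ^ k <
          X ^ (-(k : ℝ) - ((k : ℝ) + 1) * η) * Q ^ k := by
        have h4 : (r.den : ℝ) ^ k ≤ Q ^ k := by gcongr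
        calc |ev P (r : ℝ)| * (r.den : ℝ) ^ k
            < X ^ (-(k : ℝ) - ((k : ℝ) + 1) * η) * (r.den : ℝ) ^ k :=
              mul_lt_mul_of_pos_right hPr (pow_pos hq0 k)
          _ ≤ _ := by gcongr
      refine h3.trans_le ?_
      have h5 : (X ^ (1 + η)) ^ k = X ^ ((1 + η) * (k : ℝ)) := by
        rw [← Real.rpow_natCast, ← Real.rpow_mul hX0.le]
      have h6 : X ^ (-(k : ℝ) - ((k : ℝ) + 1) * η) = X ^ (-η) / (X ^ (1 + η)) ^ k := by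
        rw [h5, ← Real.rpow_sub hX0]
        congr 1
        ring
      rw [h6]
      have h7 : 0 < (X ^ (1 + η)) ^ k := by positivity
      have h8 : 0 < X ^ (-η) := by positivity
      calc X ^ (-η) / (X ^ (1 + η)) ^ k * Q ^ k
          = 1 * (X ^ (-η) * (Q ^ k / (X ^ (1 + η)) ^ k)) := by ring
        _ ≤ (2 * (((k : ℝ) + 1) ^ 2 * 4 ^ k * (κ₀ ^ k)⁻¹)) *
            (X ^ (-η) * (Q ^ k / (X ^ (1 + η)) ^ k)) := by
            gcongr
            linarith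
        _ = _ := by ring
    · -- the other rows
      rw [hsplit l, wt, if_neg hl]
      have hterm : ∀ m : Fin (k + 1), |U k (x + theta r) l m * (U k (-theta r) *ᵥ cR f) m| ≤
          2 ^ k * (B * (r.den : ℝ) ^ (2 * (l : ℕ)) / (r.den : ℝ) ^ k) := by
        intro m
        by_cases hlm : (l : ℕ) ≤ (m : ℕ)
        · have e1 : |U k (x + theta r) l m| ≤
              2 ^ k * (1 / (r.den : ℝ) ^ (2 * ((m : ℕ) - (l : ℕ)))) := by
            rw [U, Matrix.of_apply, abs_mul, abs_pow, abs_of_nonneg (Nat.cast_nonneg _)]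
            have c1 : ((((m : ℕ).choose (l : ℕ) : ℕ)) : ℝ) ≤ 2 ^ k := by
              have c2 : (m : ℕ).choose (l : ℕ) ≤ 2 ^ (m : ℕ) := Nat.choose_le_two_pow _ _
              have c3 : (2 : ℕ) ^ (m : ℕ) ≤ 2 ^ k :=
                Nat.pow_le_pow_right (by norm_num) (Nat.lt_succ_iff.1 m.isLt)
              exact_mod_cast c2.trans c3
            have c4 : |x + theta r| ^ ((m : ℕ) - (l : ℕ)) ≤
                1 / (r.den : ℝ) ^ (2 * ((m : ℕ) - (l : ℕ))) := by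
              calc |x + theta r| ^ ((m : ℕ) - (l : ℕ))
                  ≤ (1 / (r.den : ℝ) ^ 2) ^ ((m : ℕ) - (l : ℕ)) := by gcongr
                _ = _ := by rw [_root_.one_div_pow, ← pow_mul]
            gcongr
          rw [abs_mul]
          calc |U k (x + theta r) l m| * |(U k (-theta r) *ᵥ cR f) m|
              ≤ (2 ^ k * (1 / (r.den : ℝ) ^ (2 * ((m : ℕ) - (l : ℕ))))) *
                (B * (r.den : ℝ) ^ (2 * (m : ℕ)) / (r.den : ℝ) ^ k) := by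
                gcongr
                exact hA m
            _ = 2 ^ k * (B * (r.den : ℝ) ^ (2 * (l : ℕ)) / (r.den : ℝ) ^ k) := by
                have c5 : (r.den : ℝ) ^ (2 * (m : ℕ)) =
                    (r.den : ℝ) ^ (2 * (l : ℕ)) * (r.den : ℝ) ^ (2 * ((m : ℕ) - (l : ℕ))) := by
                  rw [← pow_add]
                  congr 1
                  omega
                rw [c5]
                have c6 : (r.den : ℝ) ^ (2 * ((m : ℕ) - (l : ℕ))) ≠ 0 := pow_ne_zero _ hq0.ne'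
                field_simp
        · have e1 : U k (x + theta r) l m = 0 := by
            rw [U, Matrix.of_apply, Nat.choose_eq_zero_of_lt (not_le.1 hlm)]
            simp
          rw [e1, zero_mul, abs_zero]
          positivity
      have hsum : |∑ m : Fin (k + 1), U k (x + theta r) l m * (U k (-theta r) *ᵥ cR f) m| ≤
          ((k : ℝ) + 1) * (2 ^ k * (B * (r.den : ℝ) ^ (2 * (l : ℕ)) / (r.den : ℝ) ^ k)) := by
        refine (Finset.abs_sum_le_sum_abs _ _).trans ?_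
        refine (Finset.sum_le_sum fun m _ => hterm m).trans (le_of_eq ?_)
        rw [Finset.sum_const, Finset.card_univ, Fintype.card_fin, nsmul_eq_mul]
        push_cast
        ring
      refine hsum.trans_lt ?_
      have e2 : X ^ (-η) * X ^ (1 + η) = X := by
        rw [← Real.rpow_add hX0]
        have : -η + (1 + η) = 1 := by ring
        rw [this, Real.rpow_one]
      have e3 : (r.den : ℝ) ^ (2 * (l : ℕ)) / (r.den : ℝ) ^ k ≤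
          (κ₀ ^ k)⁻¹ * (Q ^ (2 * (l : ℕ)) / Q ^ k) := by
        have c1 : (r.den : ℝ) ^ (2 * (l : ℕ)) ≤ Q ^ (2 * (l : ℕ)) := by gcongr
        have c2 : (κ₀ * Q) ^ k ≤ (r.den : ℝ) ^ k := by gcongr
        calc (r.den : ℝ) ^ (2 * (l : ℕ)) / (r.den : ℝ) ^ k
            ≤ Q ^ (2 * (l : ℕ)) / (κ₀ * Q) ^ k := by gcongr
          _ = (κ₀ ^ k)⁻¹ * (Q ^ (2 * (l : ℕ)) / Q ^ k) := by
              rw [mul_pow]
              field_simp
      have e4 : ((k : ℝ) + 1) * (2 ^ k * (B * (r.den : ℝ) ^ (2 * (l : ℕ)) / (r.den : ℝ) ^ k)) =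
          (((k : ℝ) + 1) ^ 2 * 4 ^ k) * X *
            ((r.den : ℝ) ^ (2 * (l : ℕ)) / (r.den : ℝ) ^ k) := by
        rw [hB, show (4 : ℝ) ^ k = 2 ^ k * 2 ^ k by rw [← mul_pow]; norm_num]
        ring
      rw [e4]
      have e5 : 2 * (((k : ℝ) + 1) ^ 2 * 4 ^ k * (κ₀ ^ k)⁻¹) * X ^ (-η) *
          (X ^ (1 + η) * Q ^ (2 * (l : ℕ)) / Q ^ k) =
          2 * ((((k : ℝ) + 1) ^ 2 * 4 ^ k) * X * ((κ₀ ^ k)⁻¹ * (Q ^ (2 * (l : ℕ)) / Q ^ k))) := by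
        rw [show 2 * (((k : ℝ) + 1) ^ 2 * 4 ^ k * (κ₀ ^ k)⁻¹) * X ^ (-η) *
          (X ^ (1 + η) * Q ^ (2 * (l : ℕ)) / Q ^ k) = 2 * (((k : ℝ) + 1) ^ 2 * 4 ^ k *
            (κ₀ ^ k)⁻¹) * (X ^ (-η) * X ^ (1 + η)) * (Q ^ (2 * (l : ℕ)) / Q ^ k) by ring, e2]
        ring
      rw [e5]
      have e6 : 0 < (((k : ℝ) + 1) ^ 2 * 4 ^ k) * X *
          ((κ₀ ^ k)⁻¹ * (Q ^ (2 * (l : ℕ)) / Q ^ k)) := by positivity
      calc (((k : ℝ) + 1) ^ 2 * 4 ^ k) * X * ((r.den : ℝ) ^ (2 * (l : ℕ)) / (r.den : ℝ) ^ k)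
          ≤ (((k : ℝ) + 1) ^ 2 * 4 ^ k) * X * ((κ₀ ^ k)⁻¹ * (Q ^ (2 * (l : ℕ)) / Q ^ k)) := by
            gcongr
        _ < _ := by linarith

end Sp637
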