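import Mathlib
import Pool.Agent.Work.MP_637dc3_nt.Sp.DualQ
import Pool.Agent.Work.MP_637dc3_nt.Sp.Near

/-!
# Sp/BadCount (M-L): few rationals are bad

For `r ∈ s` let `I_r` be the open interval with centre `-theta r` and radius `1/(2 Q^2)`. They are pairwise disjoint by `theta_sep`, so the union has measure `s.card / Q^2`.
By `near` (constant `C₁`), with `X = 2 ^ n`, every `I_r` is contained in `⋃ DualBad k ((2^n)^(1+η)) Q (C₁ (2^n)^(-η))` over the `n` with `Q^δ ≤ 2^n`, `(2^n)^(1+η) ≤ Q`. By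
`dual_measure` (constant `C₂`, `D = (k+1) k`) the measure of the union is at most `∑_{n : Q^δ ≤ 2^n} C₂ C₁^(1/D) (2^(-η/D))^n ≤ C₃ Q^(-δη/D)`, `C₃ = C₂ C₁^(1/D) / (1 - 2^(-η/D))`
(geometric series starting at the first `n₀` with `2^(n₀) ≥ Q^δ`). So `s.card ≤ C₃ Q^(-δη/D) Q^2 ≤ ϑ Q^2` for `Q` large.
-/

set_option autoImplicit false

open Matrix Polynomial MeasureTheory

namespace Sp637

theorem bad_count (k : ℕ) (hk : 1 ≤ k) (κ₀ δ η ϑ : ℝ) (hκ : 0 < κ₀) (hκ1 : κ₀ ≤ 1) (hδ : 0 < δ)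
    (hη : 0 < η) (hϑ : 0 < ϑ) : ∃ Q₀ : ℝ, 1 ≤ Q₀ ∧ ∀ Q : ℝ, Q₀ ≤ Q → ∀ s : Finset ℚ,
      (∀ r ∈ s, 0 ≤ r ∧ r < 1 ∧ κ₀ * Q ≤ r.den ∧ (r.den : ℝ) ≤ Q ∧ BadAt k δ η Q r) →
      (s.card : ℝ) ≤ ϑ * Q ^ 2 := by
  obtain ⟨C₁, hC₁, hnear⟩ := near k hk κ₀ hκ hκ1
  obtain ⟨C₂, hC₂, hdual⟩ := dual_measure k hk
  have hC₁0 : 0 < C₁ := by linarith
  have hDN : 0 < (k + 1) * k := Nat.mul_pos (Nat.succ_pos k) hk
  have hD0 : (0 : ℝ) < (((k + 1) * k : ℕ) : ℝ) := by exact_mod_cast hDN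
  obtain ⟨β, hβ⟩ : ∃ β : ℝ, β = (1 : ℝ) / (((k + 1) * k : ℕ) : ℝ) := ⟨_, rfl⟩
  have hβ0 : 0 < β := by rw [hβ]; positivity
  obtain ⟨ρ, hρ⟩ : ∃ ρ : ℝ, ρ = (2 : ℝ) ^ (-(η * β / 2)) := ⟨_, rfl⟩
  have hρ0 : 0 < ρ := by rw [hρ]; positivity
  have hρ1 : ρ < 1 := by
    rw [hρ]
    apply Real.rpow_lt_one_of_one_lt_of_neg (by norm_num)
    have : 0 < η * β / 2 := by positivity
    linarith
  obtain ⟨C₃, hC₃⟩ : ∃ C₃ : ℝ, C₃ = C₂ * C₁ ^ β * (1 - ρ)⁻¹ := ⟨_, rfl⟩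
  have h1ρ : 0 < 1 - ρ := by linarith
  have hC₃0 : 0 < C₃ := by rw [hC₃]; positivity
  obtain ⟨e, he⟩ : ∃ e : ℝ, e = δ * (η * β / 2) := ⟨_, rfl⟩
  have he0 : 0 < e := by rw [he]; positivity
  refine ⟨max 1 ((C₃ / ϑ) ^ (1 / e)), le_max_left _ _, ?_⟩
  intro Q hQ s hs
  have hQ1 : 1 ≤ Q := (le_max_left _ _).trans hQ
  have hQ0 : 0 < Q := by linarith
  have hQe : C₃ / ϑ ≤ Q ^ e := by
    have h1 : (C₃ / ϑ) ^ (1 / e) ≤ Q := (le_max_right _ _).trans hQ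
    have h2 : ((C₃ / ϑ) ^ (1 / e)) ^ e ≤ Q ^ e :=
      Real.rpow_le_rpow (by positivity) h1 he0.le
    rwa [← Real.rpow_mul (by positivity), one_div_mul_cancel he0.ne', Real.rpow_one] at h2
  -- the intervals
  have hQ2 : 0 < Q ^ 2 := by positivity
  let I : ℚ → Set ℝ := fun r => Set.Ioo (-theta r - 1 / (2 * Q ^ 2)) (-theta r + 1 / (2 * Q ^ 2))
  have hIvol : ∀ r, volume (I r) = ENNReal.ofReal (1 / Q ^ 2) := by
    intro r
    show volume (Set.Ioo _ _) = _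
    rw [Real.volume_Ioo]
    congr 1
    field_simp
    ring
  have hdisj : Set.PairwiseDisjoint (s : Set ℚ) I := by
    intro r hr r' hr' hne
    obtain ⟨a1, a2, a3, a4, -⟩ := hs r hr
    obtain ⟨b1, b2, b3, b4, -⟩ := hs r' hr'
    have hsep := theta_sep r r' a1 a2 b1 b2 hne Q a4 b4
    show Disjoint (I r) (I r')
    rw [Set.disjoint_left]
    rintro x ⟨h1, h2⟩ ⟨h3, h4⟩
    have h5 : |theta r - theta r'| < 1 / Q ^ 2 := by
      have h6 : 1 / Q ^ 2 = 1 / (2 * Q ^ 2) + 1 / (2 * Q ^ 2) := by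
        field_simp
        ring
      rw [abs_lt, h6]
      constructor <;> linarith
    linarith
  have hvol : volume (⋃ r ∈ s, I r) = (s.card : ENNReal) * ENNReal.ofReal (1 / Q ^ 2) := by
    rw [measure_biUnion_finset hdisj (fun r _ => measurableSet_Ioo)]
    rw [Finset.sum_congr rfl (fun r _ => hIvol r), Finset.sum_const, nsmul_eq_mul]
  -- the bad sets
  let E : ℕ → Set ℝ := fun n => {x | Q ^ δ ≤ (2 : ℝ) ^ n ∧ ((2 : ℝ) ^ n) ^ (1 + η) ≤ Q ∧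
    x ∈ DualBad k (((2 : ℝ) ^ n) ^ (1 + η)) Q (C₁ * ((2 : ℝ) ^ n) ^ (-η))}
  have hsub : (⋃ r ∈ s, I r) ⊆ ⋃ n, E n := by
    intro x hx
    simp only [Set.mem_iUnion] at hx ⊢
    obtain ⟨r, hr, hxr⟩ := hx
    obtain ⟨a1, a2, a3, a4, n, hn1, hn2, P, hP⟩ := hs r hr
    refine ⟨n, hn1, hn2, ?_⟩
    apply hnear Q ((2 : ℝ) ^ n) η r (one_le_pow₀ (by norm_num)) hη a1 a2 a3 a4 ⟨P, hP⟩
    rw [abs_le]
    constructor
    · linarith [hxr.1]
    · linarith [hxr.2]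
  have hE : ∀ n, volume (E n) ≤ ENNReal.ofReal (C₂ * C₁ ^ β * Q ^ (-e) * ρ ^ n) := by
    intro n
    by_cases hn : Q ^ δ ≤ (2 : ℝ) ^ n ∧ ((2 : ℝ) ^ n) ^ (1 + η) ≤ Q
    · have h2n : (1 : ℝ) ≤ 2 ^ n := one_le_pow₀ (by norm_num)
      have h2n0 : (0 : ℝ) < 2 ^ n := by positivity
      have h1 : volume (E n) ≤
          volume (DualBad k (((2 : ℝ) ^ n) ^ (1 + η)) Q (C₁ * ((2 : ℝ) ^ n) ^ (-η))) :=
        measure_mono fun x hx => hx.2.2
      refine h1.trans ((hdual (((2 : ℝ) ^ n) ^ (1 + η)) Q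
        (Real.one_le_rpow h2n (by linarith)) hn.2 _ (by positivity)).trans ?_)
      apply ENNReal.ofReal_le_ofReal
      rw [← hβ]
      have h3 : (C₁ * ((2 : ℝ) ^ n) ^ (-η)) ^ β = C₁ ^ β * (((2 : ℝ) ^ n) ^ (-(η * β / 2)) *
          ((2 : ℝ) ^ n) ^ (-(η * β / 2))) := by
        rw [Real.mul_rpow hC₁0.le (by positivity), ← Real.rpow_mul h2n0.le,
          ← Real.rpow_add h2n0]
        congr 2
        ring
      have h4 : ((2 : ℝ) ^ n) ^ (-(η * β / 2)) = ρ ^ n := by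
        rw [hρ, ← Real.rpow_natCast, ← Real.rpow_natCast, ← Real.rpow_mul (by norm_num),
          ← Real.rpow_mul (by norm_num), mul_comm]
      have h5 : ((2 : ℝ) ^ n) ^ (-(η * β / 2)) ≤ Q ^ (-e) := by
        have h6 : Q ^ (-e) = (Q ^ δ) ^ (-(η * β / 2)) := by
          rw [← Real.rpow_mul hQ0.le, he]
          congr 1
          ring
        rw [h6]
        apply Real.rpow_le_rpow_of_nonpos (by positivity) hn.1
        have : 0 < η * β / 2 := by positivity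
        linarith
      rw [h3]
      have h7 : 0 ≤ ρ ^ n := by positivity
      calc C₂ * (C₁ ^ β * (((2 : ℝ) ^ n) ^ (-(η * β / 2)) * ((2 : ℝ) ^ n) ^ (-(η * β / 2))))
          = C₂ * C₁ ^ β * (((2 : ℝ) ^ n) ^ (-(η * β / 2)) * ρ ^ n) := by
            rw [h4]
            ring
        _ ≤ C₂ * C₁ ^ β * (Q ^ (-e) * ρ ^ n) := by gcongr
        _ = _ := by ring
    · have h1 : E n = ∅ := by
        rw [Set.eq_empty_iff_forall_notMem]
        intro x hx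
        exact hn ⟨hx.1, hx.2.1⟩
      rw [h1, measure_empty]
      exact bot_le
  have hsum : volume (⋃ n, E n) ≤ ENNReal.ofReal (C₃ * Q ^ (-e)) := by
    refine (measure_iUnion_le _).trans ((ENNReal.tsum_le_tsum hE).trans ?_)
    rw [← ENNReal.ofReal_tsum_of_nonneg (fun n => by positivity)]
    · apply ENNReal.ofReal_le_ofReal
      rw [tsum_mul_left, tsum_geometric_of_lt_one hρ0.le hρ1, hC₃]
      apply le_of_eq
      ring
    · exact (summable_geometric_of_lt_one hρ0.le hρ1).mul_left _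
  have hfin : (s.card : ENNReal) * ENNReal.ofReal (1 / Q ^ 2) ≤
      ENNReal.ofReal (C₃ * Q ^ (-e)) := by
    rw [← hvol]
    exact (measure_mono hsub).trans hsum
  have hreal : (s.card : ℝ) * (1 / Q ^ 2) ≤ C₃ * Q ^ (-e) := by
    have h1 : (s.card : ENNReal) * ENNReal.ofReal (1 / Q ^ 2) =
        ENNReal.ofReal ((s.card : ℝ) * (1 / Q ^ 2)) := by
      rw [ENNReal.ofReal_mul (Nat.cast_nonneg _), ENNReal.ofReal_natCast]
    rw [h1] at hfin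
    exact (ENNReal.ofReal_le_ofReal_iff (by positivity)).1 hfin
  have h8 : C₃ * Q ^ (-e) ≤ ϑ := by
    rw [Real.rpow_neg hQ0.le]
    have h9 : 0 < Q ^ e := by positivity
    rw [← div_eq_mul_inv, div_le_iff₀ h9]
    rw [div_le_iff₀ hϑ] at hQe
    linarith
  have h10 : (s.card : ℝ) * (1 / Q ^ 2) ≤ ϑ := hreal.trans h8
  rw [mul_one_div, div_le_iff₀ hQ2] at h10
  exact h10

end Sp637
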