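import Mathlib
import Pool.Agent.Work.MP_637dc3_nt.Sp.Defs2

/-!
# Sp/GoodOf (M): not bad implies good

`δ' = δ / 2`, `η = min 1 (ε / (2 (k + 1)))`. Let `X ≥ r.den ^ δ`, `ev P r ≠ 0`, `|P_i| ≤ X`. Choose `n` with `X ≤ 2^n ≤ 2 X` (`X ≥ 1`). `2^n ≥ (κ₀ Q)^δ ≥ Q^(δ/2)` for `Q ≥ κ₀^(-2)`.
If `(2^n)^(1+η) ≤ Q`, then `¬ BadAt` gives `|ev P r| ≥ (2^n)^(-k-(k+1)η)`. Otherwise `|ev P r| ≥ r.den^(-k)` (`r.den^k ev P r` is a nonzero integer) `≥ Q^(-k) ≥ (2^n)^(-k(1+η))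
≥ (2^n)^(-k-(k+1)η)`. In both cases `|ev P r| ≥ (2X)^(-k-(k+1)η) ≥ X^(-k-ε)`, because `(k+1) η ≤ ε/2` and `2^(k+ε/2) ≤ X^(ε/2)`, which holds for `X ≥ (κ₀ Q)^δ` and `Q` large.
-/

set_option autoImplicit false

open Matrix Polynomial MeasureTheory

namespace Sp637

/-- the value of an integer polynomial at a rational number which is not a root -/
private theorem ev_lower {k : ℕ} (r : ℚ) (P : Fin (k + 1) → ℤ) (h : ev P (r : ℝ) ≠ 0) :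
    ((r.den : ℝ) ^ k)⁻¹ ≤ |ev P (r : ℝ)| := by
  have hq0 : (0 : ℝ) < (r.den : ℝ) := by exact_mod_cast r.den_pos
  have hr : (r : ℝ) = (r.num : ℝ) / (r.den : ℝ) := by
    exact_mod_cast (Rat.num_div_den r).symm
  have h1 : ((∑ i : Fin (k + 1), P i * r.num ^ (i : ℕ) * (r.den : ℤ) ^ (k - (i : ℕ)) : ℤ) : ℝ) =
      (r.den : ℝ) ^ k * ev P (r : ℝ) := by
    rw [ev, Finset.mul_sum]
    push_cast
    apply Finset.sum_congr rfl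
    intro i _
    have h2 : (r.den : ℝ) ^ k = (r.den : ℝ) ^ (i : ℕ) * (r.den : ℝ) ^ (k - (i : ℕ)) := by
      rw [← pow_add]
      congr 1
      have := i.isLt
      omega
    have h3 : (r.den : ℝ) ^ (i : ℕ) ≠ 0 := pow_ne_zero _ hq0.ne'
    rw [hr, div_pow, h2]
    field_simp
  have h4 : (∑ i : Fin (k + 1), P i * r.num ^ (i : ℕ) * (r.den : ℤ) ^ (k - (i : ℕ)) : ℤ) ≠ 0 := by
    intro h0
    rw [h0, Int.cast_zero] at h1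
    rcases mul_eq_zero.1 h1.symm with h5 | h5
    · exact pow_ne_zero _ hq0.ne' h5
    · exact h h5
  have h5 : (1 : ℝ) ≤
      |((∑ i : Fin (k + 1), P i * r.num ^ (i : ℕ) * (r.den : ℤ) ^ (k - (i : ℕ)) : ℤ) : ℝ)| := by
    rw [← Int.cast_abs]
    exact_mod_cast Int.one_le_abs h4
  rw [h1, abs_mul, abs_of_pos (pow_pos hq0 k)] at h5
  rw [inv_le_iff_one_le_mul₀ (pow_pos hq0 k), mul_comm]
  exact h5

theorem good_of (k : ℕ) (κ₀ δ ε : ℝ) (hκ : 0 < κ₀) (hκ1 : κ₀ ≤ 1) (hδ : 0 < δ) (hε : 0 < ε) :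
    ∃ δ' η : ℝ, 0 < δ' ∧ 0 < η ∧ ∃ Q₀ : ℝ, 1 ≤ Q₀ ∧ ∀ Q : ℝ, Q₀ ≤ Q → ∀ r : ℚ, 0 ≤ r → r < 1 →
      κ₀ * Q ≤ r.den → (r.den : ℝ) ≤ Q → ¬ BadAt k δ' η Q r → Good k δ ε r := by
  have hk1 : (0 : ℝ) < (k : ℝ) + 1 := by positivity
  obtain ⟨η, hη⟩ : ∃ η : ℝ, η = ε / (2 * ((k : ℝ) + 1)) := ⟨_, rfl⟩
  have hη0 : 0 < η := by rw [hη]; positivity
  have hkη : ((k : ℝ) + 1) * η = ε / 2 := by
    rw [hη]
    field_simp
  refine ⟨δ / 2, η, by positivity, hη0, max 1 (max ((κ₀ ^ (-2 : ℝ)))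
    (((2 : ℝ) ^ ((k : ℝ) + ε / 2)) ^ (4 / (δ * ε)))), le_max_left _ _, ?_⟩
  intro Q hQ r hr0 hr1 hrQ hrQ' hbad X hX P hP0 hPX
  have hQ1 : 1 ≤ Q := (le_max_left _ _).trans hQ
  have hQ0 : 0 < Q := by linarith
  have hQκ : κ₀ ^ (-2 : ℝ) ≤ Q := ((le_max_left _ _).trans (le_max_right _ _)).trans hQ
  have hQ2 : ((2 : ℝ) ^ ((k : ℝ) + ε / 2)) ^ (4 / (δ * ε)) ≤ Q :=
    ((le_max_right _ _).trans (le_max_right _ _)).trans hQ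
  have hq1 : (1 : ℝ) ≤ (r.den : ℝ) := by exact_mod_cast r.den_pos
  have hq0 : (0 : ℝ) < (r.den : ℝ) := by linarith
  have hX1 : 1 ≤ X := (Real.one_le_rpow hq1 hδ.le).trans hX
  have hX0 : 0 < X := by linarith
  -- (i)
  have hXQ : Q ^ (δ / 2) ≤ X := by
    refine le_trans ?_ hX
    have h1 : (κ₀ * Q) ^ δ ≤ (r.den : ℝ) ^ δ :=
      Real.rpow_le_rpow (by positivity) hrQ hδ.le
    refine le_trans ?_ h1
    have h2 : (κ₀ ^ (-2 : ℝ)) ^ (δ / 2) ≤ Q ^ (δ / 2) :=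
      Real.rpow_le_rpow (by positivity) hQκ (by positivity)
    rw [← Real.rpow_mul hκ.le] at h2
    have h3 : (-2 : ℝ) * (δ / 2) = -δ := by ring
    rw [h3] at h2
    rw [Real.mul_rpow hκ.le hQ0.le]
    have h4 : Q ^ δ = Q ^ (δ / 2) * Q ^ (δ / 2) := by
      rw [← Real.rpow_add hQ0]
      congr 1
      ring
    rw [h4]
    have h5 : 0 < Q ^ (δ / 2) := by positivity
    have h6 : 1 ≤ κ₀ ^ δ * Q ^ (δ / 2) := by
      calc (1 : ℝ) = κ₀ ^ δ * κ₀ ^ (-δ) := by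
            rw [← Real.rpow_add hκ, add_neg_cancel, Real.rpow_zero]
        _ ≤ κ₀ ^ δ * Q ^ (δ / 2) := by gcongr
    calc Q ^ (δ / 2) = 1 * Q ^ (δ / 2) := (one_mul _).symm
      _ ≤ (κ₀ ^ δ * Q ^ (δ / 2)) * Q ^ (δ / 2) := by gcongr
      _ = _ := by ring
  -- (ii)
  have hX2 : (2 : ℝ) ^ ((k : ℝ) + ε / 2) ≤ X ^ (ε / 2) := by
    have h1 : (((2 : ℝ) ^ ((k : ℝ) + ε / 2)) ^ (4 / (δ * ε))) ^ (δ * ε / 4) ≤
        Q ^ (δ * ε / 4) := Real.rpow_le_rpow (by positivity) hQ2 (by positivity)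
    rw [← Real.rpow_mul (by positivity)] at h1
    have h2 : 4 / (δ * ε) * (δ * ε / 4) = 1 := by field_simp
    rw [h2, Real.rpow_one] at h1
    refine h1.trans ?_
    have h3 : Q ^ (δ * ε / 4) = (Q ^ (δ / 2)) ^ (ε / 2) := by
      rw [← Real.rpow_mul hQ0.le]
      congr 1
      ring
    rw [h3]
    exact Real.rpow_le_rpow (by positivity) hXQ (by positivity)
  obtain ⟨n, hn1, hn2⟩ := exists_nat_pow_near hX1 (by norm_num : (1 : ℝ) < 2)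
  have hN1 : X ≤ (2 : ℝ) ^ (n + 1) := hn2.le
  have hN2 : (2 : ℝ) ^ (n + 1) ≤ 2 * X := by
    rw [pow_succ]
    linarith
  have hN0 : (0 : ℝ) < 2 ^ (n + 1) := by positivity
  have h2N : (1 : ℝ) ≤ 2 ^ (n + 1) := one_le_pow₀ (by norm_num)
  have hkey : ((2 : ℝ) ^ (n + 1)) ^ (-(k : ℝ) - ((k : ℝ) + 1) * η) ≤ |ev P (r : ℝ)| := by
    by_cases hc : ((2 : ℝ) ^ (n + 1)) ^ (1 + η) ≤ Q
    · by_contra hlt
      exact hbad ⟨n + 1, hXQ.trans hN1, hc, P, hP0, fun i => (hPX i).trans hN1, not_le.1 hlt⟩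
    · have hc' : Q < ((2 : ℝ) ^ (n + 1)) ^ (1 + η) := not_le.1 hc
      have h1 := ev_lower r P hP0
      refine le_trans ?_ h1
      have h2 : ((r.den : ℝ) ^ k)⁻¹ ≥ (((2 : ℝ) ^ (n + 1)) ^ (1 + η)) ^ (-(k : ℝ)) := by
        rw [← Real.rpow_natCast, ← Real.rpow_neg hq0.le]
        apply Real.rpow_le_rpow_of_nonpos hq0 (hrQ'.trans hc'.le)
        have : (0 : ℝ) ≤ k := Nat.cast_nonneg k
        linarith
      refine le_trans ?_ h2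
      rw [← Real.rpow_mul hN0.le]
      apply Real.rpow_le_rpow_of_exponent_le h2N
      nlinarith [hη0.le]
  refine le_trans ?_ hkey
  have h5 : (2 * X) ^ (-(k : ℝ) - ((k : ℝ) + 1) * η) ≤
      ((2 : ℝ) ^ (n + 1)) ^ (-(k : ℝ) - ((k : ℝ) + 1) * η) := by
    apply Real.rpow_le_rpow_of_nonpos hN0 hN2
    have : (0 : ℝ) ≤ k := Nat.cast_nonneg k
    rw [hkη]
    linarith
  refine le_trans ?_ h5
  rw [hkη]
  have h6 : (2 * X) ^ (-(k : ℝ) - ε / 2) =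
      ((2 : ℝ) ^ ((k : ℝ) + ε / 2))⁻¹ * X ^ (-(k : ℝ) - ε / 2) := by
    rw [Real.mul_rpow (by norm_num) hX0.le, ← Real.rpow_neg (by norm_num)]
    congr 2
    ring
  have h7 : X ^ (-(k : ℝ) - ε) = (X ^ (ε / 2))⁻¹ * X ^ (-(k : ℝ) - ε / 2) := by
    rw [← Real.rpow_neg hX0.le, ← Real.rpow_add hX0]
    congr 1
    ring
  rw [h6, h7]
  have h8 : (0 : ℝ) < 2 ^ ((k : ℝ) + ε / 2) := by positivity
  gcongr

theorem good_zero (δ ε : ℝ) (hδ : 0 ≤ δ) (hε : 0 < ε) (r : ℚ) : Good 0 δ ε r := by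
  intro X hX P hP0 hPX
  have hq1 : (1 : ℝ) ≤ (r.den : ℝ) := by exact_mod_cast r.den_pos
  have hX1 : 1 ≤ X := (Real.one_le_rpow hq1 hδ).trans hX
  have h1 := ev_lower r P hP0
  rw [pow_zero, inv_one] at h1
  refine le_trans ?_ h1
  apply Real.rpow_le_one_of_one_le_of_nonpos hX1
  push_cast
  linarith

theorem good_mono {κ : ℕ} {δ δ' ε ε' : ℝ} {r : ℚ} (h : Good κ δ ε r) (hδ : δ ≤ δ') (hδ0 : 0 ≤ δ)
    (hε : ε ≤ ε') : Good κ δ' ε' r := by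
  intro X hX P hP0 hPX
  have hq1 : (1 : ℝ) ≤ (r.den : ℝ) := by exact_mod_cast r.den_pos
  have hX1 : 1 ≤ X := (Real.one_le_rpow hq1 (hδ0.trans hδ)).trans hX
  have h1 : (r.den : ℝ) ^ δ ≤ X := (Real.rpow_le_rpow_of_exponent_le hq1 hδ).trans hX
  refine le_trans ?_ (h X h1 P hP0 hPX)
  apply Real.rpow_le_rpow_of_exponent_le hX1
  linarith

end Sp637
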