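import Mathlib
import Pool.Agent.Work.MP_637dc3_nt.Sp.Defs

/-!
# Sp/SmallDen (M): points with a good approximation of small denominator

Fix `b`, `1 ≤ b < κ₀ Q`. If `x ∈ (0,1)`, `r.den = b`, `|x - r| ≤ 1/(b Q)`, then `r = a / b` with `0 ≤ a ≤ b` (`Q > 1`: `a < 0` gives `r ≤ -1/b < -1/(bQ)`, `a > b` gives
`r ≥ 1 + 1/b`). So the set is covered by the closed intervals with centre `a/b` and radius `1/(bQ)`, `1 ≤ b < κ₀ Q`, `0 ≤ a ≤ b`: measure at most
`∑_{b < κ₀ Q} (b + 1) 2/(bQ) ≤ ∑_b 4/Q ≤ 4 κ₀` (`measure_biUnion_finset_le`).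
-/

set_option autoImplicit false

open Matrix Polynomial MeasureTheory

namespace Sp637

theorem small_den (κ₀ Q : ℝ) (hκ : 0 < κ₀) (hQ : 1 < Q) :
    volume {x : ℝ | x ∈ Set.Ioo (0 : ℝ) 1 ∧ ∃ r : ℚ, (r.den : ℝ) < κ₀ * Q ∧
      |x - (r : ℝ)| ≤ 1 / ((r.den : ℝ) * Q)} ≤ ENNReal.ofReal (4 * κ₀) := by
  set N : ℕ := ⌈κ₀ * Q⌉₊ with hN
  have hQ0 : 0 < Q := by linarith
  have hsub : {x : ℝ | x ∈ Set.Ioo (0 : ℝ) 1 ∧ ∃ r : ℚ, (r.den : ℝ) < κ₀ * Q ∧
      |x - (r : ℝ)| ≤ 1 / ((r.den : ℝ) * Q)} ⊆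
      ⋃ b ∈ Finset.Ico 1 N, ⋃ a ∈ Finset.range (b + 1),
        Set.Icc ((a : ℝ) / b - 1 / ((b : ℝ) * Q)) ((a : ℝ) / b + 1 / ((b : ℝ) * Q)) := by
    rintro x ⟨hx, r, hr1, hr2⟩
    have hb : (0 : ℝ) < r.den := by exact_mod_cast r.pos
    have hrc : (r : ℝ) = (r.num : ℝ) / (r.den : ℝ) := Rat.cast_def r
    have hlt : 1 / ((r.den : ℝ) * Q) < 1 / (r.den : ℝ) := by
      apply one_div_lt_one_div_of_lt hb
      exact lt_mul_of_one_lt_right hb hQ
    have h3 := abs_le.1 hr2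
    have hn0 : 0 ≤ r.num := by
      by_contra hneg
      push Not at hneg
      have h4 : (r.num : ℝ) ≤ -1 := by exact_mod_cast (by omega : r.num ≤ -1)
      have h5 : (r : ℝ) ≤ -(1 / (r.den : ℝ)) := by
        rw [hrc, div_le_iff₀ hb, neg_mul, one_div, inv_mul_cancel₀ hb.ne']
        exact h4
      have := hx.1
      linarith [h3.2]
    have hn1 : r.num ≤ r.den := by
      by_contra hneg
      push Not at hneg
      have h4 : (r.den : ℝ) + 1 ≤ (r.num : ℝ) := by exact_mod_cast (by omega : (r.den : ℤ) + 1 ≤ r.num)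
      have h5 : 1 + 1 / (r.den : ℝ) ≤ (r : ℝ) := by
        rw [hrc, le_div_iff₀ hb, add_mul, one_div, inv_mul_cancel₀ hb.ne', one_mul]
        exact h4
      have := hx.2
      linarith [h3.1]
    simp only [Set.mem_iUnion]
    refine ⟨r.den, ?_, r.num.toNat, ?_, ?_⟩
    · rw [Finset.mem_Ico]
      exact ⟨r.pos, Nat.lt_ceil.2 hr1⟩
    · rw [Finset.mem_range]
      omega
    · have h6 : ((r.num.toNat : ℕ) : ℝ) = (r.num : ℝ) := by
        exact_mod_cast congrArg (fun z : ℤ => (z : ℝ)) (Int.toNat_of_nonneg hn0)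
      rw [h6, ← hrc, Set.mem_Icc]
      constructor <;> linarith [h3.1, h3.2]
  refine (measure_mono hsub).trans ?_
  refine (measure_biUnion_finset_le _ _).trans ?_
  have h1 : ∀ b ∈ Finset.Ico 1 N, volume (⋃ a ∈ Finset.range (b + 1),
      Set.Icc ((a : ℝ) / b - 1 / ((b : ℝ) * Q)) ((a : ℝ) / b + 1 / ((b : ℝ) * Q))) ≤
      ENNReal.ofReal (4 / Q) := by
    intro b hb
    rw [Finset.mem_Ico] at hb
    have hb1 : (1 : ℝ) ≤ b := by exact_mod_cast hb.1
    refine (measure_biUnion_finset_le _ _).trans ?_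
    have h2 : ∀ a ∈ Finset.range (b + 1), volume (Set.Icc ((a : ℝ) / b - 1 / ((b : ℝ) * Q))
        ((a : ℝ) / b + 1 / ((b : ℝ) * Q))) = ENNReal.ofReal (2 / ((b : ℝ) * Q)) := by
      intro a _
      rw [Real.volume_Icc]
      congr 1
      ring
    rw [Finset.sum_congr rfl h2, Finset.sum_const, Finset.card_range, nsmul_eq_mul,
      ← ENNReal.ofReal_natCast, ← ENNReal.ofReal_mul (by positivity)]
    apply ENNReal.ofReal_le_ofReal
    rw [mul_div_assoc', div_le_div_iff₀ (by positivity) hQ0]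
    push_cast
    nlinarith
  refine (Finset.sum_le_sum h1).trans ?_
  rw [Finset.sum_const, Nat.card_Ico, nsmul_eq_mul, ← ENNReal.ofReal_natCast,
    ← ENNReal.ofReal_mul (by positivity)]
  apply ENNReal.ofReal_le_ofReal
  have h3 : ((N - 1 : ℕ) : ℝ) ≤ κ₀ * Q := by
    have h4 := Nat.ceil_lt_add_one (show 0 ≤ κ₀ * Q by positivity)
    rw [← hN] at h4
    rcases Nat.eq_zero_or_pos N with h0 | h0
    · rw [h0]
      simp only [Nat.zero_sub, Nat.cast_zero]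
      positivity
    · rw [Nat.cast_sub h0]
      push_cast
      linarith
  rw [mul_div_assoc', div_le_iff₀ hQ0]
  nlinarith

end Sp637
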