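import Mathlib
import Pool.Agent.Work.MP_637dc3_nt.Sp.BadCount
import Pool.Agent.Work.MP_637dc3_nt.Sp.GoodOf
import Pool.Agent.Work.MP_637dc3_nt.Sp.SmallDen

/-!
# Sp/Pick (M-L): good rationals near a given set of positive measure

Let `ℓ = v - u`, `κ₀ = ℓ / 64`. For `1 ≤ κ ≤ k` take `δ'_κ, η_κ` from `good_of κ κ₀ δ ε` and apply `bad_count` with `ϑ = κ₀ ℓ / (32 (k + 1))`. Let `Q = n` be a large natural number
(larger than all `Q₀`, `κ₀ n ≥ N`, `1/(κ₀ n^2) < ℓ/8`, ...). By Dirichlet (`Real.exists_rat_abs_sub_le_and_den_le`) every `x` has `r` with `r.den ≤ n`,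
`|x - r| ≤ 1/((n+1) r.den) ≤ 1/(r.den Q)`, in particular `≤ 1/r.den^2`. Let `x ∈ (u + ℓ/4, v - ℓ/4)` (measure `ℓ/2`).
Exceptional sets: (a) `r.den < κ₀ Q`: measure `≤ 4 κ₀ = ℓ/16` (`small_den`). Otherwise `|x - r| ≤ 1/(κ₀ Q^2) < ℓ/8`, so `r ∈ (u, v) ⊆ (0, 1)`. (b) `BadAt κ δ'_κ η_κ Q r` for some
`1 ≤ κ ≤ k`: the finite set `s` of such `r` (denominators in `[κ₀ Q, Q]`, `0 ≤ r < 1`; finite because the denominators are bounded) has at most `ϑ Q^2` elements for each `κ`, and `x` is in an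
interval of length `2/(κ₀ Q · Q)` around `r`: measure `≤ k ϑ Q^2 · 2/(κ₀ Q^2) ≤ ℓ/16`. (c) `x ∈ (u,v) \ G`: measure `≤ ℓ/4`. The sum is `< ℓ/2`, so there is `x` outside all of
them: `x ∈ G`, `r` is not bad, `good_of` (and `good_zero` for `κ = 0`) gives `Good κ δ ε r`.
-/

set_option autoImplicit false

open Matrix Polynomial MeasureTheory

namespace Sp637

theorem pick_finite (n : ℕ) : {r : ℚ | 0 ≤ r ∧ r < 1 ∧ r.den ≤ n}.Finite := by
  refine Set.Finite.subset (((Finset.range (n + 1)) ×ˢ (Finset.range (n + 1))).image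
    (fun p : ℕ × ℕ => (p.1 : ℚ) / p.2)).finite_toSet ?_
  rintro r ⟨h0, h1, h2⟩
  have hn : 0 ≤ r.num := Rat.num_nonneg.2 h0
  have h3 : ((r.num.toNat : ℕ) : ℤ) = r.num := Int.toNat_of_nonneg hn
  have h4 : r.num < r.den := by
    have h5 : r * r.den = r.num := by
      have := Rat.mul_den_eq_num r
      exact_mod_cast this
    have h6 : (0 : ℚ) < r.den := by exact_mod_cast r.den_pos
    have h7 : (r.num : ℚ) < (r.den : ℚ) := by
      rw [← h5]; nlinarith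
    exact_mod_cast h7
  rw [Finset.coe_image]
  refine ⟨(r.num.toNat, r.den), ?_, ?_⟩
  · simp only [Finset.coe_product, Set.mem_prod, Finset.mem_coe, Finset.mem_range]
    constructor
    · omega
    · omega
  · show ((r.num.toNat : ℕ) : ℚ) / (r.den : ℚ) = r
    have h8 : ((r.num.toNat : ℕ) : ℚ) = ((r.num : ℤ) : ℚ) := by exact_mod_cast congrArg (Int.cast : ℤ → ℚ) h3
    rw [h8, Rat.num_div_den]

theorem pick_union (s : Finset ℚ) (ρ : ℝ) (hρ : 0 ≤ ρ) (B : ℝ) (h : (s.card : ℝ) * (2 * ρ) ≤ B) :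
    volume (⋃ r ∈ s, Set.Icc ((r : ℝ) - ρ) ((r : ℝ) + ρ)) ≤ ENNReal.ofReal B := by
  refine (measure_biUnion_finset_le s _).trans ?_
  have h1 : ∀ r ∈ s, volume (Set.Icc ((r : ℝ) - ρ) ((r : ℝ) + ρ)) = ENNReal.ofReal (2 * ρ) := by
    intro r _
    rw [Real.volume_Icc]
    congr 1; ring
  rw [Finset.sum_congr rfl h1, Finset.sum_const, nsmul_eq_mul, ← ENNReal.ofReal_natCast,
    ← ENNReal.ofReal_mul (by positivity)]
  exact ENNReal.ofReal_le_ofReal h

theorem pick (k : ℕ) (δ ε : ℝ) (hδ : 0 < δ) (hε : 0 < ε) (u v : ℝ) (hu : 0 ≤ u) (huv : u < v)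
    (hv : v ≤ 1) (G : Set ℝ) (hG : volume (Set.Ioo u v \ G) ≤ ENNReal.ofReal ((v - u) / 4))
    (N : ℕ) : ∃ (r : ℚ) (x : ℝ), x ∈ G ∧ (r : ℝ) ∈ Set.Ioo u v ∧ N ≤ r.den ∧
      |x - (r : ℝ)| ≤ 1 / (r.den : ℝ) ^ 2 ∧ ∀ κ ≤ k, Good κ δ ε r := by
  set l : ℝ := v - u with hl
  have hl0 : 0 < l := by rw [hl]; linarith
  have hl1 : l ≤ 1 := by rw [hl]; linarith
  set κ₀ : ℝ := l / 64 with hκ₀
  have hκ0 : 0 < κ₀ := by positivity
  have hκ1 : κ₀ ≤ 1 := by rw [hκ₀]; linarith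
  have hg : ∀ m : ℕ, ∃ δ' η : ℝ, 0 < δ' ∧ 0 < η ∧ ∃ Q₀ : ℝ, 1 ≤ Q₀ ∧ ∀ Q : ℝ, Q₀ ≤ Q → ∀ r : ℚ,
      0 ≤ r → r < 1 → κ₀ * Q ≤ r.den → (r.den : ℝ) ≤ Q → ¬ BadAt (m + 1) δ' η Q r →
      Good (m + 1) δ ε r := fun m => good_of (m + 1) κ₀ δ ε hκ0 hκ1 hδ hε
  choose dl et hdl het Q1 hQ1 hgood using hg
  set ϑ : ℝ := κ₀ * l / (32 * ((k : ℝ) + 1)) with hϑ
  have hϑ0 : 0 < ϑ := by positivity
  have hb := fun m : ℕ => bad_count (m + 1) (by omega) κ₀ (dl m) (et m) ϑ hκ0 hκ1 (hdl m) (het m) hϑ0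
  choose Q2 hQ2 hbad using hb
  obtain ⟨n, hn⟩ := exists_nat_ge ((∑ m ∈ Finset.range k, (Q1 m + Q2 m)) + N / κ₀ +
    8 / (κ₀ * l) + 2)
  have hsum : ∀ m ∈ Finset.range k, Q1 m + Q2 m ≤ ∑ m ∈ Finset.range k, (Q1 m + Q2 m) := by
    intro m hm
    exact Finset.single_le_sum (f := fun m => Q1 m + Q2 m) (fun i _ => by
      have := hQ1 i
      have := hQ2 i
      show 0 ≤ Q1 i + Q2 i
      linarith) hm
  have hsum0 : 0 ≤ ∑ m ∈ Finset.range k, (Q1 m + Q2 m) := Finset.sum_nonneg (fun i _ => by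
      have := hQ1 i
      have := hQ2 i
      linarith)
  have hN0 : 0 ≤ (N : ℝ) / κ₀ := by positivity
  have h80 : 0 < 8 / (κ₀ * l) := by positivity
  set Q : ℝ := (n : ℝ) with hQ
  have hQ2' : 2 ≤ Q := by linarith
  have hQN : (N : ℝ) ≤ κ₀ * Q := by
    have : (N : ℝ) / κ₀ ≤ Q := by linarith
    rw [div_le_iff₀ hκ0] at this
    linarith
  have hQ8 : 1 / (κ₀ * Q ^ 2) < l / 8 := by
    have h1 : 8 / (κ₀ * l) < Q := by linarith
    rw [div_lt_iff₀ (by positivity)] at h1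
    rw [div_lt_div_iff₀ (by positivity) (by norm_num)]
    have h2 : Q ≤ Q ^ 2 := by nlinarith
    have h3 : Q * (κ₀ * l) ≤ Q ^ 2 * (κ₀ * l) := mul_le_mul_of_nonneg_right h2 (by positivity)
    nlinarith
  have hQ1m : ∀ m ∈ Finset.range k, Q1 m ≤ Q := by
    intro m hm
    have := hsum m hm
    have := hQ2 m
    linarith
  have hQ2m : ∀ m ∈ Finset.range k, Q2 m ≤ Q := by
    intro m hm
    have := hsum m hm
    have := hQ1 m
    linarith
  -- the finite sets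
  have hfin : ∀ m : ℕ, {r : ℚ | 0 ≤ r ∧ r < 1 ∧ κ₀ * Q ≤ r.den ∧ (r.den : ℝ) ≤ Q ∧
      BadAt (m + 1) (dl m) (et m) Q r}.Finite := by
    intro m
    refine (pick_finite n).subset ?_
    rintro r ⟨h0, h1, _, h3, _⟩
    refine ⟨h0, h1, ?_⟩
    rw [hQ] at h3
    exact_mod_cast h3
  set ρ : ℝ := 1 / (κ₀ * Q ^ 2) with hρ
  have hρ0 : 0 < ρ := by positivity
  set Ea : Set ℝ := {x : ℝ | x ∈ Set.Ioo (0 : ℝ) 1 ∧ ∃ r : ℚ, (r.den : ℝ) < κ₀ * Q ∧
      |x - (r : ℝ)| ≤ 1 / ((r.den : ℝ) * Q)} with hEa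
  set Eb : Set ℝ := ⋃ m ∈ Finset.range k, ⋃ r ∈ (hfin m).toFinset,
    Set.Icc ((r : ℝ) - ρ) ((r : ℝ) + ρ) with hEb
  have hEa1 : volume Ea ≤ ENNReal.ofReal (l / 16) := by
    have := small_den κ₀ Q hκ0 (by linarith)
    refine this.trans (ENNReal.ofReal_le_ofReal ?_)
    rw [hκ₀]; linarith
  have hEb1 : volume Eb ≤ ENNReal.ofReal (l / 16) := by
    refine (measure_biUnion_finset_le _ _).trans ?_
    have h1 : ∀ m ∈ Finset.range k, volume (⋃ r ∈ (hfin m).toFinset,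
        Set.Icc ((r : ℝ) - ρ) ((r : ℝ) + ρ)) ≤ ENNReal.ofReal (l / (16 * ((k : ℝ) + 1))) := by
      intro m hm
      apply pick_union _ _ hρ0.le
      have h2 := hbad m Q (hQ2m m hm) (hfin m).toFinset (by
        intro r hr
        rw [Set.Finite.mem_toFinset] at hr
        exact hr)
      calc (((hfin m).toFinset.card : ℕ) : ℝ) * (2 * ρ) ≤ (ϑ * Q ^ 2) * (2 * ρ) :=
            mul_le_mul_of_nonneg_right h2 (by positivity)
        _ = l / (16 * ((k : ℝ) + 1)) := by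
            rw [hϑ, hρ]
            field_simp
            norm_num
    refine (Finset.sum_le_sum h1).trans ?_
    rw [Finset.sum_const, Finset.card_range, nsmul_eq_mul, ← ENNReal.ofReal_natCast,
      ← ENNReal.ofReal_mul (by positivity)]
    apply ENNReal.ofReal_le_ofReal
    rw [← mul_div_assoc, div_le_div_iff₀ (by positivity) (by norm_num)]
    nlinarith
  have hex : ∃ x ∈ Set.Ioo (u + l / 4) (v - l / 4), x ∉ Ea ∧ x ∉ Eb ∧
      x ∉ Set.Ioo u v \ G := by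
    by_contra hcon
    push Not at hcon
    have hsub : Set.Ioo (u + l / 4) (v - l / 4) ⊆ Ea ∪ (Eb ∪ (Set.Ioo u v \ G)) := by
      intro x hx
      by_cases h1 : x ∈ Ea
      · exact Or.inl h1
      · by_cases h2 : x ∈ Eb
        · exact Or.inr (Or.inl h2)
        · exact Or.inr (Or.inr (hcon x hx h1 h2))
    have h1 := measure_mono (μ := volume) hsub
    have h2 : volume (Ea ∪ (Eb ∪ (Set.Ioo u v \ G))) ≤
        ENNReal.ofReal (l / 16) + (ENNReal.ofReal (l / 16) + ENNReal.ofReal (l / 4)) :=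
      (measure_union_le _ _).trans (add_le_add hEa1 ((measure_union_le _ _).trans
        (add_le_add hEb1 hG)))
    rw [← ENNReal.ofReal_add (by positivity) (by positivity),
      ← ENNReal.ofReal_add (by positivity) (by positivity)] at h2
    rw [Real.volume_Ioo] at h1
    have h3 := h1.trans h2
    rw [ENNReal.ofReal_le_ofReal_iff (by positivity)] at h3
    have : v - u = l := rfl
    linarith
  obtain ⟨x, hx, hxa, hxb, hxc⟩ := hex
  have hnpos : 0 < n := by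
    have : (0 : ℝ) < (n : ℝ) := by rw [← hQ]; linarith
    exact_mod_cast this
  obtain ⟨r, hr1, hr2⟩ := Real.exists_rat_abs_sub_le_and_den_le x hnpos
  have hden0 : (0 : ℝ) < r.den := by exact_mod_cast r.den_pos
  have hr2' : (r.den : ℝ) ≤ Q := by rw [hQ]; exact_mod_cast hr2
  have hr3 : |x - (r : ℝ)| ≤ 1 / ((r.den : ℝ) * Q) := by
    refine hr1.trans ?_
    apply one_div_le_one_div_of_le (by positivity)
    rw [hQ]; nlinarith
  have hvl : v - u = l := rfl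
  have hx01 : x ∈ Set.Ioo (0 : ℝ) 1 := ⟨by linarith [hx.1], by linarith [hx.2]⟩
  have hr4 : κ₀ * Q ≤ r.den := by
    by_contra h
    push Not at h
    exact hxa ⟨hx01, r, h, hr3⟩
  have hr5 : |x - (r : ℝ)| ≤ ρ := by
    refine hr3.trans ?_
    rw [hρ]
    apply one_div_le_one_div_of_le (by positivity)
    nlinarith
  have hr6 := abs_le.1 hr5
  have hruv : (r : ℝ) ∈ Set.Ioo u v := ⟨by linarith [hx.1, hr6.1, hr6.2], by linarith [hx.2, hr6.1]⟩
  have hr0 : 0 ≤ r := by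
    have : (0 : ℝ) ≤ (r : ℝ) := by linarith [hruv.1]
    exact_mod_cast this
  have hr01 : r < 1 := by
    have : (r : ℝ) < 1 := by linarith [hruv.2]
    exact_mod_cast this
  refine ⟨r, x, ?_, hruv, ?_, ?_, ?_⟩
  · by_contra h
    exact hxc ⟨⟨by linarith [hx.1], by linarith [hx.2]⟩, h⟩
  · have : (N : ℝ) ≤ r.den := hQN.trans hr4
    exact_mod_cast this
  · refine hr3.trans ?_
    apply one_div_le_one_div_of_le (by positivity)
    nlinarith
  · intro κ hκ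
    rcases κ with _ | m
    · exact good_zero δ ε hδ.le hε r
    · have hm : m ∈ Finset.range k := Finset.mem_range.2 (by omega)
      refine hgood m Q (hQ1m m hm) r hr0 hr01 hr4 hr2' ?_
      intro hB
      apply hxb
      rw [hEb]
      simp only [Set.mem_iUnion]
      refine ⟨m, hm, r, ?_, ?_⟩
      · rw [Set.Finite.mem_toFinset]
        exact ⟨hr0, hr01, hr4, hr2', hB⟩
      · exact ⟨by linarith [hr6.1], by linarith [hr6.2]⟩

end Sp637
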