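import Mathlib
import Pool.Agent.Work.MP_637dc3_nt.Sp.Defs3
import Pool.Agent.Work.MP_637dc3_nt.Sp.Pick

/-!
# Sp/Next (M-L): the next rational

`q = r.den`, `R = q^(-(1+τ))`, `u = r`, `v = r + R/2` (`v ≤ 1`: `r ≤ 1 - 1/q` and `R ≤ 1/q`, as `r < 1`). `G = (u, v) \ BadPt k τ ε δ r`, so `volume ((u,v) \ G) ≤ volume BadPt ≤ R/8 = (v-u)/4`.
`pick k' δ' ε' u v G N'` with a large `N' ≥ N` (`N' ≥ 4 (k+1)^2 + 2`, `N'^(-(1+τ)) ≤ R/2`) gives `r' ∈ (u,v)` and `x₀ ∈ G`, `|x₀ - r'| ≤ 1/r'.den^2`. `[r', r' + r'.den^(-(1+τ))] ⊆ [r, r + R]`. Let `κ, X, P` and `x ∈ [r', r' + r'.den^(-(1+τ))]`: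
`|ev P x₀| ≥ X^(-w-ε)`, `w = max κ τ` (`x₀ ∉ BadPt`); `|x - x₀| ≤ 2/r'.den^2` (`τ ≥ 1`), both in `[0,1]`, so `|ev P x - ev P x₀| ≤ ∑_i |P_i| i |x - x₀| ≤ (k+1)^2 X · 2/r'.den^2 ≤ X^(-w-ε)/2`, because
`4 (k+1)^2 X^(1+w+ε) ≤ 4 (k+1)^2 r'.den^(δ' (1+w+ε)) ≤ 4 (k+1)^2 r'.den ≤ r'.den^2` (`1 + w + ε ≤ τ + k + 2` since `w ≤ max k τ ≤ τ + k`, `ε ≤ 1`, `δ' (τ+k+2) ≤ 1`, `X ≥ 1`).
-/

set_option autoImplicit false

open Matrix Polynomial MeasureTheory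

namespace Sp637

private lemma pow_sub_le (x y : ℝ) (hx0 : 0 ≤ x) (hx1 : x ≤ 1) (hy0 : 0 ≤ y) (hy1 : y ≤ 1) (n : ℕ) :
    |x ^ n - y ^ n| ≤ n * |x - y| := by
  induction n with
  | zero => simp
  | succ m ih =>
    have h1 : x ^ (m + 1) - y ^ (m + 1) = x * (x ^ m - y ^ m) + (x - y) * y ^ m := by ring
    rw [h1]
    have h2 : |x * (x ^ m - y ^ m)| ≤ m * |x - y| := by
      rw [abs_mul, abs_of_nonneg hx0]
      calc x * |x ^ m - y ^ m| ≤ 1 * |x ^ m - y ^ m| :=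
            mul_le_mul_of_nonneg_right hx1 (abs_nonneg _)
        _ = |x ^ m - y ^ m| := one_mul _
        _ ≤ _ := ih
    have h3 : |(x - y) * y ^ m| ≤ |x - y| := by
      rw [abs_mul, abs_of_nonneg (pow_nonneg hy0 m)]
      calc |x - y| * y ^ m ≤ |x - y| * 1 :=
            mul_le_mul_of_nonneg_left (pow_le_one₀ hy0 hy1) (abs_nonneg _)
        _ = |x - y| := mul_one _
    have h4 := abs_add_le (x * (x ^ m - y ^ m)) ((x - y) * y ^ m)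
    push_cast
    linarith

private lemma ev_sub_le (κ k : ℕ) (hκ : κ ≤ k) (P : Fin (κ + 1) → ℤ) (X : ℝ) (hX : 0 ≤ X)
    (hP : ∀ i, |(P i : ℝ)| ≤ X) (x y : ℝ) (hx0 : 0 ≤ x) (hx1 : x ≤ 1) (hy0 : 0 ≤ y) (hy1 : y ≤ 1) :
    |ev P x - ev P y| ≤ ((k : ℝ) + 1) ^ 2 * X * |x - y| := by
  have h1 : ev P x - ev P y = ∑ i : Fin (κ + 1), (P i : ℝ) * (x ^ (i : ℕ) - y ^ (i : ℕ)) := by
    unfold ev
    rw [← Finset.sum_sub_distrib]
    apply Finset.sum_congr rfl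
    intro i _
    ring
  rw [h1]
  have h2 : ∀ i : Fin (κ + 1), |(P i : ℝ) * (x ^ (i : ℕ) - y ^ (i : ℕ))| ≤
      X * (((k : ℝ) + 1) * |x - y|) := by
    intro i
    rw [abs_mul]
    apply mul_le_mul (hP i) _ (abs_nonneg _) hX
    have h3 := pow_sub_le x y hx0 hx1 hy0 hy1 (i : ℕ)
    have h4 : ((i : ℕ) : ℝ) ≤ (k : ℝ) + 1 := by
      have : (i : ℕ) ≤ k + 1 := by have := i.2; omega
      exact_mod_cast this
    calc _ ≤ _ := h3
      _ ≤ _ := mul_le_mul_of_nonneg_right h4 (abs_nonneg _)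
  calc |∑ i : Fin (κ + 1), (P i : ℝ) * (x ^ (i : ℕ) - y ^ (i : ℕ))|
      ≤ ∑ i : Fin (κ + 1), |(P i : ℝ) * (x ^ (i : ℕ) - y ^ (i : ℕ))| :=
        Finset.abs_sum_le_sum_abs _ _
    _ ≤ ∑ _i : Fin (κ + 1), X * (((k : ℝ) + 1) * |x - y|) := Finset.sum_le_sum fun i _ => h2 i
    _ = ((κ : ℝ) + 1) * (X * (((k : ℝ) + 1) * |x - y|)) := by
        rw [Finset.sum_const, Finset.card_univ, Fintype.card_fin, nsmul_eq_mul]
        push_cast
        ring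
    _ ≤ ((k : ℝ) + 1) * (X * (((k : ℝ) + 1) * |x - y|)) := by
        apply mul_le_mul_of_nonneg_right
        · have : (κ : ℝ) ≤ k := by exact_mod_cast hκ
          linarith
        · positivity
    _ = _ := by ring

private lemma rat_lt_one (r : ℚ) (hr1 : r < 1) : (r : ℝ) + 1 / (r.den : ℝ) ≤ 1 := by
  have hd : (0 : ℝ) < (r.den : ℝ) := by exact_mod_cast r.den_pos
  have h1 : r.num < r.den := Rat.num_lt_denom_iff.mpr hr1
  have h2 : (r : ℝ) = (r.num : ℝ) / (r.den : ℝ) := by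
    rw [Rat.cast_def]
  rw [h2, ← add_div, div_le_one hd]
  have h3 : r.num + 1 ≤ (r.den : ℤ) := h1
  exact_mod_cast h3

theorem next (k k' : ℕ) (τ ε δ δ' ε' : ℝ) (hk : 1 ≤ k) (hτ : 1 ≤ τ) (hε : 0 < ε) (hε1 : ε ≤ 1)
    (hδ : 0 < δ) (hδ' : 0 < δ') (hδ'1 : δ' * (τ + k + 2) ≤ 1) (hε' : 0 < ε') (r : ℚ) (hr0 : 0 ≤ r)
    (hr1 : r < 1)
    (hbad : volume (BadPt k τ ε δ r) ≤ ENNReal.ofReal ((r.den : ℝ) ^ (-(1 + τ)) / 8)) (N : ℕ) :
    ∃ r' : ℚ, 0 ≤ r' ∧ r' < 1 ∧ N ≤ r'.den ∧ (∀ κ ≤ k', Good κ δ' ε' r') ∧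
      Set.Icc (r' : ℝ) ((r' : ℝ) + (r'.den : ℝ) ^ (-(1 + τ))) ⊆
        Set.Icc (r : ℝ) ((r : ℝ) + (r.den : ℝ) ^ (-(1 + τ))) ∧
      ∀ κ : ℕ, 1 ≤ κ → κ ≤ k → ∀ X : ℝ, (r.den : ℝ) ^ δ ≤ X → X ≤ (r'.den : ℝ) ^ δ' →
        ∀ P : Fin (κ + 1) → ℤ, P ≠ 0 → (∀ i, |(P i : ℝ)| ≤ X) →
          ∀ x ∈ Set.Icc (r' : ℝ) ((r' : ℝ) + (r'.den : ℝ) ^ (-(1 + τ))),
            X ^ (-(max (κ : ℝ) τ) - ε) / 2 ≤ |ev P x| := by
  have hq1 : (1 : ℝ) ≤ (r.den : ℝ) := by exact_mod_cast r.den_pos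
  have hq0 : (0 : ℝ) < (r.den : ℝ) := by linarith
  set q : ℝ := (r.den : ℝ) with hq
  set R : ℝ := q ^ (-(1 + τ)) with hR
  have hR0 : 0 < R := Real.rpow_pos_of_pos hq0 _
  have hR1 : R ≤ 1 / q := by
    rw [hR, one_div, ← Real.rpow_neg_one]
    exact Real.rpow_le_rpow_of_exponent_le hq1 (by linarith)
  have hrR : (r : ℝ) + R ≤ 1 := by
    have := rat_lt_one r hr1
    linarith
  have hr0' : (0 : ℝ) ≤ (r : ℝ) := by exact_mod_cast hr0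
  obtain ⟨N1, hN1⟩ := exists_nat_ge (2 / R)
  have hG : volume (Set.Ioo (r : ℝ) ((r : ℝ) + R / 2) \ (Set.Ioo (r : ℝ) ((r : ℝ) + R / 2) \
      BadPt k τ ε δ r)) ≤ ENNReal.ofReal (((r : ℝ) + R / 2 - (r : ℝ)) / 4) := by
    calc _ ≤ volume (BadPt k τ ε δ r) := by
          apply measure_mono
          rintro x ⟨hx1, hx2⟩
          by_contra hx3
          exact hx2 ⟨hx1, hx3⟩
      _ ≤ ENNReal.ofReal (R / 8) := hbad
      _ = _ := by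
          congr 1
          ring
  obtain ⟨r', x₀, hx₀, hr', hden, hxr, hgood⟩ := pick k' δ' ε' hδ' hε' (r : ℝ) ((r : ℝ) + R / 2) hr0'
    (by linarith) (by linarith) (Set.Ioo (r : ℝ) ((r : ℝ) + R / 2) \ BadPt k τ ε δ r) hG
    (N + N1 + 4 * (k + 1) ^ 2)
  obtain ⟨⟨hx₀1, hx₀2⟩, hx₀3⟩ := hx₀
  have hq'1 : (1 : ℝ) ≤ (r'.den : ℝ) := by exact_mod_cast r'.den_pos
  have hq'0 : (0 : ℝ) < (r'.den : ℝ) := by linarith
  set q' : ℝ := (r'.den : ℝ) with hq'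
  have hden' : (N : ℝ) + N1 + 4 * ((k : ℝ) + 1) ^ 2 ≤ q' := by
    rw [hq']; exact_mod_cast hden
  have hN0 : (0 : ℝ) ≤ (N : ℝ) := Nat.cast_nonneg _
  have hN10 : (0 : ℝ) ≤ (N1 : ℝ) := Nat.cast_nonneg _
  have hk0 : (0 : ℝ) ≤ (k : ℝ) := Nat.cast_nonneg _
  have hq'k : 4 * ((k : ℝ) + 1) ^ 2 ≤ q' := by linarith
  have hq'R : 2 / R ≤ q' := by
    have : (0 : ℝ) ≤ 4 * ((k : ℝ) + 1) ^ 2 := by positivity
    linarith
  have hR'1 : q' ^ (-(1 + τ)) ≤ R / 2 := by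
    have h1 : q' ^ (-(1 + τ)) ≤ q' ^ (-1 : ℝ) :=
      Real.rpow_le_rpow_of_exponent_le hq'1 (by linarith)
    rw [Real.rpow_neg_one] at h1
    have h2 : q'⁻¹ ≤ (2 / R)⁻¹ := inv_anti₀ (by positivity) hq'R
    rw [inv_div] at h2
    linarith
  have hR'2 : q' ^ (-(1 + τ)) ≤ 1 / q' ^ 2 := by
    have h1 : q' ^ (-(1 + τ)) ≤ q' ^ (-2 : ℝ) :=
      Real.rpow_le_rpow_of_exponent_le hq'1 (by linarith)
    have h2 : q' ^ (-2 : ℝ) = 1 / q' ^ 2 := by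
      rw [Real.rpow_neg (le_of_lt hq'0), one_div]
      norm_cast
    linarith
  have hR'0 : 0 < q' ^ (-(1 + τ)) := Real.rpow_pos_of_pos hq'0 _
  have hr'0 : (0 : ℝ) ≤ (r' : ℝ) := by linarith [hr'.1]
  have hr'1 : (r' : ℝ) < 1 := by linarith [hr'.2]
  refine ⟨r', by exact_mod_cast hr'0, by exact_mod_cast hr'1, ?_, hgood, ?_, ?_⟩
  · have : N ≤ N + N1 + 4 * (k + 1) ^ 2 := by omega
    omega
  · rintro x ⟨hx1, hx2⟩
    have h1 := hr'.1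
    have h2 := hr'.2
    exact ⟨by linarith, by linarith⟩
  · intro κ hκ1 hκ X hX1 hX2 P hP hPX x hx
    obtain ⟨hx1, hx2⟩ := hx
    have h1 := hr'.1
    have h2 := hr'.2
    have hXone : (1 : ℝ) ≤ X := le_trans (Real.one_le_rpow hq1 (le_of_lt hδ)) hX1
    have hX0 : (0 : ℝ) < X := by linarith
    set w : ℝ := max (κ : ℝ) τ with hw
    have hw1 : w ≤ τ + k := by
      apply max_le
      · have : (κ : ℝ) ≤ k := by exact_mod_cast hκ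
        linarith
      · linarith
    have hw0 : 1 ≤ w := le_trans hτ (le_max_right _ _)
    have hlow : X ^ (-w - ε) ≤ |ev P x₀| := by
      by_contra hcon
      push Not at hcon
      apply hx₀3
      refine ⟨⟨le_of_lt hx₀1, ?_⟩, κ, hκ1, hκ, X, hX1, P, hP, hPX, hcon⟩
      show x₀ < (r : ℝ) + R
      linarith
    have hdist : |x - x₀| ≤ 2 / q' ^ 2 := by
      have h3 : |x - x₀| ≤ |x - (r' : ℝ)| + |(r' : ℝ) - x₀| := abs_sub_le _ _ _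
      have h4 : |x - (r' : ℝ)| ≤ 1 / q' ^ 2 := by
        rw [abs_of_nonneg (by linarith)]
        linarith
      have h5 : |(r' : ℝ) - x₀| ≤ 1 / q' ^ 2 := by
        rw [abs_sub_comm]; exact hxr
      have h6 : 2 / q' ^ 2 = 1 / q' ^ 2 + 1 / q' ^ 2 := by ring
      linarith
    have hdiff : |ev P x - ev P x₀| ≤ ((k : ℝ) + 1) ^ 2 * X * |x - x₀| :=
      ev_sub_le κ k hκ P X (le_of_lt hX0) hPX x x₀ (by linarith) (by linarith) (by linarith)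
        (by linarith)
    have hXp : X ^ (1 + w + ε) ≤ q' := by
      calc X ^ (1 + w + ε) ≤ (q' ^ δ') ^ (1 + w + ε) :=
            Real.rpow_le_rpow (le_of_lt hX0) hX2 (by linarith)
        _ = q' ^ (δ' * (1 + w + ε)) := by rw [← Real.rpow_mul (le_of_lt hq'0)]
        _ ≤ q' ^ (1 : ℝ) := by
            apply Real.rpow_le_rpow_of_exponent_le hq'1
            calc δ' * (1 + w + ε) ≤ δ' * (τ + k + 2) :=
                  mul_le_mul_of_nonneg_left (by linarith) (le_of_lt hδ')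
              _ ≤ 1 := hδ'1
        _ = q' := Real.rpow_one _
    have hXX : X ^ (1 + w + ε) * X ^ (-w - ε) = X := by
      rw [← Real.rpow_add hX0]
      have : 1 + w + ε + (-w - ε) = 1 := by ring
      rw [this, Real.rpow_one]
    have hXm : 0 < X ^ (-w - ε) := Real.rpow_pos_of_pos hX0 _
    have hXq : X ≤ q' * X ^ (-w - ε) := by
      calc X = X ^ (1 + w + ε) * X ^ (-w - ε) := hXX.symm
        _ ≤ q' * X ^ (-w - ε) := mul_le_mul_of_nonneg_right hXp (le_of_lt hXm)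
    have hmain : ((k : ℝ) + 1) ^ 2 * X * |x - x₀| ≤ X ^ (-w - ε) / 2 := by
      calc ((k : ℝ) + 1) ^ 2 * X * |x - x₀|
          ≤ ((k : ℝ) + 1) ^ 2 * X * (2 / q' ^ 2) :=
            mul_le_mul_of_nonneg_left hdist (by positivity)
        _ ≤ ((k : ℝ) + 1) ^ 2 * (q' * X ^ (-w - ε)) * (2 / q' ^ 2) := by
            apply mul_le_mul_of_nonneg_right _ (by positivity)
            exact mul_le_mul_of_nonneg_left hXq (by positivity)
        _ = (4 * ((k : ℝ) + 1) ^ 2) / q' * (X ^ (-w - ε) / 2) := by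
            field_simp
            ring
        _ ≤ 1 * (X ^ (-w - ε) / 2) := by
            apply mul_le_mul_of_nonneg_right _ (by positivity)
            rw [div_le_one hq'0]
            exact hq'k
        _ = _ := one_mul _
    have h7 : |ev P x₀| ≤ |ev P x| + |ev P x - ev P x₀| := by
      have : ev P x₀ = ev P x - (ev P x - ev P x₀) := by ring
      calc |ev P x₀| = |ev P x - (ev P x - ev P x₀)| := by rw [← this]
        _ ≤ _ := abs_sub _ _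
    show X ^ (-w - ε) / 2 ≤ |ev P x|
    linarith

end Sp637
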