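import Mathlib
import Pool.Agent.Work.MP_637dc3_nt.Sp.Defs
import Pool.Agent.Work.MP_637dc3_nt.Sp.UAlg

/-!
# Sp/RootH (S-M): integer polynomials vanishing at `r` have height at least the denominator; factor `(q X - p)`

(1) rational root theorem: `r.den` divides the leading coefficient (`den_dvd_of_is_root` / `Rat` version, or: `ev P r = 0` with degree `n`: `P_n p^n + q (...) = 0`, `gcd(p,q) = 1`).
(2) Gauss lemma: an integer polynomial vanishing at `p/q` (`gcd = 1`) is `(q X - p) R` with `R ∈ ℤ[X]`: e.g. divide from the top: `P_n = q R_{n-1}` (by (1) applied to `P`), subtract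
`(q X - p) R_{n-1} X^(n-1)` and use induction on the degree, or `Polynomial.IsPrimitive` and `IsPrimitive.dvd_of_fraction_map_dvd_fraction_map`. Here `P` has `k + 2` coefficients, `R` has `k + 1`.
Taylor coefficients at `r`: `q X - p = q (X - r)`, so the coefficient of `(X - r)^(i+1)` in `P` is `q` times the coefficient of `(X-r)^i` in `R`.
-/

set_option autoImplicit false

open Matrix Polynomial MeasureTheory

namespace Sp637

/-- the polynomial with the coefficients `P` -/
private noncomputable def RootH_pp {n : ℕ} (P : Fin n → ℤ) : ℤ[X] :=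
  ∑ i : Fin n, C (P i) * Polynomial.X ^ (i : ℕ)

private theorem RootH_coeff {n : ℕ} (P : Fin n → ℤ) (m : ℕ) :
    (RootH_pp P).coeff m = if h : m < n then P ⟨m, h⟩ else 0 := by
  unfold RootH_pp
  rw [Polynomial.finsetSum_coeff]
  simp only [Polynomial.coeff_C_mul_X_pow]
  split_ifs with h
  · rw [Finset.sum_eq_single (⟨m, h⟩ : Fin n)]
    · rw [if_pos rfl]
    · intro b _ hb
      rw [if_neg]
      intro hm
      exact hb (Fin.ext hm.symm)
    · intro hn
      exact absurd (Finset.mem_univ _) hn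
  · refine Finset.sum_eq_zero fun b _ => ?_
    rw [if_neg]
    intro hm
    exact h (hm ▸ b.2)

private theorem RootH_aeval {n : ℕ} (P : Fin n → ℤ) (A : Type) [CommRing A] (x : A) :
    Polynomial.aeval x (RootH_pp P) = ∑ i : Fin n, (P i : A) * x ^ (i : ℕ) := by
  unfold RootH_pp
  rw [map_sum]
  refine Finset.sum_congr rfl fun i _ => ?_
  rw [map_mul, map_pow, Polynomial.aeval_X, Polynomial.aeval_C, algebraMap_int_eq, eq_intCast]

/-- the linear polynomial with the zero `r` -/
private noncomputable def RootH_L (r : ℚ) : ℤ[X] := C (r.den : ℤ) * Polynomial.X - C r.num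

private theorem RootH_prim (r : ℚ) : (RootH_L r).IsPrimitive := by
  rw [Polynomial.isPrimitive_iff_isUnit_of_C_dvd]
  intro a ha
  rw [Polynomial.C_dvd_iff_dvd_coeff] at ha
  have h0 := ha 0
  have h1 := ha 1
  unfold RootH_L at h0 h1
  simp only [Polynomial.coeff_sub, Polynomial.coeff_C_mul, Polynomial.coeff_X_zero, mul_zero,
    Polynomial.coeff_C_zero, zero_sub, dvd_neg] at h0
  simp only [Polynomial.coeff_sub, Polynomial.coeff_C_mul, Polynomial.coeff_X_one, mul_one,
    Polynomial.coeff_C_succ, sub_zero] at h1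
  have hco : IsCoprime r.num (r.den : ℤ) := by
    rw [Int.isCoprime_iff_gcd_eq_one]
    exact r.reduced
  exact hco.isUnit_of_dvd' h0 h1

private theorem RootH_dvd {n : ℕ} (r : ℚ) (P : Fin n → ℤ)
    (h : ∑ i : Fin n, (P i : ℝ) * (r : ℝ) ^ (i : ℕ) = 0) : RootH_L r ∣ RootH_pp P := by
  refine (RootH_prim r).dvd_of_fraction_map_dvd_fraction_map (K := ℚ) ?_
  have hq : ((r.den : ℤ) : ℚ) ≠ 0 := by
    have := r.den_nz
    exact_mod_cast this
  have h1 : (RootH_L r).map (algebraMap ℤ ℚ) = C ((r.den : ℤ) : ℚ) * (Polynomial.X - C r) := by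
    unfold RootH_L
    rw [Polynomial.map_sub, Polynomial.map_mul, Polynomial.map_X, Polynomial.map_C,
      Polynomial.map_C, mul_sub, ← Polynomial.C_mul]
    congr 2
    simp only [algebraMap_int_eq, eq_intCast, Int.cast_natCast]
    exact (Rat.den_mul_eq_num r).symm
  rw [h1]
  refine (IsUnit.mul_left_dvd (Polynomial.isUnit_C.2 (isUnit_iff_ne_zero.2 hq))).2 ?_
  rw [Polynomial.dvd_iff_isRoot, Polynomial.IsRoot.def, Polynomial.eval_map_algebraMap,
    RootH_aeval]
  have h2 : ((∑ i : Fin n, (P i : ℚ) * r ^ (i : ℕ) : ℚ) : ℝ) = 0 := by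
    push_cast
    exact h
  exact_mod_cast h2

private theorem RootH_deg (r : ℚ) : (RootH_L r).natDegree = 1 := by
  unfold RootH_L
  have hq : (r.den : ℤ) ≠ 0 := by exact_mod_cast r.den_nz
  rw [Polynomial.natDegree_sub_C, Polynomial.natDegree_C_mul_X _ hq]

private theorem RootH_lead (r : ℚ) : (RootH_L r).leadingCoeff = r.den := by
  unfold Polynomial.leadingCoeff
  rw [RootH_deg]
  unfold RootH_L
  simp only [Polynomial.coeff_sub, Polynomial.coeff_C_mul, Polynomial.coeff_X_one, mul_one,
    Polynomial.coeff_C_succ, sub_zero]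

theorem root_height {k : ℕ} (r : ℚ) (P : Fin (k + 1) → ℤ) (hP : P ≠ 0) (h : ev P (r : ℝ) = 0) :
    ∃ i, (r.den : ℝ) ≤ |(P i : ℝ)| := by
  obtain ⟨R, hR⟩ := RootH_dvd r P h
  have hf : RootH_pp P ≠ 0 := by
    intro h0
    apply hP
    funext i
    have h1 := RootH_coeff P i
    rw [h0, Polynomial.coeff_zero, dif_pos i.2] at h1
    exact h1.symm
  have hlc := Polynomial.leadingCoeff_mul (RootH_L r) R
  rw [← hR, RootH_lead] at hlc
  have hlc0 : (RootH_pp P).leadingCoeff ≠ 0 := Polynomial.leadingCoeff_ne_zero.2 hf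
  have hc : (RootH_pp P).leadingCoeff =
      if h : (RootH_pp P).natDegree < k + 1 then P ⟨_, h⟩ else 0 := RootH_coeff P _
  split_ifs at hc with hd
  · refine ⟨⟨_, hd⟩, ?_⟩
    rw [← hc, hlc]
    have h2 : R.leadingCoeff ≠ 0 := by
      intro h0
      rw [h0, mul_zero] at hlc
      exact hlc0 hlc
    have h3 : (1 : ℤ) ≤ |R.leadingCoeff| := Int.one_le_abs h2
    have h4 : (1 : ℝ) ≤ |(R.leadingCoeff : ℝ)| := by exact_mod_cast h3
    push_cast
    rw [abs_mul, Nat.abs_cast]
    exact le_mul_of_one_le_right (Nat.cast_nonneg _) h4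
  · exact absurd hc hlc0

theorem factor_step {k : ℕ} (r : ℚ) (P : Fin (k + 1 + 1) → ℤ) (h : ev P (r : ℝ) = 0) :
    ∃ R : Fin (k + 1) → ℤ, (∀ x : ℝ, ev P x = ((r.den : ℝ) * x - r.num) * ev R x) ∧
      ∀ i : Fin (k + 1), (U (k + 1) (r : ℝ) *ᵥ cR P) i.succ = (r.den : ℝ) * (U k (r : ℝ) *ᵥ cR R) i := by
  obtain ⟨R', hR'⟩ := RootH_dvd r P h
  have hdeg : R'.natDegree < k + 1 := by
    by_cases h0 : R' = 0
    · rw [h0, Polynomial.natDegree_zero]
      exact Nat.succ_pos k
    · have hL0 : RootH_L r ≠ 0 := by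
        intro h1
        have := RootH_deg r
        rw [h1, Polynomial.natDegree_zero] at this
        exact zero_ne_one this
      have h1 := Polynomial.natDegree_mul hL0 h0
      rw [← hR', RootH_deg] at h1
      have h2 : (RootH_pp P).natDegree < k + 2 := by
        rw [Polynomial.natDegree_lt_iff_degree_lt (by
          rw [hR']
          exact mul_ne_zero hL0 h0), Polynomial.degree_lt_iff_coeff_zero]
        intro m hm
        rw [RootH_coeff, dif_neg (not_lt.2 hm)]
      omega
  refine ⟨fun i => R'.coeff i, ?_⟩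
  have key : ∀ x : ℝ, ev P x = ((r.den : ℝ) * x - r.num) * ev (fun i : Fin (k + 1) => R'.coeff i) x := by
    intro x
    have h1 : Polynomial.aeval x (RootH_pp P) = ev P x := RootH_aeval P ℝ x
    have h2 : Polynomial.aeval x R' = ev (fun i : Fin (k + 1) => R'.coeff i) x := by
      rw [Polynomial.aeval_eq_sum_range' hdeg, Finset.sum_range]
      unfold ev
      refine Finset.sum_congr rfl fun i _ => ?_
      rw [zsmul_eq_mul]
    have h3 : Polynomial.aeval x (RootH_L r) = (r.den : ℝ) * x - r.num := by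
      unfold RootH_L
      rw [map_sub, map_mul, Polynomial.aeval_X, Polynomial.aeval_C, Polynomial.aeval_C]
      simp
    rw [← h1, hR', map_mul, h2, h3]
  refine ⟨key, ?_⟩
  -- compare the Taylor expansions at `r`
  have hrn : (r.den : ℝ) * (r : ℝ) = r.num := by
    have := Rat.den_mul_eq_num r
    exact_mod_cast congrArg (fun q : ℚ => (q : ℝ)) this
  set a := U (k + 1) (r : ℝ) *ᵥ cR P with ha
  set b := U k (r : ℝ) *ᵥ cR (fun i : Fin (k + 1) => R'.coeff i) with hb
  have hpoly : (∑ l : Fin (k + 1 + 1), C (a l) * (Polynomial.X : ℝ[X]) ^ (l : ℕ)) =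
      ∑ l : Fin (k + 1), C ((r.den : ℝ) * b l) * (Polynomial.X : ℝ[X]) ^ ((l : ℕ) + 1) := by
    apply Polynomial.funext
    intro t
    rw [Polynomial.eval_finsetSum, Polynomial.eval_finsetSum]
    simp only [Polynomial.eval_mul, Polynomial.eval_C, Polynomial.eval_pow, Polynomial.eval_X]
    have h1 := taylor_ev P (r : ℝ) t
    have h2 := taylor_ev (fun i : Fin (k + 1) => R'.coeff i) (r : ℝ) t
    rw [← ha] at h1
    rw [← hb] at h2
    rw [← h1, key, h2, mul_add, hrn, add_sub_cancel_left, Finset.mul_sum]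
    refine Finset.sum_congr rfl fun l _ => ?_
    ring
  intro i
  have h5 := congrArg (fun F : ℝ[X] => F.coeff ((i : ℕ) + 1)) hpoly
  simp only [Polynomial.finsetSum_coeff, Polynomial.coeff_C_mul_X_pow] at h5
  rw [Finset.sum_eq_single i.succ, Finset.sum_eq_single i] at h5
  · rw [if_pos (by rw [Fin.val_succ]), if_pos rfl] at h5
    exact h5
  · intro l _ hl
    rw [if_neg]
    intro h6
    exact hl (Fin.ext (by omega))
  · intro h6
    exact absurd (Finset.mem_univ _) h6
  · intro l _ hl
    rw [if_neg]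
    intro h6
    apply hl
    rw [Fin.ext_iff, Fin.val_succ]
    exact h6.symm
  · intro h6
    exact absurd (Finset.mem_univ _) h6

end Sp637
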