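import Mathlib
import Pool.Agent.Work.MP_637dc3_nt.Sp.RootH

/-!
# Sp/Factor (M): taking out all common factors `(q X - p)`

Induction on `k`. If some column does not vanish at `r`: `s = 0`, `κ = k`, `M' = M`. Otherwise all columns vanish at `r`. `k = 0` is impossible (a constant vanishing is `0`, but the columns are independent and `j > 0`).
`k = k' + 1`: apply `factor_step` to every column, get `M₁` (`k' + 1` rows) with `ev M_a x = (q x - p) ev M₁_a x` and `(U k r M)_{i+1,a} = q (U k' r M₁)_{i,a}`. `M₁` is independent (a relation between its columns gives a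
relation between the columns of `M`: `∑ λ_a ev M_a = (q x - p) ∑ λ_a ev M₁_a` as functions of `x`, and coefficients are determined by values). Induction hypothesis for `M₁`, `s = s₁ + 1`.
-/

set_option autoImplicit false

open Matrix Polynomial MeasureTheory

namespace Sp637

private theorem coef_zero {n : ℕ} (c : Fin n → ℝ) (h : ∀ x : ℝ, ∑ i : Fin n, c i * x ^ (i : ℕ) = 0)
    (i : Fin n) : c i = 0 := by
  have hP : (∑ i : Fin n, Polynomial.C (c i) * (Polynomial.X : ℝ[X]) ^ (i : ℕ)) = 0 := by
    apply Polynomial.funext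
    intro x
    rw [Polynomial.eval_finsetSum]
    simpa using h x
  have h2 := congrArg (fun p : ℝ[X] => p.coeff (i : ℕ)) hP
  simp only [Polynomial.finsetSum_coeff, Polynomial.coeff_C_mul_X_pow, Polynomial.coeff_zero] at h2
  rw [Finset.sum_eq_single i] at h2
  · simpa using h2
  · intro b _ hb
    rw [if_neg]
    intro h3
    exact hb (Fin.ext h3.symm)
  · intro h3
    exact absurd (Finset.mem_univ i) h3

private theorem umul {k j : ℕ} (x : ℝ) (M : Matrix (Fin (k + 1)) (Fin j) ℤ) (l : Fin (k + 1)) (a : Fin j) :
    (U k x * toR M) l a = (U k x *ᵥ cR (fun i => M i a)) l := by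
  simp only [Matrix.mul_apply, Matrix.mulVec, dotProduct, toR, cR, Matrix.map_apply]

private theorem fin01 (i : Fin (0 + 1)) : i = 0 := by
  apply Fin.ext
  have h := i.2
  have h2 : ((0 : Fin (0 + 1)) : ℕ) = 0 := rfl
  omega

theorem factor (k j : ℕ) (hj : 0 < j) (r : ℚ) (M : Matrix (Fin (k + 1)) (Fin j) ℤ) (hM : Indep M) :
    ∃ (s κ : ℕ) (hs : κ + s = k) (M' : Matrix (Fin (κ + 1)) (Fin j) ℤ), Indep M' ∧
      (∃ a, ev (fun i => M' i a) (r : ℝ) ≠ 0) ∧
      (∀ (a : Fin j) (x : ℝ), ev (fun i => M i a) x =
        ((r.den : ℝ) * x - r.num) ^ s * ev (fun i => M' i a) x) ∧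
      ∀ (a : Fin j) (i : Fin (κ + 1)),
        (U k (r : ℝ) * toR M) ⟨(i : ℕ) + s, by omega⟩ a =
          (r.den : ℝ) ^ s * (U κ (r : ℝ) * toR M') i a := by
  induction k with
  | zero =>
    refine ⟨0, 0, rfl, M, hM, ?_, fun a x => by simp, fun a i => by rw [fin01 i]; simp⟩
    by_contra hcon
    push Not at hcon
    have h0 := hM.ne_zero (⟨0, hj⟩ : Fin j)
    apply h0
    funext i
    have h1 := hcon ⟨0, hj⟩
    unfold ev at h1
    rw [fin01 i]
    simpa using h1
  | succ k ih =>
    by_cases hcol : ∃ a, ev (fun i => M i a) (r : ℝ) ≠ 0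
    · exact ⟨0, k + 1, rfl, M, hM, hcol, fun a x => by simp, fun a i => by simp⟩
    · push Not at hcol
      have hR := fun a => factor_step r (fun i => M i a) (hcol a)
      choose R hR1 hR2 using hR
      have hM₁ : Indep (Matrix.of fun (i : Fin (k + 1)) (a : Fin j) => R a i) := by
        unfold Indep at hM ⊢
        rw [Fintype.linearIndependent_iff] at hM ⊢
        intro g hg
        apply hM g
        have hz : ∀ x : ℝ, ∑ i : Fin (k + 1 + 1), (∑ a, g a * (M i a : ℝ)) * x ^ (i : ℕ) = 0 := by
          intro x
          have e1 : ∑ i : Fin (k + 1 + 1), (∑ a, g a * (M i a : ℝ)) * x ^ (i : ℕ) =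
              ∑ a, g a * ev (fun i => M i a) x := by
            unfold ev
            simp only [Finset.sum_mul, Finset.mul_sum]
            rw [Finset.sum_comm]
            refine Finset.sum_congr rfl fun a _ => Finset.sum_congr rfl fun i _ => by ring
          have e2 : ∑ a, g a * ev (fun i => M i a) x =
              ((r.den : ℝ) * x - r.num) * ∑ a, g a * ev (R a) x := by
            rw [Finset.mul_sum]
            refine Finset.sum_congr rfl fun a _ => ?_
            rw [hR1 a x]
            ring
          have e3 : ∑ a, g a * ev (R a) x = ∑ i : Fin (k + 1), (∑ a, g a * (R a i : ℝ)) * x ^ (i : ℕ) := by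
            unfold ev
            simp only [Finset.sum_mul, Finset.mul_sum]
            rw [Finset.sum_comm]
            refine Finset.sum_congr rfl fun a _ => Finset.sum_congr rfl fun i _ => by ring
          have e4 : ∀ i : Fin (k + 1), ∑ a, g a * (R a i : ℝ) = 0 := by
            intro i
            have := congrFun hg i
            simpa [Finset.sum_apply] using this
          rw [e1, e2, e3]
          simp [e4]
        funext i
        have := coef_zero _ hz i
        simpa [Finset.sum_apply] using this
      obtain ⟨s, κ, hs, M', h1, h2, h3, h4⟩ := ih (Matrix.of fun (i : Fin (k + 1)) (a : Fin j) => R a i) hM₁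
      refine ⟨s + 1, κ, by omega, M', h1, h2, ?_, ?_⟩
      · intro a x
        have e1 := h3 a x
        have e2 : ev (fun i => (Matrix.of fun (i : Fin (k + 1)) (a : Fin j) => R a i) i a) x = ev (R a) x := rfl
        rw [hR1 a x, ← e2, e1, pow_succ]
        ring
      · intro a i
        have e1 := h4 a i
        rw [umul] at e1
        have e2 : (U k (r : ℝ) *ᵥ cR (fun i => (Matrix.of fun (i : Fin (k + 1)) (a : Fin j) => R a i) i a)) =
            (U k (r : ℝ) *ᵥ cR (R a)) := rfl
        rw [e2] at e1
        have e3 := hR2 a ⟨(i : ℕ) + s, by omega⟩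
        rw [umul]
        have e4 : (⟨(i : ℕ) + (s + 1), by omega⟩ : Fin (k + 1 + 1)) =
            (⟨(i : ℕ) + s, by omega⟩ : Fin (k + 1)).succ := by
          ext
          simp [add_assoc]
        rw [e4, e3, e1, pow_succ]
        ring

end Sp637
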