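import Mathlib
import Pool.Agent.Work.MP_637dc3_nt.Sp.UAlg
import Pool.Agent.Work.MP_637dc3_nt.Sp.MinorNZ
import Pool.Agent.Work.MP_637dc3_nt.Sp.IndepCard

/-!
# Sp/UInv (M): minors of products; minors of `U k x * M` are not all small

(1) Expand every row of `A * N` (`τ b`-th row is `∑_m A (τ b) m • N m`): `mnr (A * N) τ = ∑_{σ : Fin j → Fin d} (∏_b A (τ b) (σ b)) mnr N σ`
(multilinearity: `Matrix.detRowAlternating`, `MultilinearMap.map_sum`), there are `d ^ j` functions `σ`, so `|mnr (A * N) τ| ≤ (d b) ^ j μ`.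
(2) `mnr (toR M) τ` is a nonzero integer for some `τ` (`minor_ne_zero`), so `≥ 1` in absolute value; `toR M = U k (-x) * (U k x * toR M)`; apply (1) with
`A = U k (-x)`, entries `≤ 2 ^ k`: if all `|mnr (U k x * toR M) σ| < ((k+1) 2^k)^(-j)` then `1 < 1` (take the maximum over `σ`).
(3) `j ≤ k + 1` by `indep_card` and the base is `≥ 1`.
-/

set_option autoImplicit false

open Matrix Polynomial MeasureTheory

namespace Sp637

theorem mnr_mul_le {d' d j : ℕ} (A : Matrix (Fin d') (Fin d) ℝ) (N : Matrix (Fin d) (Fin j) ℝ)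
    (b μ : ℝ) (hb : 0 ≤ b) (hμ : 0 ≤ μ) (hA : ∀ i m, |A i m| ≤ b) (hN : ∀ σ, |mnr N σ| ≤ μ)
    (τ : Fin j → Fin d') : |mnr (A * N) τ| ≤ ((d : ℝ) * b) ^ j * μ := by
  classical
  have h1 : mnr (A * N) τ = ∑ σ : Fin j → Fin d, (∏ c, A (τ c) (σ c)) * mnr N σ := by
    have h2 : mnr (A * N) τ = Matrix.detRowAlternating.toMultilinearMap
        (fun c : Fin j => ∑ m : Fin d, A (τ c) m • N m) := by
      unfold mnr
      show Matrix.det _ = Matrix.det _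
      congr 1
      ext c a
      simp [Matrix.mul_apply, Finset.sum_apply]
    rw [h2, MultilinearMap.map_sum]
    refine Finset.sum_congr rfl fun σ _ => ?_
    have h3 := MultilinearMap.map_smul_univ (Matrix.detRowAlternating.toMultilinearMap :
      MultilinearMap ℝ (fun _ : Fin j => Fin j → ℝ) ℝ) (fun c => A (τ c) (σ c)) (fun c => N (σ c))
    rw [h3, smul_eq_mul]
    rfl
  rw [h1]
  calc |∑ σ : Fin j → Fin d, (∏ c, A (τ c) (σ c)) * mnr N σ|
      ≤ ∑ σ : Fin j → Fin d, |(∏ c, A (τ c) (σ c)) * mnr N σ| := Finset.abs_sum_le_sum_abs _ _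
    _ ≤ ∑ _σ : Fin j → Fin d, b ^ j * μ := by
        refine Finset.sum_le_sum fun σ _ => ?_
        rw [abs_mul, Finset.abs_prod]
        refine mul_le_mul ?_ (hN σ) (abs_nonneg _) (by positivity)
        calc ∏ c : Fin j, |A (τ c) (σ c)| ≤ ∏ _c : Fin j, b :=
              Finset.prod_le_prod (fun _ _ => abs_nonneg _) fun c _ => hA _ _
          _ = b ^ j := by simp
    _ = ((d : ℝ) * b) ^ j * μ := by
        rw [Finset.sum_const, Finset.card_univ, Fintype.card_fun, Fintype.card_fin, Fintype.card_fin,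
          nsmul_eq_mul, mul_pow]
        push_cast
        ring

theorem minor_lower (k j : ℕ) (x : ℝ) (hx : |x| ≤ 1) (M : Matrix (Fin (k + 1)) (Fin j) ℤ)
    (hM : Indep M) :
    ∃ σ : Fin j → Fin (k + 1), 1 / (((k : ℝ) + 1) * 2 ^ k) ^ (k + 1) ≤ |mnr (U k x * toR M) σ| := by
  obtain ⟨σ₀, hσ₀⟩ := Finite.exists_max (fun σ : Fin j → Fin (k + 1) => |mnr (U k x * toR M) σ|)
  refine ⟨σ₀, ?_⟩
  obtain ⟨τ, -, hτ⟩ := minor_ne_zero (toR M) hM
  have h1 : 1 ≤ |mnr (toR M) τ| := by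
    obtain ⟨z, hz⟩ : ∃ z : ℤ, mnr (toR M) τ = (z : ℝ) := by
      refine ⟨(M.submatrix τ id).det, ?_⟩
      rw [Int.cast_det]
      rfl
    rw [hz] at hτ ⊢
    have h3 : z ≠ 0 := by
      rintro rfl
      exact hτ (by simp)
    exact_mod_cast Int.one_le_abs h3
  have h2 : toR M = U k (-x) * (U k x * toR M) := by
    rw [← Matrix.mul_assoc, U_neg_mul, Matrix.one_mul]
  have hent : ∀ i m, |U k (-x) i m| ≤ 2 ^ k := by
    intro i m
    simp only [U, Matrix.of_apply]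
    rw [abs_mul, Nat.abs_cast, abs_pow, abs_neg]
    have h4 : (((m : ℕ).choose (i : ℕ) : ℕ) : ℝ) ≤ 2 ^ k := by
      have h5 : (m : ℕ).choose (i : ℕ) ≤ 2 ^ (m : ℕ) := Nat.choose_le_two_pow _ _
      have h6 : 2 ^ (m : ℕ) ≤ 2 ^ k := Nat.pow_le_pow_right (by norm_num) (by have := m.2; omega)
      exact_mod_cast h5.trans h6
    have h7 : |x| ^ ((m : ℕ) - (i : ℕ)) ≤ 1 := pow_le_one₀ (abs_nonneg _) hx
    calc (((m : ℕ).choose (i : ℕ) : ℕ) : ℝ) * |x| ^ ((m : ℕ) - (i : ℕ)) ≤ 2 ^ k * 1 :=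
          mul_le_mul h4 h7 (by positivity) (by positivity)
      _ = 2 ^ k := mul_one _
  have h3 := mnr_mul_le (U k (-x)) (U k x * toR M) (2 ^ k) (|mnr (U k x * toR M) σ₀|) (by positivity)
    (abs_nonneg _) hent hσ₀ τ
  rw [← h2] at h3
  have hj : j ≤ k + 1 := indep_card M hM
  have hbase : (1 : ℝ) ≤ ((k + 1 : ℕ) : ℝ) * 2 ^ k := by
    have h8 : (1 : ℝ) ≤ 2 ^ k := one_le_pow₀ (by norm_num)
    have h9 : (1 : ℝ) ≤ ((k + 1 : ℕ) : ℝ) := by
      push_cast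
      have : (0 : ℝ) ≤ k := Nat.cast_nonneg k
      linarith
    nlinarith
  have h10 : (((k + 1 : ℕ) : ℝ) * 2 ^ k) ^ j ≤ (((k + 1 : ℕ) : ℝ) * 2 ^ k) ^ (k + 1) :=
    pow_le_pow_right₀ hbase hj
  have hpos : 0 < (((k : ℝ) + 1) * 2 ^ k) ^ (k + 1) := by positivity
  rw [div_le_iff₀ hpos]
  have h11 : (((k + 1 : ℕ) : ℝ) * 2 ^ k) = (((k : ℝ) + 1) * 2 ^ k) := by push_cast; ring
  rw [h11] at h3 h10
  calc (1 : ℝ) ≤ (((k : ℝ) + 1) * 2 ^ k) ^ j * |mnr (U k x * toR M) σ₀| := h1.trans h3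
    _ ≤ (((k : ℝ) + 1) * 2 ^ k) ^ (k + 1) * |mnr (U k x * toR M) σ₀| :=
        mul_le_mul_of_nonneg_right h10 (abs_nonneg _)
    _ = _ := mul_comm _ _

end Sp637
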