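import Mathlib
import Pool.Agent.Work.MP_637dc3_nt.Sp.Defs

/-!
# Sp/Unimod (S-M): unimodular reduction of an integer row vector

Among the integer matrices `A` with `|det A| = 1` (nonempty: `A = 1`) choose one with `∑_a |(m ᵥ* A) a|` minimal. `m ᵥ* A ≠ 0` (`A` is invertible). If two entries `a ≠ b` are not `0`,
say `|(m A)_a| ≥ |(m A)_b| > 0`, replace column `a` of `A` by column `a` ∓ column `b` (`Matrix.det_updateCol_add_smul_self` or multiply by a transvection): the determinant does not change and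
`|(m A)_a|` decreases: contradiction.
-/

set_option autoImplicit false

open Matrix Polynomial MeasureTheory

namespace Sp637

private theorem unimod_step {j : ℕ} (m : Fin j → ℤ) (A : Matrix (Fin j) (Fin j) ℤ) (hA : |A.det| = 1)
    {a b : Fin j} (hab : a ≠ b) (hb : (m ᵥ* A) b ≠ 0) (hle : |(m ᵥ* A) b| ≤ |(m ᵥ* A) a|) :
    ∃ B : Matrix (Fin j) (Fin j) ℤ, |B.det| = 1 ∧
      ∑ x, ((m ᵥ* B) x).natAbs < ∑ x, ((m ᵥ* A) x).natAbs := by
  obtain ⟨c, hc⟩ : ∃ c : ℤ, |(m ᵥ* A) a + c * (m ᵥ* A) b| < |(m ᵥ* A) a| := by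
    generalize (m ᵥ* A) a = u at *
    generalize (m ᵥ* A) b = v at *
    rcases le_total 0 u with hu | hu <;> rcases le_total 0 v with hv | hv
    · refine ⟨-1, ?_⟩
      rw [abs_of_nonneg hu] at hle ⊢
      rw [abs_of_nonneg hv] at hle
      rw [abs_lt]
      constructor <;> omega
    · refine ⟨1, ?_⟩
      rw [abs_of_nonneg hu] at hle ⊢
      rw [abs_of_nonpos hv] at hle
      rw [abs_lt]
      constructor <;> omega
    · refine ⟨1, ?_⟩
      rw [abs_of_nonpos hu] at hle ⊢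
      rw [abs_of_nonneg hv] at hle
      rw [abs_lt]
      constructor <;> omega
    · refine ⟨-1, ?_⟩
      rw [abs_of_nonpos hu] at hle ⊢
      rw [abs_of_nonpos hv] at hle
      rw [abs_lt]
      constructor <;> omega
  have hc' : ((m ᵥ* A) a + c * (m ᵥ* A) b).natAbs < ((m ᵥ* A) a).natAbs := by
    zify
    exact hc
  refine ⟨A.updateCol a (fun k => A k a + c • A k b), ?_, ?_⟩
  · rw [Matrix.det_updateCol_add_smul_self A hab c]
    exact hA
  · have h1 : (m ᵥ* A.updateCol a (fun k => A k a + c • A k b)) a = (m ᵥ* A) a + c * (m ᵥ* A) b := by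
      simp only [Matrix.vecMul, dotProduct, Matrix.updateCol_self, smul_eq_mul, Finset.mul_sum]
      rw [← Finset.sum_add_distrib]
      refine Finset.sum_congr rfl fun i _ => ?_
      ring
    have h2 : ∀ x, x ≠ a → (m ᵥ* A.updateCol a (fun k => A k a + c • A k b)) x = (m ᵥ* A) x := by
      intro x hx
      simp only [Matrix.vecMul, dotProduct]
      refine Finset.sum_congr rfl fun i _ => ?_
      rw [Matrix.updateCol_ne hx]
    refine Finset.sum_lt_sum (fun x _ => ?_) ⟨a, Finset.mem_univ _, ?_⟩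
    · by_cases hx : x = a
      · subst hx
        rw [h1]
        exact hc'.le
      · rw [h2 x hx]
    · rw [h1]
      exact hc'

theorem unimod {j : ℕ} (m : Fin j → ℤ) (hm : m ≠ 0) :
    ∃ A : Matrix (Fin j) (Fin j) ℤ, |A.det| = 1 ∧
      ∃ a₀, (m ᵥ* A) a₀ ≠ 0 ∧ ∀ a, a ≠ a₀ → (m ᵥ* A) a = 0 := by
  classical
  have hex : ∃ n : ℕ, ∃ A : Matrix (Fin j) (Fin j) ℤ, |A.det| = 1 ∧ ∑ x, ((m ᵥ* A) x).natAbs = n :=
    ⟨_, 1, by simp, rfl⟩
  obtain ⟨A, hA, hAn⟩ := Nat.find_spec hex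
  have hmin : ∀ B : Matrix (Fin j) (Fin j) ℤ, |B.det| = 1 →
      ¬ ∑ x, ((m ᵥ* B) x).natAbs < ∑ x, ((m ᵥ* A) x).natAbs := by
    intro B hB hlt
    rw [hAn] at hlt
    exact Nat.find_min hex hlt ⟨B, hB, rfl⟩
  have hw : m ᵥ* A ≠ 0 := by
    intro h0
    apply hm
    have h1 : (m ᵥ* A) ᵥ* A.adjugate = 0 := by rw [h0, Matrix.zero_vecMul]
    rw [Matrix.vecMul_vecMul, Matrix.mul_adjugate, Matrix.vecMul_smul, Matrix.vecMul_one] at h1
    have hdet : A.det ≠ 0 := by
      intro h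
      rw [h] at hA
      simp at hA
    funext i
    have h2 := congrFun h1 i
    simp only [Pi.smul_apply, smul_eq_mul, Pi.zero_apply] at h2
    exact (mul_eq_zero.1 h2).resolve_left hdet
  obtain ⟨a₀, ha₀⟩ := Function.ne_iff.1 hw
  refine ⟨A, hA, a₀, ha₀, fun a ha => ?_⟩
  by_contra hne
  rcases le_total |(m ᵥ* A) a| |(m ᵥ* A) a₀| with hle | hle
  · obtain ⟨B, hB, hlt⟩ := unimod_step m A hA (Ne.symm ha) hne hle
    exact hmin B hB hlt
  · obtain ⟨B, hB, hlt⟩ := unimod_step m A hA ha ha₀ hle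
    exact hmin B hB hlt

end Sp637
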