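import Mathlib
import Pool.Agent.Work.MP_637dc3_nt.Sp.Defs2
import Pool.Agent.Work.MP_637dc3_nt.Sp.UInv
import Pool.Agent.Work.MP_637dc3_nt.Sp.Unimod
import Pool.Agent.Work.MP_637dc3_nt.Sp.RootH

/-!
# Sp/GHigh (M-L): lower bound for minors on the scales `Y ≥ r.den`

`p = r.num`, `q = r.den`, `m_a = ∑_i p^i q^(κ-i) M_{i,a} = q^κ ev (M_a) r`, `m ≠ 0`. `A, a₀` from `unimod`; `M'' = M * A` is independent and `|mnr (G * toR M'') σ| = |mnr (G * toR M) σ|` for all `G, σ`.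
`ev (M''_{a₀}) r = m''/q^κ` with an integer `m'' ≠ 0`; the other columns vanish at `r`. Let `j = j' + 1`. If `j' = 0`: `σ = 0`: `|mnr| = Y^κ |m''|/q^κ ≥ 1`. Let `j' ≥ 1`, so `κ ≥ 1` (`j ≤ κ + 1`), `κ = κ' + 1`.
For `a ≠ a₀` `factor_step` gives `S_a` (`κ' + 1` coefficients) with `(U κ r M''_a)_{i+1} = q (U κ' r S_a)_i`, `ev M''_a x = (q x - p) ev S_a x`. The matrix `S` (columns `a₀.succAbove`, `j'` of them) is
independent. By `minor_lower` there is `σ' : Fin j' → Fin (κ'+1)` with `|mnr (U κ' r * toR S) σ'| ≥ c₁`. Take `σ = Fin.cons 0 (fun b => (σ' b).succ)`. The row `0` of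
`(diagonal (wy κ Y) * (U κ r * toR M'')).submatrix σ id` is `Y^κ ev (M''_a) r`, which is `0` for `a ≠ a₀`; expand along it (`det_succ_row_zero`): `|mnr| = Y^κ (|m''|/q^κ) · |det (rows b, columns a₀.succAbove)|`, and that
determinant is `(q/Y)^(j')` times `mnr (U κ' r * toR S) σ'`. So `|mnr| ≥ c₁ (Y/q)^(κ - j') ≥ c₁` (`j' ≤ κ`, `Y ≥ q`).
-/

set_option autoImplicit false

open Matrix Polynomial MeasureTheory

namespace Sp637

private theorem indep_iff {d j : ℕ} (M : Matrix (Fin d) (Fin j) ℤ) :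
    Indep M ↔ Function.Injective (toR M).mulVec := by
  rw [Matrix.mulVec_injective_iff]
  rfl

private theorem ev_eq_row {k j : ℕ} (M : Matrix (Fin (k + 1)) (Fin j) ℤ) (x : ℝ) (a : Fin j) :
    (U k x * toR M) 0 a = ev (fun i => M i a) x := by
  rw [← U_row_zero (fun i => M i a) x]
  rfl

private theorem mul_entry {k j : ℕ} (M : Matrix (Fin (k + 1)) (Fin j) ℤ) (x : ℝ) (a : Fin j)
    (i : Fin (k + 1)) :
    (U k x * toR M) i a = (U k x *ᵥ cR (fun i => M i a)) i := rfl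

private theorem aux_zero (r : ℚ) (Y : ℝ) (j' : ℕ) (M : Matrix (Fin (0 + 1)) (Fin (j' + 1)) ℤ)
    (hM : Indep M) (a₀ : Fin (j' + 1))
    (h0 : 1 ≤ (r.den : ℝ) ^ 0 * |ev (fun i => M i a₀) (r : ℝ)|) :
    ∃ σ : Fin (j' + 1) → Fin (0 + 1), 1 ≤
      |mnr (Matrix.diagonal (wy 0 Y) * (U 0 (r : ℝ) * toR M)) σ| := by
  have hj := indep_card M hM
  obtain rfl : j' = 0 := by omega
  refine ⟨fun _ => 0, ?_⟩
  unfold mnr
  have ha : a₀ = 0 := Fin.ext (by have := a₀.2; simp only [Fin.val_zero]; omega)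
  subst ha
  have h1 : ((Matrix.diagonal (wy 0 Y) * (U 0 (r : ℝ) * toR M)).submatrix
      (fun _ : Fin (0 + 1) => (0 : Fin (0 + 1))) id).det = ev (fun i => M i 0) (r : ℝ) := by
    rw [← ev_eq_row M (r : ℝ) 0, Matrix.det_fin_one, Matrix.submatrix_apply, Matrix.diagonal_mul]
    simp [wy]
  rw [h1]
  simpa using h0

private theorem aux_succ (κ' j' : ℕ) (r : ℚ) (hr0 : 0 ≤ r) (hr1 : r < 1) (Y : ℝ)
    (hY : (r.den : ℝ) ≤ Y) (M : Matrix (Fin (κ' + 1 + 1)) (Fin (j' + 1)) ℤ) (hM : Indep M)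
    (a₀ : Fin (j' + 1))
    (h0 : 1 ≤ (r.den : ℝ) ^ (κ' + 1) * |ev (fun i => M i a₀) (r : ℝ)|)
    (h1 : ∀ a, a ≠ a₀ → ev (fun i => M i a) (r : ℝ) = 0) :
    ∃ σ : Fin (j' + 1) → Fin (κ' + 1 + 1), 1 / (((κ' : ℝ) + 1) * 2 ^ κ') ^ (κ' + 1) ≤
      |mnr (Matrix.diagonal (wy (κ' + 1) Y) * (U (κ' + 1) (r : ℝ) * toR M)) σ| := by
  have hj : j' ≤ κ' + 1 := by
    have := indep_card M hM
    omega
  have hq : (0 : ℝ) < r.den := by exact_mod_cast r.den_pos
  have hYp : 0 < Y := hq.trans_le hY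
  have hS : ∀ b : Fin j', ∃ R : Fin (κ' + 1) → ℤ, ∀ i : Fin (κ' + 1),
      (U (κ' + 1) (r : ℝ) *ᵥ cR (fun i => M i (a₀.succAbove b))) i.succ =
        (r.den : ℝ) * (U κ' (r : ℝ) *ᵥ cR R) i := by
    intro b
    obtain ⟨R, -, hR⟩ := factor_step r (fun i => M i (a₀.succAbove b)) (h1 _ (Fin.succAbove_ne _ _))
    exact ⟨R, hR⟩
  choose S' hS' using hS
  let S : Matrix (Fin (κ' + 1)) (Fin j') ℤ := Matrix.of fun i b => S' b i
  have hSe : ∀ b i, (U (κ' + 1) (r : ℝ) * toR M) (Fin.succ i) (a₀.succAbove b) =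
      (r.den : ℝ) * (U κ' (r : ℝ) * toR S) i b := by
    intro b i
    exact hS' b i
  have hrow0 : ∀ a, (U (κ' + 1) (r : ℝ) * toR M) 0 a = ev (fun i => M i a) (r : ℝ) :=
    fun a => ev_eq_row M _ a
  have hSind : Indep S := by
    rw [indep_iff, ← Matrix.coe_mulVecLin, ← LinearMap.ker_eq_bot, LinearMap.ker_eq_bot']
    intro l hl
    rw [Matrix.mulVecLin_apply] at hl
    -- the relation for the columns of `M`
    have hN : LinearIndependent ℝ (fun (b : Fin j') (i : Fin (κ' + 1 + 1)) =>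
        (M i (a₀.succAbove b) : ℝ)) := by
      unfold Indep at hM
      exact hM.comp _ (Fin.succAbove_right_injective)
    have hN' : Function.Injective (toR (M.submatrix id a₀.succAbove)).mulVec := by
      rw [Matrix.mulVec_injective_iff]
      exact hN
    have h2 : U (κ' + 1) (r : ℝ) *ᵥ (toR (M.submatrix id a₀.succAbove) *ᵥ l) = 0 := by
      rw [Matrix.mulVec_mulVec]
      funext i
      refine Fin.cases ?_ (fun i => ?_) i
      · simp only [Matrix.mulVec, dotProduct, Pi.zero_apply]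
        refine Finset.sum_eq_zero fun b _ => ?_
        have : (U (κ' + 1) (r : ℝ) * toR (M.submatrix id a₀.succAbove)) 0 b =
            (U (κ' + 1) (r : ℝ) * toR M) 0 (a₀.succAbove b) := rfl
        rw [this, hrow0, h1 _ (Fin.succAbove_ne _ _), zero_mul]
      · have h3 : ((U κ' (r : ℝ) * toR S) *ᵥ l) i = 0 := by
          rw [← Matrix.mulVec_mulVec, hl, Matrix.mulVec_zero]
          rfl
        simp only [Matrix.mulVec, dotProduct, Pi.zero_apply] at h3 ⊢
        have h4 : ∀ b, (U (κ' + 1) (r : ℝ) * toR (M.submatrix id a₀.succAbove)) i.succ b * l b =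
            (r.den : ℝ) * ((U κ' (r : ℝ) * toR S) i b * l b) := by
          intro b
          have : (U (κ' + 1) (r : ℝ) * toR (M.submatrix id a₀.succAbove)) i.succ b =
            (U (κ' + 1) (r : ℝ) * toR M) i.succ (a₀.succAbove b) := rfl
          rw [this, hSe, mul_assoc]
        rw [Finset.sum_congr rfl (fun b _ => h4 b), ← Finset.mul_sum, h3, mul_zero]
    have h5 : toR (M.submatrix id a₀.succAbove) *ᵥ l = 0 := by
      have := congrArg (fun v => U (κ' + 1) (-(r : ℝ)) *ᵥ v) h2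
      simp only [Matrix.mulVec_mulVec, Matrix.mulVec_zero] at this
      rw [← Matrix.mul_assoc, U_neg_mul, Matrix.one_mul] at this
      exact this
    apply hN'
    rw [h5]
    exact (Matrix.mulVec_zero _).symm
  have hr : |(r : ℝ)| ≤ 1 := by
    have h2 : (0 : ℝ) ≤ r := by exact_mod_cast hr0
    have h3 : (r : ℝ) < 1 := by exact_mod_cast hr1
    rw [abs_of_nonneg h2]
    exact h3.le
  obtain ⟨σ', hσ'⟩ := minor_lower κ' j' (r : ℝ) hr S hSind
  refine ⟨Fin.cons 0 (fun b => (σ' b).succ), hσ'.trans ?_⟩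
  set B := (Matrix.diagonal (wy (κ' + 1) Y) * (U (κ' + 1) (r : ℝ) * toR M)).submatrix
    (Fin.cons 0 (fun b => (σ' b).succ) : Fin (j' + 1) → Fin (κ' + 1 + 1)) id with hB
  have hB0 : ∀ a, B 0 a = Y ^ (κ' + 1) * ev (fun i => M i a) (r : ℝ) := by
    intro a
    rw [hB, Matrix.submatrix_apply, Matrix.diagonal_mul, Fin.cons_zero, id, hrow0]
    simp [wy]
  have hBs : ∀ b c, B (Fin.succ b) (a₀.succAbove c) =
      (Y⁻¹ * r.den) * (U κ' (r : ℝ) * toR S) (σ' b) c := by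
    intro b c
    rw [hB, Matrix.submatrix_apply, Matrix.diagonal_mul, Fin.cons_succ, id, hSe]
    simp [wy, mul_assoc]
  have hdet : B.det = (-1) ^ (a₀ : ℕ) * (Y ^ (κ' + 1) * ev (fun i => M i a₀) (r : ℝ)) *
      ((Y⁻¹ * r.den) ^ j' * mnr (U κ' (r : ℝ) * toR S) σ') := by
    rw [Matrix.det_succ_row_zero, Finset.sum_eq_single a₀]
    · rw [hB0]
      congr 1
      have : B.submatrix Fin.succ a₀.succAbove = (Y⁻¹ * (r.den : ℝ)) •
          ((U κ' (r : ℝ) * toR S).submatrix σ' id) := by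
        ext b c
        rw [Matrix.submatrix_apply, hBs]
        rfl
      rw [this, Matrix.det_smul, Fintype.card_fin]
      rfl
    · intro a _ ha
      rw [hB0, h1 a ha]
      ring
    · intro h
      exact absurd (Finset.mem_univ _) h
  have hfin : |mnr (Matrix.diagonal (wy (κ' + 1) Y) * (U (κ' + 1) (r : ℝ) * toR M))
      (Fin.cons 0 (fun b => (σ' b).succ))| = |B.det| := rfl
  rw [hfin, hdet, abs_mul, abs_mul, abs_mul, abs_mul, abs_pow, abs_neg, abs_one, one_pow, one_mul,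
    abs_of_pos (pow_pos hYp _), abs_of_pos (pow_pos (mul_pos (inv_pos.2 hYp) hq) _)]
  have ht : 1 ≤ Y ^ (κ' + 1) * |ev (fun i => M i a₀) (r : ℝ)| * (Y⁻¹ * r.den) ^ j' := by
    have e1 : Y ^ (κ' + 1) * |ev (fun i => M i a₀) (r : ℝ)| * (Y⁻¹ * r.den) ^ j' =
        (Y / r.den) ^ (κ' + 1 - j') * ((r.den : ℝ) ^ (κ' + 1) *
          |ev (fun i => M i a₀) (r : ℝ)|) := by
      have e2 : (Y⁻¹ * (r.den : ℝ)) = (Y / r.den)⁻¹ := by
        rw [inv_div]
        field_simp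
      have e3 : Y ^ (κ' + 1) = (Y / r.den) ^ (κ' + 1) * (r.den : ℝ) ^ (κ' + 1) := by
        rw [div_pow]
        field_simp
      have e4 : (Y / r.den) ^ (κ' + 1) = (Y / r.den) ^ (κ' + 1 - j') * (Y / r.den) ^ j' := by
        rw [← pow_add]
        congr 1
        omega
      have e5 : (Y / r.den) ≠ 0 := (div_pos hYp hq).ne'
      rw [e2, e3, e4, inv_pow]
      field_simp
    rw [e1]
    have e6 : 1 ≤ (Y / r.den) ^ (κ' + 1 - j') := one_le_pow₀ ((one_le_div hq).2 hY)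
    exact one_le_mul_of_one_le_of_one_le e6 h0
  calc |mnr (U κ' (r : ℝ) * toR S) σ'| = 1 * |mnr (U κ' (r : ℝ) * toR S) σ'| := (one_mul _).symm
    _ ≤ (Y ^ (κ' + 1) * |ev (fun i => M i a₀) (r : ℝ)| * (Y⁻¹ * r.den) ^ j') *
        |mnr (U κ' (r : ℝ) * toR S) σ'| := mul_le_mul_of_nonneg_right ht (abs_nonneg _)
    _ = _ := by ring

theorem g_high (κ j : ℕ) (hj : 0 < j) : ∃ c : ℝ, 0 < c ∧ ∀ r : ℚ, 0 ≤ r → r < 1 → ∀ Y : ℝ,
    (r.den : ℝ) ≤ Y → ∀ M : Matrix (Fin (κ + 1)) (Fin j) ℤ, Indep M →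
      (∃ a, ev (fun i => M i a) (r : ℝ) ≠ 0) →
        ∃ σ : Fin j → Fin (κ + 1), c ≤
          |mnr (Matrix.diagonal (wy κ Y) * (U κ (r : ℝ) * toR M)) σ| := by
  -- it is enough to treat matrices with only one column not vanishing at `r`
  obtain ⟨j', rfl⟩ : ∃ j', j = j' + 1 := ⟨j - 1, by omega⟩
  have key : ∃ c : ℝ, 0 < c ∧ ∀ r : ℚ, 0 ≤ r → r < 1 → ∀ Y : ℝ,
    (r.den : ℝ) ≤ Y → ∀ (M : Matrix (Fin (κ + 1)) (Fin (j' + 1)) ℤ), Indep M →
      ∀ a₀ : Fin (j' + 1), 1 ≤ (r.den : ℝ) ^ κ * |ev (fun i => M i a₀) (r : ℝ)| →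
        (∀ a, a ≠ a₀ → ev (fun i => M i a) (r : ℝ) = 0) →
        ∃ σ : Fin (j' + 1) → Fin (κ + 1), c ≤
          |mnr (Matrix.diagonal (wy κ Y) * (U κ (r : ℝ) * toR M)) σ| := by
    rcases κ with _ | κ'
    · exact ⟨1, one_pos, fun r _ _ Y _ M hM a₀ h0 _ => aux_zero r Y j' M hM a₀ h0⟩
    · refine ⟨1 / (((κ' : ℝ) + 1) * 2 ^ κ') ^ (κ' + 1), by positivity, ?_⟩
      intro r hr0 hr1 Y hY M hM a₀ h0 h1
      exact aux_succ κ' j' r hr0 hr1 Y hY M hM a₀ h0 h1
  obtain ⟨c, hc, key⟩ := key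
  refine ⟨c, hc, ?_⟩
  intro r hr0 hr1 Y hY M hM hex
  have hq : (0 : ℝ) < r.den := by exact_mod_cast r.den_pos
  let m : Fin (j' + 1) → ℤ := fun a => ∑ i : Fin (κ + 1), r.num ^ (i : ℕ) *
    (r.den : ℤ) ^ (κ - (i : ℕ)) * M i a
  have hm : ∀ a, (m a : ℝ) = (r.den : ℝ) ^ κ * ev (fun i => M i a) (r : ℝ) := by
    intro a
    simp only [m, ev]
    push_cast
    rw [Finset.mul_sum]
    refine Finset.sum_congr rfl fun i _ => ?_
    have hi : (i : ℕ) ≤ κ := by omega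
    have e1 : (r : ℝ) = (r.num : ℝ) / (r.den : ℝ) := Rat.cast_def r
    have e2 : (r.den : ℝ) ^ κ = (r.den : ℝ) ^ (κ - (i : ℕ)) * (r.den : ℝ) ^ (i : ℕ) := by
      rw [← pow_add]
      congr 1
      omega
    rw [e2, e1, div_pow]
    field_simp
  have hm0 : m ≠ 0 := by
    obtain ⟨a, ha⟩ := hex
    intro h
    have h2 := congrFun h a
    have h3 := hm a
    rw [h2] at h3
    simp only [Pi.zero_apply, Int.cast_zero] at h3
    exact ha ((mul_eq_zero.1 h3.symm).resolve_left (pow_pos hq _).ne')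
  obtain ⟨A, hA, a₀, ha₀, hother⟩ := unimod m hm0
  have htoR : toR (M * A) = toR M * toR A := by
    unfold toR
    exact Matrix.map_mul (f := Int.castRingHom ℝ)
  have hAdet : |(toR A).det| = 1 := by
    have h2 : (toR A).det = (A.det : ℝ) := by
      unfold toR
      exact (RingHom.map_det (Int.castRingHom ℝ) A).symm
    rw [h2, ← Int.cast_abs, hA, Int.cast_one]
  have hAu : IsUnit (toR A) := by
    rw [Matrix.isUnit_iff_isUnit_det, isUnit_iff_ne_zero]
    intro h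
    rw [h, abs_zero] at hAdet
    exact zero_ne_one hAdet
  have hind : Indep (M * A) := by
    rw [indep_iff, htoR]
    rw [indep_iff] at hM
    have h2 : (toR M * toR A).mulVec = (toR M).mulVec ∘ (toR A).mulVec := by
      funext v
      exact (Matrix.mulVec_mulVec _ _ _).symm
    rw [h2]
    exact hM.comp (Matrix.mulVec_injective_of_isUnit hAu)
  have hev : ∀ a, (r.den : ℝ) ^ κ * ev (fun i => (M * A) i a) (r : ℝ) = ((m ᵥ* A) a : ℝ) := by
    intro a
    have h2 : ev (fun i => (M * A) i a) (r : ℝ) =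
        ∑ b, ev (fun i => M i b) (r : ℝ) * (A b a : ℝ) := by
      simp only [ev, Matrix.mul_apply]
      push_cast
      simp only [Finset.sum_mul]
      rw [Finset.sum_comm]
      refine Finset.sum_congr rfl fun b _ => Finset.sum_congr rfl fun i _ => ?_
      ring
    rw [h2, Finset.mul_sum]
    simp only [Matrix.vecMul, dotProduct]
    push_cast
    refine Finset.sum_congr rfl fun b _ => ?_
    rw [hm b]
    ring
  obtain ⟨σ, hσ⟩ := key r hr0 hr1 Y hY (M * A) hind a₀ (by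
      have h2 := congrArg abs (hev a₀)
      rw [abs_mul, abs_of_pos (pow_pos hq _)] at h2
      rw [h2, ← Int.cast_abs]
      exact_mod_cast Int.one_le_abs ha₀) (by
      intro a ha
      have h2 := hev a
      rw [hother a ha, Int.cast_zero] at h2
      exact (mul_eq_zero.1 h2).resolve_left (pow_pos hq _).ne')
  refine ⟨σ, hσ.trans (le_of_eq ?_)⟩
  unfold mnr
  have h3 : (Matrix.diagonal (wy κ Y) * (U κ (r : ℝ) * toR (M * A))).submatrix σ id =
      (Matrix.diagonal (wy κ Y) * (U κ (r : ℝ) * toR M)).submatrix σ id * toR A := by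
    have h4 : ∀ G : Matrix (Fin (κ + 1)) (Fin (j' + 1)) ℝ,
        (G * toR A).submatrix σ id = G.submatrix σ id * toR A := by
      intro G
      ext a b
      simp [Matrix.mul_apply]
    rw [← h4, htoR, Matrix.mul_assoc, Matrix.mul_assoc]
  rw [h3, Matrix.det_mul, abs_mul, hAdet, mul_one]

end Sp637
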