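import Mathlib
import Pool.Agent.Work.MP_637dc3_nt.Sp.Defs
import Pool.Agent.Work.MP_637dc3_nt.Sp.MinorNZ

/-!
# Sp/Mink (M): small minors give a short integer combination of the columns

Choose `σ` with `m = |mnr N σ|` maximal; `m > 0` (`minor_ne_zero`), `m ≤ μ`. `B = N.submatrix σ id` is invertible, `|det B| = m`. The set `{x : ∀ b, |(B x)_b| < 2 m^(1/j)}` is convex,
symmetric and has volume `(4 m^(1/j))^j / m = 4^j > 2^j`, so by Minkowski (`MeasureTheory.exists_ne_zero_mem_lattice_of_measure_mul_two_pow_lt_measure` for the lattice `ℤ^j`,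
`Real.map_matrix_volume_pi_eq_smul_volume_pi` or `addHaar_preimage_linearMap` for the volume) it contains an integer vector `a ≠ 0`. For every row `i`:
`N i = ∑_b t_b B_b` with `|t_b| = |mnr N (update σ b i)| / m ≤ 1` (Cramer: `N i * B⁻¹`, `Matrix.det_updateRow`-type formula), so `|(N a)_i| ≤ ∑_b |(B a)_b| ≤ 2 j m^(1/j) ≤ 2 j μ^(1/j)`.
-/

set_option autoImplicit false

open Matrix Polynomial MeasureTheory

namespace Sp637

private theorem mk_forms {n : ℕ} (T : Matrix (Fin n) (Fin n) ℝ) (hT : T.det ≠ 0) (B : ℝ) (hB : 0 < B)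
    (h : |T.det| < B ^ n) : ∃ x : Fin n → ℤ, x ≠ 0 ∧
      ∀ i, |∑ j, T i j * (x j : ℝ)| ≤ B := by
  classical
  -- the lattice
  set b : Module.Basis (Fin n) ℝ (Fin n → ℝ) := Pi.basisFun ℝ (Fin n) with hb
  set L : AddSubgroup (Fin n → ℝ) := (Submodule.span ℤ (Set.range b)).toAddSubgroup with hL
  have fund : IsAddFundamentalDomain L (ZSpan.fundamentalDomain b) volume :=
    ZSpan.isAddFundamentalDomain' b volume
  set s : Set (Fin n → ℝ) := (Matrix.toLin' T) ⁻¹' (Set.pi Set.univ fun _ => Set.Icc (-B) B) with hs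
  have h_symm : ∀ x ∈ s, -x ∈ s := by
    intro x hx i _
    have := hx i (Set.mem_univ i)
    simp only [map_neg, Pi.neg_apply, Set.mem_Icc] at this ⊢
    constructor <;> linarith [this.1, this.2]
  have h_conv : Convex ℝ s := by
    apply Convex.linear_preimage
    exact convex_pi fun i _ => convex_Icc _ _
  have hcount : Countable L := by
    rw [hL]
    exact inferInstanceAs (Countable (Submodule.span ℤ (Set.range b)))
  have hvolF : volume (ZSpan.fundamentalDomain b) = 1 := by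
    rw [hb, ZSpan.fundamentalDomain_pi_basisFun, volume_pi_pi]
    simp
  have hdet : LinearMap.det (Matrix.toLin' T) = T.det := LinearMap.det_toLin' T
  have hvols : volume s = ENNReal.ofReal (|T.det|⁻¹) * ENNReal.ofReal (2 * B) ^ n := by
    rw [hs, Measure.addHaar_preimage_linearMap volume (by rw [hdet]; exact hT), hdet,
      volume_pi_pi]
    simp only [Real.volume_Icc, Finset.prod_const, Finset.card_univ, Fintype.card_fin, abs_inv]
    congr 3
    ring
  have hTpos : 0 < |T.det| := abs_pos.mpr hT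
  have hlt : volume (ZSpan.fundamentalDomain b) * 2 ^ Module.finrank ℝ (Fin n → ℝ) < volume s := by
    rw [hvolF, hvols, one_mul, Module.finrank_fin_fun, ← ENNReal.ofReal_pow (by positivity),
      ← ENNReal.ofReal_mul (by positivity)]
    have e : (2 : ENNReal) ^ n = ENNReal.ofReal (2 ^ n) := by
      rw [ENNReal.ofReal_pow (by norm_num)]
      norm_num
    rw [e]
    apply (ENNReal.ofReal_lt_ofReal_iff (by positivity)).mpr
    rw [mul_pow, inv_mul_eq_div, lt_div_iff₀ hTpos]
    exact mul_lt_mul_of_pos_left h (by positivity)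
  obtain ⟨x, hx0, hxs⟩ := exists_ne_zero_mem_lattice_of_measure_mul_two_pow_lt_measure fund h_symm
    h_conv hlt
  have hxL : ((x : L) : Fin n → ℝ) ∈ Submodule.span ℤ (Set.range b) := x.2
  rw [b.mem_span_iff_repr_mem ℤ] at hxL
  have hz : ∀ i, ∃ z : ℤ, (z : ℝ) = ((x : L) : Fin n → ℝ) i := by
    intro i
    obtain ⟨z, hz⟩ := hxL i
    exact ⟨z, by simpa [hb] using hz⟩
  choose z hz using hz
  refine ⟨z, ?_, ?_⟩
  · intro h0
    apply hx0
    apply Subtype.ext
    funext i
    rw [← hz i, h0]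
    simp
  · intro i
    have := hxs i (Set.mem_univ i)
    rw [abs_le]
    have e : (Matrix.toLin' T) (x : Fin n → ℝ) i = ∑ j, T i j * (z j : ℝ) := by
      rw [Matrix.toLin'_apply]
      simp only [Matrix.mulVec, dotProduct]
      apply Finset.sum_congr rfl
      intro j _
      rw [hz j]
    rw [← e]
    exact this

private theorem mk_row {d j : ℕ} (N : Matrix (Fin d) (Fin j) ℝ) (σ : Fin j → Fin d)
    (hσ : mnr N σ ≠ 0) (hmax : ∀ ρ : Fin j → Fin d, |mnr N ρ| ≤ |mnr N σ|) (v : Fin j → ℝ) (C : ℝ)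
    (hv : ∀ b, |∑ c, N.submatrix σ id b c * v c| ≤ C) (i : Fin d) :
    |(N *ᵥ v) i| ≤ j * C := by
  classical
  have h1 := Matrix.mulVec_cramer (N.submatrix σ id)ᵀ (N i)
  have h2 : ∀ c, ∑ b, N (σ b) c * mnr N (Function.update σ b i) = mnr N σ * N i c := by
    intro c
    have h3 := congrFun h1 c
    rw [Matrix.det_transpose] at h3
    simp only [Matrix.mulVec, dotProduct, Matrix.transpose_apply, Matrix.submatrix_apply, id,
      Matrix.cramer_transpose_apply, Pi.smul_apply, smul_eq_mul] at h3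
    unfold mnr
    rw [← h3]
    refine Finset.sum_congr rfl fun b _ => ?_
    congr 2
    ext x y
    by_cases hx : x = b
    · subst hx
      simp
    · simp [Function.update_of_ne hx, Matrix.updateRow_ne hx]
  have h4 : mnr N σ * (N *ᵥ v) i =
      ∑ b, mnr N (Function.update σ b i) * ∑ c, N.submatrix σ id b c * v c := by
    simp only [Matrix.mulVec, dotProduct, Finset.mul_sum]
    rw [Finset.sum_comm]
    refine Finset.sum_congr rfl fun c _ => ?_
    rw [← mul_assoc, ← h2 c, Finset.sum_mul]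
    refine Finset.sum_congr rfl fun b _ => ?_
    rw [Matrix.submatrix_apply]
    simp only [id]
    ring
  have hpos : 0 < |mnr N σ| := abs_pos.2 hσ
  have h5 : |mnr N σ| * |(N *ᵥ v) i| ≤ |mnr N σ| * (j * C) := by
    rw [← abs_mul, h4]
    calc |∑ b, mnr N (Function.update σ b i) * ∑ c, N.submatrix σ id b c * v c|
        ≤ ∑ b, |mnr N (Function.update σ b i) * ∑ c, N.submatrix σ id b c * v c| :=
          Finset.abs_sum_le_sum_abs _ _
      _ ≤ ∑ _b : Fin j, |mnr N σ| * C := by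
          refine Finset.sum_le_sum fun b _ => ?_
          rw [abs_mul]
          exact mul_le_mul (hmax _) (hv b) (abs_nonneg _) (abs_nonneg _)
      _ = |mnr N σ| * (j * C) := by
          rw [Finset.sum_const, Finset.card_univ, Fintype.card_fin, nsmul_eq_mul]
          ring
  exact le_of_mul_le_mul_left h5 hpos

theorem mink {d j : ℕ} (hj : 0 < j) (N : Matrix (Fin d) (Fin j) ℝ)
    (hN : LinearIndependent ℝ (fun (a : Fin j) (i : Fin d) => N i a)) (μ : ℝ)
    (h : ∀ σ : Fin j → Fin d, |mnr N σ| ≤ μ) :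
    ∃ a : Fin j → ℤ, a ≠ 0 ∧ ∀ i, |(N *ᵥ cR a) i| ≤ 2 * j * μ ^ ((1 : ℝ) / j) := by
  obtain ⟨σ0, -, hσ0⟩ := minor_ne_zero N hN
  haveI : Nonempty (Fin j → Fin d) := ⟨σ0⟩
  obtain ⟨σ, hmax⟩ := Finite.exists_max (fun σ : Fin j → Fin d => |mnr N σ|)
  have hσ : mnr N σ ≠ 0 := by
    intro h0
    have h1 := hmax σ0
    simp only [h0, abs_zero] at h1
    exact hσ0 (abs_eq_zero.1 (le_antisymm h1 (abs_nonneg _)))
  have hpos : 0 < |mnr N σ| := abs_pos.2 hσ
  have hj' : (j : ℝ) ≠ 0 := by exact_mod_cast hj.ne'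
  have hroot : 0 < |mnr N σ| ^ ((1 : ℝ) / j) := Real.rpow_pos_of_pos hpos _
  have hpw : (|mnr N σ| ^ ((1 : ℝ) / j)) ^ j = |mnr N σ| := by
    rw [← Real.rpow_natCast, ← Real.rpow_mul hpos.le, one_div, inv_mul_cancel₀ hj', Real.rpow_one]
  obtain ⟨a, ha, hab⟩ := mk_forms (N.submatrix σ id) hσ (2 * |mnr N σ| ^ ((1 : ℝ) / j))
    (by positivity) (by
      rw [mul_pow, hpw]
      have h2 : (1 : ℝ) < 2 ^ j := one_lt_pow₀ (by norm_num) hj.ne'
      exact lt_mul_left hpos h2)
  refine ⟨a, ha, fun i => ?_⟩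
  refine (mk_row N σ hσ hmax (cR a) _ hab i).trans ?_
  have h3 : |mnr N σ| ^ ((1 : ℝ) / j) ≤ μ ^ ((1 : ℝ) / j) :=
    Real.rpow_le_rpow hpos.le (h σ) (by positivity)
  calc (j : ℝ) * (2 * |mnr N σ| ^ ((1 : ℝ) / j)) ≤ (j : ℝ) * (2 * μ ^ ((1 : ℝ) / j)) := by gcongr
    _ = 2 * j * μ ^ ((1 : ℝ) / j) := by ring

end Sp637
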