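import Mathlib
import Pool.Agent.Work.MP_637dc3_nt.Sp.Defs2
import Pool.Agent.Work.MP_637dc3_nt.Sp.Mink
import Pool.Agent.Work.MP_637dc3_nt.Sp.UAlg
import Pool.Agent.Work.MP_637dc3_nt.Sp.RootH

/-!
# Sp/GLow (M): lower bound for minors on the scales `r.den ^ δ ≤ Y ≤ r.den`

`c = (1 / (4 j (κ+1) 2^κ)) ^ j`. `N = diagonal (wy κ Y) * (U κ r * toR M)` has independent columns (`diagonal` with nonzero entries, `U` invertible). If all `|mnr N σ| < μ := c Y^(-j ε₀)`, `mink` gives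
`a ≠ 0` with `|(N a)_i| ≤ 2 j μ^(1/j) = 2 j c^(1/j) Y^(-ε₀) =: β`, `β ≤ Y^(-ε₀) / (2 (κ+1) 2^κ)`. Let `R = M *ᵥ a`, an integer vector, `R ≠ 0`. `(U κ r *ᵥ R)_0 = ev R r`: `|ev R r| ≤ Y^(-κ) β < Y^(-κ-ε₀)`.
`|(U κ r *ᵥ R)_i| ≤ Y β` for `i ≥ 1`. So all `|(U κ r *ᵥ R)_l| ≤ Y β` and `coef_bound` gives `|R_i| ≤ (κ+1) 2^κ Y β ≤ Y/2 < r.den`. By `root_height` `ev R r ≠ 0`, so `Good` gives
`|ev R r| ≥ Y^(-κ-ε₀)`: contradiction.
-/

set_option autoImplicit false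

open Matrix Polynomial MeasureTheory

namespace Sp637

theorem g_low (κ j : ℕ) (hj : 0 < j) (ε₀ : ℝ) (hε₀ : 0 < ε₀) : ∃ c : ℝ, 0 < c ∧
    ∀ (r : ℚ) (δ : ℝ), 0 ≤ r → r < 1 → Good κ δ ε₀ r → ∀ Y : ℝ, 1 ≤ Y → (r.den : ℝ) ^ δ ≤ Y →
      Y ≤ r.den → ∀ M : Matrix (Fin (κ + 1)) (Fin j) ℤ, Indep M →
        ∃ σ : Fin j → Fin (κ + 1), c * Y ^ (-((j : ℝ) * ε₀)) ≤
          |mnr (Matrix.diagonal (wy κ Y) * (U κ (r : ℝ) * toR M)) σ| := by
  set A : ℝ := ((κ : ℝ) + 1) * 2 ^ κ with hA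
  have hA1 : 1 ≤ A := by
    have h1 : (1 : ℝ) ≤ (κ : ℝ) + 1 := by linarith [Nat.cast_nonneg (α := ℝ) κ]
    have h2 : (1 : ℝ) ≤ 2 ^ κ := one_le_pow₀ (by norm_num)
    exact one_le_mul_of_one_le_of_one_le h1 h2
  have hA0 : 0 < A := lt_of_lt_of_le one_pos hA1
  have hjR : (0 : ℝ) < j := by exact_mod_cast hj
  refine ⟨(1 / (4 * j * A)) ^ j, by positivity, ?_⟩
  intro r δ hr0 hr1 hgood Y hY1 hYδ hYd M hM
  have hY0 : 0 < Y := lt_of_lt_of_le one_pos hY1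
  by_contra hcon
  push Not at hcon
  set μ : ℝ := (1 / (4 * j * A)) ^ j * Y ^ (-((j : ℝ) * ε₀)) with hμ
  set E : Matrix (Fin (κ + 1)) (Fin (κ + 1)) ℝ := Matrix.diagonal (wy κ Y) * U κ (r : ℝ) with hE
  have hwy : ∀ i, wy κ Y i ≠ 0 := by
    intro i
    unfold wy
    split_ifs
    · exact (pow_pos hY0 _).ne'
    · exact (inv_pos.2 hY0).ne'
  have hEinv : ∀ v, E *ᵥ v = 0 → v = 0 := by
    intro v hv
    have h1 : U κ (r : ℝ) *ᵥ v = 0 := by
      funext i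
      have h2 := congrFun hv i
      rw [hE, ← Matrix.mulVec_mulVec, Matrix.mulVec_diagonal] at h2
      exact (mul_eq_zero.1 h2).resolve_left (hwy i)
    have h3 : (U κ (-(r : ℝ)) * U κ (r : ℝ)) *ᵥ v = 0 := by
      rw [← Matrix.mulVec_mulVec, h1, Matrix.mulVec_zero]
    rwa [U_neg_mul, Matrix.one_mulVec] at h3
  have hN : LinearIndependent ℝ (fun (a : Fin j) (i : Fin (κ + 1)) => (E * toR M) i a) := by
    have h1 := LinearIndependent.map' hM (Matrix.mulVecLin E)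
      (Matrix.ker_mulVecLin_eq_bot_iff.2 hEinv)
    have h2 : (fun (a : Fin j) (i : Fin (κ + 1)) => (E * toR M) i a) =
        (Matrix.mulVecLin E) ∘ (fun (a : Fin j) (i : Fin (κ + 1)) => (M i a : ℝ)) := by
      funext a i
      simp only [Function.comp_apply, Matrix.mulVecLin_apply, Matrix.mul_apply, Matrix.mulVec,
        dotProduct, toR, Matrix.map_apply]
    rw [h2]
    exact h1
  obtain ⟨a, ha0, ha⟩ := mink hj (E * toR M) hN μ (fun σ => by
    have h1 := hcon σ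
    rw [← Matrix.mul_assoc] at h1
    exact h1.le)
  -- the size
  have hβ : 2 * (j : ℝ) * μ ^ ((1 : ℝ) / j) = Y ^ (-ε₀) / (2 * A) := by
    have h1 : ((1 / (4 * j * A)) ^ j : ℝ) ^ ((1 : ℝ) / j) = 1 / (4 * j * A) := by
      rw [one_div (j : ℝ)]
      exact Real.pow_rpow_inv_natCast (by positivity) hj.ne'
    have h2 : (Y ^ (-((j : ℝ) * ε₀))) ^ ((1 : ℝ) / j) = Y ^ (-ε₀) := by
      rw [← Real.rpow_mul hY0.le]
      congr 1
      field_simp
    rw [hμ, Real.mul_rpow (by positivity) (by positivity), h1, h2]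
    field_simp
    ring
  -- the integer vector
  set R : Fin (κ + 1) → ℤ := M *ᵥ a with hR
  have hcR : cR R = toR M *ᵥ cR a := by
    funext i
    simp only [cR, hR, Matrix.mulVec, dotProduct, toR, Matrix.map_apply]
    push_cast
    rfl
  have hR0 : R ≠ 0 := by
    intro h0
    apply ha0
    have h1 : ∑ b, (a b : ℝ) • (fun (i : Fin (κ + 1)) => (M i b : ℝ)) = 0 := by
      funext i
      have h2 : cR R i = 0 := by
        rw [h0]
        simp [cR]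
      rw [hcR] at h2
      simp only [Matrix.mulVec, dotProduct, toR, Matrix.map_apply, cR] at h2
      simp only [Finset.sum_apply, Pi.smul_apply, smul_eq_mul, Pi.zero_apply]
      rw [← h2]
      exact Finset.sum_congr rfl fun b _ => mul_comm _ _
    have h3 := Fintype.linearIndependent_iff.1 hM (fun b => (a b : ℝ)) h1
    funext b
    have h4 := h3 b
    exact_mod_cast h4
  have hcomp : ∀ i, wy κ Y i * |(U κ (r : ℝ) *ᵥ cR R) i| ≤ Y ^ (-ε₀) / (2 * A) := by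
    intro i
    have h1 := ha i
    rw [hβ, ← Matrix.mulVec_mulVec, ← hcR, hE, ← Matrix.mulVec_mulVec, Matrix.mulVec_diagonal,
      abs_mul] at h1
    have h2 : |wy κ Y i| = wy κ Y i := by
      apply abs_of_nonneg
      unfold wy
      split_ifs
      · exact (pow_pos hY0 _).le
      · exact (inv_pos.2 hY0).le
    rwa [h2] at h1
  have hYe : Y ^ (-ε₀) ≤ 1 := Real.rpow_le_one_of_one_le_of_nonpos hY1 (by linarith)
  have hYe0 : 0 < Y ^ (-ε₀) := Real.rpow_pos_of_pos hY0 _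
  have hβ0 : 0 < Y ^ (-ε₀) / (2 * A) := by positivity
  have h0 : |ev R (r : ℝ)| ≤ (Y ^ κ)⁻¹ * (Y ^ (-ε₀) / (2 * A)) := by
    have h1 := hcomp 0
    rw [U_row_zero] at h1
    have h2 : wy κ Y 0 = Y ^ κ := by
      unfold wy
      rw [if_pos rfl]
    rw [h2] at h1
    rw [← div_eq_inv_mul, le_div_iff₀ (pow_pos hY0 _), mul_comm]
    exact h1
  have hall : ∀ l, |(U κ (r : ℝ) *ᵥ cR R) l| ≤ Y * (Y ^ (-ε₀) / (2 * A)) := by
    intro l
    by_cases hl : l = 0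
    · rw [hl, U_row_zero]
      refine h0.trans (mul_le_mul_of_nonneg_right ?_ hβ0.le)
      exact (inv_le_one_of_one_le₀ (one_le_pow₀ hY1)).trans hY1
    · have h1 := hcomp l
      have h2 : wy κ Y l = Y⁻¹ := by
        unfold wy
        rw [if_neg hl]
      rw [h2, ← div_eq_inv_mul, div_le_iff₀ hY0] at h1
      rw [mul_comm Y]
      exact h1
  have hrabs : |(r : ℝ)| ≤ 1 := by
    have h1 : (0 : ℝ) ≤ r := by exact_mod_cast hr0
    have h2 : (r : ℝ) < 1 := by exact_mod_cast hr1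
    rw [abs_of_nonneg h1]
    exact h2.le
  have hcoef : ∀ i, |(R i : ℝ)| ≤ Y / 2 := by
    intro i
    refine (coef_bound hrabs R _ hall i).trans ?_
    rw [← hA]
    have h1 : A * (Y * (Y ^ (-ε₀) / (2 * A))) = Y / 2 * Y ^ (-ε₀) := by
      field_simp
    rw [h1]
    exact mul_le_of_le_one_right (by positivity) hYe
  have hev : ev R (r : ℝ) ≠ 0 := by
    intro h1
    obtain ⟨i, hi⟩ := root_height r R hR0 h1
    have h2 := hcoef i
    linarith
  have h5 := hgood Y hYδ R hev (fun i => (hcoef i).trans (by linarith))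
  have h6 : Y ^ (-(κ : ℝ) - ε₀) = (Y ^ κ)⁻¹ * Y ^ (-ε₀) := by
    rw [sub_eq_add_neg, Real.rpow_add hY0, Real.rpow_neg hY0.le, Real.rpow_natCast]
  rw [h6] at h5
  have h7 := h5.trans h0
  have h8 : 0 < (Y ^ κ)⁻¹ := inv_pos.2 (pow_pos hY0 _)
  have h9 := le_of_mul_le_mul_left h7 h8
  rw [le_div_iff₀ (by positivity)] at h9
  nlinarith

end Sp637
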