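import Mathlib
import Pool.Agent.Work.MP_637dc3_nt.Sp.GLow
import Pool.Agent.Work.MP_637dc3_nt.Sp.GHigh
import Pool.Agent.Work.MP_637dc3_nt.Sp.IndepCard

/-!
# Sp/GPrime (M): lower bound for minors on all scales `Y ≥ 1`

`c` = the minimum of `1`, the constants of `g_low κ j ε₀`, `g_high κ j`, over `κ ≤ k`, `1 ≤ j ≤ k + 1` (`j ≤ κ + 1 ≤ k + 1` by `indep_card`). First part: `Y ≤ r.den`: `g_low`, `Y^(-j ε₀) ≥ Y^(-(k+1) ε₀)` (`Y ≥ r.den^δ ≥ 1`);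
`Y ≥ r.den`: `g_high`, `Y^(...) ≤ 1`. Second part (`1 ≤ Y ≤ r.den^δ =: Y' ≤ r.den`): apply the first part at `Y'`, get `σ`. The minor is `0` unless `σ` is injective.
`mnr (diagonal (wy κ Y) * N) σ = (∏_b wy κ Y (σ b)) * mnr N σ`. If `0 ∉ range σ`, the factor is `Y^(-j) ≥ Y'^(-j)`. If `0 ∈ range σ` (once) it is `Y^(κ-(j-1))`, `0 ≤ κ - j + 1 ≤ κ`, so the ratio to the factor
for `Y'` is `(Y/Y')^(κ-j+1) ≥ Y'^(-κ) ≥ Y'^(-(k+1))`. So `|mnr| ≥ Y'^(-(k+1)) c Y'^(-(k+1) ε₀) = c r.den^(-δ (k+1)(1+ε₀))`.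
-/

set_option autoImplicit false

open Matrix Polynomial MeasureTheory

namespace Sp637

private theorem exists_const (k : ℕ) (F : ℕ → ℕ → ℝ) (hF : ∀ κ j, 0 < F κ j) :
    ∃ c : ℝ, 0 < c ∧ c ≤ 1 ∧ ∀ κ ≤ k, ∀ j ≤ k + 1, c ≤ F κ j := by
  have hne : (Finset.range (k + 1) ×ˢ Finset.range (k + 2)).Nonempty :=
    ⟨(0, 0), by rw [Finset.mem_product, Finset.mem_range, Finset.mem_range]; omega⟩
  refine ⟨min 1 ((Finset.range (k + 1) ×ˢ Finset.range (k + 2)).inf' hne (fun p => F p.1 p.2)),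
    lt_min one_pos ((Finset.lt_inf'_iff _).2 fun p _ => hF _ _), min_le_left _ _, ?_⟩
  intro κ hκ j hj
  refine (min_le_right _ _).trans ?_
  exact Finset.inf'_le (fun p : ℕ × ℕ => F p.1 p.2) (b := (κ, j))
    (by rw [Finset.mem_product, Finset.mem_range, Finset.mem_range]; omega)

private theorem mnr_diag {d j : ℕ} (w : Fin d → ℝ) (N : Matrix (Fin d) (Fin j) ℝ)
    (σ : Fin j → Fin d) : mnr (Matrix.diagonal w * N) σ = (∏ b, w (σ b)) * mnr N σ := by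
  unfold mnr
  have h : (Matrix.diagonal w * N).submatrix σ id =
      Matrix.diagonal (fun b => w (σ b)) * N.submatrix σ id := by
    ext a b
    simp [Matrix.diagonal_mul]
  rw [h, Matrix.det_mul, Matrix.det_diagonal]

private theorem inj_of_mnr_ne {d j : ℕ} (N : Matrix (Fin d) (Fin j) ℝ) (σ : Fin j → Fin d)
    (h : mnr N σ ≠ 0) : Function.Injective σ := by
  intro a b hab
  by_contra hne
  apply h
  unfold mnr
  exact Matrix.det_zero_of_row_eq hne (by funext c; simp [Matrix.submatrix_apply, hab])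

private theorem wy_pos (κ : ℕ) {Y : ℝ} (hY : 0 < Y) (i : Fin (κ + 1)) : 0 < wy κ Y i := by
  unfold wy
  split_ifs
  · exact pow_pos hY _
  · exact inv_pos.2 hY

private theorem prod_wy (k κ j : ℕ) (hκ : κ ≤ k) (Y Z : ℝ) (hY : 1 ≤ Y) (hYZ : Y ≤ Z)
    (σ : Fin j → Fin (κ + 1)) (hσ : Function.Injective σ) :
    (Z ^ (k + 1))⁻¹ * ∏ b, wy κ Z (σ b) ≤ ∏ b, wy κ Y (σ b) := by
  classical
  have hY0 : 0 < Y := by linarith
  have hZ1 : 1 ≤ Z := hY.trans hYZ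
  have hZ0 : 0 < Z := by linarith
  set g : Fin j → ℝ := fun b => if σ b = 0 then (Z ^ (k + 1))⁻¹ else 1 with hg
  have h1 : (Z ^ (k + 1))⁻¹ ≤ ∏ b, g b := by
    by_cases hex : ∃ b, σ b = 0
    · obtain ⟨b0, hb0⟩ := hex
      have : ∏ b, g b = g b0 := by
        refine Finset.prod_eq_single b0 (fun b _ hb => ?_) (fun h => absurd (Finset.mem_univ _) h)
        have : σ b ≠ 0 := fun h => hb (hσ (h.trans hb0.symm))
        simp [hg, this]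
      rw [this]
      simp [hg, hb0]
    · push Not at hex
      have : ∏ b, g b = 1 := Finset.prod_eq_one fun b _ => by simp [hg, hex b]
      rw [this]
      exact inv_le_one_of_one_le₀ (one_le_pow₀ hZ1)
  calc (Z ^ (k + 1))⁻¹ * ∏ b, wy κ Z (σ b) ≤ (∏ b, g b) * ∏ b, wy κ Z (σ b) :=
        mul_le_mul_of_nonneg_right h1 (Finset.prod_nonneg fun b _ => (wy_pos κ hZ0 _).le)
    _ = ∏ b, g b * wy κ Z (σ b) := Finset.prod_mul_distrib.symm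
    _ ≤ ∏ b, wy κ Y (σ b) := by
        refine Finset.prod_le_prod (fun b _ => ?_) (fun b _ => ?_)
        · refine mul_nonneg ?_ (wy_pos κ hZ0 _).le
          simp only [hg]
          split_ifs
          · positivity
          · exact zero_le_one
        · by_cases hb : σ b = 0
          · simp only [hg, hb, if_true]
            unfold wy
            simp only [if_true]
            have h2 : (Z ^ (k + 1))⁻¹ * Z ^ κ ≤ 1 := by
              rw [inv_mul_le_iff₀ (pow_pos hZ0 _), mul_one]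
              exact pow_le_pow_right₀ hZ1 (by omega)
            exact h2.trans (one_le_pow₀ hY)
          · simp only [hg, hb, if_false, one_mul]
            unfold wy
            simp only [hb, if_false]
            exact inv_anti₀ hY0 hYZ

theorem g_prime (k : ℕ) (ε₀ : ℝ) (hε₀ : 0 < ε₀) : ∃ c : ℝ, 0 < c ∧ c ≤ 1 ∧
    ∀ κ ≤ k, ∀ (r : ℚ) (δ : ℝ), 0 ≤ r → r < 1 → 0 < δ → δ ≤ 1 → Good κ δ ε₀ r →
      ∀ j : ℕ, 0 < j → ∀ M : Matrix (Fin (κ + 1)) (Fin j) ℤ, Indep M →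
        (∃ a, ev (fun i => M i a) (r : ℝ) ≠ 0) →
        (∀ Y : ℝ, (r.den : ℝ) ^ δ ≤ Y → ∃ σ : Fin j → Fin (κ + 1),
          c * Y ^ (-(((k : ℝ) + 1) * ε₀)) ≤
            |mnr (Matrix.diagonal (wy κ Y) * (U κ (r : ℝ) * toR M)) σ|) ∧
        (∀ Y : ℝ, 1 ≤ Y → Y ≤ (r.den : ℝ) ^ δ → ∃ σ : Fin j → Fin (κ + 1),
          c * (r.den : ℝ) ^ (-(δ * ((k : ℝ) + 1) * (1 + ε₀))) ≤
            |mnr (Matrix.diagonal (wy κ Y) * (U κ (r : ℝ) * toR M)) σ|) := by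
  classical
  have hlow : ∀ κ j : ℕ, ∃ c : ℝ, 0 < c ∧ (0 < j → ∀ (r : ℚ) (δ : ℝ), 0 ≤ r → r < 1 →
      Good κ δ ε₀ r → ∀ Y : ℝ, 1 ≤ Y → (r.den : ℝ) ^ δ ≤ Y →
      Y ≤ r.den → ∀ M : Matrix (Fin (κ + 1)) (Fin j) ℤ, Indep M →
        ∃ σ : Fin j → Fin (κ + 1), c * Y ^ (-((j : ℝ) * ε₀)) ≤
          |mnr (Matrix.diagonal (wy κ Y) * (U κ (r : ℝ) * toR M)) σ|) := by
    intro κ j
    rcases Nat.eq_zero_or_pos j with hj | hj
    · exact ⟨1, one_pos, fun h => absurd h (by omega)⟩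
    · obtain ⟨c, hc, h⟩ := g_low κ j hj ε₀ hε₀
      exact ⟨c, hc, fun _ => h⟩
  have hhigh : ∀ κ j : ℕ, ∃ c : ℝ, 0 < c ∧ (0 < j → ∀ r : ℚ, 0 ≤ r → r < 1 → ∀ Y : ℝ,
    (r.den : ℝ) ≤ Y → ∀ M : Matrix (Fin (κ + 1)) (Fin j) ℤ, Indep M →
      (∃ a, ev (fun i => M i a) (r : ℝ) ≠ 0) →
        ∃ σ : Fin j → Fin (κ + 1), c ≤
          |mnr (Matrix.diagonal (wy κ Y) * (U κ (r : ℝ) * toR M)) σ|) := by
    intro κ j
    rcases Nat.eq_zero_or_pos j with hj | hj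
    · exact ⟨1, one_pos, fun h => absurd h (by omega)⟩
    · obtain ⟨c, hc, h⟩ := g_high κ j hj
      exact ⟨c, hc, fun _ => h⟩
  choose cl hcl0 hcl using hlow
  choose ch hch0 hch using hhigh
  obtain ⟨c, hc0, hc1, hc⟩ := exists_const k (fun κ j => min (cl κ j) (ch κ j))
    (fun κ j => lt_min (hcl0 κ j) (hch0 κ j))
  refine ⟨c, hc0, hc1, ?_⟩
  intro κ hκ r δ hr0 hr1 hδ0 hδ1 hgood j hj M hM hex
  have hjk : j ≤ k + 1 := by
    have := indep_card M hM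
    omega
  have hccl : c ≤ cl κ j := (hc κ hκ j hjk).trans (min_le_left _ _)
  have hcch : c ≤ ch κ j := (hc κ hκ j hjk).trans (min_le_right _ _)
  have hden1 : (1 : ℝ) ≤ r.den := by exact_mod_cast r.den_pos
  have hZ1 : (1 : ℝ) ≤ (r.den : ℝ) ^ δ := Real.one_le_rpow hden1 hδ0.le
  have hZ0 : (0 : ℝ) < (r.den : ℝ) ^ δ := by linarith
  have hjR : (j : ℝ) ≤ (k : ℝ) + 1 := by exact_mod_cast hjk
  have first : ∀ Y : ℝ, (r.den : ℝ) ^ δ ≤ Y → ∃ σ : Fin j → Fin (κ + 1),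
          c * Y ^ (-(((k : ℝ) + 1) * ε₀)) ≤
            |mnr (Matrix.diagonal (wy κ Y) * (U κ (r : ℝ) * toR M)) σ| := by
    intro Y hY
    have hY1 : 1 ≤ Y := hZ1.trans hY
    have hY0 : 0 < Y := by linarith
    rcases le_total Y (r.den : ℝ) with h | h
    · obtain ⟨σ, hσ⟩ := hcl κ j hj r δ hr0 hr1 hgood Y hY1 hY h M hM
      refine ⟨σ, le_trans ?_ hσ⟩
      have h1 : Y ^ (-(((k : ℝ) + 1) * ε₀)) ≤ Y ^ (-((j : ℝ) * ε₀)) := by
        apply Real.rpow_le_rpow_of_exponent_le hY1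
        have : (j : ℝ) * ε₀ ≤ ((k : ℝ) + 1) * ε₀ := mul_le_mul_of_nonneg_right hjR hε₀.le
        linarith
      exact mul_le_mul hccl h1 (Real.rpow_pos_of_pos hY0 _).le (hcl0 κ j).le
    · obtain ⟨σ, hσ⟩ := hch κ j hj r hr0 hr1 Y h M hM hex
      refine ⟨σ, le_trans ?_ hσ⟩
      have h1 : Y ^ (-(((k : ℝ) + 1) * ε₀)) ≤ 1 := by
        apply Real.rpow_le_one_of_one_le_of_nonpos hY1
        have : 0 ≤ ((k : ℝ) + 1) * ε₀ := by positivity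
        linarith
      calc c * Y ^ (-(((k : ℝ) + 1) * ε₀)) ≤ c * 1 := mul_le_mul_of_nonneg_left h1 hc0.le
        _ = c := mul_one _
        _ ≤ _ := hcch
  refine ⟨first, ?_⟩
  intro Y hY1 hYZ
  have hY0 : 0 < Y := by linarith
  obtain ⟨σ, hσ⟩ := first _ le_rfl
  refine ⟨σ, ?_⟩
  set Z : ℝ := (r.den : ℝ) ^ δ with hZ
  have hpos : 0 < |mnr (Matrix.diagonal (wy κ Z) * (U κ (r : ℝ) * toR M)) σ| :=
    lt_of_lt_of_le (mul_pos hc0 (Real.rpow_pos_of_pos hZ0 _)) hσ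
  have hinj : Function.Injective σ := inj_of_mnr_ne _ σ (abs_pos.1 hpos)
  rw [mnr_diag, abs_mul, abs_of_pos (Finset.prod_pos fun b _ => wy_pos κ hZ0 _)] at hσ
  rw [mnr_diag, abs_mul, abs_of_pos (Finset.prod_pos fun b _ => wy_pos κ hY0 _)]
  have h1 := prod_wy k κ j hκ Y Z hY1 hYZ σ hinj
  have h2 : (r.den : ℝ) ^ (-(δ * ((k : ℝ) + 1) * (1 + ε₀))) =
      (Z ^ (k + 1))⁻¹ * Z ^ (-(((k : ℝ) + 1) * ε₀)) := by
    have hd0 : (0 : ℝ) < r.den := by linarith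
    have e1 : (Z ^ (k + 1))⁻¹ = (r.den : ℝ) ^ (-(δ * ((k : ℝ) + 1))) := by
      rw [hZ, ← Real.rpow_natCast, ← Real.rpow_mul hd0.le, ← Real.rpow_neg hd0.le]
      push_cast
      rfl
    have e2 : Z ^ (-(((k : ℝ) + 1) * ε₀)) = (r.den : ℝ) ^ (δ * (-(((k : ℝ) + 1) * ε₀))) := by
      rw [hZ, ← Real.rpow_mul hd0.le]
    rw [e1, e2, ← Real.rpow_add hd0]
    congr 1
    ring
  rw [h2]
  calc c * ((Z ^ (k + 1))⁻¹ * Z ^ (-(((k : ℝ) + 1) * ε₀)))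
      = (Z ^ (k + 1))⁻¹ * (c * Z ^ (-(((k : ℝ) + 1) * ε₀))) := by ring
    _ ≤ (Z ^ (k + 1))⁻¹ * ((∏ b, wy κ Z (σ b)) * |mnr (U κ (r : ℝ) * toR M) σ|) :=
        mul_le_mul_of_nonneg_left hσ (by positivity)
    _ = ((Z ^ (k + 1))⁻¹ * ∏ b, wy κ Z (σ b)) * |mnr (U κ (r : ℝ) * toR M) σ| := by ring
    _ ≤ _ := mul_le_mul_of_nonneg_right h1 (abs_nonneg _)

end Sp637
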