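import Mathlib
import Pool.Agent.Work.MP_637dc3_nt.Sp.Defs2
import Pool.Agent.Work.MP_637dc3_nt.Sp.UAlg
import Pool.Agent.Work.MP_637dc3_nt.Sp.Dbl

/-!
# Sp/HypMain (M-L): transfer of a large minor to the real side near `r`

`q = r.den`, `Y' = Y / q^s ≥ 1`, `D_a(i) = (U κ r * toR M') i a`. `σ''` is injective (otherwise the minor is `0`).
Case A, `0 ∉ range σ''`: take `x = r`, `σ b = ⟨σ'' b + s⟩ ≥ 1`: every row of `hx (hR k w Y r) x * toR M` in `σ` is `Y⁻¹ (U k r * toR M)_{σ'' b + s} = Y⁻¹ q^s D(σ'' b) = Y'⁻¹ D (σ'' b)`, so the minor equals the given one.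
Case B, `σ'' b₀ = 0` (exactly one `b₀`): the given minor is `Y'^κ Y'^(-(j-1)) μ₀`, `μ₀ = mnr (U κ r * toR M') σ''`. Take `σ b = ⟨σ'' b + s⟩` for `b ≠ b₀` and `σ b₀ = 0`. For `x = r + t`: row `b₀` is
`Y^w ev M_a x = Y^w (q t)^s ev M'_a (r + t)` (`q x - p = q t`), the other rows are `Y⁻¹ q^s D (σ'' b)`. So the minor is `Y^(w-(j-1)) q^(s j) t^s g(t)`, where `g (t)` is the determinant with row `b₀` replaced by
`ev M'_a (r + t)`; `g` is a polynomial in `t` of degree `≤ κ` with `g 0 = μ₀`. By `dbl` on `[0, R)`, `R = q^(-(1+τ))`, half interval `[R/2, R)`: some `t ∈ [R/2, R)` has `|g t| ≥ |μ₀| / KD κ`. So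
`|minor| ≥ Y^(w-j+1) q^(s j) (R/2)^s |μ₀| / KD κ`. With `Y = q^s Y'`, `|μ₀| ≥ b Y'^(-(κ-j+1))`: this is `≥ 2^(-s) q^(s(w-j+1) + s j - s - s τ) Y'^(w-j+1-(κ-j+1)) b / KD κ = 2^(-s) q^(s (w-τ)) Y'^(w-κ) b / KD κ ≥ b / (2^k KD κ)`.
-/

set_option autoImplicit false

open Matrix Polynomial MeasureTheory

namespace Sp637

theorem hyp_rowZ (k : ℕ) (w Y r x : ℝ) {j : ℕ} (M : Matrix (Fin (k + 1)) (Fin j) ℤ) (a : Fin j) :
    (hx (hR k w Y r) x * toR M) 0 a = Y ^ w * ev (fun i => M i a) x := by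
  rw [Matrix.mul_apply, ev, Finset.mul_sum]
  refine Finset.sum_congr rfl fun m _ => ?_
  simp only [hx, Matrix.map_apply, hR, Matrix.of_apply, if_true, toR, eval_mul, eval_C, eval_pow,
    eval_X]
  ring

theorem hyp_rowS (k : ℕ) (w Y r x : ℝ) {j : ℕ} (M : Matrix (Fin (k + 1)) (Fin j) ℤ)
    (i : Fin (k + 1)) (hi : i ≠ 0) (a : Fin j) :
    (hx (hR k w Y r) x * toR M) i a = Y⁻¹ * (U k r * toR M) i a := by
  rw [Matrix.mul_apply, Matrix.mul_apply, Finset.mul_sum]
  refine Finset.sum_congr rfl fun m _ => ?_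
  simp only [hx, Matrix.map_apply, hR, Matrix.of_apply, if_neg hi, eval_C]
  ring

theorem hyp_uzero (κ : ℕ) (r : ℝ) {j : ℕ} (M' : Matrix (Fin (κ + 1)) (Fin j) ℤ) (a : Fin j) :
    (U κ r * toR M') 0 a = ev (fun i => M' i a) r := by
  rw [Matrix.mul_apply, ev]
  refine Finset.sum_congr rfl fun m _ => ?_
  simp only [U, Matrix.of_apply, toR, Matrix.map_apply, Fin.val_zero, Nat.choose_zero_right,
    Nat.cast_one, Nat.sub_zero]
  ring

/-- the determinant with one row replaced by polynomial values is a polynomial -/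
theorem hyp_poly (κ j : ℕ) (r : ℝ) (M' : Matrix (Fin (κ + 1)) (Fin j) ℤ)
    (N : Matrix (Fin j) (Fin j) ℝ) (b₀ : Fin j) : ∃ G : ℝ[X], G.natDegree ≤ κ ∧
      ∀ t : ℝ, G.eval t = (N.updateRow b₀ (fun a => ev (fun i => M' i a) (r + t))).det := by
  refine ⟨∑ a : Fin j, C (Nᵀ.adjugate b₀ a) *
    ∑ i : Fin (κ + 1), C ((M' i a : ℤ) : ℝ) * (C r + Polynomial.X) ^ (i : ℕ), ?_, ?_⟩
  · refine natDegree_sum_le_of_forall_le _ _ fun a _ => ?_
    refine (natDegree_C_mul_le _ _).trans ?_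
    refine natDegree_sum_le_of_forall_le _ _ fun i _ => ?_
    refine (natDegree_C_mul_le _ _).trans ?_
    refine (natDegree_pow_le).trans ?_
    have h1 : (C r + Polynomial.X : ℝ[X]).natDegree ≤ 1 := by
      rw [add_comm]; exact (natDegree_X_add_C r).le
    calc (i : ℕ) * (C r + Polynomial.X : ℝ[X]).natDegree ≤ (i : ℕ) * 1 :=
          Nat.mul_le_mul_left _ h1
      _ ≤ κ := by have := i.2; omega
  · intro t
    rw [← cramer_transpose_apply, cramer_eq_adjugate_mulVec, eval_finsetSum]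
    simp only [Matrix.mulVec, dotProduct]
    refine Finset.sum_congr rfl fun a _ => ?_
    rw [eval_mul, eval_C, eval_finsetSum, ev]
    congr 1
    refine Finset.sum_congr rfl fun i _ => ?_
    simp

theorem hyp_KD (D : ℕ) : 1 ≤ KD D := by
  unfold KD
  have h1 : (1 : ℝ) ≤ (2 * (D : ℝ) + 2) ^ D := by
    apply one_le_pow₀
    have : (0 : ℝ) ≤ D := by positivity
    linarith
  have h2 : (1 : ℝ) ≤ 2 * ((D : ℝ) + 1) := by
    have : (0 : ℝ) ≤ D := by positivity
    linarith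
  nlinarith

theorem hyp_main (k s κ j : ℕ) (hs : κ + s = k) (hj : 0 < j) (r : ℚ) (hr0 : 0 ≤ r) (hr1 : r < 1)
    (τ w Y b : ℝ) (hτ : 1 ≤ τ) (hw : (k : ℝ) ≤ w) (hw2 : τ ≤ w) (hY : (r.den : ℝ) ^ s ≤ Y)
    (hb : 0 < b) (M : Matrix (Fin (k + 1)) (Fin j) ℤ) (M' : Matrix (Fin (κ + 1)) (Fin j) ℤ)
    (h1 : ∀ (a : Fin j) (x : ℝ), ev (fun i => M i a) x =
        ((r.den : ℝ) * x - r.num) ^ s * ev (fun i => M' i a) x)
    (h2 : ∀ (a : Fin j) (i : Fin (κ + 1)),
        (U k (r : ℝ) * toR M) ⟨(i : ℕ) + s, by omega⟩ a =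
          (r.den : ℝ) ^ s * (U κ (r : ℝ) * toR M') i a)
    (σ'' : Fin j → Fin (κ + 1))
    (hσ : b ≤ |mnr (Matrix.diagonal (wy κ (Y / (r.den : ℝ) ^ s)) * (U κ (r : ℝ) * toR M')) σ''|) :
    ∃ x ∈ Set.Ico (r : ℝ) ((r : ℝ) + (r.den : ℝ) ^ (-(1 + τ))), ∃ σ : Fin j → Fin (k + 1),
      b / (2 ^ k * KD κ) ≤ |mnr (hx (hR k w Y r) x * toR M) σ| := by
  set q : ℝ := (r.den : ℝ) with hq
  have hq1 : (1 : ℝ) ≤ q := by
    rw [hq]; exact_mod_cast r.den_pos
  have hq0 : 0 < q := by linarith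
  have hqs : 0 < q ^ s := by positivity
  have hY0 : 0 < Y := lt_of_lt_of_le hqs hY
  set Y' : ℝ := Y / q ^ s with hY'
  have hY'1 : 1 ≤ Y' := by
    rw [hY', le_div_iff₀ hqs]; linarith
  have hY'0 : 0 < Y' := by linarith
  have hYY : Y = q ^ s * Y' := by
    rw [hY']; field_simp
  set D : Matrix (Fin (κ + 1)) (Fin j) ℝ := U κ (r : ℝ) * toR M' with hD
  have hR0 : 0 < q ^ (-(1 + τ)) := Real.rpow_pos_of_pos hq0 _
  have hKD1 := hyp_KD κ
  have h2k : (1 : ℝ) ≤ 2 ^ k := one_le_pow₀ (by norm_num)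
  have hden : 1 ≤ 2 ^ k * KD κ := by nlinarith
  have hYq : Y⁻¹ * q ^ s = Y'⁻¹ := by
    rw [hYY, mul_inv]; field_simp
  -- the minor of `diag * D`
  have hmn : mnr (Matrix.diagonal (wy κ Y') * D) σ'' =
      (∏ c : Fin j, wy κ Y' (σ'' c)) * (D.submatrix σ'' id).det := by
    unfold mnr
    rw [← Matrix.det_diagonal, ← Matrix.det_mul]
    congr 1
    ext c a
    rw [Matrix.submatrix_apply, Matrix.diagonal_mul, Matrix.diagonal_mul, Matrix.submatrix_apply]
  have hrowσ : ∀ (x : ℝ) (i : Fin (κ + 1)) (a : Fin j) (hi : (i : ℕ) + s ≠ 0),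
      (hx (hR k w Y r) x * toR M) ⟨(i : ℕ) + s, by omega⟩ a = Y'⁻¹ * D i a := by
    intro x i a hi
    rw [hyp_rowS _ _ _ _ _ _ _ (by
      intro h
      apply hi
      have := congrArg Fin.val h
      simpa using this), h2, ← mul_assoc, hYq]
  by_cases hA : ∀ c, σ'' c ≠ 0
  · -- case A
    refine ⟨r, ⟨le_refl _, by linarith⟩, fun c => ⟨(σ'' c : ℕ) + s, by omega⟩, ?_⟩
    have hne : ∀ c, (σ'' c : ℕ) + s ≠ 0 := by
      intro c h
      apply hA c
      apply Fin.ext
      simp only [Fin.val_zero]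
      omega
    have h3 : mnr (hx (hR k w Y r) r * toR M) (fun c => ⟨(σ'' c : ℕ) + s, by omega⟩) =
        mnr (Matrix.diagonal (wy κ Y') * D) σ'' := by
      unfold mnr
      congr 1
      ext c a
      rw [Matrix.submatrix_apply, Matrix.submatrix_apply, Matrix.diagonal_mul, id,
        hrowσ _ _ _ (hne c)]
      simp only [wy, if_neg (hA c)]
    rw [h3]
    refine le_trans ?_ hσ
    exact div_le_self hb.le hden
  · -- case B
    push Not at hA
    obtain ⟨b₀, hb₀⟩ := hA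
    set N : Matrix (Fin j) (Fin j) ℝ := D.submatrix σ'' id with hN
    have hdetN : N.det ≠ 0 := by
      intro h
      rw [hmn, h, mul_zero, abs_zero] at hσ
      linarith
    have hother : ∀ c, c ≠ b₀ → σ'' c ≠ 0 := by
      intro c hc h
      apply hdetN
      apply Matrix.det_zero_of_row_eq hc
      ext a
      rw [hN, Matrix.submatrix_apply, Matrix.submatrix_apply, h, hb₀]
    have hprod : ∏ c : Fin j, wy κ Y' (σ'' c) = Y' ^ κ * (Y'⁻¹) ^ (j - 1) := by
      rw [← Finset.mul_prod_erase _ _ (Finset.mem_univ b₀)]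
      rw [Finset.prod_congr rfl (g := fun _ => Y'⁻¹) (fun c hc => by
        rw [Finset.mem_erase] at hc
        simp only [wy, if_neg (hother c hc.1)])]
      rw [Finset.prod_const, Finset.card_erase_of_mem (Finset.mem_univ _), Finset.card_univ,
        Fintype.card_fin]
      simp only [wy, hb₀, if_true]
    have hμ : b ≤ Y' ^ κ * (Y'⁻¹) ^ (j - 1) * |N.det| := by
      rw [hmn, hprod, abs_mul, abs_of_pos (by positivity)] at hσ
      exact hσ
    obtain ⟨G, hG1, hG2⟩ := hyp_poly κ j (r : ℝ) M' N b₀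
    have hG0 : G.eval 0 = N.det := by
      rw [hG2, add_zero]
      congr 1
      have : (fun a => ev (fun i => M' i a) (r : ℝ)) = N b₀ := by
        ext a
        rw [hN, Matrix.submatrix_apply, hb₀, id, hD, hyp_uzero]
      rw [this, Matrix.updateRow_eq_self]
    obtain ⟨y, hy, hGy⟩ := dbl κ G hG1 0 (q ^ (-(1 + τ))) (q ^ (-(1 + τ)) / 2) |N.det| hR0
      (abs_pos.2 hdetN) (by positivity) (by linarith) 0 ⟨le_refl _, by linarith⟩ (by rw [hG0])
    have hy0 : 0 < y := by
      have := hy.1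
      linarith
    refine ⟨(r : ℝ) + y, ⟨by linarith, by have := hy.2; linarith⟩,
      fun c => if c = b₀ then 0 else ⟨(σ'' c : ℕ) + s, by omega⟩, ?_⟩
    -- the minor
    have hqr : q * ((r : ℝ) + y) - r.num = q * y := by
      have : q * (r : ℝ) = r.num := by
        rw [hq]
        have := Rat.den_mul_eq_num r
        exact_mod_cast this
      rw [mul_add, this]; ring
    have hminor : mnr (hx (hR k w Y r) ((r : ℝ) + y) * toR M)
        (fun c => if c = b₀ then 0 else ⟨(σ'' c : ℕ) + s, by omega⟩) =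
        (Y ^ w * (q * y) ^ s) * (Y'⁻¹) ^ (j - 1) * G.eval y := by
      rw [hG2]
      have hd : (Y ^ w * (q * y) ^ s) * (Y'⁻¹) ^ (j - 1) =
          (Matrix.diagonal (fun c : Fin j => if c = b₀ then Y ^ w * (q * y) ^ s else Y'⁻¹)).det := by
        rw [Matrix.det_diagonal, ← Finset.mul_prod_erase _ _ (Finset.mem_univ b₀)]
        rw [Finset.prod_congr rfl (g := fun _ => Y'⁻¹) (fun c hc => by
          rw [Finset.mem_erase] at hc
          simp only [if_neg hc.1])]
        rw [Finset.prod_const, Finset.card_erase_of_mem (Finset.mem_univ _), Finset.card_univ,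
          Fintype.card_fin]
        simp only [if_true]
      rw [hd, ← Matrix.det_mul]
      unfold mnr
      congr 1
      ext c a
      rw [Matrix.submatrix_apply, Matrix.diagonal_mul, id]
      by_cases hc : c = b₀
      · subst hc
        simp only [if_true, Matrix.updateRow_self]
        rw [hyp_rowZ, h1, hqr]
        ring
      · simp only [if_neg hc]
        rw [Matrix.updateRow_ne hc, hrowσ _ _ _ (by
          intro h
          apply hother c hc
          apply Fin.ext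
          simp only [Fin.val_zero]
          omega), hN, Matrix.submatrix_apply, id]
    rw [hminor, abs_mul, abs_of_pos (by positivity)]
    -- estimates
    have e1 : |N.det| / KD κ ≤ |G.eval y| := hGy
    have e2 : (q ^ (-τ) / 2) ^ s ≤ (q * y) ^ s := by
      apply pow_le_pow_left₀ (by positivity)
      have h5 : q ^ (-(1 + τ)) / 2 ≤ y := hy.1
      have h6 : q * q ^ (-(1 + τ)) = q ^ (-τ) := by
        conv_lhs => rw [← Real.rpow_one q, ← Real.rpow_mul hq0.le, ← Real.rpow_add hq0]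
        congr 1; ring
      have h7 := mul_le_mul_of_nonneg_left h5 hq0.le
      rw [← h6]
      linarith
    have e3 : (q ^ (-τ)) ^ s * Y ^ w = (q ^ s) ^ (w - τ) * Y' ^ w := by
      rw [hYY, Real.mul_rpow hqs.le hY'0.le, ← mul_assoc]
      congr 1
      rw [← Real.rpow_natCast q s, ← Real.rpow_natCast (q ^ (-τ)) s, ← Real.rpow_mul hq0.le,
        ← Real.rpow_mul hq0.le, ← Real.rpow_mul hq0.le, ← Real.rpow_add hq0]
      congr 1; ring
    have e4 : 1 ≤ (q ^ s) ^ (w - τ) := by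
      apply Real.one_le_rpow (one_le_pow₀ hq1) (by linarith)
    have hκk : (κ : ℝ) ≤ w := by
      refine le_trans ?_ hw
      have : κ ≤ k := by omega
      exact_mod_cast this
    have e5 : Y' ^ κ ≤ Y' ^ w := by
      rw [← Real.rpow_natCast]
      exact Real.rpow_le_rpow_of_exponent_le hY'1 hκk
    have e6 : (2 : ℝ) ^ s ≤ 2 ^ k := pow_le_pow_right₀ (by norm_num) (by omega)
    have hKD0 : 0 < KD κ := by linarith
    calc b / (2 ^ k * KD κ) ≤ b / (2 ^ s * KD κ) := by
          apply div_le_div_of_nonneg_left hb.le (by positivity)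
          exact mul_le_mul_of_nonneg_right e6 hKD0.le
      _ ≤ (Y' ^ κ * (Y'⁻¹) ^ (j - 1) * |N.det|) / (2 ^ s * KD κ) := by
          exact div_le_div_of_nonneg_right hμ (by positivity)
      _ ≤ (Y' ^ w * (Y'⁻¹) ^ (j - 1) * |N.det|) / (2 ^ s * KD κ) := by
          apply div_le_div_of_nonneg_right _ (by positivity)
          apply mul_le_mul_of_nonneg_right _ (abs_nonneg _)
          apply mul_le_mul_of_nonneg_right e5 (by positivity)
      _ ≤ (((q ^ s) ^ (w - τ) * Y' ^ w) * (Y'⁻¹) ^ (j - 1) * |N.det|) / (2 ^ s * KD κ) := by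
          apply div_le_div_of_nonneg_right _ (by positivity)
          apply mul_le_mul_of_nonneg_right _ (abs_nonneg _)
          apply mul_le_mul_of_nonneg_right _ (by positivity)
          have : 0 < Y' ^ w := Real.rpow_pos_of_pos hY'0 _
          nlinarith
      _ = Y ^ w * (q ^ (-τ) / 2) ^ s * (Y'⁻¹) ^ (j - 1) * (|N.det| / KD κ) := by
          rw [← e3, div_pow]
          field_simp
      _ ≤ Y ^ w * (q * y) ^ s * (Y'⁻¹) ^ (j - 1) * |G.eval y| := by
          have hYw : 0 < Y ^ w := Real.rpow_pos_of_pos hY0 _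
          apply mul_le_mul _ e1 (by positivity) (by positivity)
          apply mul_le_mul_of_nonneg_right _ (by positivity)
          apply mul_le_mul_of_nonneg_left e2 hYw.le

end Sp637
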