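import Mathlib
import Pool.Agent.Work.MP_637dc3_nt.Sp.HypMain
import Pool.Agent.Work.MP_637dc3_nt.Sp.Factor
import Pool.Agent.Work.MP_637dc3_nt.Sp.GPrime
import Pool.Agent.Work.MP_637dc3_nt.Sp.UInv

/-!
# Sp/RealHyp (M): hypothesis of `qnd` near a good rational

`q = r.den`, `s, κ, M'` from `factor`. `E = (k+1)(ε₀ + δ (1 + ε₀))`. `Y ≥ q^δ ≥ 1`.
(1) `Y < q^s` (then `s ≥ 1`): by `minor_lower` there is `σ''` with `|mnr (U κ r * toR M') σ''| ≥ c₁ > 0` (`c₁` depends on `κ`, take the minimum over `κ ≤ k`). `σ b = ⟨σ'' b + s⟩ ≥ 1`, `x = r`: `|mnr| = (q^s / Y)^j |mnr (U κ r * toR M') σ''| ≥ c₁ ≥ c₁ Y^(-E)`.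
(2) `Y ≥ q^s`: `Y' = Y / q^s ≥ 1`. If `Y' ≥ q^δ`: `g_prime` gives `σ''` with the lower bound `c₂ Y'^(-(k+1) ε₀) ≥ c₂ Y^(-E)`. If `Y' < q^δ` then `s ≥ 1` (as `Y ≥ q^δ`), `Y ≥ q^s ≥ q`, and `g_prime` gives
`c₂ q^(-δ (k+1)(1+ε₀)) ≥ c₂ Y^(-E)`. Apply `hyp_main` with `b = c₂ Y^(-E)`; `KD κ ≤ KD k`. `c = min c₁ (c₂ / (2^k KD k))` (and `≤ 1`).
-/

set_option autoImplicit false

open Matrix Polynomial MeasureTheory

namespace Sp637

private theorem KD_pos (k : ℕ) : 0 < KD k := by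
  unfold KD
  positivity

private theorem KD_mono {κ k : ℕ} (h : κ ≤ k) : KD κ ≤ KD k := by
  unfold KD
  have h1 : (κ : ℝ) ≤ k := by exact_mod_cast h
  have h2 : (2 * (κ : ℝ) + 2) ^ κ ≤ (2 * (k : ℝ) + 2) ^ k := by
    calc (2 * (κ : ℝ) + 2) ^ κ ≤ (2 * (k : ℝ) + 2) ^ κ := by
          apply pow_le_pow_left₀ (by positivity)
          linarith
      _ ≤ (2 * (k : ℝ) + 2) ^ k := by
          apply pow_le_pow_right₀ _ h
          have : (0 : ℝ) ≤ k := Nat.cast_nonneg k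
          linarith
  exact mul_le_mul (by linarith) h2 (by positivity) (by positivity)

private theorem c1_mono {κ k : ℕ} (h : κ ≤ k) :
    (((κ : ℝ) + 1) * 2 ^ κ) ^ (κ + 1) ≤ (((k : ℝ) + 1) * 2 ^ k) ^ (k + 1) := by
  have h1 : (κ : ℝ) ≤ k := by exact_mod_cast h
  have h2 : (2 : ℝ) ^ κ ≤ 2 ^ k := pow_le_pow_right₀ (by norm_num) h
  have h3 : (1 : ℝ) ≤ ((k : ℝ) + 1) * 2 ^ k := by
    have h4 : (0 : ℝ) ≤ k := Nat.cast_nonneg k
    have h5 : (1 : ℝ) ≤ 2 ^ k := one_le_pow₀ (by norm_num)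
    nlinarith
  calc (((κ : ℝ) + 1) * 2 ^ κ) ^ (κ + 1) ≤ (((k : ℝ) + 1) * 2 ^ k) ^ (κ + 1) := by
        apply pow_le_pow_left₀ (by positivity)
        exact mul_le_mul (by linarith) h2 (by positivity) (by positivity)
    _ ≤ (((k : ℝ) + 1) * 2 ^ k) ^ (k + 1) := by
        exact pow_le_pow_right₀ h3 (by omega)

theorem real_hyp (k : ℕ) (τ w ε₀ : ℝ) (hτ : 1 ≤ τ) (hw : (k : ℝ) ≤ w) (hw2 : τ ≤ w)
    (hε₀ : 0 < ε₀) : ∃ c : ℝ, 0 < c ∧ c ≤ 1 ∧ ∀ (r : ℚ) (δ : ℝ), 0 ≤ r → r < 1 → 0 < δ → δ ≤ 1 →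
      (∀ κ ≤ k, Good κ δ ε₀ r) → ∀ Y : ℝ, (r.den : ℝ) ^ δ ≤ Y →
        ∀ j : ℕ, 0 < j → ∀ M : Matrix (Fin (k + 1)) (Fin j) ℤ, Indep M →
          ∃ x ∈ Set.Ico (r : ℝ) ((r : ℝ) + (r.den : ℝ) ^ (-(1 + τ))), ∃ σ : Fin j → Fin (k + 1),
            c * Y ^ (-(((k : ℝ) + 1) * (ε₀ + δ * (1 + ε₀)))) ≤
              |mnr (hx (hR k w Y r) x * toR M) σ| := by
  obtain ⟨c₂, hc₂, -, hG⟩ := g_prime k ε₀ hε₀
  have hK := KD_pos k
  have h3 : (1 : ℝ) ≤ (((k : ℝ) + 1) * 2 ^ k) ^ (k + 1) := by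
    have h4 : (0 : ℝ) ≤ k := Nat.cast_nonneg k
    have h5 : (1 : ℝ) ≤ 2 ^ k := one_le_pow₀ (by norm_num)
    apply one_le_pow₀
    nlinarith
  refine ⟨min (1 / (((k : ℝ) + 1) * 2 ^ k) ^ (k + 1)) (c₂ / (2 ^ k * KD k)), ?_, ?_, ?_⟩
  · apply lt_min <;> positivity
  · refine (min_le_left _ _).trans ?_
    rw [div_le_one (by positivity)]
    exact h3
  intro r δ hr0 hr1 hδ0 hδ1 hgood Y hY j hj M hM
  obtain ⟨s, κ, hs, M', hM', hne, h1, h2⟩ := factor k j hj r M hM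
  have hκ : κ ≤ k := by omega
  obtain ⟨q, hq⟩ : ∃ q : ℝ, q = (r.den : ℝ) := ⟨_, rfl⟩
  have hq1 : 1 ≤ q := by
    rw [hq]
    exact_mod_cast r.den_pos
  have hq0 : 0 < q := by linarith
  have hY1 : 1 ≤ Y := by
    rw [← hq] at hY
    exact (Real.one_le_rpow hq1 hδ0.le).trans hY
  have hY0 : 0 < Y := by linarith
  obtain ⟨E, hE⟩ : ∃ E : ℝ, E = ((k : ℝ) + 1) * (ε₀ + δ * (1 + ε₀)) := ⟨_, rfl⟩
  have hk0 : (0 : ℝ) ≤ k := Nat.cast_nonneg k
  have hE0 : 0 ≤ E := by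
    rw [hE]
    positivity
  rw [← hE]
  have hYE : Y ^ (-E) ≤ 1 := Real.rpow_le_one_of_one_le_of_nonpos hY1 (by linarith)
  have hYE0 : 0 < Y ^ (-E) := Real.rpow_pos_of_pos hY0 _
  rcases lt_or_ge Y (q ^ s) with hYs | hYs
  · have hs0 : s ≠ 0 := by
      rintro rfl
      rw [pow_zero] at hYs
      linarith
    have hr : |(r : ℝ)| ≤ 1 := by
      rw [abs_of_nonneg (by exact_mod_cast hr0)]
      exact_mod_cast hr1.le
    obtain ⟨σ'', hσ''⟩ := minor_lower κ j (r : ℝ) hr M' hM'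
    refine ⟨(r : ℝ), ⟨le_rfl, ?_⟩, fun b => ⟨(σ'' b : ℕ) + s, by have := (σ'' b).2; omega⟩, ?_⟩
    · rw [lt_add_iff_pos_right, ← hq]
      exact Real.rpow_pos_of_pos hq0 _
    have hmn : mnr (hx (hR k w Y r) (r : ℝ) * toR M)
        (fun b => ⟨(σ'' b : ℕ) + s, by have := (σ'' b).2; omega⟩) =
        (Y⁻¹ * q ^ s) ^ j * mnr (U κ (r : ℝ) * toR M') σ'' := by
      unfold mnr
      have h5 : (hx (hR k w Y r) (r : ℝ) * toR M).submatrix
          (fun b => (⟨(σ'' b : ℕ) + s, by have := (σ'' b).2; omega⟩ : Fin (k + 1))) id =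
          (Y⁻¹ * q ^ s) • (U κ (r : ℝ) * toR M').submatrix σ'' id := by
        ext b a
        have h6 := h2 a (σ'' b)
        rw [submatrix_apply, Matrix.smul_apply, submatrix_apply, id, smul_eq_mul, mul_assoc, hq, ← h6,
          mul_apply, mul_apply, Finset.mul_sum]
        refine Finset.sum_congr rfl fun m _ => ?_
        have h7 : (⟨(σ'' b : ℕ) + s, by have := (σ'' b).2; omega⟩ : Fin (k + 1)) ≠ 0 := by
          intro h
          have := congrArg Fin.val h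
          simp only [Fin.val_zero] at this
          omega
        unfold hx hR
        rw [map_apply, of_apply, if_neg h7, eval_C]
        ring
      rw [h5, det_smul, Fintype.card_fin]
    rw [hmn, abs_mul, abs_of_nonneg (by positivity)]
    have h8 : 1 ≤ (Y⁻¹ * q ^ s) ^ j := by
      apply one_le_pow₀
      rw [inv_mul_eq_div, le_div_iff₀ hY0]
      linarith
    have h9 : 1 / (((k : ℝ) + 1) * 2 ^ k) ^ (k + 1) ≤ |mnr (U κ (r : ℝ) * toR M') σ''| := by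
      refine le_trans ?_ hσ''
      apply one_div_le_one_div_of_le (by positivity) (c1_mono hκ)
    calc min (1 / (((k : ℝ) + 1) * 2 ^ k) ^ (k + 1)) (c₂ / (2 ^ k * KD k)) * Y ^ (-E)
        ≤ 1 / (((k : ℝ) + 1) * 2 ^ k) ^ (k + 1) * 1 := by
          exact mul_le_mul (min_le_left _ _) hYE hYE0.le (by positivity)
      _ ≤ |mnr (U κ (r : ℝ) * toR M') σ''| := by linarith
      _ ≤ (Y⁻¹ * q ^ s) ^ j * |mnr (U κ (r : ℝ) * toR M') σ''| := by
          have := abs_nonneg (mnr (U κ (r : ℝ) * toR M') σ'')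
          nlinarith
  · have hqs : 0 < q ^ s := by positivity
    have hY'1 : 1 ≤ Y / q ^ s := by
      rw [le_div_iff₀ hqs]
      linarith
    have hY'Y : Y / q ^ s ≤ Y := by
      apply div_le_self hY0.le
      exact one_le_pow₀ hq1
    have key : ∃ σ'' : Fin j → Fin (κ + 1), c₂ * Y ^ (-E) ≤
        |mnr (Matrix.diagonal (wy κ (Y / q ^ s)) * (U κ (r : ℝ) * toR M')) σ''| := by
      obtain ⟨hA, hB⟩ := hG κ hκ r δ hr0 hr1 hδ0 hδ1 (hgood κ hκ) j hj M' hM' hne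
      rw [← hq] at hA hB hY
      rcases le_or_gt (q ^ δ) (Y / q ^ s) with h | h
      · obtain ⟨σ, hσ⟩ := hA (Y / q ^ s) h
        refine ⟨σ, le_trans ?_ hσ⟩
        apply mul_le_mul_of_nonneg_left _ hc₂.le
        calc Y ^ (-E) ≤ Y ^ (-(((k : ℝ) + 1) * ε₀)) := by
              apply Real.rpow_le_rpow_of_exponent_le hY1
              rw [hE, mul_add]
              have : 0 ≤ ((k : ℝ) + 1) * (δ * (1 + ε₀)) := by positivity
              linarith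
          _ ≤ (Y / q ^ s) ^ (-(((k : ℝ) + 1) * ε₀)) := by
              apply Real.rpow_le_rpow_of_nonpos (by linarith) hY'Y
              have : 0 ≤ ((k : ℝ) + 1) * ε₀ := by positivity
              linarith
      · obtain ⟨σ, hσ⟩ := hB (Y / q ^ s) hY'1 h.le
        refine ⟨σ, le_trans ?_ hσ⟩
        apply mul_le_mul_of_nonneg_left _ hc₂.le
        have hs0 : s ≠ 0 := by
          rintro rfl
          rw [pow_zero, div_one] at h
          linarith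
        have hqY : q ≤ Y := (le_self_pow₀ hq1 hs0).trans hYs
        calc Y ^ (-E) ≤ Y ^ (-(δ * ((k : ℝ) + 1) * (1 + ε₀))) := by
              apply Real.rpow_le_rpow_of_exponent_le hY1
              rw [hE]
              have : 0 ≤ ((k : ℝ) + 1) * ε₀ := by positivity
              nlinarith
          _ ≤ q ^ (-(δ * ((k : ℝ) + 1) * (1 + ε₀))) := by
              apply Real.rpow_le_rpow_of_nonpos hq0 hqY
              have : 0 ≤ δ * ((k : ℝ) + 1) * (1 + ε₀) := by positivity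
              linarith
    obtain ⟨σ'', hσ''⟩ := key
    rw [hq] at hσ'' hYs
    obtain ⟨x, hx1, σ, hσ⟩ := hyp_main k s κ j hs hj r hr0 hr1 τ w Y (c₂ * Y ^ (-E)) hτ hw hw2 hYs
      (by positivity) M M' h1 h2 σ'' hσ''
    refine ⟨x, hx1, σ, le_trans ?_ hσ⟩
    have hKκ := KD_pos κ
    calc min (1 / (((k : ℝ) + 1) * 2 ^ k) ^ (k + 1)) (c₂ / (2 ^ k * KD k)) * Y ^ (-E)
        ≤ c₂ / (2 ^ k * KD k) * Y ^ (-E) :=
          mul_le_mul_of_nonneg_right (min_le_right _ _) hYE0.le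
      _ = c₂ * Y ^ (-E) / (2 ^ k * KD k) := by ring
      _ ≤ c₂ * Y ^ (-E) / (2 ^ k * KD κ) := by
          apply div_le_div_of_nonneg_left (by positivity) (by positivity)
          exact mul_le_mul_of_nonneg_left (KD_mono hκ) (by positivity)

end Sp637
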