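import Mathlib
import Pool.Agent.Work.MP_637dc3_nt.Sp.RealHyp
import Pool.Agent.Work.MP_637dc3_nt.Sp.Qnd

/-!
# Sp/RealScale (M): measure bound on one scale near a good rational

`qnd` with `d = k + 1`, `e = k` (entries of `hR` have degree `≤ k`), `a = r`, `L = r.den^(-(1+τ))`, `ρ = c Y^(-β/2) ≤ 1` (`c` from `real_hyp`; `c Y^(-E) ≥ c Y^(-β/2)` since `E ≤ β/2`, `Y ≥ 1`), `ε = Y^(-β)`:
`C₀ (ε/ρ)^(1/D) L = C₀ c^(-1/D) Y^(-β/(2D)) L`, `D = (k+1) k`.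
-/

set_option autoImplicit false

open Matrix Polynomial MeasureTheory

namespace Sp637

theorem real_scale (k : ℕ) (hk : 1 ≤ k) (τ w β ε₀ : ℝ) (hτ : 1 ≤ τ) (hw : (k : ℝ) ≤ w)
    (hw2 : τ ≤ w) (hβ : 0 < β) (hε₀ : 0 < ε₀) : ∃ C : ℝ, 0 < C ∧
    ∀ (r : ℚ) (δ : ℝ), 0 ≤ r → r < 1 → 0 < δ → δ ≤ 1 →
      ((k : ℝ) + 1) * (ε₀ + δ * (1 + ε₀)) ≤ β / 2 → (∀ κ ≤ k, Good κ δ ε₀ r) →
        ∀ Y : ℝ, (r.den : ℝ) ^ δ ≤ Y →
          volume {x : ℝ | x ∈ Set.Ico (r : ℝ) ((r : ℝ) + (r.den : ℝ) ^ (-(1 + τ))) ∧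
              ∃ P : Fin (k + 1) → ℤ, P ≠ 0 ∧
                ∀ i, |(hx (hR k w Y r) x *ᵥ cR P) i| < Y ^ (-β)} ≤
            ENNReal.ofReal (C * Y ^ (-(β / (2 * ((k + 1) * k : ℕ)))) * (r.den : ℝ) ^ (-(1 + τ))) := by
  obtain ⟨c, hc0, hc1, hyp⟩ := real_hyp k τ w ε₀ hτ hw hw2 hε₀
  have hD : 1 ≤ (k + 1) * k := Nat.mul_pos (Nat.succ_pos k) hk
  obtain ⟨C₀, hC₀, hq⟩ := qnd (k + 1) k hD
  have hDr : (0 : ℝ) < ((((k + 1) * k : ℕ)) : ℝ) := by exact_mod_cast hD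
  refine ⟨C₀ * (c⁻¹) ^ ((1 : ℝ) / (((k + 1) * k : ℕ) : ℝ)), by positivity, ?_⟩
  intro r δ hr0 hr1 hδ0 hδ1 hE hG Y hY
  have hden : (1 : ℝ) ≤ (r.den : ℝ) := by exact_mod_cast r.pos
  have hY1 : (1 : ℝ) ≤ Y := (Real.one_le_rpow hden hδ0.le).trans hY
  have hY0 : (0 : ℝ) < Y := by linarith
  have hL : (0 : ℝ) < (r.den : ℝ) ^ (-(1 + τ)) := Real.rpow_pos_of_pos (by linarith) _
  have hdeg : ∀ i m, (hR k w Y (r : ℝ) i m).natDegree ≤ k := by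
    intro i m
    unfold hR
    simp only [Matrix.of_apply]
    split_ifs with h
    · refine (natDegree_C_mul_X_pow_le _ _).trans ?_
      omega
    · rw [natDegree_C]
      exact Nat.zero_le _
  have hYb : Y ^ (-(β / 2)) ≤ 1 := Real.rpow_le_one_of_one_le_of_nonpos hY1 (by linarith)
  have hYb0 : 0 < Y ^ (-(β / 2)) := Real.rpow_pos_of_pos hY0 _
  have hρ0 : 0 < c * Y ^ (-(β / 2)) := by positivity
  have hρ1 : c * Y ^ (-(β / 2)) ≤ 1 := by nlinarith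
  have key := hq (hR k w Y (r : ℝ)) hdeg (r : ℝ) ((r.den : ℝ) ^ (-(1 + τ))) (c * Y ^ (-(β / 2))) hL hρ0 hρ1 ?_
    (Y ^ (-β)) (Real.rpow_pos_of_pos hY0 _)
  · refine key.trans (ENNReal.ofReal_le_ofReal (le_of_eq ?_))
    have e1 : Y ^ (-β) / (c * Y ^ (-(β / 2))) = c⁻¹ * Y ^ (-(β / 2)) := by
      have : Y ^ (-β) = Y ^ (-(β / 2)) * Y ^ (-(β / 2)) := by
        rw [← Real.rpow_add hY0]
        congr 1
        ring
      rw [this]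
      field_simp
    rw [e1, Real.mul_rpow (by positivity) hYb0.le, ← Real.rpow_mul hY0.le]
    have e2 : -(β / 2) * ((1 : ℝ) / (((k + 1) * k : ℕ) : ℝ)) = -(β / (2 * (((k + 1) * k : ℕ) : ℝ))) := by
      field_simp
    rw [e2]
    ring
  · intro j hj M hM
    obtain ⟨x, hx1, σ, hσ⟩ := hyp r δ hr0 hr1 hδ0 hδ1 hG Y hY j hj M hM
    refine ⟨x, hx1, σ, le_trans ?_ hσ⟩
    refine mul_le_mul_of_nonneg_left ?_ hc0.le
    exact Real.rpow_le_rpow_of_exponent_le hY1 (by linarith)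

end Sp637
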