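import Mathlib
import Pool.Agent.Work.MP_637dc3_nt.Sp.RealScale
import Pool.Agent.Work.MP_637dc3_nt.Sp.UAlg

/-!
# Sp/RealQ (M-L): most points near a good rational are generic on all scales

`w = max k τ`, `β = min (1/4) (ε / (8 (w + 1)))`, so `(1 + 2β)(1 - β) > 1` and `(1 + 2β)(w + β) < w + ε` with room; `ε₀ = β / (8 (k+1))`, `δ₀ = β / (8 (k+1))`, so `(k+1)(ε₀ + δ(1+ε₀)) ≤ β/2`.
Let `x` be in the set, with `X ≥ q^δ` (`q = r.den`), `P ≠ 0`, `|P_i| ≤ X`, `|ev P x| < X^(-w-ε)`. Choose `n` with `X^(1+2β) ≤ 2^n < 2 X^(1+2β)`, `Y = 2^n ≥ X ≥ q^δ`. Then for `i ≥ 1`: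
`|(hx (hR k w Y r) x *ᵥ P) i| = Y⁻¹ |(U k r *ᵥ P) i| ≤ Y⁻¹ (k+1) 2^k X < Y^(-β)`, because `Y^(1-β) ≥ X^((1+2β)(1-β)) ≥ (k+1) 2^(k+1) X` for `X ≥ q^δ` large (`(1+2β)(1-β) = 1 + β - 2β² ≥ 1 + β/2`). For `i = 0`:
`Y^w |ev P x| < Y^w X^(-w-ε) ≤ Y^(-β)`, because `Y^(w+β) ≤ (2 X^(1+2β))^(w+β) ≤ X^(w+ε)` for `X` large (`(1+2β)(w+β) = w + β(1+2w+2β) ≤ w + ε/2`). So `x` is in the set of `real_scale` for `Y = 2^n`, `2^n ≥ q^δ`.
The measure is at most `∑_{n : 2^n ≥ q^δ} C (2^n)^(-β/(2D)) q^(-(1+τ)) ≤ C' q^(-δβ/(2D)) q^(-(1+τ)) ≤ θ q^(-(1+τ))` for `q` large (geometric series).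
-/

set_option autoImplicit false

open Matrix Polynomial MeasureTheory

namespace Sp637

private lemma rq_row_pos {k : ℕ} (w Y r x : ℝ) (P : Fin (k + 1) → ℤ) {i : Fin (k + 1)}
    (hi : i ≠ 0) : (hx (hR k w Y r) x *ᵥ cR P) i = Y⁻¹ * (U k r *ᵥ cR P) i := by
  simp only [hx, hR, Matrix.mulVec, dotProduct, Matrix.map_apply, Matrix.of_apply, if_neg hi,
    Polynomial.eval_C, Finset.mul_sum]
  refine Finset.sum_congr rfl fun m _ => ?_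
  ring

private lemma rq_row_zero {k : ℕ} (w Y r x : ℝ) (P : Fin (k + 1) → ℤ) :
    (hx (hR k w Y r) x *ᵥ cR P) 0 = Y ^ w * ev P x := by
  simp only [hx, hR, Matrix.mulVec, dotProduct, Matrix.map_apply, Matrix.of_apply, if_true,
    Polynomial.eval_mul, Polynomial.eval_C, Polynomial.eval_pow, Polynomial.eval_X, ev, cR,
    Finset.mul_sum]
  refine Finset.sum_congr rfl fun m _ => ?_
  ring

private lemma rq_point (k : ℕ) (w β ε : ℝ) (hw1 : 1 ≤ w) (hβ0 : 0 < β) (hβ4 : β ≤ 1 / 4)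
    (hβε : β * (8 * (w + 1)) ≤ ε) (r : ℝ) (hr0 : |r| ≤ 1) (x X : ℝ) (hX1 : 1 ≤ X)
    (hXa : ((k : ℝ) + 1) * 2 ^ k < X ^ (β / 2)) (hXb : (2 : ℝ) ^ (w + β) ≤ X ^ (ε / 2))
    (P : Fin (k + 1) → ℤ) (hP : ∀ i, |(P i : ℝ)| ≤ X) (hev : |ev P x| < X ^ (-w - ε))
    (Y : ℝ) (hY1 : X ^ (1 + 2 * β) < Y) (hY2 : Y ≤ 2 * X ^ (1 + 2 * β)) (i : Fin (k + 1)) :
    |(hx (hR k w Y r) x *ᵥ cR P) i| < Y ^ (-β) := by
  have hX0 : 0 < X := by linarith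
  have hX1' : 1 ≤ X ^ (1 + 2 * β) := Real.one_le_rpow hX1 (by linarith)
  have hYp : 0 < Y := by linarith
  have hY1' : 1 ≤ Y := by linarith
  by_cases hi : i = 0
  · subst hi
    rw [rq_row_zero, abs_mul, abs_of_pos (Real.rpow_pos_of_pos hYp w)]
    have h1 : Y ^ w * |ev P x| < Y ^ w * X ^ (-w - ε) :=
      mul_lt_mul_of_pos_left hev (Real.rpow_pos_of_pos hYp w)
    refine lt_of_lt_of_le h1 ?_
    -- Y ^ w * X ^ (-w-ε) ≤ Y ^ (-β)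
    have h2 : Y ^ (w + β) ≤ X ^ (w + ε) := by
      calc Y ^ (w + β) ≤ (2 * X ^ (1 + 2 * β)) ^ (w + β) :=
            Real.rpow_le_rpow hYp.le hY2 (by linarith)
        _ = (2 : ℝ) ^ (w + β) * (X ^ (1 + 2 * β)) ^ (w + β) :=
            Real.mul_rpow (by norm_num) (by linarith)
        _ ≤ X ^ (ε / 2) * (X ^ (1 + 2 * β)) ^ (w + β) := by
            apply mul_le_mul_of_nonneg_right hXb
            exact Real.rpow_nonneg (by linarith) _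
        _ = X ^ (ε / 2 + (1 + 2 * β) * (w + β)) := by
            rw [← Real.rpow_mul hX0.le, ← Real.rpow_add hX0]
        _ ≤ X ^ (w + ε) := by
            apply Real.rpow_le_rpow_of_exponent_le hX1
            nlinarith [mul_pos hβ0 (by linarith : (0 : ℝ) < w + 1), mul_nonneg hβ0.le
              (by linarith : (0 : ℝ) ≤ 1 / 4 - β)]
    have h3 : Y ^ w = Y ^ (w + β) * Y ^ (-β) := by
      rw [← Real.rpow_add hYp]; congr 1; ring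
    have h4 : X ^ (w + ε) * X ^ (-w - ε) = 1 := by
      rw [← Real.rpow_add hX0]
      have : w + ε + (-w - ε) = 0 := by ring
      rw [this, Real.rpow_zero]
    calc Y ^ w * X ^ (-w - ε) = Y ^ (w + β) * X ^ (-w - ε) * Y ^ (-β) := by rw [h3]; ring
      _ ≤ X ^ (w + ε) * X ^ (-w - ε) * Y ^ (-β) := by
          apply mul_le_mul_of_nonneg_right _ (Real.rpow_nonneg hYp.le _)
          exact mul_le_mul_of_nonneg_right h2 (Real.rpow_nonneg hX0.le _)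
      _ = Y ^ (-β) := by rw [h4, one_mul]
  · rw [rq_row_pos w Y r x P hi, abs_mul, abs_of_pos (inv_pos.2 hYp)]
    have h1 : |(U k r *ᵥ cR P) i| ≤ ((k : ℝ) + 1) * 2 ^ k * X := U_bound hr0 P X hP i
    have h2 : ((k : ℝ) + 1) * 2 ^ k * X < Y ^ (1 - β) := by
      calc ((k : ℝ) + 1) * 2 ^ k * X < X ^ (β / 2) * X := mul_lt_mul_of_pos_right hXa hX0
        _ = X ^ (β / 2 + 1) := by rw [Real.rpow_add hX0, Real.rpow_one]
        _ ≤ X ^ ((1 + 2 * β) * (1 - β)) := by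
            apply Real.rpow_le_rpow_of_exponent_le hX1
            nlinarith
        _ = (X ^ (1 + 2 * β)) ^ (1 - β) := Real.rpow_mul hX0.le _ _
        _ ≤ Y ^ (1 - β) := Real.rpow_le_rpow (by linarith) hY1.le (by linarith)
    have h3 : Y⁻¹ * Y ^ (1 - β) = Y ^ (-β) := by
      rw [← Real.rpow_neg_one, ← Real.rpow_add hYp]; congr 1; ring
    calc Y⁻¹ * |(U k r *ᵥ cR P) i| ≤ Y⁻¹ * (((k : ℝ) + 1) * 2 ^ k * X) :=
          mul_le_mul_of_nonneg_left h1 (inv_pos.2 hYp).le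
      _ < Y⁻¹ * Y ^ (1 - β) := mul_lt_mul_of_pos_left h2 (inv_pos.2 hYp)
      _ = Y ^ (-β) := h3

theorem real_q (k : ℕ) (hk : 1 ≤ k) (τ ε : ℝ) (hτ : 1 ≤ τ) (hε : 0 < ε) :
    ∃ ε₀ δ₀ : ℝ, 0 < ε₀ ∧ 0 < δ₀ ∧ δ₀ ≤ 1 ∧ ∀ δ : ℝ, 0 < δ → δ ≤ δ₀ → ∀ θ : ℝ, 0 < θ →
      ∃ q₀ : ℕ, ∀ r : ℚ, 0 ≤ r → r < 1 → q₀ ≤ r.den → (∀ κ ≤ k, Good κ δ ε₀ r) →
        volume {x : ℝ | x ∈ Set.Ico (r : ℝ) ((r : ℝ) + (r.den : ℝ) ^ (-(1 + τ))) ∧
            ∃ X : ℝ, (r.den : ℝ) ^ δ ≤ X ∧ ∃ P : Fin (k + 1) → ℤ, P ≠ 0 ∧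
              (∀ i, |(P i : ℝ)| ≤ X) ∧ |ev P x| < X ^ (-(max (k : ℝ) τ) - ε)} ≤
          ENNReal.ofReal (θ * (r.den : ℝ) ^ (-(1 + τ))) := by
  classical
  set w : ℝ := max (k : ℝ) τ with hw
  have hwk : (k : ℝ) ≤ w := le_max_left _ _
  have hwτ : τ ≤ w := le_max_right _ _
  have hw1 : 1 ≤ w := le_trans hτ hwτ
  have hkr : (1 : ℝ) ≤ k := by exact_mod_cast hk
  obtain ⟨β, hβ0, hβ4, hβε⟩ : ∃ β : ℝ, 0 < β ∧ β ≤ 1 / 4 ∧ β * (8 * (w + 1)) ≤ ε := by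
    have hpos : 0 < 8 * (w + 1) := by linarith
    refine ⟨min (1 / 4) (ε / (8 * (w + 1))), lt_min (by norm_num) (by positivity),
      min_le_left _ _, ?_⟩
    calc min (1 / 4) (ε / (8 * (w + 1))) * (8 * (w + 1)) ≤ ε / (8 * (w + 1)) * (8 * (w + 1)) :=
          mul_le_mul_of_nonneg_right (min_le_right _ _) hpos.le
      _ = ε := div_mul_cancel₀ _ hpos.ne'
  have hK8 : 0 < 8 * ((k : ℝ) + 1) := by linarith
  set e₀ : ℝ := β / (8 * ((k : ℝ) + 1)) with he₀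
  have he₀p : 0 < e₀ := by positivity
  have he₀K : e₀ * ((k : ℝ) + 1) = β / 8 := by rw [he₀]; field_simp
  have he₀1 : e₀ ≤ 1 := by nlinarith
  obtain ⟨C, hC, hscale⟩ := real_scale k hk τ w β e₀ hτ hwk hwτ hβ0 he₀p
  refine ⟨e₀, e₀, he₀p, he₀p, he₀1, ?_⟩
  intro δ hδ hδ₀ θ hθ
  set γ : ℝ := β / (2 * ((k + 1) * k : ℕ)) with hγ
  have hDp : (0 : ℝ) < ((k + 1) * k : ℕ) := by
    have : 0 < (k + 1) * k := by positivity
    exact_mod_cast this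
  have hγ0 : 0 < γ := by positivity
  set ρ : ℝ := (2 : ℝ) ^ (-γ) with hρ
  have hρ0 : 0 < ρ := Real.rpow_pos_of_pos (by norm_num) _
  have hρ1 : ρ < 1 := Real.rpow_lt_one_of_one_lt_of_neg (by norm_num) (by linarith)
  -- largeness
  have hT : Filter.Tendsto (fun q : ℕ => ((q : ℝ)) ^ δ) Filter.atTop Filter.atTop :=
    (tendsto_rpow_atTop hδ).comp tendsto_natCast_atTop_atTop
  have hA1 : ∀ᶠ q : ℕ in Filter.atTop, ((k : ℝ) + 1) * 2 ^ k < (((q : ℝ)) ^ δ) ^ (β / 2) :=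
    ((tendsto_rpow_atTop (by positivity : 0 < β / 2)).comp hT).eventually_gt_atTop _
  have hA2 : ∀ᶠ q : ℕ in Filter.atTop, (2 : ℝ) ^ (w + β) ≤ (((q : ℝ)) ^ δ) ^ (ε / 2) :=
    ((tendsto_rpow_atTop (by positivity : 0 < ε / 2)).comp hT).eventually_ge_atTop _
  have hA3 : ∀ᶠ q : ℕ in Filter.atTop, (((q : ℝ)) ^ δ) ^ (-γ) ≤ θ * (1 - ρ) / C := by
    have h0 : Filter.Tendsto (fun q : ℕ => (((q : ℝ)) ^ δ) ^ (-γ)) Filter.atTop (nhds 0) :=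
      (tendsto_rpow_neg_atTop hγ0).comp hT
    have hpos : 0 < θ * (1 - ρ) / C := by
      have : 0 < 1 - ρ := by linarith
      positivity
    exact (h0.eventually (gt_mem_nhds hpos)).mono fun q hq => hq.le
  obtain ⟨q₀, hq₀⟩ := Filter.eventually_atTop.1 (hA1.and (hA2.and hA3))
  refine ⟨q₀, ?_⟩
  intro r hr0 hr1 hqr hgood
  obtain ⟨hB1, hB2, hB3⟩ := hq₀ r.den hqr
  set q : ℝ := (r.den : ℝ) with hq
  have hq1 : 1 ≤ q := by
    have : 1 ≤ r.den := r.den_pos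
    rw [hq]; exact_mod_cast this
  have hqδ1 : 1 ≤ q ^ δ := Real.one_le_rpow hq1 hδ.le
  have hqδ0 : 0 < q ^ δ := by linarith
  set L : ℝ := q ^ (-(1 + τ)) with hL
  have hL0 : 0 < L := Real.rpow_pos_of_pos (by linarith) _
  have hrabs : |(r : ℝ)| ≤ 1 := by
    rw [abs_of_nonneg (by exact_mod_cast hr0)]
    exact_mod_cast hr1.le
  -- the scales
  have hex : ∃ n : ℕ, q ^ δ ≤ (2 : ℝ) ^ n := by
    obtain ⟨n, hn⟩ := pow_unbounded_of_one_lt (q ^ δ) (by norm_num : (1 : ℝ) < 2)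
    exact ⟨n, hn.le⟩
  set n₀ : ℕ := Nat.find hex with hn₀
  have hn₀s : q ^ δ ≤ (2 : ℝ) ^ n₀ := Nat.find_spec hex
  set S : ℕ → Set ℝ := fun n => {x : ℝ | x ∈ Set.Ico (r : ℝ) ((r : ℝ) + q ^ (-(1 + τ))) ∧
      ∃ P : Fin (k + 1) → ℤ, P ≠ 0 ∧
        ∀ i, |(hx (hR k w ((2 : ℝ) ^ n) r) x *ᵥ cR P) i| < ((2 : ℝ) ^ n) ^ (-β)} with hS
  have hsub : {x : ℝ | x ∈ Set.Ico (r : ℝ) ((r : ℝ) + q ^ (-(1 + τ))) ∧
      ∃ X : ℝ, q ^ δ ≤ X ∧ ∃ P : Fin (k + 1) → ℤ, P ≠ 0 ∧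
        (∀ i, |(P i : ℝ)| ≤ X) ∧ |ev P x| < X ^ (-w - ε)} ⊆ ⋃ m : ℕ, S (n₀ + m) := by
    rintro x ⟨hxI, X, hX, P, hP0, hPX, hev⟩
    have hX1 : 1 ≤ X := le_trans hqδ1 hX
    have hX1' : 1 ≤ X ^ (1 + 2 * β) := Real.one_le_rpow hX1 (by linarith)
    obtain ⟨m, hm1, hm2⟩ := exists_nat_pow_near hX1' (by norm_num : (1 : ℝ) < 2)
    have hYX : X ≤ X ^ (1 + 2 * β) := by
      calc X = X ^ (1 : ℝ) := (Real.rpow_one X).symm
        _ ≤ _ := Real.rpow_le_rpow_of_exponent_le hX1 (by linarith)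
    have hn : n₀ ≤ m + 1 := Nat.find_min' hex (by linarith)
    rw [Set.mem_iUnion]
    refine ⟨m + 1 - n₀, ?_⟩
    rw [Nat.add_sub_cancel' hn]
    refine ⟨hxI, P, hP0, fun i => ?_⟩
    have hXa : ((k : ℝ) + 1) * 2 ^ k < X ^ (β / 2) :=
      lt_of_lt_of_le hB1 (Real.rpow_le_rpow hqδ0.le hX (by positivity))
    have hXb : (2 : ℝ) ^ (w + β) ≤ X ^ (ε / 2) :=
      le_trans hB2 (Real.rpow_le_rpow hqδ0.le hX (by positivity))
    refine rq_point k w β ε hw1 hβ0 hβ4 hβε r hrabs x X hX1 hXa hXb P hPX hev ((2 : ℝ) ^ (m + 1))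
      hm2 ?_ i
    rw [pow_succ]
    linarith
  have hδ1 : δ ≤ 1 := le_trans hδ₀ he₀1
  have hcond : ((k : ℝ) + 1) * (e₀ + δ * (1 + e₀)) ≤ β / 2 := by
    have h1 : δ * (1 + e₀) ≤ e₀ * 2 := by
      apply mul_le_mul hδ₀ (by linarith) (by linarith) he₀p.le
    nlinarith
  have hmeas : ∀ m : ℕ, volume (S (n₀ + m)) ≤
      ENNReal.ofReal ((C * (q ^ δ) ^ (-γ) * L) * ρ ^ m) := by
    intro m
    have hY : q ^ δ ≤ (2 : ℝ) ^ (n₀ + m) :=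
      le_trans hn₀s (pow_le_pow_right₀ (by norm_num) (Nat.le_add_right _ _))
    have h1 := hscale r δ hr0 hr1 hδ hδ1 hcond hgood ((2 : ℝ) ^ (n₀ + m)) hY
    refine le_trans h1 (ENNReal.ofReal_le_ofReal ?_)
    have h2 : ((2 : ℝ) ^ (n₀ + m)) ^ (-γ) ≤ (q ^ δ) ^ (-γ) * ρ ^ m := by
      have h3 : ((2 : ℝ) ^ (n₀ + m)) ^ (-γ) = ((2 : ℝ) ^ n₀) ^ (-γ) * ρ ^ m := by
        rw [pow_add, Real.mul_rpow (by positivity) (by positivity), hρ]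
        congr 1
        rw [← Real.rpow_natCast, ← Real.rpow_natCast, ← Real.rpow_mul (by norm_num),
          ← Real.rpow_mul (by norm_num)]
        congr 1
        ring
      rw [h3]
      apply mul_le_mul_of_nonneg_right _ (by positivity)
      exact Real.rpow_le_rpow_of_nonpos hqδ0 hn₀s (by linarith)
    calc C * ((2 : ℝ) ^ (n₀ + m)) ^ (-γ) * L ≤ C * ((q ^ δ) ^ (-γ) * ρ ^ m) * L := by
          apply mul_le_mul_of_nonneg_right _ hL0.le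
          exact mul_le_mul_of_nonneg_left h2 hC.le
      _ = (C * (q ^ δ) ^ (-γ) * L) * ρ ^ m := by ring
  have ha0 : 0 ≤ C * (q ^ δ) ^ (-γ) * L := by positivity
  calc volume _ ≤ volume (⋃ m : ℕ, S (n₀ + m)) := measure_mono hsub
    _ ≤ ∑' m : ℕ, volume (S (n₀ + m)) := measure_iUnion_le _
    _ ≤ ∑' m : ℕ, ENNReal.ofReal ((C * (q ^ δ) ^ (-γ) * L) * ρ ^ m) :=
        ENNReal.tsum_le_tsum hmeas
    _ = ENNReal.ofReal (∑' m : ℕ, (C * (q ^ δ) ^ (-γ) * L) * ρ ^ m) := by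
        rw [ENNReal.ofReal_tsum_of_nonneg]
        · intro m; positivity
        · exact (summable_geometric_of_lt_one hρ0.le hρ1).mul_left _
    _ = ENNReal.ofReal ((C * (q ^ δ) ^ (-γ) * L) * (1 - ρ)⁻¹) := by
        rw [tsum_mul_left, tsum_geometric_of_lt_one hρ0.le hρ1]
    _ ≤ ENNReal.ofReal (θ * L) := by
        apply ENNReal.ofReal_le_ofReal
        have h1ρ : 0 < 1 - ρ := by linarith
        have h5 : C * (q ^ δ) ^ (-γ) ≤ θ * (1 - ρ) := by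
          have := mul_le_mul_of_nonneg_left hB3 hC.le
          rwa [mul_div_cancel₀ _ hC.ne'] at this
        calc (C * (q ^ δ) ^ (-γ) * L) * (1 - ρ)⁻¹ ≤ (θ * (1 - ρ) * L) * (1 - ρ)⁻¹ := by
              apply mul_le_mul_of_nonneg_right _ (inv_pos.2 h1ρ).le
              exact mul_le_mul_of_nonneg_right h5 hL0.le
          _ = θ * L := by field_simp

end Sp637
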