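import Mathlib
import Pool.Agent.Work.MP_637dc3_nt.Sp.Defs3
import Pool.Agent.Work.MP_637dc3_nt.Sp.RealQ
import Pool.Agent.Work.MP_637dc3_nt.Sp.GoodOf

/-!
# Sp/Stage (M): all degrees at once

For `1 ≤ κ ≤ k` let `ε₀_κ, δ₀_κ` be as in `real_q κ`; `ε₀`, `δ₀` are the minima. Let `0 < δ ≤ δ₀`, `θ = 1 / (8 k)`, `q₀` the maximum of the `q₀_κ` of `real_q κ δ θ`. `Good κ' δ ε₀ r` for `κ' ≤ κ ≤ k` implies `Good κ' δ ε₀_κ r`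
(`good_mono`), so each of the `k` sets has measure `≤ θ r.den^(-(1+τ))`; their union is `BadPt`. (Choice over the finite set `Finset.Icc 1 k`, or induction on `k`.)
-/

set_option autoImplicit false

open Matrix Polynomial MeasureTheory

namespace Sp637

private theorem exists_pos_le (k : ℕ) (e : ℕ → ℝ) (he : ∀ κ, 0 < e κ) :
    ∃ e₀ : ℝ, 0 < e₀ ∧ ∀ κ ≤ k, e₀ ≤ e κ := by
  have hne : (Finset.range (k + 1)).Nonempty := ⟨0, Finset.mem_range.2 (Nat.succ_pos k)⟩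
  refine ⟨(Finset.range (k + 1)).inf' hne e, ?_, ?_⟩
  · rw [Finset.lt_inf'_iff]
    exact fun κ _ => he κ
  · intro κ hκ
    exact Finset.inf'_le e (Finset.mem_range.2 (Nat.lt_succ_of_le hκ))

theorem stage (k : ℕ) (hk : 1 ≤ k) (τ ε : ℝ) (hτ : 1 ≤ τ) (hε : 0 < ε) :
    ∃ ε₀ δ₀ : ℝ, 0 < ε₀ ∧ 0 < δ₀ ∧ δ₀ ≤ 1 ∧ ∀ δ : ℝ, 0 < δ → δ ≤ δ₀ → ∃ q₀ : ℕ,
      ∀ r : ℚ, 0 ≤ r → r < 1 → q₀ ≤ r.den → (∀ κ ≤ k, Good κ δ ε₀ r) →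
        volume (BadPt k τ ε δ r) ≤ ENNReal.ofReal ((r.den : ℝ) ^ (-(1 + τ)) / 8) := by
  have hmain : ∀ κ : ℕ, ∃ ε₀ δ₀ : ℝ, 0 < ε₀ ∧ 0 < δ₀ ∧ δ₀ ≤ 1 ∧ (1 ≤ κ →
      ∀ δ : ℝ, 0 < δ → δ ≤ δ₀ → ∀ θ : ℝ, 0 < θ →
      ∃ q₀ : ℕ, ∀ r : ℚ, 0 ≤ r → r < 1 → q₀ ≤ r.den → (∀ κ' ≤ κ, Good κ' δ ε₀ r) →
        volume {x : ℝ | x ∈ Set.Ico (r : ℝ) ((r : ℝ) + (r.den : ℝ) ^ (-(1 + τ))) ∧
            ∃ X : ℝ, (r.den : ℝ) ^ δ ≤ X ∧ ∃ P : Fin (κ + 1) → ℤ, P ≠ 0 ∧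
              (∀ i, |(P i : ℝ)| ≤ X) ∧ |ev P x| < X ^ (-(max (κ : ℝ) τ) - ε)} ≤
          ENNReal.ofReal (θ * (r.den : ℝ) ^ (-(1 + τ)))) := by
    intro κ
    by_cases hκ : 1 ≤ κ
    · obtain ⟨a, b, ha, hb, hb1, h⟩ := real_q κ hκ τ ε hτ hε
      exact ⟨a, b, ha, hb, hb1, fun _ => h⟩
    · exact ⟨1, 1, one_pos, one_pos, le_rfl, fun h => absurd h hκ⟩
  choose E D hE hD hD1 hm using hmain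
  obtain ⟨ε₀, hε₀, hε₀l⟩ := exists_pos_le k E hE
  obtain ⟨δ₀, hδ₀, hδ₀l⟩ := exists_pos_le k D hD
  refine ⟨ε₀, δ₀, hε₀, hδ₀, (hδ₀l 0 (Nat.zero_le k)).trans (hD1 0), ?_⟩
  intro δ hδ hδ'
  have hk0 : (0 : ℝ) < k := by exact_mod_cast hk
  have hq : ∀ κ : ℕ, ∃ q₀ : ℕ, 1 ≤ κ → κ ≤ k → ∀ r : ℚ, 0 ≤ r → r < 1 → q₀ ≤ r.den →
      (∀ κ' ≤ κ, Good κ' δ (E κ) r) →
        volume {x : ℝ | x ∈ Set.Ico (r : ℝ) ((r : ℝ) + (r.den : ℝ) ^ (-(1 + τ))) ∧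
            ∃ X : ℝ, (r.den : ℝ) ^ δ ≤ X ∧ ∃ P : Fin (κ + 1) → ℤ, P ≠ 0 ∧
              (∀ i, |(P i : ℝ)| ≤ X) ∧ |ev P x| < X ^ (-(max (κ : ℝ) τ) - ε)} ≤
          ENNReal.ofReal (1 / (8 * (k : ℝ)) * (r.den : ℝ) ^ (-(1 + τ))) := by
    intro κ
    by_cases hκ : 1 ≤ κ ∧ κ ≤ k
    · obtain ⟨q₀, hq₀⟩ := hm κ hκ.1 δ hδ (hδ'.trans (hδ₀l κ hκ.2)) (1 / (8 * (k : ℝ)))
        (by positivity)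
      exact ⟨q₀, fun _ _ => hq₀⟩
    · exact ⟨0, fun h1 h2 => absurd ⟨h1, h2⟩ hκ⟩
  choose q₀ hq₀ using hq
  refine ⟨(Finset.range (k + 1)).sup q₀, ?_⟩
  intro r hr0 hr1 hrq hgood
  have hsub : BadPt k τ ε δ r ⊆ ⋃ κ ∈ Finset.Icc 1 k,
      {x : ℝ | x ∈ Set.Ico (r : ℝ) ((r : ℝ) + (r.den : ℝ) ^ (-(1 + τ))) ∧
            ∃ X : ℝ, (r.den : ℝ) ^ δ ≤ X ∧ ∃ P : Fin (κ + 1) → ℤ, P ≠ 0 ∧
              (∀ i, |(P i : ℝ)| ≤ X) ∧ |ev P x| < X ^ (-(max (κ : ℝ) τ) - ε)} := by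
    rintro x ⟨hx, κ, h1, h2, hX⟩
    rw [Set.mem_iUnion₂]
    exact ⟨κ, Finset.mem_Icc.2 ⟨h1, h2⟩, hx, hX⟩
  refine (measure_mono hsub).trans ((measure_biUnion_finset_le _ _).trans ?_)
  have hle : ∀ κ ∈ Finset.Icc 1 k,
      volume {x : ℝ | x ∈ Set.Ico (r : ℝ) ((r : ℝ) + (r.den : ℝ) ^ (-(1 + τ))) ∧
            ∃ X : ℝ, (r.den : ℝ) ^ δ ≤ X ∧ ∃ P : Fin (κ + 1) → ℤ, P ≠ 0 ∧
              (∀ i, |(P i : ℝ)| ≤ X) ∧ |ev P x| < X ^ (-(max (κ : ℝ) τ) - ε)} ≤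
        ENNReal.ofReal (1 / (8 * (k : ℝ)) * (r.den : ℝ) ^ (-(1 + τ))) := by
    intro κ hκ
    rw [Finset.mem_Icc] at hκ
    apply hq₀ κ hκ.1 hκ.2 r hr0 hr1
    · exact (Finset.le_sup (Finset.mem_range.2 (Nat.lt_succ_of_le hκ.2))).trans hrq
    · intro κ' hκ'
      exact good_mono (hgood κ' (hκ'.trans hκ.2)) le_rfl hδ.le (hε₀l κ hκ.2)
  refine (Finset.sum_le_sum hle).trans ?_
  rw [Finset.sum_const, Nat.card_Icc, Nat.add_sub_cancel, nsmul_eq_mul,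
    ← ENNReal.ofReal_natCast, ← ENNReal.ofReal_mul (Nat.cast_nonneg _)]
  apply ENNReal.ofReal_le_ofReal
  apply le_of_eq
  field_simp

end Sp637
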