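import Mathlib
import Pool.Agent.Work.MP_637dc3_nt.Sp.Stage
import Pool.Agent.Work.MP_637dc3_nt.Sp.Next

/-!
# Sp/Seq (M-L): the sequence of rationals and the limit

For `i : ℕ` put `k_i = i + 1`, `η_i = 1/(i+1)`, let `e_i, d_i` be `ε₀, δ₀` of `stage k_i τ η_i`, `δ_i = min d_i (1/(τ + i + 3))` (so `δ_{i+1} (τ + k_i + 2) ≤ 1`), `q_i` the `q₀` of `stage` for `δ_i`.
Let `N_i` be a natural number `≥ q_i`, `N_i ≥ i`, `N_i^{δ_i} ≥ i`. `r_0` from `pick 1 δ_0 e_0 0 1 univ N_0`; `r_{i+1}` from `next k_i k_{i+1} τ η_i δ_i δ_{i+1} e_{i+1} r_i N_{i+1}` (hypothesis `hbad` from `stage`). (Build the sequence in the subtype of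
the rationals with `0 ≤ r < 1`, `N_i ≤ r.den`, `∀ κ ≤ k_i, Good κ δ_i e_i r`, e.g. `Nat.rec` with choice on a sigma type or `exists_seq`-style.) The intervals `K_i = [r_i, r_i + r_i.den^(-(1+τ))]` are nested,
compact and not empty: `ξ ∈ ⋂ K_i`. Second part: `|ξ - r_i| ≤ r_i.den^(-(1+τ))`, `r_i.den ≥ N_i ≥ i`. First part: given `κ ≥ 1`, `ε > 0`, let `i₀ ≥ κ`, `η_{i₀} ≤ ε/2`, `H₀ ≥ r_{i₀}.den^{δ_{i₀}}`, `H₀^(ε/2) ≥ 2`, `H₀ ≥ 1`. For `H ≥ H₀` let `i` be the largest index with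
`r_i.den^{δ_i} ≤ H` (the numbers `r_i.den^{δ_i} ≥ i` tend to infinity, `i ≥ i₀`), so `r_{i+1}.den^{δ_{i+1}} > H` and `next` gives `|ev P ξ| ≥ H^(-max κ τ - η_i)/2 ≥ H^(-max κ τ - ε)`.
-/

set_option autoImplicit false

open Matrix Polynomial MeasureTheory

namespace Sp637

theorem w_theorem (τ : ℝ) (hτ : 1 ≤ τ) : ∃ ξ : ℝ, 0 ≤ ξ ∧ ξ ≤ 1 ∧
    (∀ κ : ℕ, 1 ≤ κ → ∀ ε : ℝ, 0 < ε → ∃ H₀ : ℝ, 1 ≤ H₀ ∧ ∀ P : Fin (κ + 1) → ℤ, P ≠ 0 →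
      ∀ H : ℝ, H₀ ≤ H → (∀ i, |(P i : ℝ)| ≤ H) → H ^ (-(max (κ : ℝ) τ) - ε) ≤ |ev P ξ|) ∧
    ∀ N : ℕ, ∃ r : ℚ, N ≤ r.den ∧ 0 ≤ r ∧ r < 1 ∧ |ξ - (r : ℝ)| ≤ (r.den : ℝ) ^ (-(1 + τ)) := by
  -- the constants of the stages
  have hst : ∀ i : ℕ, ∃ e d : ℝ, 0 < e ∧ 0 < d ∧ ∀ δ : ℝ, 0 < δ → δ ≤ d → ∃ q₀ : ℕ,
      ∀ r : ℚ, 0 ≤ r → r < 1 → q₀ ≤ r.den → (∀ κ ≤ i + 1, Good κ δ e r) →
        volume (BadPt (i + 1) τ (1 / ((i : ℝ) + 1)) δ r) ≤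
          ENNReal.ofReal ((r.den : ℝ) ^ (-(1 + τ)) / 8) := by
    intro i
    obtain ⟨e, d, h1, h2, -, h3⟩ := stage (i + 1) (Nat.succ_pos i) τ (1 / ((i : ℝ) + 1)) hτ
      (by positivity)
    exact ⟨e, d, h1, h2, h3⟩
  choose e d he hd hst using hst
  set δ : ℕ → ℝ := fun i => min (d i) (1 / (τ + i + 3)) with hδ
  have hδ0 : ∀ i, 0 < δ i := fun i => lt_min (hd i) (by positivity)
  have hδd : ∀ i, δ i ≤ d i := fun i => min_le_left _ _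
  have hδτ : ∀ i : ℕ, δ (i + 1) * (τ + ((i + 1 : ℕ) : ℝ) + 2) ≤ 1 := by
    intro i
    have h1 : δ (i + 1) ≤ 1 / (τ + ((i + 1 : ℕ) : ℝ) + 3) := min_le_right _ _
    have h2 : (0 : ℝ) < τ + ((i + 1 : ℕ) : ℝ) + 3 := by positivity
    have h3 : (0 : ℝ) ≤ τ + ((i + 1 : ℕ) : ℝ) + 2 := by positivity
    calc δ (i + 1) * (τ + ((i + 1 : ℕ) : ℝ) + 2)
        ≤ 1 / (τ + ((i + 1 : ℕ) : ℝ) + 3) * (τ + ((i + 1 : ℕ) : ℝ) + 2) :=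
          mul_le_mul_of_nonneg_right h1 h3
      _ ≤ 1 := by
          rw [div_mul_eq_mul_div, one_mul, div_le_one h2]
          linarith
  have hq : ∀ i : ℕ, ∃ q₀ : ℕ,
      ∀ r : ℚ, 0 ≤ r → r < 1 → q₀ ≤ r.den → (∀ κ ≤ i + 1, Good κ (δ i) (e i) r) →
        volume (BadPt (i + 1) τ (1 / ((i : ℝ) + 1)) (δ i) r) ≤
          ENNReal.ofReal ((r.den : ℝ) ^ (-(1 + τ)) / 8) := fun i =>
    hst i (δ i) (hδ0 i) (hδd i)
  choose q hq using hq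
  -- the lower bounds for the denominators
  have hN : ∀ i : ℕ, ∃ N : ℕ, q i ≤ N ∧ i ≤ N ∧ ∀ n : ℕ, N ≤ n → (i : ℝ) ≤ (n : ℝ) ^ (δ i) := by
    intro i
    refine ⟨max (q i) (max i ⌈(i : ℝ) ^ (δ i)⁻¹⌉₊), le_max_left _ _,
      (le_max_left _ _).trans (le_max_right _ _), ?_⟩
    intro n hn
    have h1 : ⌈(i : ℝ) ^ (δ i)⁻¹⌉₊ ≤ n := (le_max_right _ _).trans ((le_max_right _ _).trans hn)
    have h2 : (i : ℝ) ^ (δ i)⁻¹ ≤ n := (Nat.le_ceil _).trans (by exact_mod_cast h1)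
    have h3 := Real.rpow_le_rpow (by positivity) h2 (hδ0 i).le
    rwa [Real.rpow_inv_rpow (Nat.cast_nonneg i) (hδ0 i).ne'] at h3
  choose N hN1 hN2 hN3 using hN
  -- the states and the step
  set Q : ℕ → ℚ → Prop := fun i r =>
    0 ≤ r ∧ r < 1 ∧ N i ≤ r.den ∧ ∀ κ ≤ i + 1, Good κ (δ i) (e i) r with hQ
  have hstep : ∀ (i : ℕ) (r : ℚ), Q i r → ∃ r' : ℚ, Q (i + 1) r' ∧
      Set.Icc (r' : ℝ) ((r' : ℝ) + (r'.den : ℝ) ^ (-(1 + τ))) ⊆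
        Set.Icc (r : ℝ) ((r : ℝ) + (r.den : ℝ) ^ (-(1 + τ))) ∧
      ∀ κ : ℕ, 1 ≤ κ → κ ≤ i + 1 → ∀ X : ℝ, (r.den : ℝ) ^ (δ i) ≤ X →
        X ≤ (r'.den : ℝ) ^ (δ (i + 1)) →
        ∀ P : Fin (κ + 1) → ℤ, P ≠ 0 → (∀ i, |(P i : ℝ)| ≤ X) →
          ∀ x ∈ Set.Icc (r' : ℝ) ((r' : ℝ) + (r'.den : ℝ) ^ (-(1 + τ))),
            X ^ (-(max (κ : ℝ) τ) - 1 / ((i : ℝ) + 1)) / 2 ≤ |ev P x| := by
    intro i r ⟨h1, h2, h3, h4⟩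
    have h5 : (1 : ℝ) / ((i : ℝ) + 1) ≤ 1 := by
      rw [div_le_one (by positivity)]
      linarith [Nat.cast_nonneg (α := ℝ) i]
    obtain ⟨r', g1, g2, g3, g4, g5, g6⟩ := next (i + 1) (i + 1 + 1) τ (1 / ((i : ℝ) + 1)) (δ i)
      (δ (i + 1)) (e (i + 1)) (Nat.succ_pos i) hτ (by positivity) h5 (hδ0 i) (hδ0 (i + 1))
      (hδτ i) (he (i + 1)) r h1 h2 (hq i r h1 h2 ((hN1 i).trans h3) h4) (N (i + 1))
    exact ⟨r', ⟨g1, g2, g3, g4⟩, g5, g6⟩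
  obtain ⟨r0, hr0⟩ : ∃ r : ℚ, Q 0 r := by
    obtain ⟨r, x, -, h2, h3, -, h5⟩ := pick (0 + 1) (δ 0) (e 0) (hδ0 0) (he 0) 0 1 le_rfl
      zero_lt_one le_rfl Set.univ (by simp) (N 0)
    refine ⟨r, ?_, ?_, h3, h5⟩
    · exact_mod_cast h2.1.le
    · exact_mod_cast h2.2
  choose! f hf using hstep
  set ρ : ℕ → ℚ := fun i => Nat.rec r0 (fun i r => f i r) i with hρ
  have hρs : ∀ i, ρ (i + 1) = f i (ρ i) := fun i => rfl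
  have hρQ : ∀ i, Q i (ρ i) := by
    intro i
    induction i with
    | zero => exact hr0
    | succ i ih =>
      rw [hρs]
      exact (hf i _ ih).1
  -- the limit
  set K : ℕ → Set ℝ := fun i =>
    Set.Icc (ρ i : ℝ) ((ρ i : ℝ) + ((ρ i).den : ℝ) ^ (-(1 + τ))) with hK
  have hKne : ∀ i, (K i).Nonempty := fun i => ⟨(ρ i : ℝ), le_rfl, by
    have : (0 : ℝ) ≤ ((ρ i).den : ℝ) ^ (-(1 + τ)) := by positivity
    linarith⟩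
  obtain ⟨ξ, hξ⟩ := IsCompact.nonempty_iInter_of_sequence_nonempty_isCompact_isClosed K
    (fun i => by
      have h1 := (hf i _ (hρQ i)).2.1
      rw [← hρs] at h1
      exact h1) hKne isCompact_Icc (fun i => isClosed_Icc)
  rw [Set.mem_iInter] at hξ
  have hden : ∀ i : ℕ, (i : ℝ) ≤ ((ρ i).den : ℝ) ^ (δ i) := fun i => hN3 i _ (hρQ i).2.2.1
  refine ⟨ξ, ?_, ?_, ?_, ?_⟩
  · refine le_trans ?_ (hξ 0).1
    exact_mod_cast (hρQ 0).1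
  · refine (hξ 0).2.trans ?_
    obtain ⟨h1, h2, -, -⟩ := hρQ 0
    have hd1 : (1 : ℝ) ≤ ((ρ 0).den : ℝ) := by exact_mod_cast (ρ 0).pos
    have h3 : ((ρ 0).den : ℝ) ^ (-(1 + τ)) ≤ ((ρ 0).den : ℝ)⁻¹ := by
      rw [← Real.rpow_neg_one]
      exact Real.rpow_le_rpow_of_exponent_le hd1 (by linarith)
    have h4 : (ρ 0).num + 1 ≤ ((ρ 0).den : ℤ) := by
      have h5 : (ρ 0).num < ((ρ 0).den : ℤ) := Rat.num_lt_denom_iff.2 h2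
      omega
    have h6 : (ρ 0 : ℝ) = (((ρ 0).num : ℤ) : ℝ) * ((ρ 0).den : ℝ)⁻¹ := by
      rw [← div_eq_mul_inv]
      exact_mod_cast (Rat.cast_def (K := ℝ) (ρ 0))
    have h7 : (((ρ 0).num : ℤ) : ℝ) + 1 ≤ ((ρ 0).den : ℝ) := by exact_mod_cast h4
    have h8 : (0 : ℝ) < ((ρ 0).den : ℝ) := by linarith
    calc (ρ 0 : ℝ) + ((ρ 0).den : ℝ) ^ (-(1 + τ))
        ≤ (((ρ 0).num : ℤ) : ℝ) * ((ρ 0).den : ℝ)⁻¹ + ((ρ 0).den : ℝ)⁻¹ := by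
          rw [h6]
          linarith
      _ = ((((ρ 0).num : ℤ) : ℝ) + 1) * ((ρ 0).den : ℝ)⁻¹ := by ring
      _ ≤ ((ρ 0).den : ℝ) * ((ρ 0).den : ℝ)⁻¹ :=
          mul_le_mul_of_nonneg_right h7 (inv_nonneg.2 h8.le)
      _ = 1 := mul_inv_cancel₀ h8.ne'
  · intro κ hκ ε hε
    obtain ⟨i₀, hi₀⟩ := exists_nat_gt (max (κ : ℝ) (2 / ε))
    have hi1 : κ ≤ i₀ := by
      have := (le_max_left (κ : ℝ) (2 / ε)).trans hi₀.le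
      exact_mod_cast this
    have hi2 : 2 / ε < i₀ := (le_max_right (κ : ℝ) (2 / ε)).trans_lt hi₀
    refine ⟨max (((ρ i₀).den : ℝ) ^ (δ i₀)) (max 1 (2 ^ (ε / 2)⁻¹)),
      (le_max_left _ _).trans (le_max_right _ _), ?_⟩
    intro P hP H hH hPH
    have hH1 : ((ρ i₀).den : ℝ) ^ (δ i₀) ≤ H := (le_max_left _ _).trans hH
    have hH2 : 1 ≤ H := ((le_max_left _ _).trans (le_max_right _ _)).trans hH
    have hH3 : (2 : ℝ) ^ (ε / 2)⁻¹ ≤ H := ((le_max_right _ _).trans (le_max_right _ _)).trans hH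
    have hH0 : 0 < H := lt_of_lt_of_le one_pos hH2
    have hH4 : 2 ≤ H ^ (ε / 2) := by
      have h1 := Real.rpow_le_rpow (by positivity) hH3 (by positivity : (0 : ℝ) ≤ ε / 2)
      rwa [Real.rpow_inv_rpow (by norm_num) (by positivity : ε / 2 ≠ 0)] at h1
    classical
    have hle : ∀ i : ℕ, ((ρ i).den : ℝ) ^ (δ i) ≤ H → i ≤ ⌊H⌋₊ := fun i h1 =>
      Nat.le_floor ((hden i).trans h1)
    set i := Nat.findGreatest (fun i => ((ρ i).den : ℝ) ^ (δ i) ≤ H) ⌊H⌋₊ with hi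
    have hp : ((ρ i).den : ℝ) ^ (δ i) ≤ H :=
      Nat.findGreatest_spec (P := fun i => ((ρ i).den : ℝ) ^ (δ i) ≤ H) (hle i₀ hH1) hH1
    have hi0 : i₀ ≤ i := Nat.le_findGreatest (hle i₀ hH1) hH1
    have hn : H < ((ρ (i + 1)).den : ℝ) ^ (δ (i + 1)) := by
      by_contra h1
      push Not at h1
      have h2 : i + 1 ≤ i := Nat.le_findGreatest (hle (i + 1) h1) h1
      omega
    have h3 := (hf i _ (hρQ i)).2.2 κ hκ (by omega) H hp (by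
      rw [← hρs]
      exact hn.le) P hP hPH ξ (by
      rw [← hρs]
      exact hξ (i + 1))
    refine le_trans ?_ h3
    have hη : (1 : ℝ) / ((i : ℝ) + 1) ≤ ε / 2 := by
      have h4 : (i₀ : ℝ) ≤ i := by exact_mod_cast hi0
      rw [div_le_iff₀ (by positivity)]
      have h5 : 2 / ε < (i : ℝ) + 1 := by linarith
      rw [div_lt_iff₀ hε] at h5
      nlinarith
    have h6 : H ^ (-(max (κ : ℝ) τ) - ε) =
        H ^ (-(max (κ : ℝ) τ) - 1 / ((i : ℝ) + 1)) * (H ^ (ε - 1 / ((i : ℝ) + 1)))⁻¹ := by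
      rw [← Real.rpow_neg hH0.le, ← Real.rpow_add hH0]
      congr 1
      ring
    rw [h6, div_eq_mul_inv]
    refine mul_le_mul_of_nonneg_left ?_ (by positivity)
    refine inv_anti₀ (by norm_num) (hH4.trans ?_)
    refine Real.rpow_le_rpow_of_exponent_le hH2 ?_
    calc ε / 2 = ε - ε / 2 := by ring
      _ ≤ ε - 1 / ((i : ℝ) + 1) := sub_le_sub_left hη ε
  · intro n
    obtain ⟨h1, h2, h3, -⟩ := hρQ n
    refine ⟨ρ n, (hN2 n).trans h3, h1, h2, ?_⟩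
    have h4 := hξ n
    rw [abs_of_nonneg (by linarith [h4.1])]
    linarith [h4.2]

end Sp637
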