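import Mathlib
import Pool.Agent.Work.MP_637dc3_nt.Lam
import Pool.Agent.Work.MP_637dc3_nt.Sp.Defs

/-!
# Sp/Transc (S-M): transcendence

If `ξ` is algebraic over `ℚ` (equivalently over `ℤ`) there is `0 ≠ P ∈ ℤ[X]` with `P ξ = 0`; let `κ = max 1 (natDegree P)`, coefficient vector `c ≠ 0`, `ev c ξ = 0`. With `H = max H₀ (max |c_i|)`, `H ≥ H₀ ≥ 1 > 0`, the hypothesis gives `0 < H^(-w) ≤ |ev c ξ| = 0`.
-/

set_option autoImplicit false

open Matrix Polynomial MeasureTheory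
open Pool.Agent.Work.MP_637dc3_nt.Lam (lam solutions)

namespace Sp637

theorem transc_of (ξ : ℝ) (h : ∀ κ : ℕ, 1 ≤ κ → ∃ w H₀ : ℝ, 1 ≤ H₀ ∧ ∀ P : Fin (κ + 1) → ℤ, P ≠ 0 →
    ∀ H : ℝ, H₀ ≤ H → (∀ i, |(P i : ℝ)| ≤ H) → H ^ (-w) ≤ |ev P ξ|) : Transcendental ℚ ξ := by
  intro halg
  have halg' : IsAlgebraic ℤ ξ := (IsFractionRing.isAlgebraic_iff ℤ ℚ ℝ).2 halg
  obtain ⟨P, hP0, hP⟩ := halg'
  obtain ⟨w, H₀, hH₀, hw⟩ := h (max 1 P.natDegree) (le_max_left _ _)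
  have hc0 : (fun i : Fin (max 1 P.natDegree + 1) => P.coeff (i : ℕ)) ≠ 0 := by
    intro h0
    have h1 := congrFun h0 ⟨P.natDegree, Nat.lt_succ_iff.2 (le_max_right _ _)⟩
    exact hP0 (Polynomial.leadingCoeff_eq_zero.1 h1)
  have hev : ev (fun i : Fin (max 1 P.natDegree + 1) => P.coeff (i : ℕ)) ξ = 0 := by
    unfold ev
    rw [← hP, Polynomial.aeval_eq_sum_range' (n := max 1 P.natDegree + 1)
      (Nat.lt_succ_iff.2 (le_max_right _ _)), Finset.sum_range]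
    refine Finset.sum_congr rfl fun i _ => ?_
    rw [zsmul_eq_mul]
  have h1 := hw _ hc0 (max H₀ (∑ i : Fin (max 1 P.natDegree + 1), |((P.coeff (i : ℕ) : ℤ) : ℝ)|))
    (le_max_left _ _) (fun i => ?_)
  · rw [hev, abs_zero] at h1
    have h2 : (0 : ℝ) < max H₀ (∑ i : Fin (max 1 P.natDegree + 1), |((P.coeff (i : ℕ) : ℤ) : ℝ)|) :=
      lt_of_lt_of_le (by linarith) (le_max_left _ _)
    have h3 := Real.rpow_pos_of_pos h2 (-w)
    linarith
  · refine le_trans ?_ (le_max_right _ _)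
    exact Finset.single_le_sum (f := fun i : Fin (max 1 P.natDegree + 1) => |((P.coeff (i : ℕ) : ℤ) : ℝ)|)
      (fun _ _ => abs_nonneg _) (Finset.mem_univ i)

end Sp637
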