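import Mathlib
import Pool.Agent.Work.MP_637dc3_nt.Lam
import Pool.Agent.Work.MP_637dc3_nt.Sp.Defs

/-!
# Sp/Pigeon (M): an integer relation with small coefficients

`B = ⌈(2 (m+1) x)^(1/m)⌉`, so `B^m ≥ 2 (m+1) x`. The `(B+1)^(m+1)` vectors `P ∈ {0..B}^(m+1)` have `∑ P_i y_i ∈ [-(m+1) B x, (m+1) B x]`, at most `2 (m+1) B x + 1 ≤ B^(m+1) + 1 < (B+1)^(m+1)` values; the difference of two
vectors with the same value is `P`. `|P_i| ≤ B ≤ (2(m+1)x)^(1/m) + 1 ≤ C x^(1/m)`, `C = (2(m+1))^(1/m) + 1`.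
-/

set_option autoImplicit false

open Matrix Polynomial MeasureTheory
open Pool.Agent.Work.MP_637dc3_nt.Lam (lam solutions)

namespace Sp637

private theorem pg_pow (B m x : ℕ) (hB : 1 ≤ B) (h : 2 * (m + 1) * x ≤ B ^ m) :
    2 * ((m + 1) * B * x) + 1 < (B + 1) ^ (m + 1) := by
  have h1 : B ^ m + 1 ≤ (B + 1) ^ m ∨ m = 0 := by
    rcases Nat.eq_zero_or_pos m with h0 | h0
    · exact Or.inr h0
    · left
      exact Nat.succ_le_of_lt (Nat.pow_lt_pow_left (Nat.lt_succ_self B) (by omega))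
  rcases h1 with h1 | h1
  · have h2 : (B ^ m + 1) * (B + 1) ≤ (B + 1) ^ (m + 1) := by
      rw [pow_succ]
      exact Nat.mul_le_mul_right _ h1
    have h3 : 2 * ((m + 1) * B * x) ≤ B ^ m * B := by
      calc 2 * ((m + 1) * B * x) = 2 * (m + 1) * x * B := by ring
        _ ≤ B ^ m * B := Nat.mul_le_mul_right _ h
    have h4 : (B ^ m + 1) * (B + 1) = B ^ m * B + B ^ m + B + 1 := by ring
    omega
  · subst h1
    simp only [pow_zero, zero_add, mul_one, one_mul, pow_one] at h ⊢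
    have hx : x = 0 := by omega
    subst hx
    omega

theorem pigeon (m : ℕ) (hm : 1 ≤ m) : ∃ C : ℝ, 1 ≤ C ∧ ∀ x : ℕ, 1 ≤ x → ∀ y : Fin (m + 1) → ℤ,
    (∀ i, |y i| ≤ (x : ℤ)) → ∃ P : Fin (m + 1) → ℤ, P ≠ 0 ∧
      (∀ i, |(P i : ℝ)| ≤ C * (x : ℝ) ^ ((1 : ℝ) / m)) ∧ ∑ i, P i * y i = 0 := by
  have hm0 : (0 : ℝ) < m := by exact_mod_cast hm
  refine ⟨(2 * ((m : ℝ) + 1)) ^ ((1 : ℝ) / m) + 1, ?_, ?_⟩
  · have h1 : (0 : ℝ) ≤ (2 * ((m : ℝ) + 1)) ^ ((1 : ℝ) / m) := Real.rpow_nonneg (by positivity) _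
    linarith
  intro x hx y hy
  have hx1 : (1 : ℝ) ≤ x := by exact_mod_cast hx
  have ha : (0 : ℝ) ≤ (2 * ((m : ℝ) + 1) * x) ^ ((1 : ℝ) / m) := Real.rpow_nonneg (by positivity) _
  obtain ⟨B, hBle, hBlt⟩ : ∃ B : ℕ, (2 * ((m : ℝ) + 1) * x) ^ ((1 : ℝ) / m) ≤ B ∧
      (B : ℝ) < (2 * ((m : ℝ) + 1) * x) ^ ((1 : ℝ) / m) + 1 :=
    ⟨⌈(2 * ((m : ℝ) + 1) * x) ^ ((1 : ℝ) / m)⌉₊, Nat.le_ceil _, Nat.ceil_lt_add_one ha⟩
  have hBpow : 2 * (m + 1) * x ≤ B ^ m := by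
    have h1 : (2 * ((m : ℝ) + 1) * x) ≤ (B : ℝ) ^ m := by
      have h2 := pow_le_pow_left₀ ha hBle m
      rw [← Real.rpow_natCast ((2 * ((m : ℝ) + 1) * x) ^ ((1 : ℝ) / m)) m,
        ← Real.rpow_mul (by positivity), one_div, inv_mul_cancel₀ (ne_of_gt hm0), Real.rpow_one] at h2
      exact h2
    exact_mod_cast h1
  have hB1 : 1 ≤ B := by
    rcases Nat.eq_zero_or_pos B with h0 | h0
    · subst h0
      rw [zero_pow (by omega)] at hBpow
      have : 0 < 2 * (m + 1) * x := by positivity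
      omega
    · exact h0
  have hcard := pg_pow B m x hB1 hBpow
  have hmaps : ∀ P ∈ (Finset.univ : Finset (Fin (m + 1) → Fin (B + 1))),
      (∑ i, ((P i : ℕ) : ℤ) * y i) ∈
        Finset.Icc (-(((m + 1) * B * x : ℕ) : ℤ)) (((m + 1) * B * x : ℕ) : ℤ) := by
    intro P _
    have h1 : |∑ i, ((P i : ℕ) : ℤ) * y i| ≤ (((m + 1) * B * x : ℕ) : ℤ) := by
      calc |∑ i, ((P i : ℕ) : ℤ) * y i| ≤ ∑ i, |((P i : ℕ) : ℤ) * y i| :=
            Finset.abs_sum_le_sum_abs _ _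
        _ ≤ ∑ _i : Fin (m + 1), (B : ℤ) * x := by
            apply Finset.sum_le_sum
            intro i _
            rw [abs_mul, abs_of_nonneg (Int.natCast_nonneg _)]
            have h2 : ((P i : ℕ) : ℤ) ≤ B := by
              have := (P i).2
              omega
            exact mul_le_mul h2 (hy i) (abs_nonneg _) (Int.natCast_nonneg _)
        _ = (((m + 1) * B * x : ℕ) : ℤ) := by
            rw [Finset.sum_const, Finset.card_univ, Fintype.card_fin, nsmul_eq_mul]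
            push_cast
            ring
    exact Finset.mem_Icc.2 (abs_le.1 h1)
  have hlt : (Finset.Icc (-(((m + 1) * B * x : ℕ) : ℤ)) (((m + 1) * B * x : ℕ) : ℤ)).card <
      (Finset.univ : Finset (Fin (m + 1) → Fin (B + 1))).card := by
    rw [Int.card_Icc, Finset.card_univ, Fintype.card_fun, Fintype.card_fin, Fintype.card_fin]
    have h1 : (((((m + 1) * B * x : ℕ) : ℤ) + 1 - -(((m + 1) * B * x : ℕ) : ℤ))).toNat
        = 2 * ((m + 1) * B * x) + 1 := by omega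
    rw [h1]
    exact hcard
  obtain ⟨P, _, P', _, hne, heq⟩ := Finset.exists_ne_map_eq_of_card_lt_of_maps_to hlt hmaps
  refine ⟨fun i => ((P i : ℕ) : ℤ) - ((P' i : ℕ) : ℤ), ?_, ?_, ?_⟩
  · intro h0
    apply hne
    funext i
    have h1 := congrFun h0 i
    simp only [Pi.zero_apply] at h1
    apply Fin.ext
    omega
  · intro i
    have h1 : |((P i : ℕ) : ℤ) - ((P' i : ℕ) : ℤ)| ≤ B := by
      have h2 := (P i).2
      have h3 := (P' i).2
      rw [abs_le]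
      constructor <;> omega
    have h2 : |((((P i : ℕ) : ℤ) - ((P' i : ℕ) : ℤ) : ℤ) : ℝ)| ≤ (B : ℝ) := by
      rw [← Int.cast_abs]
      exact_mod_cast h1
    refine h2.trans ?_
    have h3 : (2 * ((m : ℝ) + 1) * x) ^ ((1 : ℝ) / m)
        = (2 * ((m : ℝ) + 1)) ^ ((1 : ℝ) / m) * (x : ℝ) ^ ((1 : ℝ) / m) :=
      Real.mul_rpow (by positivity) (by positivity)
    have h4 : (1 : ℝ) ≤ (x : ℝ) ^ ((1 : ℝ) / m) := Real.one_le_rpow hx1 (by positivity)
    rw [h3] at hBlt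
    rw [add_mul]
    linarith
  · simp only [sub_mul, Finset.sum_sub_distrib]
    exact sub_eq_zero.2 heq

end Sp637
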