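import Mathlib
import Pool.Agent.Work.MP_637dc3_nt.Lam
import Pool.Agent.Work.MP_637dc3_nt.Sp.LamCrit
import Pool.Agent.Work.MP_637dc3_nt.Sp.Pigeon

/-!
# Sp/UpperLam (M): upper bound for `λ_m` (Khintchine transference)

`lam_le_of` with `t > (w - m + 1)/m` (so `t > 0`). Suppose `x` is large and `|x ξ^j - y_j| ≤ x^(-t)` for `1 ≤ j ≤ m`; put `y_0 = x`. `x^(-t) < 1` and `0 ≤ ξ^j ≤ 1` give `0 ≤ y_j ≤ x`. `P` from `pigeon`: `∑ P_i y_i = 0`, so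
`x · ev P ξ = ∑_{i ≥ 1} P_i (x ξ^i - y_i)`, `|ev P ξ| ≤ m C x^(1/m - t - 1)`. With `H = C x^(1/m) ≥ H₀` (`x` large) the hypothesis gives `H^(-w-ε) = C^(-w-ε) x^(-(w+ε)/m) ≤ m C x^(1/m-t-1)`. Choose `ε > 0` with
`t + 1 - 1/m - (w+ε)/m > 0` (possible as `t > (w-m+1)/m`): false for `x` large.
-/

set_option autoImplicit false

open Matrix Polynomial MeasureTheory
open Pool.Agent.Work.MP_637dc3_nt.Lam (lam solutions)

namespace Sp637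

theorem upper_lam (m : ℕ) (hm : 1 ≤ m) (w : ℝ) (hw : (m : ℝ) ≤ w) (ξ : ℝ) (h0 : 0 ≤ ξ) (h1 : ξ ≤ 1)
    (h : ∀ ε : ℝ, 0 < ε → ∃ H₀ : ℝ, 1 ≤ H₀ ∧ ∀ P : Fin (m + 1) → ℤ, P ≠ 0 →
      ∀ H : ℝ, H₀ ≤ H → (∀ i, |(P i : ℝ)| ≤ H) → H ^ (-w - ε) ≤ |ev P ξ|) :
    lam m ξ ≤ (((w - m + 1) / m : ℝ) : EReal) := by
  have hmR : (1 : ℝ) ≤ m := by exact_mod_cast hm
  have hm0 : (0 : ℝ) < m := by linarith
  apply lam_le_of
  intro t ht
  have ht1 : w - m + 1 < t * m := by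
    rwa [div_lt_iff₀ hm0] at ht
  have ht0 : 0 < t := by
    by_contra hcon
    rw [not_lt] at hcon
    have : t * m ≤ 0 := mul_nonpos_of_nonpos_of_nonneg hcon hm0.le
    linarith
  obtain ⟨ε, hε⟩ : ∃ ε : ℝ, ε = (m * t + m - 1 - w) / 2 := ⟨_, rfl⟩
  have hε0 : 0 < ε := by
    rw [hε]
    nlinarith
  obtain ⟨H₀, hH₀, hP⟩ := h ε hε0
  obtain ⟨C, hC, hpig⟩ := pigeon m hm
  have hC0 : 0 < C := by linarith
  have ev1 : ∀ᶠ x : ℕ in Filter.atTop, H₀ ≤ (x : ℝ) ^ ((1 : ℝ) / m) :=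
    ((tendsto_rpow_atTop (by positivity : (0 : ℝ) < 1 / m)).comp
      tendsto_natCast_atTop_atTop).eventually_ge_atTop H₀
  have ev2 : ∀ᶠ x : ℕ in Filter.atTop, (m : ℝ) * C * (x : ℝ) ^ (-(ε / m)) < C ^ (-w - ε) := by
    have h2 : Filter.Tendsto (fun x : ℕ => (m : ℝ) * C * (x : ℝ) ^ (-(ε / m))) Filter.atTop
        (nhds ((m : ℝ) * C * 0)) :=
      ((tendsto_rpow_neg_atTop (by positivity : 0 < ε / m)).comp
        tendsto_natCast_atTop_atTop).const_mul _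
    rw [mul_zero] at h2
    exact h2.eventually_lt_const (Real.rpow_pos_of_pos hC0 _)
  obtain ⟨N, hN⟩ := Filter.eventually_atTop.1 ((ev1.and ev2).and (Filter.eventually_ge_atTop 2))
  refine ⟨N, fun x hx hall => ?_⟩
  obtain ⟨⟨hx1, hx2⟩, hx3⟩ := hN x hx
  choose y hy using hall
  have hxR : (2 : ℝ) ≤ x := by exact_mod_cast hx3
  have hx0 : (0 : ℝ) < x := by linarith
  have hxt : (x : ℝ) ^ (-t) < 1 := Real.rpow_lt_one_of_one_lt_of_neg (by linarith) (by linarith)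
  have hyb : ∀ i : Fin (m + 1), |(Fin.cons (x : ℤ) y : Fin (m + 1) → ℤ) i| ≤ (x : ℤ) := by
    intro i
    refine Fin.cases ?_ (fun j => ?_) i
    · rw [Fin.cons_zero]
      exact (abs_of_nonneg (Int.natCast_nonneg x)).le
    · rw [Fin.cons_succ]
      have h3 := abs_le.1 (hy j)
      have h4 : 0 ≤ ξ ^ ((j : ℕ) + 1) := pow_nonneg h0 _
      have h5 : ξ ^ ((j : ℕ) + 1) ≤ 1 := pow_le_one₀ h0 h1
      have h6 : 0 ≤ (x : ℝ) * ξ ^ ((j : ℕ) + 1) := by positivity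
      have h7 : (x : ℝ) * ξ ^ ((j : ℕ) + 1) ≤ x := by nlinarith
      have h8 : (-1 : ℝ) < (y j : ℝ) := by linarith [h3.2]
      have h9 : (y j : ℝ) < (x : ℝ) + 1 := by linarith [h3.1]
      have h10 : (-1 : ℤ) < y j := by exact_mod_cast h8
      have h11 : y j < (x : ℤ) + 1 := by exact_mod_cast h9
      rw [abs_le]
      constructor <;> omega
  obtain ⟨P, hP0, hPb, hPs⟩ := hpig x (by omega) _ hyb
  have hH : H₀ ≤ C * (x : ℝ) ^ ((1 : ℝ) / m) := by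
    have h3 : 0 ≤ (x : ℝ) ^ ((1 : ℝ) / m) := by positivity
    nlinarith
  have hlow := hP P hP0 _ hH hPb
  -- the upper bound
  have hsum : (x : ℝ) * ev P ξ = ∑ j : Fin m, (P j.succ : ℝ) *
      ((x : ℝ) * ξ ^ ((j : ℕ) + 1) - (y j : ℝ)) := by
    have h3 : ((∑ i, P i * (Fin.cons (x : ℤ) y : Fin (m + 1) → ℤ) i : ℤ) : ℝ) = 0 := by
      rw [hPs]
      norm_num
    rw [Fin.sum_univ_succ] at h3
    push_cast at h3
    simp only [Fin.cons_zero, Fin.cons_succ, Int.cast_natCast] at h3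
    unfold ev
    rw [Fin.sum_univ_succ, mul_add, Finset.mul_sum]
    simp only [Fin.val_zero, pow_zero, mul_one, Fin.val_succ, mul_sub, Finset.sum_sub_distrib]
    have h4 : ∀ j : Fin m, (x : ℝ) * ((P j.succ : ℝ) * ξ ^ ((j : ℕ) + 1)) =
        (P j.succ : ℝ) * ((x : ℝ) * ξ ^ ((j : ℕ) + 1)) := fun j => by ring
    simp only [h4]
    linarith
  have hup : (x : ℝ) * |ev P ξ| ≤ m * (C * (x : ℝ) ^ ((1 : ℝ) / m) * (x : ℝ) ^ (-t)) := by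
    have h3 : (x : ℝ) * |ev P ξ| = |(x : ℝ) * ev P ξ| := by
      rw [abs_mul, abs_of_pos hx0]
    rw [h3, hsum]
    refine (Finset.abs_sum_le_sum_abs _ _).trans ?_
    have h4 : ∀ j ∈ (Finset.univ : Finset (Fin m)), |(P j.succ : ℝ) *
        ((x : ℝ) * ξ ^ ((j : ℕ) + 1) - (y j : ℝ))| ≤
        C * (x : ℝ) ^ ((1 : ℝ) / m) * (x : ℝ) ^ (-t) := by
      intro j _
      rw [abs_mul]
      exact mul_le_mul (hPb j.succ) (hy j) (abs_nonneg _) (by positivity)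
    refine (Finset.sum_le_card_nsmul _ _ _ h4).trans ?_
    rw [Finset.card_univ, Fintype.card_fin, nsmul_eq_mul]
  have hX : 0 < (x : ℝ) ^ ((w + ε) / m) := Real.rpow_pos_of_pos hx0 _
  have e1 : (C * (x : ℝ) ^ ((1 : ℝ) / m)) ^ (-w - ε) * (x : ℝ) ^ ((w + ε) / m) = C ^ (-w - ε) := by
    rw [Real.mul_rpow hC0.le (by positivity), ← Real.rpow_mul hx0.le, mul_assoc,
      ← Real.rpow_add hx0]
    have h3 : 1 / (m : ℝ) * (-w - ε) + (w + ε) / m = 0 := by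
      field_simp
      ring
    rw [h3, Real.rpow_zero, mul_one]
  have e2 : (m : ℝ) * (C * (x : ℝ) ^ ((1 : ℝ) / m) * (x : ℝ) ^ (-t)) * (x : ℝ) ^ ((w + ε) / m) =
      x * (m * C * (x : ℝ) ^ (-(ε / m))) := by
    have h3 : (x : ℝ) ^ ((1 : ℝ) / m) * (x : ℝ) ^ (-t) * (x : ℝ) ^ ((w + ε) / m) =
        x * (x : ℝ) ^ (-(ε / m)) := by
      rw [← Real.rpow_add hx0, ← Real.rpow_add hx0]
      nth_rewrite 2 [← Real.rpow_one (x : ℝ)]
      rw [← Real.rpow_add hx0]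
      congr 1
      rw [hε]
      field_simp
      ring
    calc (m : ℝ) * (C * (x : ℝ) ^ ((1 : ℝ) / m) * (x : ℝ) ^ (-t)) * (x : ℝ) ^ ((w + ε) / m)
        = m * C * ((x : ℝ) ^ ((1 : ℝ) / m) * (x : ℝ) ^ (-t) * (x : ℝ) ^ ((w + ε) / m)) := by ring
      _ = x * (m * C * (x : ℝ) ^ (-(ε / m))) := by rw [h3]; ring
  have hfin : (x : ℝ) * C ^ (-w - ε) ≤ x * (m * C * (x : ℝ) ^ (-(ε / m))) := by
    calc (x : ℝ) * C ^ (-w - ε)
        = x * ((C * (x : ℝ) ^ ((1 : ℝ) / m)) ^ (-w - ε)) * (x : ℝ) ^ ((w + ε) / m) := by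
          rw [← e1]; ring
      _ ≤ x * |ev P ξ| * (x : ℝ) ^ ((w + ε) / m) := by gcongr
      _ ≤ m * (C * (x : ℝ) ^ ((1 : ℝ) / m) * (x : ℝ) ^ (-t)) * (x : ℝ) ^ ((w + ε) / m) := by gcongr
      _ = x * (m * C * (x : ℝ) ^ (-(ε / m))) := e2
  have hfin2 := le_of_mul_le_mul_left hfin hx0
  linarith

end Sp637
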