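import Mathlib
import Pool.Agent.Work.MP_637dc3_nt.Lam
import Pool.Agent.Work.MP_637dc3_nt.Sp.Seq
import Pool.Agent.Work.MP_637dc3_nt.Sp.Transc
import Pool.Agent.Work.MP_637dc3_nt.Sp.UpperLam
import Pool.Agent.Work.MP_637dc3_nt.Sp.LowerLam
import Pool.Agent.Work.MP_637dc3_nt.Sp.DirLam

/-!
# Sp/Reg (S-M): regular numbers

`ξ` from `w_theorem τ`. Transcendental by `transc_of` (`w = max κ τ + 1`, `ε = 1`). `lam m ξ ≤ (w - m + 1)/m` with `w = max m τ` (`upper_lam`), which is `max (1/m) ((τ-m+1)/m)`; the lower bounds are `dir_lam` and `lower_lam` (`Transcendental.irrational`).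
-/

set_option autoImplicit false

open Matrix Polynomial MeasureTheory
open Pool.Agent.Work.MP_637dc3_nt.Lam (lam solutions)

namespace Sp637

theorem exists_regular (τ : ℝ) (hτ : 1 ≤ τ) : ∃ ξ : ℝ, Transcendental ℚ ξ ∧
    ∀ m : ℕ, 1 ≤ m → lam m ξ = ((max ((1 : ℝ) / m) ((τ - m + 1) / m) : ℝ) : EReal) := by
  obtain ⟨ξ, h0, h1, hw, hr⟩ := w_theorem τ hτ
  have htr : Transcendental ℚ ξ := by
    refine transc_of ξ fun κ hκ => ?_
    obtain ⟨H₀, hH₀, h⟩ := hw κ hκ 1 one_pos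
    refine ⟨max (κ : ℝ) τ + 1, H₀, hH₀, fun P hP H hH hc => ?_⟩
    have h2 := h P hP H hH hc
    have h3 : -(max (κ : ℝ) τ) - 1 = -(max (κ : ℝ) τ + 1) := by ring
    rwa [h3] at h2
  refine ⟨ξ, htr, fun m hm => ?_⟩
  have hm0 : (0 : ℝ) < m := by exact_mod_cast hm
  apply le_antisymm
  · have h2 := upper_lam m hm (max (m : ℝ) τ) (le_max_left _ _) ξ h0 h1 (hw m hm)
    refine h2.trans (EReal.coe_le_coe_iff.2 ?_)
    rcases max_cases (m : ℝ) τ with ⟨h3, -⟩ | ⟨h3, -⟩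
    · rw [h3]
      refine le_trans (le_of_eq ?_) (le_max_left _ _)
      congr 1
      ring
    · rw [h3]
      exact le_max_right _ _
  · rcases max_cases ((1 : ℝ) / m) ((τ - m + 1) / m) with ⟨h3, -⟩ | ⟨h3, -⟩
    · rw [h3]
      exact dir_lam m hm ξ htr.irrational
    · rw [h3]
      exact lower_lam m hm τ hτ ξ htr.irrational h0 h1 hr

end Sp637
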