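import Mathlib
import Pool.Agent.Work.MP_637dc3_nt.Lam
import Pool.Agent.Work.MP_637dc3_nt.Sp.Reg
import Pool.Agent.Work.MP_637dc3_nt.Sp.LiouLam
import Pool.Agent.Work.MP_637dc3_nt.Sp.DirLam

/-!
# Sp/Fin (M): the final theorem

`L = ⊤`: `liou_lam`; all `lam m ξ = ⊤` and the right side is `⊤` (`(n * ⊤ - m + n)/m = ⊤`); for `ζ` with `lam n ζ = ⊤` the transfer inequality `Lam.result` gives `lam m ζ = ⊤` for `m ≥ n`. `L` real (`L ≠ ⊥` as `1/n ≤ L`): `τ = n L + n - 1 ≥ n ≥ 1`, `ξ` from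
`exists_regular τ`: `lam n ξ = max (1/n) L = L`, `(τ - m + 1)/m = (n L - m + n)/m`. Minimality: for transcendental `ζ` with `lam n ζ = L`: `dir_lam` and `Pool.Agent.Work.MP_637dc3_nt.Lam.result` (first part).
-/

set_option autoImplicit false

open Matrix Polynomial MeasureTheory
open Pool.Agent.Work.MP_637dc3_nt.Lam (lam solutions)

namespace Sp637

private theorem ereal_max (a b : ℝ) : ((max a b : ℝ) : EReal) = max (a : EReal) (b : EReal) :=
  EReal.coe_strictMono.monotone.map_max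

theorem fin (n : ℕ) (hn : 1 ≤ n) (L : EReal) (hL : (((1 : ℝ) / n : ℝ) : EReal) ≤ L) :
    ∃ ξ : ℝ, Transcendental ℚ ξ ∧ lam n ξ = L ∧
      (∀ m : ℕ, 1 ≤ m → lam m ξ =
        max (((1 : ℝ) / m : ℝ) : EReal) (((n : EReal) * L - (m : EReal) + (n : EReal)) / (m : EReal))) ∧
      ∀ m : ℕ, n ≤ m → ∀ ζ : ℝ, Transcendental ℚ ζ → lam n ζ = L → lam m ξ ≤ lam m ζ := by
  have hn0 : (0 : ℝ) < n := by exact_mod_cast hn
  induction L with
  | bot => exact absurd hL (not_le.2 (EReal.bot_lt_coe _))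
  | top =>
    obtain ⟨ξ, hξ, hm⟩ := liou_lam
    have htop : ∀ m : ℕ, 1 ≤ m →
        (((n : EReal) * ⊤ - (m : EReal) + (n : EReal)) / (m : EReal)) = ⊤ := by
      intro m hm1
      have hm0 : (0 : ℝ) < m := by exact_mod_cast hm1
      rw [show (n : EReal) = ((n : ℝ) : EReal) from rfl, show (m : EReal) = ((m : ℝ) : EReal) from rfl,
        EReal.coe_mul_top_of_pos hn0, EReal.top_sub_coe, EReal.top_add_coe]
      exact EReal.top_div_of_pos_ne_top (EReal.coe_pos.2 hm0) (EReal.coe_ne_top _)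
    refine ⟨ξ, hξ, hm n hn, fun m hm1 => ?_, fun m hnm ζ hζ hζn => ?_⟩
    · rw [hm m hm1, htop m hm1, max_eq_right le_top]
    · have h1 := (Pool.Agent.Work.MP_637dc3_nt.Lam.result m n hn hnm ζ hζ).1
      rw [hζn, htop m (hn.trans hnm)] at h1
      exact le_top.trans h1
  | coe l =>
    have hl : (1 : ℝ) / n ≤ l := EReal.coe_le_coe_iff.1 hL
    have hnl : 1 ≤ (n : ℝ) * l := by
      rw [div_le_iff₀ hn0] at hl
      linarith
    have hn1 : (1 : ℝ) ≤ n := by exact_mod_cast hn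
    obtain ⟨ξ, hξ, hm⟩ := exists_regular ((n : ℝ) * l + n - 1) (by linarith)
    have hform : ∀ m : ℕ, 1 ≤ m → lam m ξ =
        max (((1 : ℝ) / m : ℝ) : EReal) (((n : EReal) * (l : EReal) - (m : EReal) + (n : EReal)) / (m : EReal)) := by
      intro m hm1
      rw [hm m hm1, show (n : EReal) = ((n : ℝ) : EReal) from rfl,
        show (m : EReal) = ((m : ℝ) : EReal) from rfl, ← EReal.coe_mul, ← EReal.coe_sub, ← EReal.coe_add,
        ← EReal.coe_div, ereal_max]
      congr 2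
      ring
    refine ⟨ξ, hξ, ?_, hform, fun m hnm ζ hζ hζn => ?_⟩
    · rw [hm n hn]
      congr 1
      have h2 : ((n : ℝ) * l + n - 1 - n + 1) / n = l := by
        field_simp
        ring
      rw [h2, max_eq_right hl]
    · have hm1 : 1 ≤ m := hn.trans hnm
      rw [hform m hm1]
      apply max_le
      · exact dir_lam m hm1 ζ hζ.irrational
      · have h1 := (Pool.Agent.Work.MP_637dc3_nt.Lam.result m n hn hnm ζ hζ).1
        rw [hζn] at h1
        exact h1

end Sp637
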